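import Pool.Agent.NFG.HatB

/-!
# NFG/AvA: bending morphisms (coherence and zigzag)

`unb_bnd`: `unb c' (bnd e' x) = x ≫ (Y ◁ [(ρ_ A).inv ≫ (A ◁ c') ≫ α⁻¹ ≫ (e' ▷ A) ≫ (λ_ A).hom]) = x`.  `bnd_unb` in the same
way with the other zigzag.  `unb_bnb` and `av_term` are coherence: unfold everything; use `whisker_exchange`,
`associator_naturality_*`, `pentagon`, `triangle`, or `monoidal` after moving `p`, `j`, `T` by naturality.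
`av_term`: first `(p ≫ j) ▷ _ = (p ▷ _) ≫ (j ▷ _)` and
`(j ▷ (A ⊗ W)) ≫ α.hom ≫ (A ◁ (B ◁ T)) = (Y ◁ T) ≫ (j ▷ (A ⊗ W')) ≫ α.hom`, then
`(A ◁ ins c' W) ≫ α⁻¹ ≫ (p ▷ (A ⊗ W)) = hat (unb c' p) W` and
`(j ▷ (A ⊗ W')) ≫ α.hom ≫ (A ◁ del e W') = hab (bnb e j) W'`.
-/

set_option autoImplicit false

noncomputable section

open CategoryTheory MonoidalCategory

namespace Pool.Agent.NFG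

universe v u w

variable {K : Type w} [Field K] {C : Type u} [Category.{v} C] [Preadditive C] [Linear K C] [MonoidalCategory C]
  [MonoidalPreadditive C] [MonoidalLinear K C] {ι : Type} [Fintype ι] [DecidableEq ι]

/-- bending: `Hom (A, Y ⊗ A) ⟶ Hom (A ⊗ B, Y)` -/
def bnd {A B Y : C} (e' : A ⊗ B ⟶ 𝟙_ C) (x : A ⟶ Y ⊗ A) : A ⊗ B ⟶ Y :=
  (x ▷ B) ≫ (α_ Y A B).hom ≫ (Y ◁ e') ≫ (ρ_ Y).hom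

/-- the inverse of `bnd` -/
def unb {A B Y : C} (c' : 𝟙_ C ⟶ B ⊗ A) (p : A ⊗ B ⟶ Y) : A ⟶ Y ⊗ A :=
  (ρ_ A).inv ≫ (A ◁ c') ≫ (α_ A B A).inv ≫ (p ▷ A)

/-- bending of `Y ⟶ A ⊗ B` to `Y ⊗ A ⟶ A` -/
def bnb {A B Y : C} (e : B ⊗ A ⟶ 𝟙_ C) (j : Y ⟶ A ⊗ B) : Y ⊗ A ⟶ A :=
  (j ▷ A) ≫ (α_ A B A).hom ≫ (A ◁ e) ≫ (ρ_ A).hom

theorem unb_bnd {A B Y : C} (c' : 𝟙_ C ⟶ B ⊗ A) (e' : A ⊗ B ⟶ 𝟙_ C)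
    (zig' : A ◁ c' ≫ (α_ _ _ _).inv ≫ e' ▷ A = (ρ_ _).hom ≫ (λ_ _).inv) (x : A ⟶ Y ⊗ A) : unb c' (bnd e' x) = x := by
  have h1 : unb c' (bnd e' x) = (ρ_ A).inv ≫ (A ◁ c') ≫ (x ▷ (B ⊗ A)) ≫ (α_ Y A (B ⊗ A)).hom ≫ (Y ◁ (α_ A B A).inv) ≫
      (Y ◁ (e' ▷ A)) ≫ (Y ◁ (λ_ A).hom) := by
    simp only [unb, bnd]
    monoidal
  rw [h1, whisker_exchange_assoc, ← rightUnitor_inv_naturality_assoc]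
  have h2 : (ρ_ (Y ⊗ A)).inv ≫ (Y ⊗ A) ◁ c' ≫ (α_ Y A (B ⊗ A)).hom ≫ Y ◁ (α_ A B A).inv ≫ Y ◁ e' ▷ A ≫ Y ◁ (λ_ A).hom
      = (Y ◁ (ρ_ A).inv) ≫ (Y ◁ (A ◁ c' ≫ (α_ _ _ _).inv ≫ e' ▷ A)) ≫ Y ◁ (λ_ A).hom := by
    monoidal
  rw [h2, zig', ← MonoidalCategory.whiskerLeft_comp, ← MonoidalCategory.whiskerLeft_comp]
  simp

theorem bnd_unb {A B Y : C} (c' : 𝟙_ C ⟶ B ⊗ A) (e' : A ⊗ B ⟶ 𝟙_ C)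
    (zag' : c' ▷ B ≫ (α_ _ _ _).hom ≫ B ◁ e' = (λ_ _).hom ≫ (ρ_ _).inv) (p : A ⊗ B ⟶ Y) : bnd e' (unb c' p) = p := by
  have h1 : bnd e' (unb c' p) = (A ◁ (λ_ B).inv) ≫ (A ◁ (c' ▷ B)) ≫ (A ◁ (α_ B A B).hom) ≫ (α_ A B (A ⊗ B)).inv ≫
      (p ▷ (A ⊗ B)) ≫ (Y ◁ e') ≫ (ρ_ Y).hom := by
    simp only [unb, bnd]
    monoidal
  rw [h1, ← whisker_exchange_assoc, rightUnitor_naturality]
  have h2 : A ◁ (λ_ B).inv ≫ A ◁ c' ▷ B ≫ A ◁ (α_ B A B).hom ≫ (α_ A B (A ⊗ B)).inv ≫ (A ⊗ B) ◁ e' ≫ (ρ_ (A ⊗ B)).hom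
      = (A ◁ (λ_ B).inv) ≫ (A ◁ (c' ▷ B ≫ (α_ _ _ _).hom ≫ B ◁ e')) ≫ A ◁ (ρ_ B).hom := by
    monoidal
  have h3 : ∀ {Z : C} (q : A ⊗ B ⟶ Z), A ◁ (λ_ B).inv ≫ A ◁ c' ▷ B ≫ A ◁ (α_ B A B).hom ≫ (α_ A B (A ⊗ B)).inv ≫ (A ⊗ B) ◁ e' ≫ (ρ_ (A ⊗ B)).hom ≫ q = q := by
    intro Z q
    have := congrArg (· ≫ q) h2
    simp only [Category.assoc] at this
    rw [this, zag', ← Category.assoc, ← Category.assoc, ← MonoidalCategory.whiskerLeft_comp, ← MonoidalCategory.whiskerLeft_comp]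
    simp
  exact h3 p

theorem unb_bnb {A B Y : C} (c' : 𝟙_ C ⟶ B ⊗ A) (e : B ⊗ A ⟶ 𝟙_ C) (p : A ⊗ B ⟶ Y) (j : Y ⟶ A ⊗ B) :
    unb c' p ≫ bnb e j = rpt c' e (p ≫ j) := by
  simp only [unb, bnb, rpt]
  monoidal

/-- step 3, one term -/
theorem av_term {A B Y W W' : C} (c' : 𝟙_ C ⟶ B ⊗ A) (e : B ⊗ A ⟶ 𝟙_ C) (p : A ⊗ B ⟶ Y) (j : Y ⟶ A ⊗ B)
    (T : A ⊗ W ⟶ A ⊗ W') :
    (A ◁ ins c' W) ≫ (α_ A B (A ⊗ W)).inv ≫ ((p ≫ j) ▷ (A ⊗ W)) ≫ (α_ A B (A ⊗ W)).hom ≫ (A ◁ (B ◁ T)) ≫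
      (A ◁ del e W') = hat (unb c' p) W ≫ (Y ◁ T) ≫ hab (bnb e j) W' := by
  have h1 : hat (unb c' p) W = (A ◁ ins c' W) ≫ (α_ A B (A ⊗ W)).inv ≫ (p ▷ (A ⊗ W)) := by
    simp only [unb, ins, hat]
    monoidal
  have h2 : hab (bnb e j) W' = (j ▷ (A ⊗ W')) ≫ (α_ A B (A ⊗ W')).hom ≫ (A ◁ del e W') := by
    simp only [bnb, del, hab]
    monoidal
  rw [h1, h2, comp_whiskerRight, Category.assoc, Category.assoc, Category.assoc]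
  rw [← associator_naturality_right_assoc, whisker_exchange_assoc]

end Pool.Agent.NFG
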