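import Pool.Agent.NFG.Uf

/-!
# NFG/Bas: the trivial fusion subcategory

`base`: `L i v := lf v` if `i = o` (transport along `i = o`, or define `L i v m = {f | ..}` with `dite`), anything for `i ≠ o`.
`lat`: `lf_lat`.  `unitL`: `lf_self`.  `unitR`: `L o o o = O lam o = O rho o` (`lam_eq_rho`).
`assoc` for `y = y' = o`: `L o o = rf o` (`eq_rf`, `lam_eq_rho`), `N1_rf`: `N1 L o o (fun k => L k v) = N2 L o (lf v)` and
`L o v = lf v`.
`base_uniq`: `g = 1`; for `m = v` both are `O lam v` (`unitL`), `scl 1`; for `m ≠ v` the space is zero: `eq_lf` for both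
systems: `L o v = lf v = L' o v`.
-/

set_option autoImplicit false

noncomputable section

open CategoryTheory MonoidalCategory

namespace Pool.Agent.NFG

universe v u w

variable {K : Type w} [Field K] {C : Type u} [Category.{v} C] [Preadditive C] [Linear K C] [MonoidalCategory C]
  [MonoidalPreadditive C] [MonoidalLinear K C] {ι : Type} [Fintype ι] [DecidableEq ι] {O : Subring K}

/-- the system with the lattices `lf v` for the unit object -/
private def baseL (F : Fus K C ι) (O : Subring K) : F.Sys O := fun i v m =>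
  if h : i = F.o then
    (h.symm ▸ (F.lf O v m : Submodule O (F.S m ⟶ F.S F.o ⊗ F.S v)) : Submodule O (F.S m ⟶ F.S i ⊗ F.S v))
  else ⊥

private theorem baseL_o (F : Fus K C ι) (O : Subring K) (v : ι) : baseL F O F.o v = F.lf O v := by
  funext m
  unfold baseL
  rw [dif_pos rfl]

theorem base (F : Fus K C ι) (O : Subring K) : ∃ L : F.Sys O, LInt F O {F.o} L := by
  have hrf : baseL F O F.o F.o = F.rf O F.o := by
    apply eq_rf
    rw [baseL_o, lf_self, lam_eq_rho]
  refine ⟨baseL F O, ⟨?_, ?_, ?_, ?_⟩⟩
  · rintro y hy v m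
    obtain rfl : y = F.o := hy
    rw [baseL_o]
    exact lf_lat F v m
  · intro v
    rw [baseL_o]
    exact lf_self F v
  · rintro y hy
    obtain rfl : y = F.o := hy
    rw [baseL_o, lf_self, lam_eq_rho]
  · rintro y hy y' hy' v
    obtain rfl : y = F.o := hy
    obtain rfl : y' = F.o := hy'
    rw [baseL_o, N1_rf hrf]

theorem base_uniq (F : Fus K C ι) (O : Subring K) : Uniq F O {F.o} := by
  intro L L' hL hL'
  refine ⟨fun _ => 1, fun _ => one_ne_zero, ?_⟩
  rintro y hy v m
  obtain rfl : y = F.o := hy
  rw [eq_lf F (hL.unitL v), eq_lf F (hL'.unitL v), mul_one, inv_one, mul_one, scl_one]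

end Pool.Agent.NFG
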