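import Pool.Agent.NFG.AvL

/-!
# NFG/CRa: complete reducibility, first part

`hst v : Stab F E L A (fun a => L a v)` are the reference systems, `n` is a stable system on `A ⊗ W`, `a ∈ A`;
`ql L a (n a) v = {l : S v ⟶ W | f ≫ (S a ◁ l) ∈ n a m for all f ∈ L a v m}`.

By `exists_occ` there is `m₀` with `Occ a v m₀`, and by `exists_pair` `f₁ ∈ L a v m₀`, `g₁ ∈ dl (L a v m₀)`, `f₁ ≫ g₁ = 𝟙`.
For `ν : S m₀ ⟶ S a ⊗ W` put `R ν = (d v / d m₀) • lpt (cv' a) (ev a) (g₁ ≫ ν) : S v ⟶ W`.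

`retract_mem`: `ν ∈ n a m₀ → R ν ∈ ql v`: `av_mem` with `n := fun a => L a v` and `n' := n`; `d v / d m₀` is in `O`.
`retract_eq`: `R (f₁ ≫ (S a ◁ l)) = l`: `g₁ ≫ f₁ ≫ (S a ◁ l)`, `lpt_comp_right`, `lpt_rank` (`c = 1`).
`ql_lat`: the `O`-submodule `ql v` is the image of `n a m₀` under `R` (`l = R (f₁ ≫ (S a ◁ l))`), so it is finitely generated, and
it spans `Hom (S v, W)` over `K`: every `l` is `R (ν)` with `ν = f₁ ≫ (S a ◁ l)` in the `K`-span of `n a m₀`.  `lat_of_fg`.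

`ql_dl`: let `π ∈ dl (ql v)`.  `g := (S a ◁ π) ≫ g₁ : S a ⊗ W ⟶ S m₀` is in `dl (n a m₀)`: for `ν ∈ n a m₀` write
`ν ≫ g = c • 𝟙`; `R ν ≫ π = c • 𝟙 (S v)`: `lpt (g₁ ≫ ν) ≫ π = lpt (g₁ ≫ ν ≫ (S a ◁ π))` (`lpt_comp_right`) and by
`lpt_scalar`, `tr_comm` (`tr (g₁ ≫ (ν ≫ (S a ◁ π))) = tr ((ν ≫ (S a ◁ π)) ≫ g₁) = c * d m₀`) it is `(c * d m₀ / d v) • 𝟙`.
`R ν ∈ ql v`, so `c ∈ O`.
Moreover `lpt (g ≫ f₁) = lpt ((S a ◁ π) ≫ g₁ ≫ f₁) = π ≫ lpt (g₁ ≫ f₁) = (d m₀ / d v) • π` (`lpt_comp_left`, `lpt_rank`).  So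
for `ν ∈ n a m`: `ν ≫ (S a ◁ π) = (d v / d m₀) • (ν ≫ (S a ◁ lpt (g ≫ f₁))) ∈ L a v m` by `av_mem` (from `n` to
`fun a => L a v`).
-/

set_option autoImplicit false

noncomputable section

open CategoryTheory MonoidalCategory

namespace Pool.Agent.NFG

universe v u w

variable {K : Type w} [Field K] {C : Type u} [Category.{v} C] [Preadditive C] [Linear K C] [MonoidalCategory C]
  [MonoidalPreadditive C] [MonoidalLinear K C] {ι : Type} [Fintype ι] [DecidableEq ι] {O : Subring K}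

/-- the setup: `m₀`, `f₁`, `g₁` -/
private theorem cra_pair {F : Fus K C ι} {sp : Sph F} {E A : Set ι} {L : F.Sys O} (h : Ctx sp O E L)
    (hst : ∀ v, Stab F E L A (fun a => L a v)) {a : ι} (ha : a ∈ A) (v : ι) :
    ∃ m₀ : ι, ∃ f₁ ∈ L a v m₀, ∃ g₁ ∈ F.dl (L a v m₀), f₁ ≫ g₁ = 𝟙 (F.S m₀) := by
  obtain ⟨m₀, hocc⟩ := exists_occ sp (fun i => (h.du i).1) a v
  obtain ⟨f₁, hf₁, g₁, hg₁, hfg⟩ := exists_pair F ((hst v).lat a ha m₀) hocc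
  exact ⟨m₀, f₁, hf₁, g₁, hg₁, hfg⟩

private theorem cra_div {F : Fus K C ι} {sp : Sph F} {E : Set ι} {L : F.Sys O} (h : Ctx sp O E L) (v m : ι) :
    sp.d v / sp.d m ∈ O := by
  rw [div_eq_mul_inv]
  exact O.mul_mem (h.du v).2.1 (h.du m).2.2

private theorem cra_mem {F : Fus K C ι} {sp : Sph F} {E A : Set ι} {L : F.Sys O} (h : Ctx sp O E L) (hA : IsOrb sp E A)
    (hst : ∀ v, Stab F E L A (fun a => L a v)) {W : C} {n : ∀ a : ι, F.Fam O (F.S a ⊗ W)} (hn : Stab F E L A n)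
    {a : ι} (ha : a ∈ A) {v m₀ : ι} {g₁ : F.S a ⊗ F.S v ⟶ F.S m₀} (hg₁ : g₁ ∈ F.dl (L a v m₀))
    {x : F.S m₀ ⟶ F.S a ⊗ W} (hx : x ∈ n a m₀) :
    (sp.d v / sp.d m₀) • lpt (sp.cv' a) (sp.ev a) (g₁ ≫ x) ∈ F.ql L a (n a) v := by
  refine smul_mem_of (cra_div h v m₀) ?_
  intro m f hf
  exact av_mem h hA (hst v) hn ha hg₁ hx hf

private theorem cra_eq {F : Fus K C ι} {sp : Sph F} {E : Set ι} {L : F.Sys O} (h : Ctx sp O E L) {a v m₀ : ι} {W : C}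
    {f₁ : F.S m₀ ⟶ F.S a ⊗ F.S v} {g₁ : F.S a ⊗ F.S v ⟶ F.S m₀} (hfg : f₁ ≫ g₁ = 𝟙 (F.S m₀)) (l : F.S v ⟶ W) :
    (sp.d v / sp.d m₀) • lpt (sp.cv' a) (sp.ev a) (g₁ ≫ (f₁ ≫ (F.S a ◁ l))) = l := by
  have h1 : f₁ ≫ g₁ = (1 : K) • 𝟙 (F.S m₀) := by rw [hfg, one_smul]
  rw [← Category.assoc, lpt_comp_right, lpt_rank sp (fun i => (h.du i).1) g₁ f₁ h1, Linear.smul_comp,
    Category.id_comp, smul_smul]
  have h2 : sp.d v / sp.d m₀ * (1 * sp.d m₀ / sp.d v) = 1 := by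
    have h3 := (h.du v).1
    have h4 := (h.du m₀).1
    field_simp
  rw [h2, one_smul]

theorem ql_lat {F : Fus K C ι} {sp : Sph F} {E A : Set ι} {L : F.Sys O} (h : Ctx sp O E L) (hA : IsOrb sp E A)
    (hst : ∀ v, Stab F E L A (fun a => L a v)) {W : C} {n : ∀ a : ι, F.Fam O (F.S a ⊗ W)} (hn : Stab F E L A n)
    {a : ι} (ha : a ∈ A) (v : ι) : IsLat O (F.ql L a (n a) v) := by
  obtain ⟨m₀, f₁, hf₁, g₁, hg₁, hfg⟩ := cra_pair h hst ha v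
  obtain ⟨R, hR⟩ : ∃ R : (F.S m₀ ⟶ F.S a ⊗ W) →ₗ[K] (F.S v ⟶ W),
      ∀ x, R x = (sp.d v / sp.d m₀) • lpt (sp.cv' a) (sp.ev a) (g₁ ≫ x) :=
    ⟨{ toFun := fun x => (sp.d v / sp.d m₀) • lpt (sp.cv' a) (sp.ev a) (g₁ ≫ x)
       map_add' := fun x y => by
         rw [Preadditive.comp_add, lpt_add, smul_add]
       map_smul' := fun c x => by
         rw [Linear.comp_smul, lpt_smul, smul_comm, RingHom.id_apply] }, fun _ => rfl⟩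
  have hR1 : ∀ x ∈ n a m₀, R x ∈ F.ql L a (n a) v := by
    intro x hx
    rw [hR]
    exact cra_mem h hA hst hn ha hg₁ hx
  have hR2 : ∀ l : F.S v ⟶ W, R (f₁ ≫ (F.S a ◁ l)) = l := by
    intro l
    rw [hR]
    exact cra_eq h hfg l
  have hmap : F.ql L a (n a) v = (n a m₀).map (R.restrictScalars O) := by
    apply le_antisymm
    · intro l hl
      exact ⟨f₁ ≫ (F.S a ◁ l), hl m₀ f₁ hf₁, hR2 l⟩
    · rintro _ ⟨x, hx, rfl⟩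
      exact hR1 x hx
  refine lat_of_fg h.val _ ?_ ?_
  · rw [hmap]
    exact (hn.lat a ha m₀).fg.map _
  · rw [eq_top_iff]
    intro l _
    have h1 : f₁ ≫ (F.S a ◁ l) ∈ Submodule.span K ((n a m₀ : Submodule O _) : Set (F.S m₀ ⟶ F.S a ⊗ W)) := by
      rw [(hn.lat a ha m₀).span]
      trivial
    have h2 : R (f₁ ≫ (F.S a ◁ l)) ∈ Submodule.map R
        (Submodule.span K ((n a m₀ : Submodule O _) : Set (F.S m₀ ⟶ F.S a ⊗ W))) := Submodule.mem_map_of_mem h1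
    rw [hR2, Submodule.map_span] at h2
    refine Submodule.span_mono ?_ h2
    rintro _ ⟨x, hx, rfl⟩
    exact hR1 x hx

theorem ql_dl {F : Fus K C ι} {sp : Sph F} {E A : Set ι} {L : F.Sys O} (h : Ctx sp O E L) (hA : IsOrb sp E A)
    (hst : ∀ v, Stab F E L A (fun a => L a v)) {W : C} {n : ∀ a : ι, F.Fam O (F.S a ⊗ W)} (hn : Stab F E L A n)
    {a : ι} (ha : a ∈ A) {v : ι} {p : W ⟶ F.S v} (hp : p ∈ F.dl (F.ql L a (n a) v)) {m : ι} {f : F.S m ⟶ F.S a ⊗ W}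
    (hf : f ∈ n a m) : f ≫ (F.S a ◁ p) ∈ L a v m := by
  obtain ⟨m₀, f₁, hf₁, g₁, hg₁, hfg⟩ := cra_pair h hst ha v
  have hv0 := (h.du v).1
  have hm0 := (h.du m₀).1
  have hg : (F.S a ◁ p) ≫ g₁ ∈ F.dl (n a m₀) := by
    intro x hx
    obtain ⟨c, hc⟩ := F.schur m₀ (x ≫ (F.S a ◁ p) ≫ g₁)
    have h1 := cra_mem h hA hst hn ha hg₁ hx
    obtain ⟨c', hc', h2⟩ := hp _ h1
    have h3 : (x ≫ (F.S a ◁ p)) ≫ g₁ = c • 𝟙 (F.S m₀) := by rw [Category.assoc, hc]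
    rw [Linear.smul_comp, ← lpt_comp_right, Category.assoc, lpt_rank sp (fun i => (h.du i).1) g₁ _ h3,
      smul_smul] at h2
    have h4 : sp.d v / sp.d m₀ * (c * sp.d m₀ / sp.d v) = c := by
      field_simp
    rw [h4] at h2
    rw [smul_one_inj F h2] at hc
    exact ⟨c', hc', hc⟩
  have h1 := av_mem h hA hn (hst v) ha hg hf₁ hf
  have h2 : f₁ ≫ g₁ = (1 : K) • 𝟙 (F.S m₀) := by rw [hfg, one_smul]
  rw [Category.assoc, lpt_comp_left, lpt_rank sp (fun i => (h.du i).1) g₁ f₁ h2, Linear.comp_smul,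
    Category.comp_id] at h1
  have h3 : f ≫ (F.S a ◁ p) = (sp.d v / sp.d m₀) • (f ≫ (F.S a ◁ ((1 * sp.d m₀ / sp.d v) • p))) := by
    rw [comp_whisker_smul, smul_smul]
    have h4 : sp.d v / sp.d m₀ * (1 * sp.d m₀ / sp.d v) = 1 := by
      field_simp
    rw [h4, one_smul]
  rw [h3]
  exact smul_mem_of (cra_div h v m₀) h1

end Pool.Agent.NFG
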