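import Pool.Agent.NFG.CRa

/-!
# NFG/CRb: complete reducibility

`cr`: `funext m`; `N2 L a (ql ..) ≤ n a` by `N2_le` and the definition of `ql`; conversely `latdec` for the family
`ql L a (n a)` on `W`: `𝟙 W = sum g ≫ b`, `f = sum (f ≫ (S a ◁ g)) ≫ (S a ◁ b)`, `f ≫ (S a ◁ g) ∈ L a v m` by `ql_dl`
(or use `mem_N2_of` with `ql_lat`, `ql_dl`).

`faith`: let `l ∈ M v`.  Choose `m₀`, `f₁ ∈ L a v m₀`, `g₁` in the dual, `f₁ ≫ g₁ = 𝟙` (`exists_occ`, `exists_pair`).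
`f₁ ≫ (S a ◁ l) ∈ N2 L a M m₀ = N2 L a M' m₀`.  For `π ∈ dl (M' v)`: by `N2_dl` `f₁ ≫ (S a ◁ l) ≫ (S a ◁ π) ∈ L a v m₀`; and
`l ≫ π = c • 𝟙`, so this is `c • f₁`, compose with `g₁`: `c ∈ O`.  By `mem_of_dl` `l ∈ M' v`.  Symmetric.

`ql_unique`: from `cr` and `faith`.

`ql_indep`: show `ql L a₀ (n a₀) v ≤ ql L a (n a) v` for `a₀, a ∈ A`.  Let `l` be in the left side, `f ∈ L a v m`.  With
`y, x, b` of `gen_pair`: `gen` for the system `fun a => L a v` gives `h := f ≫ hat x (S v) ∈ N2 L y (L a₀ v) m` and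
`f = h ≫ hab b (S v)`.  `f ≫ (S a ◁ l) = h ≫ (S y ◁ (S a₀ ◁ l)) ≫ hab b W` (`hab_natural`), and
`h ≫ (S y ◁ (S a₀ ◁ l)) ∈ N2 L y (n a₀) m` (`N2_comp`), so `stab_N2` gives the claim.

`uni`: `W = S v`.  `Q := ql L a (n a)` (`a ∈ A`, independent of `a`).  `Q v ≤ Hom (S v, S v)` is a lattice of rank one:
`Q v = O • (t • 𝟙)` (`lat_rank_one`, `F.schur`, `F.one_ne`); `Q m' ` for `m' ≠ v` lives in the zero space.  By `cr`
`n a m = N2 L a Q m`, spanned by `z ≫ (S a ◁ (c • t • 𝟙)) = (c * t) • z`, `z ∈ L a v m`, `c ∈ O`: this is `scl t (L a v m)`.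
-/

set_option autoImplicit false

noncomputable section

open CategoryTheory MonoidalCategory

namespace Pool.Agent.NFG

universe v u w

variable {K : Type w} [Field K] {C : Type u} [Category.{v} C] [Preadditive C] [Linear K C] [MonoidalCategory C]
  [MonoidalPreadditive C] [MonoidalLinear K C] {ι : Type} [Fintype ι] [DecidableEq ι] {O : Subring K}

theorem cr {F : Fus K C ι} {sp : Sph F} {E A : Set ι} {L : F.Sys O} (h : Ctx sp O E L) (hA : IsOrb sp E A)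
    (hst : ∀ v, Stab F E L A (fun a => L a v)) {W : C} {n : ∀ a : ι, F.Fam O (F.S a ⊗ W)} (hn : Stab F E L A n)
    {a : ι} (ha : a ∈ A) : n a = F.N2 L a (F.ql L a (n a)) := by
  funext m
  apply le_antisymm
  · intro f hf
    exact mem_N2_of (fun v => ql_lat h hA hst hn ha v) (fun v g hg => ql_dl h hA hst hn ha hg hf)
  · exact N2_le (fun v z l hz hl => hl m z hz)

theorem faith {F : Fus K C ι} (sp : Sph F) (hd : ∀ i, sp.d i ≠ 0) {L : F.Sys O} {a : ι}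
    (hL : ∀ v m, IsLat O (L a v m)) {W : C} {M M' : F.Fam O W} (hM : ∀ v, IsLat O (M v)) (hM' : ∀ v, IsLat O (M' v))
    (he : F.N2 L a M = F.N2 L a M') : M = M' := by
  have key : ∀ (M M' : F.Fam O W), (∀ v, IsLat O (M v)) → (∀ v, IsLat O (M' v)) → F.N2 L a M = F.N2 L a M' →
      ∀ v, M v ≤ M' v := by
    intro M M' hM hM' he v l hl
    obtain ⟨m₀, hocc⟩ := exists_occ sp hd a v
    obtain ⟨f₁, hf₁, g₁, hg₁, h1⟩ := exists_pair F (hL v m₀) hocc
    refine mem_of_dl F (hM' v) fun p hp => ?_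
    have h2 : f₁ ≫ (F.S a ◁ l) ∈ F.N2 L a M' m₀ := by
      rw [← he]
      exact mem_N2 hf₁ hl
    have h3 := N2_dl h2 hp
    obtain ⟨c, hc⟩ := F.schur v (l ≫ p)
    have h4 : (f₁ ≫ (F.S a ◁ l)) ≫ (F.S a ◁ p) = c • f₁ := by
      rw [Category.assoc, ← MonoidalCategory.whiskerLeft_comp, hc, MonoidalLinear.whiskerLeft_smul,
        MonoidalCategory.whiskerLeft_id, Linear.comp_smul, Category.comp_id]
    rw [h4] at h3
    obtain ⟨c', hc', h5⟩ := hg₁ _ h3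
    rw [Linear.smul_comp, h1] at h5
    have h6 : c = c' := smul_one_inj F h5
    exact ⟨c, h6 ▸ hc', hc⟩
  funext v
  exact le_antisymm (key M M' hM hM' he v) (key M' M hM' hM he.symm v)

theorem ql_unique {F : Fus K C ι} {sp : Sph F} {E A : Set ι} {L : F.Sys O} (h : Ctx sp O E L) (hA : IsOrb sp E A)
    (hst : ∀ v, Stab F E L A (fun a => L a v)) {W : C} {n : ∀ a : ι, F.Fam O (F.S a ⊗ W)} (hn : Stab F E L A n)
    {a : ι} (ha : a ∈ A) {M : F.Fam O W} (hM : ∀ v, IsLat O (M v)) (he : n a = F.N2 L a M) :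
    F.ql L a (n a) = M := by
  exact faith sp (fun i => (h.du i).1) (fun v m => (hst v).lat a ha m) (fun v => ql_lat h hA hst hn ha v) hM
    ((cr h hA hst hn ha).symm.trans he)

theorem ql_indep {F : Fus K C ι} {sp : Sph F} {E A : Set ι} {L : F.Sys O} (h : Ctx sp O E L) (hA : IsOrb sp E A)
    (hst : ∀ v, Stab F E L A (fun a => L a v)) {W : C} {n : ∀ a : ι, F.Fam O (F.S a ⊗ W)} (hn : Stab F E L A n)
    {a₀ a : ι} (ha₀ : a₀ ∈ A) (ha : a ∈ A) : F.ql L a₀ (n a₀) = F.ql L a (n a) := by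
  have key : ∀ a₀ ∈ A, ∀ a ∈ A, ∀ v, F.ql L a₀ (n a₀) v ≤ F.ql L a (n a) v := by
    intro a₀ ha₀ a ha v l hl m f hf
    obtain ⟨y, hy, x, hx, b, hb, hxb⟩ := gen_pair h hA ha₀ ha
    obtain ⟨h1, h2⟩ := gen h hA (hst v) ha₀ ha hy hx hxb hf
    have h3 : f ≫ (F.S a ◁ l) = ((f ≫ hat x (F.S v)) ≫ (F.S y ◁ (F.S a₀ ◁ l))) ≫ hab b W := by
      rw [Category.assoc (f ≫ hat x (F.S v)), hab_natural, ← Category.assoc, h2]
    rw [h3]
    exact stab_N2 hn hy ha₀ ha hb (N2_comp (n' := n a₀) hl h1)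
  funext v
  exact le_antisymm (key a₀ ha₀ a ha v) (key a ha a₀ ha₀ v)

theorem uni {F : Fus K C ι} {sp : Sph F} {E A : Set ι} {L : F.Sys O} (h : Ctx sp O E L) (hA : IsOrb sp E A)
    (hst : ∀ v, Stab F E L A (fun a => L a v)) {v : ι} {n : ∀ a : ι, F.Fam O (F.S a ⊗ F.S v)}
    (hn : Stab F E L A n) : ∃ t : K, t ≠ 0 ∧ ∀ a ∈ A, ∀ m, n a m = scl t (L a v m) := by
  obtain ⟨a₀, ha₀⟩ := hA.ne
  obtain ⟨t, ht, hQ⟩ := lat_rank_one (ql_lat h hA hst hn ha₀ v) (F.one_ne v) (fun x => F.schur v x)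
  refine ⟨t, ht, fun a ha m => ?_⟩
  rw [cr h hA hst hn ha, ← ql_indep h hA hst hn ha₀ ha]
  apply le_antisymm
  · refine N2_le fun m' z l hz hl => ?_
    by_cases hm : m' = v
    · subst hm
      rw [hQ, Submodule.mem_span_singleton] at hl
      obtain ⟨o, rfl⟩ := hl
      have h1 : z ≫ (F.S a ◁ (o • t • 𝟙 (F.S m'))) = t • (o • z) := by
        have h2 : (o • t • 𝟙 (F.S m') : F.S m' ⟶ F.S m') = (o : K) • t • 𝟙 (F.S m') := rfl
        have h3 : (o • z : F.S m ⟶ F.S a ⊗ F.S m') = (o : K) • z := rfl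
        rw [h2, h3, smul_smul, comp_whisker_smul, MonoidalCategory.whiskerLeft_id, Category.comp_id, smul_smul,
          mul_comm]
      rw [h1]
      exact smul_mem_scl t ((L a m' m).smul_mem o hz)
    · have h1 : l = 0 := F.hom_zero m' v hm l
      rw [h1, MonoidalPreadditive.whiskerLeft_zero, Limits.comp_zero]
      exact Submodule.zero_mem _
  · rintro _ ⟨z, hz, rfl⟩
    have h1 : t • z = z ≫ (F.S a ◁ (t • 𝟙 (F.S v))) := by
      rw [comp_whisker_smul, MonoidalCategory.whiskerLeft_id, Category.comp_id]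
    rw [h1]
    refine mem_N2 hz ?_
    rw [hQ]
    exact Submodule.mem_span_singleton_self _

end Pool.Agent.NFG
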