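import Mathlib

/-!
# NFG: good primes for nilpotent fusion categories (definitions)

`K` is a field, `O` a subring of `K` which is a valuation ring of `K` (`Val O`).  `C` is a `K`-linear monoidal
category; `Fus K C ι` says that `C` is semisimple with simple objects `S i`, `i : ι` finite, and split simple unit
object; `Sph F` is a spherical structure: two-sided duals of the simple objects and a trace which is compatible with
the left and the right partial traces.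

Objects are mostly written as right nested tensor words `S a ⊗ (S b ⊗ S v)`.

A family `n : F.Fam O W` of lattices on the object `W` is a lattice `n m` in `Hom (S m, W)` for each `m : ι`.  An
`O`-form of `C` is a system `L` of lattices `L i j k` in `Hom (S k, S i ⊗ S j)`; `N1` and `N2` are the lattices in
`Hom (S m, S i ⊗ (S j ⊗ W))` given by the two ways of bracketing.
-/

set_option autoImplicit false

noncomputable section

open CategoryTheory MonoidalCategory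

namespace Pool.Agent.NFG

universe v u w

/-! ### Lattices over a valuation ring -/

/-- `O` is a valuation ring of the field `K`. -/
def Val {K : Type w} [Field K] (O : Subring K) : Prop := ∀ x : K, x ∈ O ∨ x⁻¹ ∈ O

/-- `c` is a unit of `O`. -/
def IsU {K : Type w} [Field K] (O : Subring K) (c : K) : Prop := c ≠ 0 ∧ c ∈ O ∧ c⁻¹ ∈ O

/-- `L` is an `O`-lattice in the `K`-space `M`: the `O`-span of a finite `K`-basis. -/
def IsLat {K : Type w} [Field K] (O : Subring K) {M : Type*} [AddCommGroup M] [Module K M] (L : Submodule O M) : Prop :=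
  ∃ (n : ℕ) (b : Module.Basis (Fin n) K M), L = Submodule.span O (Set.range b)

/-- The multiple `c L` of a lattice. -/
def scl {K : Type w} [Field K] {O : Subring K} {M : Type*} [AddCommGroup M] [Module K M] (c : K) (L : Submodule O M) :
    Submodule O M where
  carrier := {x | ∃ y ∈ L, x = c • y}
  add_mem' := by
    rintro _ _ ⟨y, hy, rfl⟩ ⟨z, hz, rfl⟩
    exact ⟨y + z, L.add_mem hy hz, (smul_add c y z).symm⟩
  zero_mem' := ⟨0, L.zero_mem, (smul_zero c).symm⟩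
  smul_mem' := by
    rintro o _ ⟨y, hy, rfl⟩
    exact ⟨o • y, L.smul_mem o hy, (smul_comm c o y).symm⟩

/-! ### Semisimple categories -/

/-- `C` is semisimple with finitely many simple objects `S i` and simple unit object `S o`. -/
structure Fus (K : Type w) [Field K] (C : Type u) [Category.{v} C] [Preadditive C] [Linear K C] [MonoidalCategory C]
    (ι : Type) [Fintype ι] [DecidableEq ι] where
  /-- the simple objects -/
  S : ι → C
  /-- the index of the unit object -/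
  o : ι
  /-- the unit object is simple -/
  u : S o ≅ 𝟙_ C
  schur : ∀ (i : ι) (f : S i ⟶ S i), ∃ c : K, f = c • 𝟙 (S i)
  one_ne : ∀ i : ι, 𝟙 (S i) ≠ 0
  hom_zero : ∀ i j : ι, i ≠ j → ∀ f : S i ⟶ S j, f = 0
  dec : ∀ Z : C, ∃ (n : ℕ) (k : Fin n → ι) (p : ∀ a, Z ⟶ S (k a)) (j : ∀ a, S (k a) ⟶ Z),
    (∀ a, j a ≫ p a = 𝟙 (S (k a))) ∧ (∀ a b, a ≠ b → j a ≫ p b = 0) ∧ ∑ a, p a ≫ j a = 𝟙 Z

variable {K : Type w} [Field K] {C : Type u} [Category.{v} C] [Preadditive C] [Linear K C] [MonoidalCategory C]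
  {ι : Type} [Fintype ι] [DecidableEq ι] {O : Subring K}

/-- The multiplicity `N_{ij}^k` is not zero: `S k` occurs in `S i ⊗ S j`. -/
def Fus.Occ (F : Fus K C ι) (i j k : ι) : Prop := ∃ f : F.S k ⟶ F.S i ⊗ F.S j, f ≠ 0

/-- `S v ⟶ S o ⊗ S v` -/
def Fus.lam (F : Fus K C ι) (v : ι) : F.S v ⟶ F.S F.o ⊗ F.S v := (λ_ (F.S v)).inv ≫ (F.u.inv ▷ F.S v)

/-- `S v ⟶ S v ⊗ S o` -/
def Fus.rho (F : Fus K C ι) (v : ι) : F.S v ⟶ F.S v ⊗ F.S F.o := (ρ_ (F.S v)).inv ≫ (F.S v ◁ F.u.inv)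

/-- `A ⊗ W ⟶ B ⊗ (D ⊗ W)` induced by `x : A ⟶ B ⊗ D` -/
def hat {A B D : C} (x : A ⟶ B ⊗ D) (W : C) : A ⊗ W ⟶ B ⊗ (D ⊗ W) := (x ▷ W) ≫ (α_ B D W).hom

/-- `B ⊗ (D ⊗ W) ⟶ A ⊗ W` induced by `b : B ⊗ D ⟶ A` -/
def hab {A B D : C} (b : B ⊗ D ⟶ A) (W : C) : B ⊗ (D ⊗ W) ⟶ A ⊗ W := (α_ B D W).inv ≫ (b ▷ W)

/-- Families of `O`-submodules of the spaces `Hom (S m, W)`. -/
abbrev Fus.Fam (F : Fus K C ι) (O : Subring K) (W : C) := ∀ m : ι, Submodule O (F.S m ⟶ W)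

/-- Systems of `O`-submodules of the spaces `Hom (S k, S i ⊗ S j)`. -/
abbrev Fus.Sys (F : Fus K C ι) (O : Subring K) := ∀ i j k : ι, Submodule O (F.S k ⟶ F.S i ⊗ F.S j)

/-- The dual lattice, in `Hom (Z, S m)`. -/
def Fus.dl (F : Fus K C ι) {m : ι} {Z : C} (L : Submodule O (F.S m ⟶ Z)) : Submodule O (Z ⟶ F.S m) where
  carrier := {g | ∀ f ∈ L, ∃ c ∈ O, f ≫ g = c • 𝟙 (F.S m)}
  add_mem' := by
    intro g g' hg hg' f hf
    obtain ⟨c, hc, h⟩ := hg f hf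
    obtain ⟨c', hc', h'⟩ := hg' f hf
    exact ⟨c + c', O.add_mem hc hc', by rw [Preadditive.comp_add, h, h', add_smul]⟩
  zero_mem' := fun f _ => ⟨0, O.zero_mem, by simp⟩
  smul_mem' := by
    intro x g hg f hf
    obtain ⟨c, hc, h⟩ := hg f hf
    refine ⟨(x : K) * c, O.mul_mem x.2 hc, ?_⟩
    have h1 : (x • g : Z ⟶ F.S m) = (x : K) • g := rfl
    rw [h1, Linear.comp_smul, h, smul_smul]

/-- The second bracketing: the lattices spanned by `S m ⟶ S y ⊗ S m' ⟶ S y ⊗ W`. -/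
def Fus.N2 (F : Fus K C ι) (L : F.Sys O) (y : ι) {W : C} (n : F.Fam O W) : F.Fam O (F.S y ⊗ W) := fun m =>
  Submodule.span O {h | ∃ (m' : ι) (z : F.S m ⟶ F.S y ⊗ F.S m') (f : F.S m' ⟶ W),
    z ∈ L y m' m ∧ f ∈ n m' ∧ h = z ≫ (F.S y ◁ f)}

/-- The first bracketing: the lattices spanned by `S m ⟶ S a' ⊗ W ⟶ S y ⊗ (S a ⊗ W)`. -/
def Fus.N1 (F : Fus K C ι) (L : F.Sys O) (y a : ι) {W : C} (n : ∀ a' : ι, F.Fam O (F.S a' ⊗ W)) :
    F.Fam O (F.S y ⊗ (F.S a ⊗ W)) := fun m =>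
  Submodule.span O {h | ∃ (a' : ι) (x : F.S a' ⟶ F.S y ⊗ F.S a) (f : F.S m ⟶ F.S a' ⊗ W),
    x ∈ L y a a' ∧ f ∈ n a' m ∧ h = f ≫ hat x W}

/-! ### Spherical structures -/

/-- `W ⟶ A ⊗ (B ⊗ W)` induced by `c : 𝟙 ⟶ A ⊗ B` -/
def ins {A B : C} (c : 𝟙_ C ⟶ A ⊗ B) (W : C) : W ⟶ A ⊗ (B ⊗ W) := (λ_ W).inv ≫ hat c W

/-- `A ⊗ (B ⊗ W) ⟶ W` induced by `e : A ⊗ B ⟶ 𝟙` -/
def del {A B : C} (e : A ⊗ B ⟶ 𝟙_ C) (W : C) : A ⊗ (B ⊗ W) ⟶ W := hab e W ≫ (λ_ W).hom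

/-- The partial trace over the left factor `A` of `T : A ⊗ W ⟶ A ⊗ W'`. -/
def lpt {A B : C} (c : 𝟙_ C ⟶ B ⊗ A) (e : B ⊗ A ⟶ 𝟙_ C) {W W' : C} (T : A ⊗ W ⟶ A ⊗ W') : W ⟶ W' :=
  ins c W ≫ (B ◁ T) ≫ del e W'

/-- The partial trace over the right factor `B` of `T : W ⊗ B ⟶ W' ⊗ B`. -/
def rpt {A B : C} (c : 𝟙_ C ⟶ B ⊗ A) (e : B ⊗ A ⟶ 𝟙_ C) {W W' : C} (T : W ⊗ B ⟶ W' ⊗ B) : W ⟶ W' :=
  (ρ_ W).inv ≫ (W ◁ c) ≫ (α_ W B A).inv ≫ (T ▷ A) ≫ (α_ W' B A).hom ≫ (W' ◁ e) ≫ (ρ_ W').hom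

/-- A spherical structure: each simple object `S i` has a two-sided dual `S (st i)`, and there is a trace on `C`,
compatible with left and right partial traces. -/
structure Sph (F : Fus K C ι) where
  /-- the dual simple object -/
  st : ι → ι
  /-- coevaluation -/
  cv : ∀ i, 𝟙_ C ⟶ F.S i ⊗ F.S (st i)
  /-- evaluation -/
  ev : ∀ i, F.S (st i) ⊗ F.S i ⟶ 𝟙_ C
  /-- coevaluation, other side -/
  cv' : ∀ i, 𝟙_ C ⟶ F.S (st i) ⊗ F.S i
  /-- evaluation, other side -/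
  ev' : ∀ i, F.S i ⊗ F.S (st i) ⟶ 𝟙_ C
  zig : ∀ i, F.S (st i) ◁ cv i ≫ (α_ _ _ _).inv ≫ ev i ▷ F.S (st i) = (ρ_ _).hom ≫ (λ_ _).inv
  zag : ∀ i, cv i ▷ F.S i ≫ (α_ _ _ _).hom ≫ F.S i ◁ ev i = (λ_ _).hom ≫ (ρ_ _).inv
  zig' : ∀ i, F.S i ◁ cv' i ≫ (α_ _ _ _).inv ≫ ev' i ▷ F.S i = (ρ_ _).hom ≫ (λ_ _).inv
  zag' : ∀ i, cv' i ▷ F.S (st i) ≫ (α_ _ _ _).hom ≫ F.S (st i) ◁ ev' i = (λ_ _).hom ≫ (ρ_ _).inv
  /-- the trace -/
  tr : ∀ Z : C, (Z ⟶ Z) →ₗ[K] K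
  tr_comm : ∀ (Z W : C) (f : Z ⟶ W) (g : W ⟶ Z), tr Z (f ≫ g) = tr W (g ≫ f)
  tr_one : tr (𝟙_ C) (𝟙 (𝟙_ C)) = 1
  tr_left : ∀ (i : ι) (W : C) (T : F.S i ⊗ W ⟶ F.S i ⊗ W), tr _ T = tr W (lpt (cv' i) (ev i) T)
  tr_right : ∀ (i : ι) (W : C) (T : W ⊗ F.S (st i) ⟶ W ⊗ F.S (st i)), tr _ T = tr W (rpt (cv' i) (ev i) T)

/-- The dimension of a simple object. -/
def Sph.d {F : Fus K C ι} (sp : Sph F) (i : ι) : K := sp.tr (F.S i) (𝟙 (F.S i))

/-! ### Fusion subcategories and gradings -/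

/-- `E` is (the set of simple objects of) a fusion subcategory. -/
structure IsSub {F : Fus K C ι} (sp : Sph F) (E : Set ι) : Prop where
  one : F.o ∈ E
  st : ∀ a ∈ E, sp.st a ∈ E
  mul : ∀ a ∈ E, ∀ b ∈ E, ∀ c, F.Occ a b c → c ∈ E

/-- The fusion subcategory `E'` is graded by the group `Q`, faithfully, with trivial component `E`. -/
structure IsGr {F : Fus K C ι} (sp : Sph F) (E E' : Set ι) (Q : Type) [Group Q] (deg : ι → Q) : Prop where
  sub : IsSub sp E'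
  mul : ∀ a ∈ E', ∀ b ∈ E', ∀ c, F.Occ a b c → deg c = deg a * deg b
  ker : ∀ a, a ∈ E ↔ a ∈ E' ∧ deg a = 1
  surj : ∀ q : Q, ∃ a ∈ E', deg a = q

/-- The fusion subcategory `E` is nilpotent: it is obtained from the trivial fusion subcategory by finitely many
extensions by finite groups. -/
inductive Nil {F : Fus K C ι} (sp : Sph F) : Set ι → Prop
  | vec : Nil sp {F.o}
  | ext (E E' : Set ι) (Q : Type) (_ : Group Q) (_ : Fintype Q) (deg : ι → Q) (h : Nil sp E)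
      (hg : IsGr sp E E' Q deg) : Nil sp E'

/-- `A` is an indecomposable left module category over `E`, with `a ⊗ a*` in `E` for `a ∈ A`. -/
structure IsOrb {F : Fus K C ι} (sp : Sph F) (E A : Set ι) : Prop where
  ne : A.Nonempty
  act : ∀ y ∈ E, ∀ a ∈ A, ∀ c, F.Occ y a c → c ∈ A
  conn : ∀ a ∈ A, ∀ a' ∈ A, ∃ y ∈ E, F.Occ y a a'
  ad : ∀ a ∈ A, ∀ y, F.Occ a (sp.st a) y → y ∈ E

/-! ### Integral structures -/

/-- `L` makes `C` a left module category over the `O`-form of `E`. -/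
structure LInt (F : Fus K C ι) (O : Subring K) (E : Set ι) (L : F.Sys O) : Prop where
  lat : ∀ y ∈ E, ∀ v m, IsLat O (L y v m)
  unitL : ∀ v, L F.o v v = Submodule.span O {F.lam v}
  unitR : ∀ y ∈ E, L y F.o y = Submodule.span O {F.rho y}
  assoc : ∀ y ∈ E, ∀ y' ∈ E, ∀ v, F.N1 L y y' (fun k => L k v) = F.N2 L y (L y' v)

/-- `n` is a lattice in the module functor `a ↦ S a ⊗ W` from `A` to `C`, over the `O`-form of `E`. -/
structure Stab (F : Fus K C ι) (E : Set ι) (L : F.Sys O) (A : Set ι) {W : C} (n : ∀ a : ι, F.Fam O (F.S a ⊗ W)) :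
    Prop where
  lat : ∀ a ∈ A, ∀ m, IsLat O (n a m)
  stab : ∀ y ∈ E, ∀ a ∈ A, ∀ a' ∈ A, ∀ b : F.S y ⊗ F.S a ⟶ F.S a', b ∈ F.dl (L y a a') →
    ∀ m m' : ι, ∀ f ∈ n a m, ∀ z ∈ L y m m', z ≫ (F.S y ◁ f) ≫ hab b W ∈ n a' m'

/-- The standing hypotheses: dimensions are units and `L` is an `O`-form of `E` acting on `C`. -/
structure Ctx {F : Fus K C ι} (sp : Sph F) (O : Subring K) (E : Set ι) (L : F.Sys O) : Prop where
  val : Val O
  du : ∀ i, IsU O (sp.d i)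
  sub : IsSub sp E
  int : LInt F O E L

/-- The `E`-forms are unique up to rescaling the simple objects. -/
def Uniq (F : Fus K C ι) (O : Subring K) (E : Set ι) : Prop :=
  ∀ L L' : F.Sys O, LInt F O E L → LInt F O E L' →
    ∃ g : ι → K, (∀ i, g i ≠ 0) ∧ ∀ y ∈ E, ∀ v m, L' y v m = scl (g y * g v * (g m)⁻¹) (L y v m)

/-- The component of degree `q`. -/
def cmp {Q : Type} (E' : Set ι) (deg : ι → Q) (q : Q) : Set ι := {a | a ∈ E' ∧ deg a = q}

/-- The candidates `l : S v ⟶ W` for the family of lattices on `W` with `n₀ = S a ⊗ (family)`. -/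
def Fus.ql (F : Fus K C ι) [MonoidalPreadditive C] [MonoidalLinear K C] (L : F.Sys O) (a : ι) {W : C}
    (n₀ : F.Fam O (F.S a ⊗ W)) : F.Fam O W := fun v =>
  { carrier := {l | ∀ m, ∀ f ∈ L a v m, f ≫ (F.S a ◁ l) ∈ n₀ m}
    add_mem' := by
      intro l l' hl hl' m f hf
      rw [MonoidalPreadditive.whiskerLeft_add, Preadditive.comp_add]
      exact (n₀ m).add_mem (hl m f hf) (hl' m f hf)
    zero_mem' := by
      intro m f _
      rw [MonoidalPreadditive.whiskerLeft_zero, Limits.comp_zero]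
      exact (n₀ m).zero_mem
    smul_mem' := by
      intro x l hl m f hf
      have h1 : (x • l : F.S v ⟶ W) = (x : K) • l := rfl
      rw [h1, MonoidalLinear.whiskerLeft_smul, Linear.comp_smul]
      exact (n₀ m).smul_mem x (hl m f hf) }

/-- `L` acts on `C` over the `O`-form of `E`, extended to `E'`: for `a` in `E'` the lattices `L a v m` are stable under
the action of `E` from the left. -/
structure Pre {F : Fus K C ι} (sp : Sph F) (O : Subring K) (E E' : Set ι) {Q : Type} (deg : ι → Q) (L : F.Sys O) :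
    Prop where
  ctx : Ctx sp O E L
  uR : ∀ a ∈ E', L a F.o a = Submodule.span O {F.rho a}
  st : ∀ (q : Q) (v : ι), Stab F E L (cmp E' deg q) (fun a => L a v)

/-- An `O`-form of the fusion category `C`: lattices `L i j k` in `Hom (S k, S i ⊗ S j)` such that the associativity
isomorphisms, the unit isomorphisms and the evaluations and coevaluations of the simple objects are defined over `O`. -/
structure Good {F : Fus K C ι} (sp : Sph F) (O : Subring K) (L : F.Sys O) : Prop where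
  lat : ∀ i j k, IsLat O (L i j k)
  unitL : ∀ v, L F.o v v = Submodule.span O {F.lam v}
  unitR : ∀ v, L v F.o v = Submodule.span O {F.rho v}
  assoc : ∀ i j v, F.N1 L i j (fun k => L k v) = F.N2 L i (L j v)
  rigid : ∀ i, ∃ t : K, t ≠ 0 ∧ F.u.hom ≫ (t • sp.cv i) ∈ L i (sp.st i) F.o ∧
    (t⁻¹ • sp.ev i) ≫ F.u.inv ∈ F.dl (L (sp.st i) i F.o)
  rigid' : ∀ i, ∃ t : K, t ≠ 0 ∧ F.u.hom ≫ (t • sp.cv' i) ∈ L (sp.st i) i F.o ∧
    (t⁻¹ • sp.ev' i) ≫ F.u.inv ∈ F.dl (L i (sp.st i) F.o)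

end Pool.Agent.NFG
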