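import Pool.Agent.NFG.TdU

/-!
# NFG/DuA: existence of two-sided duals

Let `X = S i`, `Y = (S i)ᘁ` its right dual (`ExactPairing X Y`) and `Y' = ᘁ(S i)` its left dual (`ExactPairing Y' X`).
`End Y = K`: for `f : Y ⟶ Y` bend to `X ⟶ X` (`Hom (Y, Y) ≅ Hom (𝟙, X ⊗ Y) ≅ Hom (X, X)`; in terms of `HatB`: `Hom (𝟙_, X ⊗ Y) ≅ Hom (Y ⊗ 𝟙_, Y)` by
`sh`, `fl`, and `Hom (𝟙, X ⊗ Y) ≅ Hom (X, X)` by the right versions `shR`, `flR`; or use Mathlib's adjoint mates / `tensorRightHomEquiv`), and `𝟙 Y ≠ 0`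
since otherwise `η = 0` and `𝟙 X = 0`.  By `F.dec Y` (`n ≥ 1` pieces; `j a ≫ p a = 𝟙`, and `p a ≫ j a` is a scalar idempotent in `End Y`, so `n = 1`) `Y ≅ S j`
for some `j`; transport the pairing: `exactPairingCongrRight`.  In the same way `Y' ≅ S j'`, `ExactPairing (S j') X`.
`j = j'`: `Hom (𝟙_, S i ⊗ S j) ≠ 0`, so by semisimplicity (`exists_retract` for `u.hom ≫ η : S o ⟶ S i ⊗ S j`) there is `0 ≠ g : S i ⊗ S j ⟶ 𝟙_`, and
`Hom (S i ⊗ S j, 𝟙_) ≅ Hom (S j, S j')` by the pairing `ExactPairing (S j') (S i)` (`fl`, `sh`); so `j = j'` (`F.hom_zero`).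
`TD (S i) (S j)`: `cv, ev` from `ExactPairing (S i) (S j)`, `cv', ev'` from `ExactPairing (S j) (S i)` (the fields `coevaluation_evaluation'`,
`evaluation_coevaluation'` are `zig`, `zag`).
-/

set_option autoImplicit false

noncomputable section

open CategoryTheory MonoidalCategory

namespace Pool.Agent.NFG

universe v u w

variable {K : Type w} [Field K] {C : Type u} [Category.{v} C] [Preadditive C] [Linear K C] [MonoidalCategory C]
  [MonoidalPreadditive C] [MonoidalLinear K C] {ι : Type} [Fintype ι] [DecidableEq ι] {O : Subring K}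

/-- the right dual of a simple object is simple -/
private theorem DuA_right {X Y : C} (c : 𝟙_ C ⟶ X ⊗ Y) (e : Y ⊗ X ⟶ 𝟙_ C)
    (zig : Y ◁ c ≫ (α_ _ _ _).inv ≫ e ▷ Y = (ρ_ _).hom ≫ (λ_ _).inv)
    (zag : c ▷ X ≫ (α_ _ _ _).hom ≫ X ◁ e = (λ_ _).hom ≫ (ρ_ _).inv) (hX : Smp K X) : Smp K Y := by
  -- the bent identity
  have hc : sh e c = (ρ_ Y).hom := by
    have h1 : sh e c = (Y ◁ c ≫ (α_ _ _ _).inv ≫ e ▷ Y) ≫ (λ_ Y).hom := by
      simp only [sh, del, hab, Category.assoc]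
    rw [h1, zig, Category.assoc, Iso.inv_hom_id, Category.comp_id]
  have inj : ∀ f f' : Y ⟶ Y, c ≫ (X ◁ f) = c ≫ (X ◁ f') → f = f' := by
    intro f f' h
    have h1 := congrArg (sh e) h
    rw [sh_comp, sh_comp, hc] at h1
    exact (cancel_epi (ρ_ Y).hom).1 h1
  have hfl : flR c (λ_ X).hom = c := by
    unfold flR
    have h1 : (ρ_ (𝟙_ C)).inv ≫ (𝟙_ C ◁ c) ≫ (α_ (𝟙_ C) X Y).inv ≫ ((λ_ X).hom ▷ Y) =
        (ρ_ (𝟙_ C)).inv ≫ (𝟙_ C ◁ c) ≫ (λ_ (X ⊗ Y)).hom := by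
      monoidal
    rw [h1, leftUnitor_naturality, unitors_equal, Iso.inv_hom_id_assoc]
  constructor
  · intro h0
    have h1 : c = 0 := by
      have h2 : c = c ≫ (X ◁ 𝟙 Y) := by rw [whiskerLeft_id, Category.comp_id]
      rw [h2, h0, MonoidalPreadditive.whiskerLeft_zero, Limits.comp_zero]
    have h2 := zag
    rw [h1, MonoidalPreadditive.zero_whiskerRight, Limits.zero_comp] at h2
    apply hX.1
    have h3 : 𝟙 X = (λ_ X).inv ≫ ((λ_ X).hom ≫ (ρ_ X).inv) ≫ (ρ_ X).hom := by simp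
    rw [h3, ← h2, Limits.zero_comp, Limits.comp_zero]
  · intro f
    obtain ⟨s, hs⟩ := hX.2 ((λ_ X).inv ≫ shR e (c ≫ (X ◁ f)))
    refine ⟨s, inj _ _ ?_⟩
    have h1 : shR e (c ≫ (X ◁ f)) = s • (λ_ X).hom := by
      have h2 : shR e (c ≫ (X ◁ f)) = (λ_ X).hom ≫ (λ_ X).inv ≫ shR e (c ≫ (X ◁ f)) := by
        rw [Iso.hom_inv_id_assoc]
      rw [h2, hs, Linear.comp_smul, Category.comp_id]
    have h2 : c ≫ (X ◁ f) = s • c := by
      rw [← flR_shR c e zig (c ≫ (X ◁ f)), h1, flR_smul, hfl]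
    rw [h2, MonoidalLinear.whiskerLeft_smul, Linear.comp_smul, whiskerLeft_id, Category.comp_id]

/-- the left dual of a simple object is simple -/
private theorem DuA_left {X Y : C} (c : 𝟙_ C ⟶ Y ⊗ X) (e : X ⊗ Y ⟶ 𝟙_ C)
    (zig : X ◁ c ≫ (α_ _ _ _).inv ≫ e ▷ X = (ρ_ _).hom ≫ (λ_ _).inv)
    (zag : c ▷ Y ≫ (α_ _ _ _).hom ≫ Y ◁ e = (λ_ _).hom ≫ (ρ_ _).inv) (hX : Smp K X) : Smp K Y := by
  have hcf : ∀ f : Y ⟶ Y, shR e (c ≫ (f ▷ X)) = (λ_ Y).hom ≫ f := by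
    intro f
    have h1 : shR e (c ≫ (f ▷ X)) = (c ▷ Y ≫ (α_ _ _ _).hom ≫ Y ◁ e) ≫ (ρ_ Y).hom ≫ f := by
      unfold shR
      have h2 : ((c ≫ (f ▷ X)) ▷ Y) ≫ (α_ Y X Y).hom ≫ (Y ◁ e) ≫ (ρ_ Y).hom =
          (c ▷ Y) ≫ (α_ Y X Y).hom ≫ ((f ▷ (X ⊗ Y)) ≫ (Y ◁ e)) ≫ (ρ_ Y).hom := by
        monoidal
      rw [h2, ← whisker_exchange]
      simp only [Category.assoc]
      rw [rightUnitor_naturality]
    rw [h1, zag]
    simp only [Category.assoc, Iso.inv_hom_id_assoc]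
  have inj : ∀ f f' : Y ⟶ Y, c ≫ (f ▷ X) = c ≫ (f' ▷ X) → f = f' := by
    intro f f' h
    have h1 := congrArg (shR e) h
    rw [hcf, hcf] at h1
    exact (cancel_epi (λ_ Y).hom).1 h1
  have hfl : fl c (ρ_ X).hom = c := by
    simp only [fl, ins, hat]
    simp only [Category.assoc, whiskerLeft_rightUnitor, Iso.hom_inv_id_assoc, rightUnitor_naturality]
    rw [← unitors_equal, Iso.inv_hom_id_assoc]
  constructor
  · intro h0
    have h1 : c = 0 := by
      have h2 : c = c ≫ (𝟙 Y ▷ X) := by rw [id_whiskerRight, Category.comp_id]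
      rw [h2, h0, MonoidalPreadditive.zero_whiskerRight, Limits.comp_zero]
    have h2 := zig
    rw [h1, MonoidalPreadditive.whiskerLeft_zero, Limits.zero_comp] at h2
    apply hX.1
    have h3 : 𝟙 X = (ρ_ X).inv ≫ ((ρ_ X).hom ≫ (λ_ X).inv) ≫ (λ_ X).hom := by simp
    rw [h3, ← h2, Limits.zero_comp, Limits.comp_zero]
  · intro f
    obtain ⟨s, hs⟩ := hX.2 ((ρ_ X).inv ≫ sh e (c ≫ (f ▷ X)))
    refine ⟨s, inj _ _ ?_⟩
    have h1 : sh e (c ≫ (f ▷ X)) = s • (ρ_ X).hom := by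
      have h2 : sh e (c ≫ (f ▷ X)) = (ρ_ X).hom ≫ (ρ_ X).inv ≫ sh e (c ≫ (f ▷ X)) := by
        rw [Iso.hom_inv_id_assoc]
      rw [h2, hs, Linear.comp_smul, Category.comp_id]
    have h2 : c ≫ (f ▷ X) = s • c := by
      rw [← fl_sh c e zag (c ≫ (f ▷ X)), h1, fl_smul', hfl]
    rw [h2, MonoidalLinear.smul_whiskerRight, Linear.comp_smul, id_whiskerRight, Category.comp_id]

/-- a simple object is one of the `S j` -/
private theorem DuA_iso (F : Fus K C ι) {Y : C} (h : Smp K Y) : ∃ j, Nonempty (Y ≅ F.S j) := by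
  obtain ⟨n, k, p, q, h1, h2, h3⟩ := F.dec Y
  obtain ⟨a, ha⟩ : ∃ a, p a ≫ q a ≠ 0 := by
    by_contra hc
    push Not at hc
    rw [Finset.sum_eq_zero fun a _ => hc a] at h3
    exact h.1 h3.symm
  obtain ⟨s, hs⟩ := h.2 (p a ≫ q a)
  have h4 : (p a ≫ q a) ≫ p a ≫ q a = p a ≫ q a := by
    rw [Category.assoc, ← Category.assoc (q a), h1, Category.id_comp]
  have hs0 : s ≠ 0 := by
    intro h5
    rw [h5, zero_smul] at hs
    exact ha hs
  have h5 : p a ≫ q a = 𝟙 Y := by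
    have h6 := h4
    rw [hs, Linear.smul_comp, Linear.comp_smul, Category.comp_id, smul_smul] at h6
    have h7 := smp_inj h h6
    have h8 : s = 1 := by
      have h9 : s * (s - 1) = 0 := by rw [mul_sub, h7, mul_one, sub_self]
      rcases mul_eq_zero.1 h9 with h10 | h10
      · exact absurd h10 hs0
      · exact sub_eq_zero.1 h10
    rw [hs, h8, one_smul]
  exact ⟨k a, ⟨⟨p a, q a, h5, h1 a⟩⟩⟩

private theorem DuA_one [RigidCategory C] (F : Fus K C ι) (i : ι) : ∃ j, Nonempty (TD (F.S i) (F.S j)) := by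
  -- right dual
  obtain ⟨j, ⟨P⟩⟩ : ∃ j, Nonempty (ExactPairing (F.S i) (F.S j)) := by
    let R : HasRightDual (F.S i) := inferInstance
    let E : ExactPairing (F.S i) R.rightDual := R.exact
    obtain ⟨j, ⟨u⟩⟩ := DuA_iso F (DuA_right E.coevaluation' E.evaluation' E.coevaluation_evaluation'
      E.evaluation_coevaluation' (smp_S F i))
    exact ⟨j, ⟨@exactPairingCongrRight C _ _ (F.S i) (F.S j) R.rightDual E u.symm⟩⟩
  obtain ⟨j', ⟨Q⟩⟩ : ∃ j, Nonempty (ExactPairing (F.S j) (F.S i)) := by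
    let R : HasLeftDual (F.S i) := inferInstance
    let E : ExactPairing R.leftDual (F.S i) := R.exact
    obtain ⟨j, ⟨u⟩⟩ := DuA_iso F (DuA_left E.coevaluation' E.evaluation' E.coevaluation_evaluation'
      E.evaluation_coevaluation' (smp_S F i))
    exact ⟨j, ⟨@exactPairingCongrLeft C _ _ (F.S j) R.leftDual (F.S i) E u.symm⟩⟩
  have hj : j = j' := by
    by_contra hne
    have h0 : F.u.hom ≫ P.coevaluation' ≠ 0 := by
      intro h
      have h1 : P.coevaluation' = 0 := by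
        have h2 : P.coevaluation' = F.u.inv ≫ F.u.hom ≫ P.coevaluation' := by rw [Iso.inv_hom_id_assoc]
        rw [h2, h, Limits.comp_zero]
      have h2 := P.evaluation_coevaluation'
      rw [h1, MonoidalPreadditive.zero_whiskerRight, Limits.zero_comp] at h2
      apply F.one_ne i
      have h3 : 𝟙 (F.S i) = (λ_ (F.S i)).inv ≫ ((λ_ (F.S i)).hom ≫ (ρ_ (F.S i)).inv) ≫ (ρ_ (F.S i)).hom := by simp
      rw [h3, ← h2, Limits.zero_comp, Limits.comp_zero]
    obtain ⟨g, hg⟩ := exists_retract F h0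
    have hg0 : g ≠ 0 := by
      intro h
      rw [h, Limits.comp_zero] at hg
      exact F.one_ne F.o hg.symm
    have h1 : fl Q.coevaluation' (g ≫ F.u.hom) ≫ (ρ_ (F.S j')).hom = 0 := F.hom_zero j j' hne _
    have h2 : fl Q.coevaluation' (g ≫ F.u.hom) = 0 := by
      have h3 : fl Q.coevaluation' (g ≫ F.u.hom) =
          (fl Q.coevaluation' (g ≫ F.u.hom) ≫ (ρ_ (F.S j')).hom) ≫ (ρ_ (F.S j')).inv := by
        rw [Category.assoc, Iso.hom_inv_id, Category.comp_id]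
      rw [h3, h1, Limits.zero_comp]
    have h3 := sh_fl Q.coevaluation' Q.evaluation' Q.coevaluation_evaluation' (g ≫ F.u.hom)
    rw [h2] at h3
    have h4 : sh Q.evaluation' (0 : F.S j ⟶ F.S j' ⊗ 𝟙_ C) = 0 := by
      simp only [sh]
      rw [MonoidalPreadditive.whiskerLeft_zero, Limits.zero_comp]
    rw [h4] at h3
    apply hg0
    have h5 : g = (g ≫ F.u.hom) ≫ F.u.inv := by rw [Category.assoc, Iso.hom_inv_id, Category.comp_id]
    rw [h5, ← h3, Limits.zero_comp]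
  subst hj
  exact ⟨j, ⟨⟨P.coevaluation', P.evaluation', Q.coevaluation', Q.evaluation', P.coevaluation_evaluation',
    P.evaluation_coevaluation', Q.coevaluation_evaluation', Q.evaluation_coevaluation'⟩⟩⟩

theorem exists_du [RigidCategory C] (F : Fus K C ι) : Nonempty (Du F) := by
  choose st h using fun i => DuA_one F i
  exact ⟨⟨st, fun i => (h i).some⟩⟩

end Pool.Agent.NFG
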