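import Pool.Agent.NFG.TdU

/-!
# NFG/DuB: normalisation of the duals

`loop_ne`: as `Mul.d_ne` (copy its proof; `Hom (S (st i) ⊗ S i, S o)` is spanned by `ev ≫ u.inv`, see `Dua.hom_ev` and its private lemmas, which only use
`zig`): `cv' ≫ ev ≠ 0`; for the other loop apply it to the swapped dual (a dual of `S (st i)`).
`du_st_st`: `Occ i (st i) o` (from `cv i ≠ 0`) and `Hom (S o, S i ⊗ S j) ≅ Hom (S (st i), S j)`-type arguments: `mult_left`/`occ_bend` of `Mul`, `Dua` with `td`.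
For instance: `cv' i : 𝟙 ⟶ S (st i) ⊗ S i` is not zero, and `Hom (𝟙, S (st i) ⊗ S i) ≅ Hom (S (st (st i)), S i)` by `sh (td (st i)).ev`; so
`st (st i) = i` (`F.hom_zero`).
`du_bal`: `cv' i ≫ ev i = a i • 𝟙`, `cv i ≫ ev' i = b i • 𝟙`, `a i, b i ≠ 0`, `n i = a i * b i`.  By `norm_two` for the two duals `td (st i)` and `(td i).swap` of
`S (st i)`: `n (st i) = b i * a i = n i`.  Let `r : K → K` be a choice of square roots (`IsAlgClosed.exists_pow_nat_eq` or `IsSquare`), `δ i = r (n i)`, so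
`δ i ^ 2 = n i`, `δ (st i) = δ i`.  Rescale `td i` by `δ i / a i` (`TD.scale`): the loops become `δ i` and `(a i / δ i) * b i = δ i`.
-/

set_option autoImplicit false

noncomputable section

open CategoryTheory MonoidalCategory

namespace Pool.Agent.NFG

universe v u w

variable {K : Type w} [Field K] {C : Type u} [Category.{v} C] [Preadditive C] [Linear K C] [MonoidalCategory C]
  [MonoidalPreadditive C] [MonoidalLinear K C] {ι : Type} [Fintype ι] [DecidableEq ι] {O : Subring K}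

private theorem DuB_del {B B' : C} (e : B' ⊗ B ⟶ 𝟙_ C) : (B' ◁ (ρ_ B).inv) ≫ del e (𝟙_ C) = e := by
  simp only [del, hab]
  rw [unitors_equal]
  simp

private theorem DuB_ev (F : Fus K C ι) {i j : ι} (t : TD (F.S i) (F.S j)) (g : F.S j ⊗ F.S i ⟶ F.S F.o) :
    ∃ k : K, g = k • (t.ev ≫ F.u.inv) := by
  obtain ⟨k, hk⟩ := F.schur i (fl t.cv g ≫ F.rhoi i)
  have h1 : fl t.cv g = k • F.rho i := by
    have h2 : (fl t.cv g ≫ F.rhoi i) ≫ F.rho i = fl t.cv g := by
      rw [Category.assoc, rhoi_rho, Category.comp_id]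
    rw [← h2, hk, Linear.smul_comp, Category.id_comp]
  refine ⟨k, ?_⟩
  have h2 : sh t.ev (k • F.rho i) = k • sh t.ev (F.rho i) := by
    simp only [sh]
    rw [MonoidalLinear.whiskerLeft_smul, Linear.smul_comp]
  have h3 : sh t.ev (F.rho i) = t.ev ≫ F.u.inv := by
    simp only [sh, Fus.rho]
    rw [MonoidalCategory.whiskerLeft_comp, Category.assoc, del_natural, ← Category.assoc, DuB_del]
  rw [← sh_fl t.cv t.ev t.zig g, h1, h2, h3]

private theorem DuB_cv' (F : Fus K C ι) {i j : ι} (t : TD (F.S i) (F.S j)) : F.u.hom ≫ t.cv' ≠ 0 := by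
  have h0 : t.cv' ≠ 0 := by
    intro h
    have h1 := t.zig'
    rw [h, MonoidalPreadditive.whiskerLeft_zero, Limits.zero_comp] at h1
    apply F.one_ne i
    have h2 : 𝟙 (F.S i) = (ρ_ (F.S i)).inv ≫ ((ρ_ (F.S i)).hom ≫ (λ_ (F.S i)).inv) ≫ (λ_ (F.S i)).hom := by
      simp
    rw [h2, ← h1, Limits.zero_comp, Limits.comp_zero]
  intro h
  apply h0
  have h4 : t.cv' = F.u.inv ≫ (F.u.hom ≫ t.cv') := by simp
  rw [h4, h, Limits.comp_zero]

private theorem DuB_loop (F : Fus K C ι) {i j : ι} (t : TD (F.S i) (F.S j)) : t.cv' ≫ t.ev ≠ 0 := by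
  intro h8
  obtain ⟨g, hg⟩ := exists_retract F (DuB_cv' F t)
  obtain ⟨c, hc⟩ := DuB_ev F t g
  have h5 : (F.u.hom ≫ t.cv') ≫ g = 0 := by
    rw [hc, Linear.comp_smul, Category.assoc, ← Category.assoc t.cv', h8, Limits.zero_comp, Limits.comp_zero,
      smul_zero]
  rw [hg] at h5
  exact F.one_ne F.o h5

private theorem DuB_dd (F : Fus K C ι) {i j k : ι} (t : TD (F.S i) (F.S j)) (t₂ : TD (F.S j) (F.S k)) : k = i := by
  by_contra hki
  have h1 : F.rho k ≫ sh t₂.ev (F.u.hom ≫ t.cv') = 0 := F.hom_zero k i hki _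
  have h2 : sh t₂.ev (F.u.hom ≫ t.cv') = 0 := by
    have h3 : F.rhoi k ≫ F.rho k ≫ sh t₂.ev (F.u.hom ≫ t.cv') = sh t₂.ev (F.u.hom ≫ t.cv') := by
      rw [← Category.assoc, rhoi_rho, Category.id_comp]
    rw [← h3, h1, Limits.comp_zero]
  apply DuB_cv' F t
  rw [← fl_sh t₂.cv t₂.ev t₂.zag (F.u.hom ≫ t.cv'), h2]
  simp only [fl]
  rw [MonoidalPreadditive.whiskerLeft_zero, Limits.comp_zero]

theorem loop_ne {F : Fus K C ι} (D : Du F) (i : ι) : (D.td i).cv' ≫ (D.td i).ev ≠ 0 := by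
  exact DuB_loop F (D.td i)

theorem loop_ne' {F : Fus K C ι} (D : Du F) (i : ι) : (D.td i).cv ≫ (D.td i).ev' ≠ 0 := by
  exact DuB_loop F (D.td i).swap

theorem du_st_st {F : Fus K C ι} (D : Du F) (i : ι) : D.st (D.st i) = i := by
  exact DuB_dd F (D.td i) (D.td (D.st i))

theorem du_bal [IsAlgClosed K] {F : Fus K C ι} (D : Du F) :
    ∃ (D' : Du F) (δ : ι → K), D'.st = D.st ∧ (∀ i, δ i ≠ 0) ∧ (∀ i, (D'.td i).Bal (δ i)) ∧
      ∀ i, δ (D'.st i) = δ i := by
  have ha : ∀ i, ∃ a : K, (D.td i).cv' ≫ (D.td i).ev = a • 𝟙 (𝟙_ C) := fun i => unit_scalar F _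
  have hb : ∀ i, ∃ b : K, (D.td i).cv ≫ (D.td i).ev' = b • 𝟙 (𝟙_ C) := fun i => unit_scalar F _
  choose a ha using ha
  choose b hb using hb
  have ha0 : ∀ i, a i ≠ 0 := by
    intro i h
    apply loop_ne D i
    rw [ha i, h, zero_smul]
  have hb0 : ∀ i, b i ≠ 0 := by
    intro i h
    apply loop_ne' D i
    rw [hb i, h, zero_smul]
  have hr : ∀ x : K, ∃ z : K, z ^ 2 = x := fun x => IsAlgClosed.exists_pow_nat_eq x (by norm_num)
  choose r hr using hr
  have hn : ∀ i, a (D.st i) * b (D.st i) = a i * b i := by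
    intro i
    have h := norm_two (smp_S F (D.st i)) (smp_one F) (D.td (D.st i)) (D.td i).swap (ha (D.st i)) (hb i)
      (hb (D.st i)) (ha i)
    rw [h, mul_comm]
  have hδ0 : ∀ i, r (a i * b i) ≠ 0 := by
    intro i h
    have h1 := hr (a i * b i)
    rw [h] at h1
    have h2 : a i * b i = 0 := by rw [← h1]; ring
    rcases mul_eq_zero.1 h2 with h3 | h3
    · exact ha0 i h3
    · exact hb0 i h3
  refine ⟨⟨D.st, fun i => (D.td i).scale (r (a i * b i) / a i) (div_ne_zero (hδ0 i) (ha0 i))⟩,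
    fun i => r (a i * b i), rfl, hδ0, ?_, ?_⟩
  · intro i
    constructor
    · change ((r (a i * b i) / a i) • (D.td i).cv') ≫ (D.td i).ev = _
      rw [Linear.smul_comp, ha i, smul_smul, div_mul_cancel₀ _ (ha0 i)]
    · change (D.td i).cv ≫ ((r (a i * b i) / a i)⁻¹ • (D.td i).ev') = _
      rw [Linear.comp_smul, hb i, smul_smul]
      congr 1
      have h1 := hr (a i * b i)
      have h2 := hδ0 i
      have h3 := ha0 i
      field_simp
      rw [h1]
  · intro i
    change r (a (D.st i) * b (D.st i)) = r (a i * b i)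
    rw [hn i]

end Pool.Agent.NFG
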