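import Pool.Agent.NFG.DuB

/-!
# NFG/DuM: the fusion ring from the duals

As in `Mul` (copy the proofs, with `(D.td i)` in place of the fields of `sp`): `du_mult_left` as `mult_left` (uses `zag`, `zig`), `du_mult_right` as
`mult_right` (uses `zig'`, `zag'`; `shR`, `flR` with `flR_shR`, `shR_flR` of `Td`), `du_st_o` as `st_o`.
-/

set_option autoImplicit false

noncomputable section

open CategoryTheory MonoidalCategory

namespace Pool.Agent.NFG

universe v u w

variable {K : Type w} [Field K] {C : Type u} [Category.{v} C] [Preadditive C] [Linear K C] [MonoidalCategory C]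
  [MonoidalPreadditive C] [MonoidalLinear K C] {ι : Type} [Fintype ι] [DecidableEq ι] {O : Subring K}

theorem du_mult_left {F : Fus K C ι} (D : Du F) (i j k : ι) : F.mult i j k = F.mult (D.st i) k j := by
  unfold Fus.mult
  rw [← finrank_dual F (F.S (D.st i) ⊗ F.S k) j]
  let E : (F.S k ⟶ F.S i ⊗ F.S j) ≃ₗ[K] (F.S (D.st i) ⊗ F.S k ⟶ F.S j) :=
    { toFun := fun f => sh (D.td i).ev f
      map_add' := fun f g => sh_add (D.td i).ev f g
      map_smul' := fun c f => sh_smul (D.td i).ev c f
      invFun := fun g => fl (D.td i).cv g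
      left_inv := fun f => fl_sh (D.td i).cv (D.td i).ev (D.td i).zag f
      right_inv := fun g => sh_fl (D.td i).cv (D.td i).ev (D.td i).zig g }
  exact E.finrank_eq

theorem du_mult_right {F : Fus K C ι} (D : Du F) (i j k : ι) : F.mult i j k = F.mult k (D.st j) i := by
  unfold Fus.mult
  rw [← finrank_dual F (F.S k ⊗ F.S (D.st j)) i]
  let E : (F.S k ⟶ F.S i ⊗ F.S j) ≃ₗ[K] (F.S k ⊗ F.S (D.st j) ⟶ F.S i) :=
    { toFun := fun f => shR (D.td j).ev' f
      map_add' := fun f g => shR_add (D.td j).ev' f g
      map_smul' := fun c f => shR_smul (D.td j).ev' c f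
      invFun := fun g => flR (D.td j).cv' g
      left_inv := fun f => flR_shR (D.td j).cv' (D.td j).ev' (D.td j).zig' f
      right_inv := fun g => shR_flR (D.td j).cv' (D.td j).ev' (D.td j).zag' g }
  exact E.finrank_eq

theorem du_st_o {F : Fus K C ι} (D : Du F) : D.st F.o = F.o := by
  have h1 : F.mult F.o F.o F.o ≠ 0 := by
    rw [one_mult, if_pos rfl]
    exact one_ne_zero
  rw [du_mult_left D, mult_one] at h1
  by_contra h
  rw [if_neg h] at h1
  exact h1 rfl

/-- the fusion ring of `C` -/
def dring {F : Fus K C ι} (D : Du F) : FRing ι where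
  N := F.mult
  st := D.st
  o := F.o
  st_st := du_st_st D
  st_o := du_st_o D
  left := du_mult_left D
  right := du_mult_right D
  one_mul := one_mult F
  mul_one := mult_one F

end Pool.Agent.NFG
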