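import Pool.Agent.NFG.Tra

/-!
# NFG/Dua: multiplicities and duality
-/

set_option autoImplicit false

noncomputable section

open CategoryTheory MonoidalCategory

namespace Pool.Agent.NFG

universe v u w

section

variable {C : Type u} [Category.{v} C] [MonoidalCategory C]

private theorem du_ins {B B' : C} (c : 𝟙_ C ⟶ B ⊗ B') : ins c (𝟙_ C) ≫ (B ◁ (ρ_ B').hom) = c := by
  simp only [ins, hat]
  simp only [Category.assoc, whiskerLeft_rightUnitor, Iso.hom_inv_id_assoc, rightUnitor_naturality]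
  rw [← unitors_equal, Iso.inv_hom_id_assoc]

private theorem du_del {B B' : C} (e : B' ⊗ B ⟶ 𝟙_ C) : (B' ◁ (ρ_ B).inv) ≫ del e (𝟙_ C) = e := by
  simp only [del, hab]
  rw [unitors_equal]
  simp

/-- `Hom (A, V ⊗ B') ⟶ Hom (A ⊗ B, V)` -/
private def shr {A B B' V : C} (e : B' ⊗ B ⟶ 𝟙_ C) (f : A ⟶ V ⊗ B') : A ⊗ B ⟶ V :=
  (f ▷ B) ≫ (α_ V B' B).hom ≫ (V ◁ e) ≫ (ρ_ V).hom

/-- `Hom (A ⊗ B, V) ⟶ Hom (A, V ⊗ B')` -/
private def flr {A B B' V : C} (c : 𝟙_ C ⟶ B ⊗ B') (g : A ⊗ B ⟶ V) : A ⟶ V ⊗ B' :=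
  (ρ_ A).inv ≫ (A ◁ c) ≫ (α_ A B B').inv ≫ (g ▷ B')

private theorem flr_shr {A B B' V : C} (c : 𝟙_ C ⟶ B ⊗ B') (e : B' ⊗ B ⟶ 𝟙_ C)
    (zig : B' ◁ c ≫ (α_ _ _ _).inv ≫ e ▷ B' = (ρ_ _).hom ≫ (λ_ _).inv) (f : A ⟶ V ⊗ B') : flr c (shr e f) = f := by
  have h1 : flr c (shr e f) = f ≫ (V ◁ ((ρ_ B').inv ≫ (B' ◁ c ≫ (α_ _ _ _).inv ≫ e ▷ B') ≫ (λ_ B').hom)) := by
    simp only [flr, shr]
    have h2 : (A ◁ c) ≫ (α_ A B B').inv ≫ ((f ▷ B) ▷ B') = (f ▷ 𝟙_ C) ≫ ((V ⊗ B') ◁ c) ≫ (α_ (V ⊗ B') B B').inv := by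
      rw [← associator_inv_naturality_left, whisker_exchange_assoc]
    rw [comp_whiskerRight, comp_whiskerRight, comp_whiskerRight]
    have h3 : (ρ_ A).inv ≫ (A ◁ c) ≫ (α_ A B B').inv ≫ ((f ▷ B) ▷ B') ≫ ((α_ V B' B).hom ▷ B') ≫
        ((V ◁ e) ▷ B') ≫ ((ρ_ V).hom ▷ B') = (ρ_ A).inv ≫ ((A ◁ c) ≫ (α_ A B B').inv ≫ ((f ▷ B) ▷ B')) ≫
        ((α_ V B' B).hom ▷ B') ≫ ((V ◁ e) ▷ B') ≫ ((ρ_ V).hom ▷ B') := by
      simp only [Category.assoc]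
    rw [h3, h2]
    monoidal
  rw [h1, zig]
  simp

end

variable {K : Type w} [Field K] {C : Type u} [Category.{v} C] [Preadditive C] [Linear K C] [MonoidalCategory C]
  [MonoidalPreadditive C] [MonoidalLinear K C] {ι : Type} [Fintype ι] [DecidableEq ι]

private theorem du_ne (F : Fus K C ι) {i : ι} {Z : C} {f : F.S i ⟶ Z} {g : Z ⟶ F.S i} (h : f ≫ g = 𝟙 _) : f ≠ 0 := by
  intro h0
  rw [h0, Limits.zero_comp] at h
  exact F.one_ne i h.symm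

private theorem du_cv (F : Fus K C ι) {i j : ι} (c : 𝟙_ C ⟶ F.S j ⊗ F.S i) (e : F.S i ⊗ F.S j ⟶ 𝟙_ C)
    (zag : c ▷ F.S j ≫ (α_ _ _ _).hom ≫ F.S j ◁ e = (λ_ _).hom ≫ (ρ_ _).inv) (f : F.S F.o ⟶ F.S j ⊗ F.S i) :
    ∃ k : K, f = k • (F.u.hom ≫ c) := by
  obtain ⟨k, hk⟩ := F.schur i (F.rho i ≫ sh e f)
  have h1 : sh e f = k • F.rhoi i := by
    have h2 : F.rhoi i ≫ F.rho i ≫ sh e f = sh e f := by
      rw [← Category.assoc, rhoi_rho, Category.id_comp]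
    rw [← h2, hk, Linear.comp_smul, Category.comp_id]
  refine ⟨k, ?_⟩
  have h2 : fl c (k • F.rhoi i) = k • fl c (F.rhoi i) := by
    simp only [fl]
    rw [MonoidalLinear.whiskerLeft_smul, Linear.comp_smul]
  have h3 : fl c (F.rhoi i) = F.u.hom ≫ c := by
    simp only [fl, Fus.rhoi]
    rw [MonoidalCategory.whiskerLeft_comp, ← Category.assoc, ins_natural, Category.assoc, du_ins]
  rw [← fl_sh c e zag f, h1, h2, h3]

private theorem du_ev (F : Fus K C ι) {i j : ι} (c : 𝟙_ C ⟶ F.S j ⊗ F.S i) (e : F.S i ⊗ F.S j ⟶ 𝟙_ C)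
    (zig : F.S i ◁ c ≫ (α_ _ _ _).inv ≫ e ▷ F.S i = (ρ_ _).hom ≫ (λ_ _).inv) (g : F.S i ⊗ F.S j ⟶ F.S F.o) :
    ∃ k : K, g = k • (e ≫ F.u.inv) := by
  obtain ⟨k, hk⟩ := F.schur j (fl c g ≫ F.rhoi j)
  have h1 : fl c g = k • F.rho j := by
    have h2 : (fl c g ≫ F.rhoi j) ≫ F.rho j = fl c g := by
      rw [Category.assoc, rhoi_rho, Category.comp_id]
    rw [← h2, hk, Linear.smul_comp, Category.id_comp]
  refine ⟨k, ?_⟩
  have h2 : sh e (k • F.rho j) = k • sh e (F.rho j) := by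
    simp only [sh]
    rw [MonoidalLinear.whiskerLeft_smul, Linear.smul_comp]
  have h3 : sh e (F.rho j) = e ≫ F.u.inv := by
    simp only [sh, Fus.rho]
    rw [MonoidalCategory.whiskerLeft_comp, Category.assoc, del_natural, ← Category.assoc, du_del]
  rw [← sh_fl c e zig g, h1, h2, h3]

private theorem du_shr {A B B' V : C} {c : 𝟙_ C ⟶ B ⊗ B'} {e : B' ⊗ B ⟶ 𝟙_ C}
    (zig : B' ◁ c ≫ (α_ _ _ _).inv ≫ e ▷ B' = (ρ_ _).hom ≫ (λ_ _).inv) {f : A ⟶ V ⊗ B'} (hf : f ≠ 0) : shr e f ≠ 0 := by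
  intro h
  refine hf ?_
  rw [← flr_shr c e zig f, h]
  simp only [flr]
  rw [MonoidalPreadditive.zero_whiskerRight, Limits.comp_zero, Limits.comp_zero, Limits.comp_zero]

theorem hom_cv {F : Fus K C ι} (sp : Sph F) (y : ι) (f : F.S F.o ⟶ F.S y ⊗ F.S (sp.st y)) :
    ∃ c : K, f = c • (F.u.hom ≫ sp.cv y) := by
  exact du_cv F (sp.cv y) (sp.ev y) (sp.zag y) f

theorem hom_cv' {F : Fus K C ι} (sp : Sph F) (y : ι) (f : F.S F.o ⟶ F.S (sp.st y) ⊗ F.S y) :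
    ∃ c : K, f = c • (F.u.hom ≫ sp.cv' y) := by
  exact du_cv F (sp.cv' y) (sp.ev' y) (sp.zag' y) f

theorem hom_ev {F : Fus K C ι} (sp : Sph F) (y : ι) (g : F.S (sp.st y) ⊗ F.S y ⟶ F.S F.o) :
    ∃ c : K, g = c • (sp.ev y ≫ F.u.inv) := by
  exact du_ev F (sp.cv y) (sp.ev y) (sp.zig y) g

theorem hom_ev' {F : Fus K C ι} (sp : Sph F) (y : ι) (g : F.S y ⊗ F.S (sp.st y) ⟶ F.S F.o) :
    ∃ c : K, g = c • (sp.ev' y ≫ F.u.inv) := by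
  exact du_ev F (sp.cv' y) (sp.ev' y) (sp.zig' y) g

theorem exists_occ {F : Fus K C ι} (sp : Sph F) (hd : ∀ i, sp.d i ≠ 0) (a v : ι) : ∃ m, F.Occ a v m := by
  refine exists_ne_zero F (Z := F.S a ⊗ F.S v) fun h => ?_
  have h1 := lpt_one (W := F.S v) (sp.cv' a) (sp.ev a)
  rw [h, loop'] at h1
  have h2 : lpt (sp.cv' a) (sp.ev a) (0 : F.S a ⊗ F.S v ⟶ F.S a ⊗ F.S v) = 0 := by
    simp only [lpt]
    rw [MonoidalPreadditive.whiskerLeft_zero, Limits.zero_comp, Limits.comp_zero]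
  rw [h2, MonoidalLinear.smul_whiskerRight, Linear.smul_comp, Linear.comp_smul, id_whiskerRight, Category.id_comp,
    Iso.inv_hom_id] at h1
  have h3 : (0 : K) • 𝟙 (F.S v) = sp.d a • 𝟙 (F.S v) := by
    rw [zero_smul]
    exact h1
  exact hd a (smul_one_inj F h3).symm

theorem occ_lam (F : Fus K C ι) (v : ι) : F.Occ F.o v v := by
  exact ⟨F.lam v, du_ne F (lam_lami F v)⟩

theorem occ_rho (F : Fus K C ι) (v : ι) : F.Occ v F.o v := by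
  exact ⟨F.rho v, du_ne F (rho_rhoi F v)⟩

theorem occ_bend {F : Fus K C ι} (sp : Sph F) {a a' y : ι} (h : F.Occ a' (sp.st a) y) : F.Occ y a a' := by
  obtain ⟨f, hf⟩ := h
  obtain ⟨g, hg⟩ := exists_section F (du_shr (sp.zig a) hf)
  exact ⟨g, du_ne F hg⟩

theorem occ_ad {F : Fus K C ι} (sp : Sph F) {a y : ι} (h : F.Occ y a a) : F.Occ a (sp.st a) y := by
  obtain ⟨f, hf⟩ := h
  obtain ⟨g, hg⟩ := exists_section F (du_shr (sp.zig' a) hf)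
  exact ⟨g, du_ne F hg⟩

theorem occ_ev {F : Fus K C ι} (sp : Sph F) (hd : ∀ i, sp.d i ≠ 0) (a : ι) : F.Occ a (sp.st a) F.o := by
  refine ⟨F.u.hom ≫ sp.cv a, fun h => hd a ?_⟩
  have h1 : (F.u.hom ≫ sp.cv a) ≫ sp.ev' a ≫ F.u.inv = sp.d a • 𝟙 (F.S F.o) := by
    rw [Category.assoc, ← Category.assoc (sp.cv a), loop, Linear.smul_comp, Linear.comp_smul, Category.id_comp,
      Iso.hom_inv_id]
  rw [h, Limits.zero_comp, ← zero_smul K (𝟙 (F.S F.o))] at h1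
  exact (smul_one_inj F h1).symm

theorem occ_ev' {F : Fus K C ι} (sp : Sph F) (hd : ∀ i, sp.d i ≠ 0) (a : ι) : F.Occ (sp.st a) a F.o := by
  refine ⟨F.u.hom ≫ sp.cv' a, fun h => hd a ?_⟩
  have h1 : (F.u.hom ≫ sp.cv' a) ≫ sp.ev a ≫ F.u.inv = sp.d a • 𝟙 (F.S F.o) := by
    rw [Category.assoc, ← Category.assoc (sp.cv' a), loop', Linear.smul_comp, Linear.comp_smul, Category.id_comp,
      Iso.hom_inv_id]
  rw [h, Limits.zero_comp, ← zero_smul K (𝟙 (F.S F.o))] at h1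
  exact (smul_one_inj F h1).symm

/-- if `S k` does not occur in `S i ⊗ S j` then there are no morphisms in either direction -/
theorem not_occ (F : Fus K C ι) {i j k : ι} (h : ¬ F.Occ i j k) (f : F.S k ⟶ F.S i ⊗ F.S j) : f = 0 := by
  by_contra hf
  exact h ⟨f, hf⟩

theorem not_occ' (F : Fus K C ι) {i j k : ι} (h : ¬ F.Occ i j k) (g : F.S i ⊗ F.S j ⟶ F.S k) : g = 0 := by
  by_contra hg
  obtain ⟨f, hf⟩ := exists_section F hg
  exact h ⟨f, du_ne F hf⟩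

end Pool.Agent.NFG
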