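import Pool.Agent.NFG.M3d
import Pool.Agent.NFG.Uq3
import Pool.Agent.NFG.Bas

/-!
# NFG/Fin: the main theorem

`ind`: induction on `Nil sp E` with `base`, `base_uniq`, `exists_step`, `uniq_step`.
`main`: for `E = Set.univ`; `rigid` from `rigid_of`, `rigid_of'` (`Ctx sp O univ L`; `IsSub sp univ` is clear).
`main_unique`: `Good → LInt univ`.
-/

set_option autoImplicit false

noncomputable section

open CategoryTheory MonoidalCategory

namespace Pool.Agent.NFG

universe v u w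

variable {K : Type w} [Field K] {C : Type u} [Category.{v} C] [Preadditive C] [Linear K C] [MonoidalCategory C]
  [MonoidalPreadditive C] [MonoidalLinear K C] {ι : Type} [Fintype ι] [DecidableEq ι] {O : Subring K}

theorem ind [IsAlgClosed K] (hO : Val O) {F : Fus K C ι} {sp : Sph F} (hd : ∀ i, IsU O (sp.d i)) {E : Set ι}
    (hE : Nil sp E) : (∃ L : F.Sys O, LInt F O E L) ∧ Uniq F O E := by
  induction hE with
  | vec => exact ⟨base F O, base_uniq F O⟩
  | ext E E' Q hQ hQ' deg h hg ih =>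
    exact ⟨@exists_step K _ C _ _ _ _ _ _ ι _ _ O _ hO F sp hd E E' Q hQ hQ' deg hg ih.2 ih.1,
      @uniq_step K _ C _ _ _ _ _ _ ι _ _ O _ hO F sp hd E E' Q hQ hQ' deg hg ih.2⟩

theorem int_of_good {F : Fus K C ι} {sp : Sph F} {L : F.Sys O} (h : Good sp O L) : LInt F O Set.univ L where
  lat := fun y _ v m => h.lat y v m
  unitL := h.unitL
  unitR := fun y _ => h.unitR y
  assoc := fun y _ y' _ v => h.assoc y y' v

theorem main [IsAlgClosed K] (hO : Val O) {F : Fus K C ι} {sp : Sph F} (hN : Nil sp Set.univ)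
    (hd : ∀ i, IsU O (sp.d i)) :
    ∃ L : F.Sys O, Good sp O L ∧ ∀ L' : F.Sys O, Good sp O L' →
      ∃ g : ι → K, (∀ i, g i ≠ 0) ∧ ∀ i j k, L' i j k = scl (g i * g j * (g k)⁻¹) (L i j k) := by
  obtain ⟨⟨L, hL⟩, hu⟩ := ind hO hd hN
  have hc : Ctx sp O Set.univ L :=
    ⟨hO, hd, ⟨Set.mem_univ _, fun _ _ => Set.mem_univ _, fun _ _ _ _ _ _ => Set.mem_univ _⟩, hL⟩
  refine ⟨L, ⟨fun i j k => hL.lat i (Set.mem_univ _) j k, hL.unitL, fun v => hL.unitR v (Set.mem_univ _),
    fun i j v => hL.assoc i (Set.mem_univ _) j (Set.mem_univ _) v, fun i => rigid_of hc (Set.mem_univ i),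
    fun i => rigid_of' hc (Set.mem_univ i)⟩, fun L' hL' => ?_⟩
  obtain ⟨g, hg, h⟩ := hu L L' hL (int_of_good hL')
  exact ⟨g, hg, fun i j k => h i (Set.mem_univ _) j k⟩

end Pool.Agent.NFG
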