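import Pool.Agent.NFG.FrB

/-!
# NFG/FrC: integrality

`ch_integral`: `c i` is integral over `ℤ`: the vector `(c k)_k` is an eigenvector (nonzero) of the integer matrix
`M j k = N i j k` with eigenvalue `c i`: `sum_k M j k c k = c i c j`.  So `c i` is a root of the characteristic polynomial of `M`
(`Matrix.aeval_self_charpoly`, applied to the vector; or: `ℤ`-span of the `c k` is a finitely generated faithful module stable under
`c i`: `isIntegral_of_smul_mem_submodule`/`IsIntegral` via `Algebra.. of_mem_of_fg`; the submodule `span ℤ (range c)` contains `1 = c o`).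

`emb`: `A` a field of characteristic 0, `c : ι → A` a character.  `B = IntermediateField.adjoin ℚ (Set.range c)` is algebraic over `ℚ`.
(a) There is a `ℚ`-algebra map `B → ℂ` (`IsAlgClosed.lift`).  (b) For `x ∈ B` and a root `z ∈ ℂ` of `minpoly ℚ x` there is `σ : B → ℂ`
with `σ x = z` (`Algebra.IsAlgebraic.range_eval_eq_rootSet_minpoly`).  `σ ∘ c` is a character with values in `ℂ`.

`fp_nat`: `A = ℝ`, `c = f`: for every `σ : B → ℂ` `σ (f a) ^ 2 = f a ^ 2` by `ch_sq`.  So all roots of `minpoly ℚ (f a ^ 2)` in `ℂ` are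
equal to `f a ^ 2`; the polynomial is separable, so its degree is 1 and `f a ^ 2 ∈ ℚ`; it is integral over `ℤ`, so an integer
(`IsIntegrallyClosed`, `IsInteger`), and positive.

`ch_nat`: `A` of characteristic 0, `c` a character with values in `A`: with `σ` of (a) `σ (c a ^ 2) = f a ^ 2 = n = σ n`, and `σ` is
injective.
-/

set_option autoImplicit false

namespace Pool.Agent.NFG

variable {ι : Type} [Fintype ι] [DecidableEq ι]

theorem ch_integral (R : FRing ι) {A : Type*} [Field A] {c : ι → A} (hc : R.IsCh c) (i : ι) : IsIntegral ℤ (c i) := by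
  let M : Matrix ι ι ℤ := fun j k => (R.N i j k : ℤ)
  have h1 : (M.map (Int.castRingHom A)).charpoly.eval (c i) = 0 := by
    rw [Matrix.eval_charpoly]
    apply Matrix.exists_mulVec_eq_zero_iff.1
    refine ⟨c, ?_, ?_⟩
    · intro h
      exact hc.ne i (congrFun h i)
    · funext j
      rw [Matrix.sub_mulVec]
      simp only [Pi.sub_apply, Pi.zero_apply]
      have h2 : (Matrix.scalar ι (c i)).mulVec c j = c i * c j := by
        simp [Matrix.mulVec, dotProduct, Matrix.diagonal_apply]
      have h3 : (M.map (Int.castRingHom A)).mulVec c j = c i * c j := by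
        rw [hc.mul i j]
        unfold Matrix.mulVec dotProduct
        refine Finset.sum_congr rfl fun x _ => ?_
        show (((R.N i j x : ℤ) : A)) * c x = _
        push_cast
        rfl
      rw [h2, h3, sub_self]
  refine ⟨M.charpoly, M.charpoly_monic, ?_⟩
  rw [Matrix.charpoly_map, Polynomial.eval_map] at h1
  exact h1

theorem ch_comp (R : FRing ι) {A B : Type*} [Field A] [Field B] {c : ι → A} (hc : R.IsCh c) (s : A →+* B) :
    R.IsCh (fun i => s (c i)) where
  ne i := by
    rw [Ne, map_eq_zero]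
    exact hc.ne i
  mul i j := by
    rw [← map_mul, hc.mul, map_sum]
    refine Finset.sum_congr rfl fun k _ => ?_
    rw [map_mul, map_natCast]
  st i := by
    rw [hc.st]

private theorem frc_B (R : FRing ι) {A : Type*} [Field A] [Algebra ℚ A] {c : ι → A} (hc : R.IsCh c) :
    Algebra.IsAlgebraic ℚ (IntermediateField.adjoin ℚ (Set.range c)) := by
  have h := IntermediateField.isAlgebraic_adjoin (K := ℚ) (L := A) (S := Set.range c) (by
    rintro _ ⟨i, rfl⟩
    exact (ch_integral R hc i).tower_top)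
  have e : (DivisionRing.toRatAlgebra : Algebra ℚ (IntermediateField.adjoin ℚ (Set.range c))) =
      (IntermediateField.adjoin ℚ (Set.range c)).algebra' := Subsingleton.elim _ _
  rw [e]
  exact h

private theorem frc_ch (R : FRing ι) {A : Type*} [Field A] [Algebra ℚ A] {c : ι → A} (hc : R.IsCh c) :
    R.IsCh (fun i => (⟨c i, IntermediateField.subset_adjoin ℚ _ ⟨i, rfl⟩⟩ :
      IntermediateField.adjoin ℚ (Set.range c))) where
  ne i := by
    intro h
    exact hc.ne i (congrArg Subtype.val h)
  mul i j := by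
    apply Subtype.ext
    have := hc.mul i j
    push_cast
    exact this
  st i := by
    apply Subtype.ext
    exact hc.st i

theorem fp_nat (R : FRing ι) {f : ι → ℝ} (hf : R.IsFP f) (hN : R.Nil Set.univ) (i : ι) :
    ∃ n : ℕ, 0 < n ∧ f i ^ 2 = (n : ℝ) := by
  have hc := fp_ch_real R hf
  have hB := frc_B R hc
  have hcB := frc_ch R hc
  set x : IntermediateField.adjoin ℚ (Set.range f) :=
    (⟨f i, IntermediateField.subset_adjoin ℚ _ ⟨i, rfl⟩⟩ : IntermediateField.adjoin ℚ (Set.range f)) with hx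
  have h1 : ∀ σ : IntermediateField.adjoin ℚ (Set.range f) →ₐ[ℚ] ℂ, σ (x ^ 2) = ((f i ^ 2 : ℝ) : ℂ) := by
    intro σ
    have h2 := ch_sq R hf (ch_comp R hcB σ.toRingHom) hN i (Set.mem_univ i)
    rw [map_pow]
    exact h2
  have h3 : (minpoly ℚ (x ^ 2)).rootSet ℂ ⊆ {((f i ^ 2 : ℝ) : ℂ)} := by
    rw [← Algebra.IsAlgebraic.range_eval_eq_rootSet_minpoly ℂ (x ^ 2)]
    rintro _ ⟨σ, rfl⟩
    exact h1 σ
  have hint : IsIntegral ℚ (x ^ 2) := Algebra.IsIntegral.isIntegral _
  have h4 : (minpoly ℚ (x ^ 2)).natDegree = 1 := by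
    have h5 := Polynomial.card_rootSet_eq_natDegree (K := ℂ) (minpoly.irreducible hint).separable
      (IsAlgClosed.splits _)
    have h6 : Fintype.card ((minpoly ℚ (x ^ 2)).rootSet ℂ) ≤ 1 := by
      rw [Fintype.card_le_one_iff_subsingleton]
      constructor
      rintro ⟨a, ha⟩ ⟨b, hb⟩
      apply Subtype.ext
      show a = b
      rw [h3 ha, h3 hb]
    have h7 := minpoly.natDegree_pos hint
    omega
  obtain ⟨q, hq⟩ := minpoly.natDegree_eq_one_iff.1 h4
  have h8 : (q : ℝ) = f i ^ 2 := by
    have h9 := congrArg (fun y : IntermediateField.adjoin ℚ (Set.range f) => (y : ℝ)) hq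
    simpa using h9
  have h10 : IsIntegral ℤ q := by
    have h11 : IsIntegral ℤ (algebraMap ℚ ℝ q) := by
      have h12 : algebraMap ℚ ℝ q = f i ^ 2 := by
        rw [← h8]
        simp
      rw [h12]
      exact (ch_integral R hc i).pow 2
    exact (isIntegral_algebraMap_iff (algebraMap ℚ ℝ).injective).1 h11
  obtain ⟨m, hm⟩ := IsIntegrallyClosed.isIntegral_iff.1 h10
  have h13 : (m : ℝ) = f i ^ 2 := by
    rw [← h8, ← hm]
    simp
  have h14 : 0 < m := by
    have h15 : (0 : ℝ) < (m : ℝ) := by
      rw [h13]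
      exact pow_pos (hf.pos i) 2
    exact_mod_cast h15
  refine ⟨m.toNat, by omega, ?_⟩
  rw [← h13]
  have h16 : ((m.toNat : ℕ) : ℤ) = m := Int.toNat_of_nonneg h14.le
  rw [← Int.cast_natCast, h16]

theorem ch_nat (R : FRing ι) {f : ι → ℝ} (hf : R.IsFP f) (hN : R.Nil Set.univ) {A : Type*} [Field A] [CharZero A]
    {c : ι → A} (hc : R.IsCh c) (i : ι) {n : ℕ} (hn : f i ^ 2 = (n : ℝ)) : c i ^ 2 = (n : A) := by
  have hB := frc_B R hc
  have hcB := frc_ch R hc
  let σ : IntermediateField.adjoin ℚ (Set.range c) →ₐ[ℚ] ℂ := IsAlgClosed.lift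
  have h2 := ch_sq R hf (ch_comp R hcB σ.toRingHom) hN i (Set.mem_univ i)
  rw [hn] at h2
  have h3 : σ.toRingHom ((⟨c i, IntermediateField.subset_adjoin ℚ _ ⟨i, rfl⟩⟩ :
      IntermediateField.adjoin ℚ (Set.range c)) ^ 2) = σ.toRingHom (n : IntermediateField.adjoin ℚ (Set.range c)) := by
    rw [map_pow, map_natCast]
    rw [h2]
    simp
  have h4 := σ.toRingHom.injective h3
  have h5 := congrArg (fun y : IntermediateField.adjoin ℚ (Set.range c) => (y : A)) h4
  simpa using h5

end Pool.Agent.NFG
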