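import Pool.Agent.NFG.Mul

/-!
# NFG/Mud: dimensions are a character; nilpotency

See the header of `Mul` for `d_mul`, `d_st`.  `nil_ring`: induction on `Nil sp E`, `IsGr` for the fusion ring from `IsGr sp` with
`mult_ne`.
-/

set_option autoImplicit false

noncomputable section

open CategoryTheory MonoidalCategory

namespace Pool.Agent.NFG

universe v u w

variable {K : Type w} [Field K] {C : Type u} [Category.{v} C] [Preadditive C] [Linear K C] [MonoidalCategory C]
  [MonoidalPreadditive C] [MonoidalLinear K C] {ι : Type} [Fintype ι] [DecidableEq ι] {O : Subring K}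

private theorem tr_one_tensor {F : Fus K C ι} (sp : Sph F) (i j : ι) :
    sp.tr (F.S i ⊗ F.S j) (𝟙 _) = sp.d i * sp.d j := by
  rw [sp.tr_left, lpt_one, loop', MonoidalLinear.smul_whiskerRight, Linear.smul_comp, Linear.comp_smul,
    MonoidalCategory.id_whiskerRight, Category.id_comp, Iso.inv_hom_id, map_smul]
  rfl

theorem d_mul {F : Fus K C ι} (sp : Sph F) (i j : ι) : sp.d i * sp.d j = ∑ k, (F.mult i j k : K) * sp.d k := by
  have hfin : ∀ m, FiniteDimensional K (F.S m ⟶ F.S i ⊗ F.S j) := fun m => fin_hom F _ m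
  obtain ⟨g, h1, h2⟩ := dual_basis F (F.S i ⊗ F.S j) (fun m => Module.finrank K (F.S m ⟶ F.S i ⊗ F.S j))
    (fun m => Module.finBasis K (F.S m ⟶ F.S i ⊗ F.S j))
  rw [← tr_one_tensor, ← h2, map_sum]
  refine Finset.sum_congr rfl fun k _ => ?_
  rw [map_sum]
  have h3 : ∀ l : Fin (Module.finrank K (F.S k ⟶ F.S i ⊗ F.S j)), sp.tr (F.S i ⊗ F.S j)
      (g k l ≫ (Module.finBasis K (F.S k ⟶ F.S i ⊗ F.S j)) l) = sp.d k := by
    intro l
    have h4 : (Module.finBasis K (F.S k ⟶ F.S i ⊗ F.S j)) l ≫ g k l = (1 : K) • 𝟙 (F.S k) := by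
      rw [h1 k l l, if_pos rfl, one_smul]
    rw [tr_rank sp _ _ h4, one_mul]
  rw [Finset.sum_congr rfl fun l _ => h3 l, Finset.sum_const, Finset.card_univ, Fintype.card_fin, nsmul_eq_mul]
  rfl

theorem d_st {F : Fus K C ι} (sp : Sph F) (i : ι) : sp.d (sp.st i) = sp.d i := by
  have h1 := tr_one_tensor sp i (sp.st i)
  rw [sp.tr_right, rpt_one, loop', MonoidalLinear.whiskerLeft_smul, Linear.smul_comp, Linear.comp_smul,
    MonoidalCategory.whiskerLeft_id, Category.id_comp, Iso.inv_hom_id, map_smul] at h1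
  exact (mul_left_cancel₀ (d_ne sp i) h1).symm

theorem d_ch {F : Fus K C ι} (sp : Sph F) : (fring sp).IsCh sp.d := by
  exact ⟨d_ne sp, d_mul sp, d_st sp⟩

theorem nil_ring {F : Fus K C ι} (sp : Sph F) {E : Set ι} (hE : Nil sp E) : (fring sp).Nil E := by
  induction hE with
  | vec => exact FRing.Nil.vec
  | ext E E' Q hQ hQ' deg h hg ih =>
    refine FRing.Nil.ext E E' Q hQ hQ' deg ih ⟨hg.sub.one, hg.sub.st, ?_, ?_, hg.ker, hg.surj⟩
    · intro a ha b hb c hc
      exact hg.sub.mul a ha b hb c (mult_ne.1 hc)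
    · intro a ha b hb c hc
      exact hg.mul a ha b hb c (mult_ne.1 hc)

end Pool.Agent.NFG
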