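import Pool.Agent.NFG.Fin
import Pool.Agent.NFG.Mud
import Pool.Agent.NFG.FrC

/-!
# NFG/FinFP: the main theorem in terms of Frobenius-Perron dimensions

`unit_of_coprime`: `a n + b p = 1`.  If `n / p = c ∈ O` then `p⁻¹ = a c + b ∈ O`, a contradiction; so (`Val O`) `p / n = c ∈ O` and
`n⁻¹ = a + b c ∈ O`.  (`n = 0` is impossible.)

`dim_unit`: `fp_nat` gives `n > 0` with `f i ^ 2 = n`, `p ∤ n`; `ch_nat` gives `(d i) ^ 2 = n`; `unit_of_coprime` and `isU_of_pow`.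
-/

set_option autoImplicit false

noncomputable section

open CategoryTheory MonoidalCategory

namespace Pool.Agent.NFG

universe v u w

variable {K : Type w} [Field K] {C : Type u} [Category.{v} C] [Preadditive C] [Linear K C] [MonoidalCategory C]
  [MonoidalPreadditive C] [MonoidalLinear K C] {ι : Type} [Fintype ι] [DecidableEq ι] {O : Subring K}

/-- `f` are the Frobenius-Perron dimensions of the simple objects. -/
def IsFPdim (F : Fus K C ι) (f : ι → ℝ) : Prop :=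
  (∀ i, 0 < f i) ∧ ∀ i j, f i * f j = ∑ k, (Module.finrank K (F.S k ⟶ F.S i ⊗ F.S j) : ℝ) * f k

theorem unit_of_coprime (hO : Val O) [CharZero K] {p : ℕ} (hp : p.Prime) (hpO : ((p : K))⁻¹ ∉ O) {n : ℕ}
    (hn : ¬ p ∣ n) : IsU O (n : K) := by
  have hn0 : n ≠ 0 := by
    rintro rfl
    exact hn (dvd_zero p)
  have hnK : (n : K) ≠ 0 := Nat.cast_ne_zero.2 hn0
  have hpK : (p : K) ≠ 0 := Nat.cast_ne_zero.2 hp.ne_zero
  have hco : IsCoprime (n : ℤ) (p : ℤ) := Nat.isCoprime_iff_coprime.2 (hp.coprime_iff_not_dvd.2 hn).symm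
  obtain ⟨a, b, hab⟩ := hco
  have habK : (a : K) * (n : K) + (b : K) * (p : K) = 1 := by
    have := congrArg (fun z : ℤ => (z : K)) hab
    push_cast at this
    exact this
  have hint : ∀ z : ℤ, (z : K) ∈ O := fun z => intCast_mem O z
  refine ⟨hnK, natCast_mem O n, ?_⟩
  rcases hO ((p : K) / (n : K)) with h1 | h1
  · have h2 : ((n : K))⁻¹ = (a : K) + (b : K) * ((p : K) / (n : K)) := by
      have h3 : ((n : K))⁻¹ = ((a : K) * (n : K) + (b : K) * (p : K)) * ((n : K))⁻¹ := by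
        rw [habK, one_mul]
      rw [h3, add_mul, mul_assoc, mul_inv_cancel₀ hnK, mul_one, mul_assoc, div_eq_mul_inv]
    rw [h2]
    exact O.add_mem (hint a) (O.mul_mem (hint b) h1)
  · exfalso
    apply hpO
    have h2 : ((p : K))⁻¹ = (a : K) * ((p : K) / (n : K))⁻¹ + (b : K) := by
      have h3 : ((p : K))⁻¹ = ((a : K) * (n : K) + (b : K) * (p : K)) * ((p : K))⁻¹ := by
        rw [habK, one_mul]
      rw [h3, add_mul, mul_assoc, mul_assoc, mul_inv_cancel₀ hpK, mul_one, inv_div, div_eq_mul_inv]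
    rw [h2]
    exact O.add_mem (O.mul_mem (hint a) h1) (hint b)

theorem dim_unit (hO : Val O) [CharZero K] {p : ℕ} (hp : p.Prime) (hpO : ((p : K))⁻¹ ∉ O) {F : Fus K C ι} (sp : Sph F)
    (hN : Nil sp Set.univ) {f : ι → ℝ} (hf : IsFPdim F f) (h : ∀ (i : ι) (n : ℕ), f i ^ 2 = (n : ℝ) → ¬ p ∣ n) (i : ι) :
    IsU O (sp.d i) := by
  have hfp : (fring sp).IsFP f := ⟨hf.1, hf.2⟩
  have hnil : (fring sp).Nil Set.univ := nil_ring sp hN
  obtain ⟨n, _, hn⟩ := fp_nat (fring sp) hfp hnil i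
  have h1 : sp.d i ^ 2 = (n : K) := ch_nat (fring sp) hfp hnil (d_ch sp) i hn
  refine isU_of_pow hO (n := 2) (by norm_num) ?_
  rw [h1]
  exact unit_of_coprime hO hp hpO (h i n hn)

theorem main_fp [IsAlgClosed K] [CharZero K] (hO : Val O) {p : ℕ} (hp : p.Prime) (hpO : ((p : K))⁻¹ ∉ O)
    {F : Fus K C ι} {sp : Sph F} (hN : Nil sp Set.univ) {f : ι → ℝ} (hf : IsFPdim F f)
    (h : ∀ (i : ι) (n : ℕ), f i ^ 2 = (n : ℝ) → ¬ p ∣ n) :
    ∃ L : F.Sys O, Good sp O L ∧ ∀ L' : F.Sys O, Good sp O L' →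
      ∃ g : ι → K, (∀ i, g i ≠ 0) ∧ ∀ i j k, L' i j k = scl (g i * g j * (g k)⁻¹) (L i j k) :=
  main hO hN (dim_unit hO hp hpO sp hN hf h)

end Pool.Agent.NFG
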