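import Pool.Agent.NFG.Stm
import Pool.Agent.NFG.DuM

/-!
# NFG/NilB: nilpotency

`grd_deg`: `F.Grd E E' Q deg`: `deg o = 1` (`Occ o o o`, so `deg o = deg o * deg o`), and for `a ∈ E'` with `st a ∈ E'`: `deg (st a) = (deg a)⁻¹` (`Occ a (st a) o`).
`nlp_ring`: show by induction on `F.Nlp E`, for all `E` closed under `st`: `(dring D).Nil E`.  `vec`: clear.  `ext`: `E'` is closed under `st`, then so is `E`
(`deg (st a) = (deg a)⁻¹ = 1`), and the conditions of `FRing.IsGr` are those of `Grd` (`mult_ne`).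
`nlp_nil`: the same for `Nil sp`.
-/

set_option autoImplicit false

noncomputable section

open CategoryTheory MonoidalCategory

namespace Pool.Agent.NFG

universe v u w

variable {K : Type w} [Field K] {C : Type u} [Category.{v} C] [Preadditive C] [Linear K C] [MonoidalCategory C]
  [MonoidalPreadditive C] [MonoidalLinear K C] {ι : Type} [Fintype ι] [DecidableEq ι] {O : Subring K}

private theorem NilB_cl {F : Fus K C ι} (st : ι → ι) (ho : ∀ a, F.Occ a (st a) F.o) {E E' : Set ι} {Q : Type}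
    [Group Q] {deg : ι → Q} (hg : F.Grd E E' Q deg) (hst : ∀ a ∈ E', st a ∈ E') : ∀ a ∈ E, st a ∈ E := by
  obtain ⟨h1, h2, h3, -⟩ := hg
  have hdo : deg F.o = 1 := by
    have h := (h2 F.o h1 F.o h1 F.o (occ_lam F F.o)).2
    exact mul_eq_left.1 h.symm
  intro a ha
  obtain ⟨ha1, ha2⟩ := (h3 a).1 ha
  refine (h3 _).2 ⟨hst a ha1, ?_⟩
  have h := (h2 a ha1 (st a) (hst a ha1) F.o (ho a)).2
  rw [hdo, ha2, one_mul] at h
  exact h.symm

theorem nlp_ring {F : Fus K C ι} (D : Du F) {E : Set ι} (h : F.Nlp E) (hst : ∀ a ∈ E, D.st a ∈ E) :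
    (dring D).Nil E := by
  have ho : ∀ a, F.Occ a (D.st a) F.o := by
    intro a
    rw [← mult_ne, ← du_mult_right D F.o a a, one_mult F a a, if_pos rfl]
    exact one_ne_zero
  induction h with
  | vec => exact FRing.Nil.vec
  | ext E E' Q hQ hQ' deg h hg ih =>
    refine FRing.Nil.ext E E' Q hQ hQ' deg (ih (NilB_cl D.st ho hg hst)) ⟨hg.1, hst, ?_, ?_, hg.2.2.1, hg.2.2.2⟩
    · intro a ha b hb c hc
      exact (hg.2.1 a ha b hb c (mult_ne.1 hc)).1
    · intro a ha b hb c hc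
      exact (hg.2.1 a ha b hb c (mult_ne.1 hc)).2

theorem nlp_nil {F : Fus K C ι} (sp : Sph F) {E : Set ι} (h : F.Nlp E) (hst : ∀ a ∈ E, sp.st a ∈ E) : Nil sp E := by
  have ho : ∀ a, F.Occ a (sp.st a) F.o := by
    intro a
    rw [← mult_ne, ← mult_right sp F.o a a, one_mult F a a, if_pos rfl]
    exact one_ne_zero
  induction h with
  | vec => exact Nil.vec
  | ext E E' Q hQ hQ' deg h hg ih =>
    refine Nil.ext E E' Q hQ hQ' deg (ih (NilB_cl sp.st ho hg hst))
      ⟨⟨hg.1, hst, fun a ha b hb c hc => (hg.2.1 a ha b hb c hc).1⟩, ?_, hg.2.2.1, hg.2.2.2⟩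
    intro a ha b hb c hc
    exact (hg.2.1 a ha b hb c hc).2

end Pool.Agent.NFG
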