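import Mathlib

/-!
# NFG/Fr: fusion rings, characters, Frobenius-Perron dimension (definitions)
-/

set_option autoImplicit false

namespace Pool.Agent.NFG

/-- A fusion ring, given by its structure constants `N i j k = N_{ij}^k`. -/
structure FRing (ι : Type) [Fintype ι] [DecidableEq ι] where
  N : ι → ι → ι → ℕ
  st : ι → ι
  o : ι
  st_st : ∀ i, st (st i) = i
  st_o : st o = o
  left : ∀ i j k, N i j k = N (st i) k j
  right : ∀ i j k, N i j k = N k (st j) i
  one_mul : ∀ j k, N o j k = if j = k then 1 else 0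
  mul_one : ∀ i k, N i o k = if i = k then 1 else 0

variable {ι : Type} [Fintype ι] [DecidableEq ι]

/-- A symmetric character without zeros on basis elements. -/
structure FRing.IsCh (R : FRing ι) {A : Type*} [Field A] (c : ι → A) : Prop where
  ne : ∀ i, c i ≠ 0
  mul : ∀ i j, c i * c j = ∑ k, (R.N i j k : A) * c k
  st : ∀ i, c (R.st i) = c i

/-- The Frobenius-Perron dimensions: a positive character. -/
structure FRing.IsFP (R : FRing ι) (f : ι → ℝ) : Prop where
  pos : ∀ i, 0 < f i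
  mul : ∀ i j, f i * f j = ∑ k, (R.N i j k : ℝ) * f k

/-- A grading of the fusion subring `E'` by the group `Q` with trivial component `E`. -/
structure FRing.IsGr (R : FRing ι) (E E' : Set ι) (Q : Type) [Group Q] (deg : ι → Q) : Prop where
  one : R.o ∈ E'
  st : ∀ a ∈ E', R.st a ∈ E'
  sub : ∀ a ∈ E', ∀ b ∈ E', ∀ c, R.N a b c ≠ 0 → c ∈ E'
  mul : ∀ a ∈ E', ∀ b ∈ E', ∀ c, R.N a b c ≠ 0 → deg c = deg a * deg b
  ker : ∀ a, a ∈ E ↔ a ∈ E' ∧ deg a = 1
  surj : ∀ q : Q, ∃ a ∈ E', deg a = q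

/-- Nilpotent fusion subrings. -/
inductive FRing.Nil (R : FRing ι) : Set ι → Prop
  | vec : R.Nil {R.o}
  | ext (E E' : Set ι) (Q : Type) (_ : Group Q) (_ : Fintype Q) (deg : ι → Q) (h : R.Nil E)
      (hg : R.IsGr E E' Q deg) : R.Nil E'

end Pool.Agent.NFG
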