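import Pool.Agent.NFG.Dua
import Pool.Agent.NFG.Fr

/-!
# NFG/Mul: the fusion ring of a fusion category
-/

set_option autoImplicit false

noncomputable section

open CategoryTheory MonoidalCategory

namespace Pool.Agent.NFG

universe v u w

variable {K : Type w} [Field K] {C : Type u} [Category.{v} C] [Preadditive C] [Linear K C] [MonoidalCategory C]
  [MonoidalPreadditive C] [MonoidalLinear K C] {ι : Type} [Fintype ι] [DecidableEq ι] {O : Subring K}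

/-- `N_{ij}^k` -/
def Fus.mult (F : Fus K C ι) (i j k : ι) : ℕ := Module.finrank K (F.S k ⟶ F.S i ⊗ F.S j)

theorem mult_ne {F : Fus K C ι} {i j k : ι} : F.mult i j k ≠ 0 ↔ F.Occ i j k := by
  haveI := fin_hom F (F.S i ⊗ F.S j) k
  unfold Fus.mult Fus.Occ
  rw [← Nat.pos_iff_ne_zero]
  exact Module.finrank_pos_iff_exists_ne_zero

private theorem ec (F : Fus K C ι) (m : ι) :
    ∃ e : (F.S m ⟶ F.S m) →ₗ[K] K, ∀ f, f = e f • 𝟙 (F.S m) := by
  choose c hc using F.schur m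
  refine ⟨{ toFun := c, map_add' := ?_, map_smul' := ?_ }, hc⟩
  · intro f g
    apply smul_one_inj F (m := m)
    rw [← hc, add_smul, ← hc, ← hc]
  · intro r f
    apply smul_one_inj F (m := m)
    rw [← hc, RingHom.id_apply, smul_eq_mul, mul_smul, ← hc]

theorem finrank_dual (F : Fus K C ι) (Z : C) (m : ι) :
    Module.finrank K (Z ⟶ F.S m) = Module.finrank K (F.S m ⟶ Z) := by
  haveI := fin_hom F Z m
  obtain ⟨e, he⟩ := ec F m
  have hz : ∀ f : F.S m ⟶ F.S m, e f = 0 → f = 0 := by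
    intro f hf
    rw [he f, hf, zero_smul]
  let B : (Z ⟶ F.S m) →ₗ[K] Module.Dual K (F.S m ⟶ Z) :=
    LinearMap.mk₂ K (fun g f => e (f ≫ g))
      (fun g g' f => by rw [Preadditive.comp_add, map_add])
      (fun r g f => by rw [Linear.comp_smul, map_smul])
      (fun g f f' => by rw [Preadditive.add_comp, map_add])
      (fun r g f => by rw [Linear.smul_comp, map_smul])
  have hB : ∀ g f, B g f = e (f ≫ g) := fun _ _ => rfl
  have hBi : Function.Injective B := by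
    rw [← LinearMap.ker_eq_bot, LinearMap.ker_eq_bot']
    intro g hg
    apply nondeg' F
    intro f
    apply hz
    rw [← hB, hg, LinearMap.zero_apply]
  haveI : FiniteDimensional K (Z ⟶ F.S m) := FiniteDimensional.of_injective B hBi
  have hBj : Function.Injective B.flip := by
    rw [← LinearMap.ker_eq_bot, LinearMap.ker_eq_bot']
    intro f hf
    apply nondeg F
    intro g
    apply hz
    rw [← hB, ← LinearMap.flip_apply, hf, LinearMap.zero_apply]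
  have h1 := LinearMap.finrank_le_finrank_of_injective hBi
  have h2 := LinearMap.finrank_le_finrank_of_injective hBj
  rw [Subspace.dual_finrank_eq] at h1 h2
  exact le_antisymm h1 h2

theorem mult_left {F : Fus K C ι} (sp : Sph F) (i j k : ι) : F.mult i j k = F.mult (sp.st i) k j := by
  unfold Fus.mult
  rw [← finrank_dual F (F.S (sp.st i) ⊗ F.S k) j]
  let E : (F.S k ⟶ F.S i ⊗ F.S j) ≃ₗ[K] (F.S (sp.st i) ⊗ F.S k ⟶ F.S j) :=
    { toFun := fun f => sh (sp.ev i) f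
      map_add' := fun f g => sh_add (sp.ev i) f g
      map_smul' := fun c f => sh_smul (sp.ev i) c f
      invFun := fun g => fl (sp.cv i) g
      left_inv := fun f => fl_sh (sp.cv i) (sp.ev i) (sp.zag i) f
      right_inv := fun g => sh_fl (sp.cv i) (sp.ev i) (sp.zig i) g }
  exact E.finrank_eq

private theorem mr_left {A V B B' : C} (c : 𝟙_ C ⟶ B' ⊗ B) (e : B ⊗ B' ⟶ 𝟙_ C)
    (zig : B ◁ c ≫ (α_ _ _ _).inv ≫ e ▷ B = (ρ_ _).hom ≫ (λ_ _).inv) (f : A ⟶ V ⊗ B) :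
    (ρ_ A).inv ≫ (A ◁ c) ≫ (α_ A B' B).inv ≫
      (((f ▷ B') ≫ (α_ V B B').hom ≫ (V ◁ e) ≫ (ρ_ V).hom) ▷ B) = f := by
  have h1 : (ρ_ A).inv ≫ (A ◁ c) ≫ (α_ A B' B).inv ≫
      (((f ▷ B') ≫ (α_ V B B').hom ≫ (V ◁ e) ≫ (ρ_ V).hom) ▷ B) =
      (ρ_ A).inv ≫ ((A ◁ c) ≫ (f ▷ (B' ⊗ B))) ≫ (α_ V B (B' ⊗ B)).hom ≫ (V ◁ (α_ B B' B).inv) ≫
        (V ◁ (e ▷ B)) ≫ (V ◁ (λ_ B).hom) := by
    monoidal
  have h2 : (ρ_ A).inv ≫ ((f ▷ 𝟙_ C) ≫ ((V ⊗ B) ◁ c)) ≫ (α_ V B (B' ⊗ B)).hom ≫ (V ◁ (α_ B B' B).inv) ≫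
        (V ◁ (e ▷ B)) ≫ (V ◁ (λ_ B).hom) =
      f ≫ (V ◁ (ρ_ B).inv) ≫ (V ◁ (B ◁ c ≫ (α_ _ _ _).inv ≫ e ▷ B)) ≫ (V ◁ (λ_ B).hom) := by
    monoidal
  rw [h1, whisker_exchange, h2, zig]
  simp

private theorem mr_right {A V B B' : C} (c : 𝟙_ C ⟶ B' ⊗ B) (e : B ⊗ B' ⟶ 𝟙_ C)
    (zag : c ▷ B' ≫ (α_ _ _ _).hom ≫ B' ◁ e = (λ_ _).hom ≫ (ρ_ _).inv) (g : A ⊗ B' ⟶ V) :
    (((ρ_ A).inv ≫ (A ◁ c) ≫ (α_ A B' B).inv ≫ (g ▷ B)) ▷ B') ≫ (α_ V B B').hom ≫ (V ◁ e) ≫ (ρ_ V).hom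
      = g := by
  have h1 : (((ρ_ A).inv ≫ (A ◁ c) ≫ (α_ A B' B).inv ≫ (g ▷ B)) ▷ B') ≫ (α_ V B B').hom ≫ (V ◁ e) ≫
      (ρ_ V).hom = (A ◁ (λ_ B').inv) ≫ (A ◁ (c ▷ B')) ≫ (A ◁ (α_ B' B B').hom) ≫ (α_ A B' (B ⊗ B')).inv ≫
        ((g ▷ (B ⊗ B')) ≫ (V ◁ e)) ≫ (ρ_ V).hom := by
    monoidal
  have h2 : (A ◁ (λ_ B').inv) ≫ (A ◁ (c ▷ B')) ≫ (A ◁ (α_ B' B B').hom) ≫ (α_ A B' (B ⊗ B')).inv ≫
        (((A ⊗ B') ◁ e) ≫ (g ▷ 𝟙_ C)) ≫ (ρ_ V).hom =
      (A ◁ (λ_ B').inv) ≫ (A ◁ (c ▷ B' ≫ (α_ _ _ _).hom ≫ B' ◁ e)) ≫ (A ◁ (ρ_ B').hom) ≫ g := by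
    monoidal
  rw [h1, ← whisker_exchange, h2, zag]
  simp

theorem mult_right {F : Fus K C ι} (sp : Sph F) (i j k : ι) : F.mult i j k = F.mult k (sp.st j) i := by
  unfold Fus.mult
  rw [← finrank_dual F (F.S k ⊗ F.S (sp.st j)) i]
  let E : (F.S k ⟶ F.S i ⊗ F.S j) ≃ₗ[K] (F.S k ⊗ F.S (sp.st j) ⟶ F.S i) :=
    { toFun := fun f => (f ▷ F.S (sp.st j)) ≫ (α_ (F.S i) (F.S j) (F.S (sp.st j))).hom ≫
        (F.S i ◁ sp.ev' j) ≫ (ρ_ (F.S i)).hom
      map_add' := fun f g => by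
        rw [MonoidalPreadditive.add_whiskerRight, Preadditive.add_comp]
      map_smul' := fun c f => by
        rw [MonoidalLinear.smul_whiskerRight, Linear.smul_comp, RingHom.id_apply]
      invFun := fun g => (ρ_ (F.S k)).inv ≫ (F.S k ◁ sp.cv' j) ≫
        (α_ (F.S k) (F.S (sp.st j)) (F.S j)).inv ≫ (g ▷ F.S j)
      left_inv := fun f => mr_left (sp.cv' j) (sp.ev' j) (sp.zig' j) f
      right_inv := fun g => mr_right (sp.cv' j) (sp.ev' j) (sp.zag' j) g }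
  exact E.finrank_eq

private theorem finrank_simple (F : Fus K C ι) (k j : ι) :
    Module.finrank K (F.S k ⟶ F.S j) = if j = k then 1 else 0 := by
  split_ifs with h
  · subst h
    refine finrank_eq_one (𝟙 (F.S j)) (F.one_ne j) fun f => ?_
    obtain ⟨c, hc⟩ := F.schur j f
    exact ⟨c, hc.symm⟩
  · haveI : Subsingleton (F.S k ⟶ F.S j) :=
      ⟨fun f g => (F.hom_zero k j (fun h' => h h'.symm) f).trans
        (F.hom_zero k j (fun h' => h h'.symm) g).symm⟩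
    exact Module.finrank_zero_of_subsingleton

theorem one_mult (F : Fus K C ι) (j k : ι) : F.mult F.o j k = if j = k then 1 else 0 := by
  unfold Fus.mult
  rw [← finrank_simple F k j]
  let E : (F.S k ⟶ F.S F.o ⊗ F.S j) ≃ₗ[K] (F.S k ⟶ F.S j) :=
    { toFun := fun f => f ≫ F.lami j
      map_add' := fun f g => by rw [Preadditive.add_comp]
      map_smul' := fun c f => by rw [Linear.smul_comp, RingHom.id_apply]
      invFun := fun g => g ≫ F.lam j
      left_inv := fun f => show (f ≫ F.lami j) ≫ F.lam j = f by rw [Category.assoc, lami_lam, Category.comp_id]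
      right_inv := fun g => show (g ≫ F.lam j) ≫ F.lami j = g by rw [Category.assoc, lam_lami, Category.comp_id] }
  exact E.finrank_eq

theorem mult_one (F : Fus K C ι) (i k : ι) : F.mult i F.o k = if i = k then 1 else 0 := by
  unfold Fus.mult
  rw [← finrank_simple F k i]
  let E : (F.S k ⟶ F.S i ⊗ F.S F.o) ≃ₗ[K] (F.S k ⟶ F.S i) :=
    { toFun := fun f => f ≫ F.rhoi i
      map_add' := fun f g => by rw [Preadditive.add_comp]
      map_smul' := fun c f => by rw [Linear.smul_comp, RingHom.id_apply]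
      invFun := fun g => g ≫ F.rho i
      left_inv := fun f => show (f ≫ F.rhoi i) ≫ F.rho i = f by rw [Category.assoc, rhoi_rho, Category.comp_id]
      right_inv := fun g => show (g ≫ F.rho i) ≫ F.rhoi i = g by rw [Category.assoc, rho_rhoi, Category.comp_id] }
  exact E.finrank_eq

theorem d_ne {F : Fus K C ι} (sp : Sph F) (i : ι) : sp.d i ≠ 0 := by
  have h0 : sp.cv' i ≠ 0 := by
    intro h
    have h1 := sp.zig' i
    rw [h, MonoidalPreadditive.whiskerLeft_zero, Limits.zero_comp] at h1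
    apply F.one_ne i
    have h2 : 𝟙 (F.S i) = (ρ_ (F.S i)).inv ≫ ((ρ_ (F.S i)).hom ≫ (λ_ (F.S i)).inv) ≫ (λ_ (F.S i)).hom := by
      simp
    rw [h2, ← h1, Limits.zero_comp, Limits.comp_zero]
  have h3 : F.u.hom ≫ sp.cv' i ≠ 0 := by
    intro h
    apply h0
    have h4 : sp.cv' i = F.u.inv ≫ (F.u.hom ≫ sp.cv' i) := by simp
    rw [h4, h, Limits.comp_zero]
  obtain ⟨g, hg⟩ := exists_retract F h3
  obtain ⟨c, hc⟩ := hom_ev sp i g
  have h5 : (F.u.hom ≫ sp.cv' i) ≫ g = (c * sp.d i) • 𝟙 (F.S F.o) := by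
    rw [hc, Linear.comp_smul, Category.assoc, ← Category.assoc (sp.cv' i), loop', Linear.smul_comp,
      Linear.comp_smul, smul_smul, Category.id_comp, Iso.hom_inv_id]
  rw [hg] at h5
  have h6 : (1 : K) • 𝟙 (F.S F.o) = (c * sp.d i) • 𝟙 (F.S F.o) := by rw [one_smul]; exact h5
  have h7 := smul_one_inj F h6
  intro h8
  rw [h8, mul_zero] at h7
  exact one_ne_zero h7

theorem st_st {F : Fus K C ι} (sp : Sph F) (i : ι) : sp.st (sp.st i) = i := by
  have h1 : F.mult (sp.st i) i F.o ≠ 0 := mult_ne.2 (occ_ev' sp (d_ne sp) i)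
  rw [mult_left sp, mult_one] at h1
  by_contra h
  rw [if_neg h] at h1
  exact h1 rfl

theorem st_o {F : Fus K C ι} (sp : Sph F) : sp.st F.o = F.o := by
  have h1 : F.mult F.o F.o F.o ≠ 0 := by
    rw [one_mult, if_pos rfl]
    exact one_ne_zero
  rw [mult_left sp, mult_one] at h1
  by_contra h
  rw [if_neg h] at h1
  exact h1 rfl

/-- the fusion ring of `C` -/
def fring {F : Fus K C ι} (sp : Sph F) : FRing ι where
  N := F.mult
  st := sp.st
  o := F.o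
  st_st := st_st sp
  st_o := st_o sp
  left := mult_left sp
  right := mult_right sp
  one_mul := one_mult F
  mul_one := mult_one F

end Pool.Agent.NFG
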