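import Pool.Agent.NFG.StmA
import Pool.Agent.NFG.Mul

/-!
# NFG/StmB: the two notions of an `O`-form agree

`form_of_good`: `LatOk`, `UnitOk`, `AssocOk` by `StmA` (for `assoc`: `congrFun`, `SetLike.coe_injective`).  `RigidOk`, first part: for `i` take `j = sp.st i` and the exact
pairing `t • cv i`, `t⁻¹ • ev i` (`sp.zig`, `sp.zag` with the scalars cancelled; `rigid`); second part: `j = sp.st i` and the pairing
`t • cv' i`, `t⁻¹ • ev' i` between `S (st i)` and `S i` (`rigid'`).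

`good_of_form`: take submodules `L'' i j k` with carrier `L i j k` (`isLt_sub`).  `rigid i`: by the first part of `RigidOk` there are `j` and a pairing `e` of `S i` and
`S j`.  `u.hom ≫ e.coevaluation' ≠ 0` (otherwise `e.coevaluation' = 0` and `𝟙 (S i) = 0`), so `Occ i j o`, i.e. `mult i j o ≠ 0`; by `mult_left` and `mult_one`
`j = sp.st i` (`subst` after generalising, or transport).  By `hom_cv`: `e.coevaluation' = t • cv i` (`Hom (S o, S i ⊗ S (st i))` is spanned by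
`u.hom ≫ cv i`), by `hom_ev` `e.evaluation' = t' • ev i`, and the zigzag identity gives `t * t' = 1`.  `rigid' i` from the second part of `RigidOk` in the same way: a pairing of
`S j` and `S i`, `Occ j i o`, `mult j i o ≠ 0` so `i = sp.st j`, i.e. `j = sp.st i` (`st_st`); `hom_cv'`, `hom_ev'`.
-/

set_option autoImplicit false

noncomputable section

open CategoryTheory MonoidalCategory

namespace Pool.Agent.NFG

universe v u w

variable {K : Type w} [Field K] {C : Type u} [Category.{v} C] [Preadditive C] [Linear K C] [MonoidalCategory C]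
  [MonoidalPreadditive C] [MonoidalLinear K C] {ι : Type} [Fintype ι] [DecidableEq ι] {O : Subring K}

private theorem StmB_z1 {X Y : C} {c : 𝟙_ C ⟶ X ⊗ Y} {e : Y ⊗ X ⟶ 𝟙_ C}
    (h : Y ◁ c ≫ (α_ _ _ _).inv ≫ e ▷ Y = (ρ_ Y).hom ≫ (λ_ Y).inv) {t s : K} (ht : t * s = 1) :
    Y ◁ (t • c) ≫ (α_ _ _ _).inv ≫ (s • e) ▷ Y = (ρ_ Y).hom ≫ (λ_ Y).inv := by
  rw [MonoidalLinear.whiskerLeft_smul, MonoidalLinear.smul_whiskerRight, Linear.smul_comp, Linear.comp_smul,
    Linear.comp_smul, smul_smul, ht, one_smul, h]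

private theorem StmB_z2 {X Y : C} {c : 𝟙_ C ⟶ X ⊗ Y} {e : Y ⊗ X ⟶ 𝟙_ C}
    (h : c ▷ X ≫ (α_ _ _ _).hom ≫ X ◁ e = (λ_ X).hom ≫ (ρ_ X).inv) {t s : K} (ht : t * s = 1) :
    (t • c) ▷ X ≫ (α_ _ _ _).hom ≫ X ◁ (s • e) = (λ_ X).hom ≫ (ρ_ X).inv := by
  rw [MonoidalLinear.whiskerLeft_smul, MonoidalLinear.smul_whiskerRight, Linear.smul_comp, Linear.comp_smul,
    Linear.comp_smul, smul_smul, ht, one_smul, h]

theorem form_of_good {F : Fus K C ι} {sp : Sph F} {L : F.Sys O} (h : Good sp O L) :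
    F.IsForm O (fun i j k => (L i j k : Set (F.S k ⟶ F.S i ⊗ F.S j))) := by
  refine ⟨fun i j k => (isLt_iff _).1 (h.lat i j k), fun v => ⟨?_, ?_⟩, ?_, fun i => ?_, fun i => ?_⟩
  · show ((L F.o v v : Submodule O _) : Set (F.S v ⟶ F.S F.o ⊗ F.S v)) = _
    rw [h.unitL v, span_one]
  · show ((L v F.o v : Submodule O _) : Set (F.S v ⟶ F.S v ⊗ F.S F.o)) = _
    rw [h.unitR v, span_one]
  · intro i j v m
    have h1 := congrFun (h.assoc i j v) m
    apply SetLike.coe_injective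
    rw [← N1_eq, ← N2_eq, h1]
  · obtain ⟨t, ht, h1, h2⟩ := h.rigid i
    refine ⟨sp.st i, ⟨t • sp.cv i, t⁻¹ • sp.ev i, StmB_z1 (sp.zig i) (mul_inv_cancel₀ ht),
      StmB_z2 (sp.zag i) (mul_inv_cancel₀ ht)⟩, h1, ?_⟩
    rw [← dl_eq]
    exact h2
  · obtain ⟨t, ht, h1, h2⟩ := h.rigid' i
    refine ⟨sp.st i, ⟨t • sp.cv' i, t⁻¹ • sp.ev' i, StmB_z1 (sp.zig' i) (mul_inv_cancel₀ ht),
      StmB_z2 (sp.zag' i) (mul_inv_cancel₀ ht)⟩, h1, ?_⟩
    rw [← dl_eq]
    exact h2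

private theorem StmB_occ (F : Fus K C ι) {i j : ι} (e : ExactPairing (F.S i) (F.S j)) : F.Occ i j F.o := by
  refine ⟨F.u.hom ≫ e.coevaluation', fun h0 => ?_⟩
  have h1 : e.coevaluation' = 0 := by
    have h2 : F.u.inv ≫ F.u.hom ≫ e.coevaluation' = 0 := by rw [h0, Limits.comp_zero]
    rwa [Iso.inv_hom_id_assoc] at h2
  have h2 := e.evaluation_coevaluation'
  rw [h1, MonoidalPreadditive.zero_whiskerRight, Limits.zero_comp] at h2
  have h3 : (λ_ (F.S i)).inv ≫ ((λ_ (F.S i)).hom ≫ (ρ_ (F.S i)).inv) ≫ (ρ_ (F.S i)).hom = 𝟙 (F.S i) := by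
    simp
  rw [← h2, Limits.zero_comp, Limits.comp_zero] at h3
  exact F.one_ne i h3.symm

private theorem StmB_eq {F : Fus K C ι} (sp : Sph F) {i j : ι} (h : F.Occ i j F.o) : j = sp.st i := by
  have h1 := mult_ne.2 h
  rw [mult_left sp, mult_one] at h1
  by_contra h2
  exact h1 (if_neg (fun h3 => h2 h3.symm))

private theorem StmB_t {F : Fus K C ι} {i j : ι} {c : 𝟙_ C ⟶ F.S i ⊗ F.S j} {e : F.S j ⊗ F.S i ⟶ 𝟙_ C}
    (h : c ▷ (F.S i) ≫ (α_ _ _ _).hom ≫ (F.S i) ◁ e = (λ_ (F.S i)).hom ≫ (ρ_ (F.S i)).inv) {t s : K}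
    (h' : (t • c) ▷ (F.S i) ≫ (α_ _ _ _).hom ≫ (F.S i) ◁ (s • e) = (λ_ (F.S i)).hom ≫ (ρ_ (F.S i)).inv) : t * s = 1 := by
  rw [MonoidalLinear.whiskerLeft_smul, MonoidalLinear.smul_whiskerRight, Linear.smul_comp, Linear.comp_smul,
    Linear.comp_smul, smul_smul, h] at h'
  have h3 : (λ_ (F.S i)).inv ≫ ((λ_ (F.S i)).hom ≫ (ρ_ (F.S i)).inv) ≫ (ρ_ (F.S i)).hom = 𝟙 (F.S i) := by
    simp
  have h4 : (λ_ (F.S i)).inv ≫ ((t * s) • ((λ_ (F.S i)).hom ≫ (ρ_ (F.S i)).inv)) ≫ (ρ_ (F.S i)).hom =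
      (t * s) • 𝟙 (F.S i) := by
    rw [Linear.smul_comp, Linear.comp_smul, h3]
  rw [h', h3] at h4
  by_contra h5
  have h6 : (t * s - 1) • 𝟙 (F.S i) = 0 := by
    rw [sub_smul, one_smul, ← h4, sub_self]
  rcases smul_eq_zero.1 h6 with h7 | h7
  · exact h5 (sub_eq_zero.1 h7)
  · exact F.one_ne i h7

theorem good_of_form {F : Fus K C ι} (sp : Sph F) {L : F.Sy} (h : F.IsForm O L) :
    ∃ L' : F.Sys O, Good sp O L' ∧ ∀ i j k, (L' i j k : Set (F.S k ⟶ F.S i ⊗ F.S j)) = L i j k := by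
  obtain ⟨hl, hu, ha, hr, hr'⟩ := h
  have h0 : ∀ i j k, ∃ L' : Submodule O (F.S k ⟶ F.S i ⊗ F.S j), (L' : Set _) = L i j k ∧ IsLat O L' :=
    fun i j k => isLt_sub (hl i j k)
  choose L' h1 h2 using h0
  have hL : L = fun i j k => (L' i j k : Set (F.S k ⟶ F.S i ⊗ F.S j)) := by
    funext i j k
    exact (h1 i j k).symm
  refine ⟨L', ⟨h2, fun v => ?_, fun v => ?_, fun i j v => ?_, fun i => ?_, fun i => ?_⟩, h1⟩
  · apply SetLike.coe_injective
    rw [h1, span_one]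
    exact (hu v).1
  · apply SetLike.coe_injective
    rw [h1, span_one]
    exact (hu v).2
  · funext m
    apply SetLike.coe_injective
    rw [N1_eq, N2_eq, ← hL, ha i j v m]
  · obtain ⟨j, e, he1, he2⟩ := hr i
    obtain rfl := StmB_eq sp (StmB_occ F e)
    obtain ⟨t, ht⟩ := hom_cv sp i (F.u.hom ≫ e.coevaluation')
    obtain ⟨s, hs⟩ := hom_ev sp i (e.evaluation' ≫ F.u.inv)
    have ht' : e.coevaluation' = t • sp.cv i := by
      rw [← cancel_epi F.u.hom, ht]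
      simp
    have hs' : e.evaluation' = s • sp.ev i := by
      rw [← cancel_mono F.u.inv, hs]
      simp
    have h3 : t * s = 1 := by
      have h4 := e.evaluation_coevaluation'
      rw [ht', hs'] at h4
      exact StmB_t (sp.zag i) h4
    have h4 : t ≠ 0 := left_ne_zero_of_mul_eq_one h3
    refine ⟨t, h4, ?_, ?_⟩
    · rw [← ht', ← SetLike.mem_coe, h1]
      exact he1
    · rw [← eq_inv_of_mul_eq_one_right h3, ← hs', ← SetLike.mem_coe, dl_eq, h1]
      exact he2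
  · obtain ⟨j, e, he1, he2⟩ := hr' i
    obtain rfl : j = sp.st i := by
      rw [StmB_eq sp (StmB_occ F e), st_st sp]
    obtain ⟨t, ht⟩ := hom_cv' sp i (F.u.hom ≫ e.coevaluation')
    obtain ⟨s, hs⟩ := hom_ev' sp i (e.evaluation' ≫ F.u.inv)
    have ht' : e.coevaluation' = t • sp.cv' i := by
      rw [← cancel_epi F.u.hom, ht]
      simp
    have hs' : e.evaluation' = s • sp.ev' i := by
      rw [← cancel_mono F.u.inv, hs]
      simp
    have h3 : t * s = 1 := by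
      have h4 := e.evaluation_coevaluation'
      rw [ht', hs'] at h4
      exact StmB_t (sp.zag' i) h4
    have h4 : t ≠ 0 := left_ne_zero_of_mul_eq_one h3
    refine ⟨t, h4, ?_, ?_⟩
    · rw [← ht', ← SetLike.mem_coe, h1]
      exact he1
    · rw [← eq_inv_of_mul_eq_one_right h3, ← hs', ← SetLike.mem_coe, dl_eq, h1]
      exact he2

end Pool.Agent.NFG
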