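import Pool.Agent.NFG.SpC
import Pool.Agent.NFG.StmB
import Pool.Agent.NFG.NilB
import Pool.Agent.NFG.DuA

/-!
# NFG/FinR: Q1 for nilpotent fusion categories
-/

set_option autoImplicit false

noncomputable section

open CategoryTheory MonoidalCategory

namespace Pool.Agent.NFG

universe v u w

variable {K : Type w} [Field K] {C : Type u} [Category.{v} C] [Preadditive C] [Linear K C] [MonoidalCategory C]
  [MonoidalPreadditive C] [MonoidalLinear K C] {ι : Type} [Fintype ι] [DecidableEq ι] {O : Subring K}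

theorem main_rigid [IsAlgClosed K] [CharZero K] [RigidCategory C] (hO : Val O) {p : ℕ} (hp : p.Prime)
    (hpO : ((p : K))⁻¹ ∉ O) (F : Fus K C ι) (hN : F.Nlp Set.univ) {f : ι → ℝ} (hf : IsFPdim F f)
    (h : ∀ (i : ι) (n : ℕ), f i ^ 2 = (n : ℝ) → ¬ p ∣ n) :
    ∃ L : F.Sy, F.IsForm O L ∧ ∀ L' : F.Sy, F.IsForm O L' →
      ∃ g : ι → K, (∀ i, g i ≠ 0) ∧ ∀ i j k, L' i j k = smS (g i * g j * (g k)⁻¹) (L i j k) := by
  obtain ⟨D⟩ := exists_du F
  obtain ⟨sp, -⟩ := exists_sph D (nlp_ring D hN fun _ _ => Set.mem_univ _) hf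
  obtain ⟨L, hL, hu⟩ := main_fp hO hp hpO (nlp_nil sp hN fun _ _ => Set.mem_univ _) hf h
  refine ⟨_, form_of_good hL, fun L' hL' => ?_⟩
  obtain ⟨L'', hL'', he⟩ := good_of_form sp hL'
  obtain ⟨g, hg, hgL⟩ := hu L'' hL''
  refine ⟨g, hg, fun i j k => ?_⟩
  rw [← he, hgL]
  rfl

end Pool.Agent.NFG
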