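import Pool.Agent.NFG.Fr

/-!
# NFG/FrA: bounds for characters and sums over components

`ch_bound`: `c : ι → ℂ` a character.  Let `j` maximise `‖c j‖ / f j` (`Finset.exists_max_image`, `ι` is nonempty), `M` the maximum;
`M > 0` since `c j ≠ 0`.  `‖c i‖ * ‖c j‖ = ‖sum_k N i j k c k‖ ≤ sum_k N i j k ‖c k‖ ≤ M sum_k N i j k f k = M f i f j = f i ‖c j‖`.
`fp_one`: `f o * f o = f o` (`one_mul`).
`fp_st`: `f' i = f (st i)` is positive and multiplicative: `f (st i) * f (st j) = f (st j) * f (st i) = sum_k N (st j) (st i) k f k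
= sum_k N (st j) (st i) (st k) f (st k)` (`st` is a bijection, `st_st`) and `N (st j) (st i) (st k) = N i j k`
(`left`, `right`, `left`: `N i j k = N (st i) k j = N j (st k) (st i) = N (st j) (st i) (st k)`).  The argument of `ch_bound` with the
real character `f'` gives `f' ≤ f`, and by `st_st` equality.
`ch_one`: `c o = 1` (`c o * c o = c o`, `c o ≠ 0`).
`comp_sum`: for `a₀ ∈ E'`, `deg a₀ = q`; sums over the finite sets `{a | a ∈ E', deg a = q}` and `E`:
`c a₀ * sum_{a ∈ A_q} c a * c a = sum_a c a * (c (st a₀) * c a) = sum_a c a * sum_y N (st a₀) a y c y = sum_y c y * sum_a N a₀ y a c a`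
(`left` with `st_st`: `N (st a₀) a y = N a₀ y a`; only `y ∈ E` and `a ∈ A_q` contribute: if `N (st a₀) a y ≠ 0`, `a ∈ A_q`, then
`deg y = q⁻¹ q = 1`; if `y ∈ E` and `N a₀ y a ≠ 0` then `a ∈ A_q`) `= sum_{y ∈ E} c y * (c a₀ * c y)`.
(`deg (st a₀) = (deg a₀)⁻¹`: `N a₀ (st a₀) o = N a₀ .. ≠ 0`: `right`/`left` and `mul_one`.)
-/

set_option autoImplicit false

namespace Pool.Agent.NFG

variable {ι : Type} [Fintype ι] [DecidableEq ι]

theorem fp_bound (R : FRing ι) {f : ι → ℝ} (hf : R.IsFP f) {g : ι → ℝ} (hg : ∀ i, 0 < g i)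
    (hm : ∀ i j, g i * g j ≤ ∑ k, (R.N i j k : ℝ) * g k) (i : ι) : g i ≤ f i := by
  obtain ⟨j, -, hj⟩ := Finset.exists_max_image (Finset.univ : Finset ι) (fun j => g j / f j) ⟨R.o, Finset.mem_univ _⟩
  have hfj := hf.pos j
  have hgj := hg j
  have h1 : ∀ k, g k ≤ g j / f j * f k := by
    intro k
    have h2 : g k / f k ≤ g j / f j := hj k (Finset.mem_univ k)
    rwa [div_le_iff₀ (hf.pos k)] at h2
  have h3 : g i * g j ≤ f i * g j := by
    calc g i * g j ≤ ∑ k, (R.N i j k : ℝ) * g k := hm i j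
      _ ≤ ∑ k, (R.N i j k : ℝ) * (g j / f j * f k) :=
          Finset.sum_le_sum (fun k _ => mul_le_mul_of_nonneg_left (h1 k) (Nat.cast_nonneg _))
      _ = g j / f j * ∑ k, (R.N i j k : ℝ) * f k := by
          rw [Finset.mul_sum]
          exact Finset.sum_congr rfl (fun k _ => by ring)
      _ = g j / f j * (f i * f j) := by rw [hf.mul i j]
      _ = f i * g j := by field_simp
  exact le_of_mul_le_mul_right h3 hgj

theorem ch_bound (R : FRing ι) {f : ι → ℝ} (hf : R.IsFP f) {c : ι → ℂ} (hc : R.IsCh c) (i : ι) : ‖c i‖ ≤ f i := by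
  refine fp_bound R hf (g := fun i => ‖c i‖) (fun i => norm_pos_iff.mpr (hc.ne i)) (fun i j => ?_) i
  calc ‖c i‖ * ‖c j‖ = ‖c i * c j‖ := (norm_mul _ _).symm
    _ = ‖∑ k, (R.N i j k : ℂ) * c k‖ := by rw [hc.mul i j]
    _ ≤ ∑ k, ‖(R.N i j k : ℂ) * c k‖ := norm_sum_le _ _
    _ = ∑ k, (R.N i j k : ℝ) * ‖c k‖ := by
        refine Finset.sum_congr rfl (fun k _ => ?_)
        rw [norm_mul, Complex.norm_natCast]

theorem fp_one (R : FRing ι) {f : ι → ℝ} (hf : R.IsFP f) : f R.o = 1 := by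
  have h1 := hf.mul R.o R.o
  have h2 := hf.pos R.o
  rw [Finset.sum_eq_single R.o] at h1
  · rw [R.one_mul, if_pos rfl, Nat.cast_one, one_mul] at h1
    exact mul_right_cancel₀ h2.ne' (by rw [h1, one_mul])
  · intro k _ hk
    rw [R.one_mul, if_neg (Ne.symm hk), Nat.cast_zero, zero_mul]
  · intro h
    exact absurd (Finset.mem_univ _) h

private theorem N_st (R : FRing ι) (i j k : ι) : R.N i j k = R.N (R.st j) (R.st i) (R.st k) := by
  rw [R.left i j k, R.right (R.st i) k j, R.left j (R.st k) (R.st i)]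

theorem fp_st (R : FRing ι) {f : ι → ℝ} (hf : R.IsFP f) (i : ι) : f (R.st i) = f i := by
  have key : ∀ i, f (R.st i) ≤ f i := by
    refine fun i => fp_bound R hf (g := fun i => f (R.st i)) (fun i => hf.pos _) (fun i j => ?_) i
    refine le_of_eq ?_
    show f (R.st i) * f (R.st j) = ∑ k, (R.N i j k : ℝ) * f (R.st k)
    rw [mul_comm, hf.mul]
    have e : Function.Involutive R.st := R.st_st
    rw [← Equiv.sum_comp e.toPerm]
    refine Finset.sum_congr rfl (fun k _ => ?_)
    rw [N_st R i j k]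
    rfl
  refine le_antisymm (key i) ?_
  have h := key (R.st i)
  rwa [R.st_st] at h

theorem ch_one (R : FRing ι) {A : Type*} [Field A] {c : ι → A} (hc : R.IsCh c) : c R.o = 1 := by
  have h1 := hc.mul R.o R.o
  have h2 := hc.ne R.o
  rw [Finset.sum_eq_single R.o] at h1
  · rw [R.one_mul, if_pos rfl, Nat.cast_one, one_mul] at h1
    exact mul_right_cancel₀ h2 (by rw [h1, one_mul])
  · intro k _ hk
    rw [R.one_mul, if_neg (Ne.symm hk), Nat.cast_zero, zero_mul]
  · intro h
    exact absurd (Finset.mem_univ _) h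

open Classical in
theorem comp_sum (R : FRing ι) {E E' : Set ι} {Q : Type} [Group Q] {deg : ι → Q} (hg : R.IsGr E E' Q deg)
    {A : Type*} [Field A] {c : ι → A} (hc : R.IsCh c) (q : Q) :
    ∑ a ∈ Finset.univ.filter (fun a => a ∈ E' ∧ deg a = q), c a ^ 2 =
      ∑ y ∈ Finset.univ.filter (fun y => y ∈ E), c y ^ 2 := by
  obtain ⟨a₀, ha₀, hq⟩ := hg.surj q
  have hst : deg (R.st a₀) * q = 1 := by
    have h1 : R.N (R.st a₀) a₀ R.o ≠ 0 := by
      rw [R.left (R.st a₀) a₀ R.o, R.st_st, R.mul_one, if_pos rfl]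
      exact one_ne_zero
    have h2 := hg.mul _ (hg.st a₀ ha₀) _ ha₀ _ h1
    have h3 : deg R.o = 1 := by
      have h4 : R.N R.o R.o R.o ≠ 0 := by
        rw [R.one_mul, if_pos rfl]
        exact one_ne_zero
      have h5 := hg.mul _ hg.one _ hg.one _ h4
      exact (mul_eq_left.mp h5.symm)
    rw [← hq, ← h2, h3]
  refine mul_left_cancel₀ (hc.ne a₀) ?_
  calc c a₀ * ∑ a ∈ Finset.univ.filter (fun a => a ∈ E' ∧ deg a = q), c a ^ 2
      = ∑ a ∈ Finset.univ.filter (fun a => a ∈ E' ∧ deg a = q), c a * (c (R.st a₀) * c a) := by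
        rw [Finset.mul_sum, hc.st]
        exact Finset.sum_congr rfl (fun a _ => by ring)
    _ = ∑ a ∈ Finset.univ.filter (fun a => a ∈ E' ∧ deg a = q), ∑ y, c a * ((R.N (R.st a₀) a y : A) * c y) := by
        refine Finset.sum_congr rfl (fun a _ => ?_)
        rw [hc.mul, Finset.mul_sum]
    _ = ∑ y, ∑ a ∈ Finset.univ.filter (fun a => a ∈ E' ∧ deg a = q), c a * ((R.N (R.st a₀) a y : A) * c y) :=
        Finset.sum_comm
    _ = ∑ y, if y ∈ E then c a₀ * c y ^ 2 else 0 := by
        refine Finset.sum_congr rfl (fun y _ => ?_)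
        split_ifs with hy
        · have hy' := (hg.ker y).mp hy
          have h6 : ∑ a ∈ Finset.univ.filter (fun a => a ∈ E' ∧ deg a = q), (R.N a₀ y a : A) * c a =
              ∑ a, (R.N a₀ y a : A) * c a := by
            refine Finset.sum_subset (Finset.subset_univ _) (fun a _ ha => ?_)
            by_cases h7 : R.N a₀ y a = 0
            · rw [h7, Nat.cast_zero, zero_mul]
            · exfalso
              apply ha
              rw [Finset.mem_filter]
              refine ⟨Finset.mem_univ _, hg.sub _ ha₀ _ hy'.1 _ h7, ?_⟩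
              rw [hg.mul _ ha₀ _ hy'.1 _ h7, hy'.2, mul_one, hq]
          calc ∑ a ∈ Finset.univ.filter (fun a => a ∈ E' ∧ deg a = q), c a * ((R.N (R.st a₀) a y : A) * c y)
              = ∑ a ∈ Finset.univ.filter (fun a => a ∈ E' ∧ deg a = q), (R.N a₀ y a : A) * c a * c y := by
                refine Finset.sum_congr rfl (fun a _ => ?_)
                rw [R.left (R.st a₀) a y, R.st_st]
                ring
            _ = (∑ a, (R.N a₀ y a : A) * c a) * c y := by rw [← Finset.sum_mul, h6]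
            _ = c a₀ * c y ^ 2 := by
                rw [← hc.mul]
                ring
        · refine Finset.sum_eq_zero (fun a ha => ?_)
          rw [Finset.mem_filter] at ha
          by_cases h7 : R.N (R.st a₀) a y = 0
          · rw [h7, Nat.cast_zero, zero_mul, mul_zero]
          · exfalso
            apply hy
            rw [hg.ker]
            refine ⟨hg.sub _ (hg.st a₀ ha₀) _ ha.2.1 _ h7, ?_⟩
            rw [hg.mul _ (hg.st a₀ ha₀) _ ha.2.1 _ h7, ha.2.2, hst]
    _ = c a₀ * ∑ y ∈ Finset.univ.filter (fun y => y ∈ E), c y ^ 2 := by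
        rw [← Finset.sum_filter, Finset.mul_sum]

end Pool.Agent.NFG
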