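import Pool.Agent.NFG.FrA

/-!
# NFG/FrB: complex characters of nilpotent fusion rings

Induction on `R.Nil E`: `c i ^ 2 = f i ^ 2` for `i ∈ E`.  `E = {o}`: both are `1`.  Step: for `q : Q` by `comp_sum` (for `c` and for the
character `fun i => (f i : ℂ)`, see `fp_ch`) and induction `sum_{a ∈ A_q} c a ^ 2 = sum_{y ∈ E} c y ^ 2 = sum_{y ∈ E} f y ^ 2 =
sum_{a ∈ A_q} f a ^ 2`.  Real parts: `Re (c a ^ 2) ≤ ‖c a‖ ^ 2 ≤ f a ^ 2` (`ch_bound`), so equality for each `a ∈ A_q`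
(`Finset.sum_eq_sum_iff_of_le`).  `Re z = ‖z‖`-type equality for `z = c a ^ 2`: `Re z = f a ^ 2 ≥ ‖z‖ ≥ Re z`, so `Im z = 0` and
`z = f a ^ 2`.
-/

set_option autoImplicit false

namespace Pool.Agent.NFG

variable {ι : Type} [Fintype ι] [DecidableEq ι]

theorem fp_ch (R : FRing ι) {f : ι → ℝ} (hf : R.IsFP f) : R.IsCh (fun i => (f i : ℂ)) := by
  refine ⟨fun i => ?_, fun i j => ?_, fun i => ?_⟩
  · exact Complex.ofReal_ne_zero.2 (hf.pos i).ne'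
  · have h := hf.mul i j
    have h2 : ((f i * f j : ℝ) : ℂ) = ((∑ k, (R.N i j k : ℝ) * f k : ℝ) : ℂ) := by rw [h]
    push_cast at h2
    exact h2
  · have h := fp_st R hf i
    simp only [h]

theorem fp_ch_real (R : FRing ι) {f : ι → ℝ} (hf : R.IsFP f) : R.IsCh f :=
  ⟨fun i => (hf.pos i).ne', fun i j => hf.mul i j, fun i => fp_st R hf i⟩

private theorem ch_sq_step (R : FRing ι) {f : ι → ℝ} (hf : R.IsFP f) {c : ι → ℂ} (hc : R.IsCh c) {E : Set ι}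
    (ih : ∀ i ∈ E, c i ^ 2 = ((f i ^ 2 : ℝ) : ℂ)) (i : ι) (S T : Finset ι) (hT : ∀ y ∈ T, y ∈ E) (hS : i ∈ S)
    (h1 : ∑ a ∈ S, c a ^ 2 = ∑ y ∈ T, c y ^ 2) (h2 : ∑ a ∈ S, f a ^ 2 = ∑ y ∈ T, f y ^ 2) :
    c i ^ 2 = ((f i ^ 2 : ℝ) : ℂ) := by
  have h3 : ∑ y ∈ T, c y ^ 2 = ((∑ y ∈ T, f y ^ 2 : ℝ) : ℂ) := by
    rw [Complex.ofReal_sum]
    exact Finset.sum_congr rfl fun y hy => ih y (hT y hy)
  have h4 : ∑ a ∈ S, c a ^ 2 = ((∑ a ∈ S, f a ^ 2 : ℝ) : ℂ) := by rw [h1, h3, h2]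
  have h5 : ∑ a ∈ S, (c a ^ 2).re = ∑ a ∈ S, f a ^ 2 := by
    have h := congrArg Complex.re h4
    rw [Complex.re_sum, Complex.ofReal_re] at h
    exact h
  have hn : ∀ a, ‖c a ^ 2‖ ≤ f a ^ 2 := by
    intro a
    rw [norm_pow]
    exact pow_le_pow_left₀ (norm_nonneg _) (ch_bound R hf hc a) 2
  have h6 : ∀ a ∈ S, (c a ^ 2).re ≤ f a ^ 2 := fun a _ => (Complex.re_le_norm _).trans (hn a)
  have h7 : (c i ^ 2).re = f i ^ 2 := (Finset.sum_eq_sum_iff_of_le h6).1 h5 i hS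
  have h8 : ‖c i ^ 2‖ ^ 2 ≤ (f i ^ 2) ^ 2 := pow_le_pow_left₀ (norm_nonneg _) (hn i) 2
  have h9 : ‖c i ^ 2‖ ^ 2 = (c i ^ 2).re * (c i ^ 2).re + (c i ^ 2).im * (c i ^ 2).im := by
    rw [Complex.sq_norm, Complex.normSq_apply]
  have h10 : (c i ^ 2).im = 0 := by
    rw [h9, h7] at h8
    nlinarith [mul_self_nonneg ((c i ^ 2).im)]
  apply Complex.ext
  · rw [Complex.ofReal_re]
    exact h7
  · rw [Complex.ofReal_im]
    exact h10

open Classical in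
theorem ch_sq (R : FRing ι) {f : ι → ℝ} (hf : R.IsFP f) {c : ι → ℂ} (hc : R.IsCh c) {E : Set ι} (hE : R.Nil E) :
    ∀ i ∈ E, c i ^ 2 = ((f i ^ 2 : ℝ) : ℂ) := by
  induction hE with
  | vec =>
    intro i hi
    have hi' : i = R.o := hi
    rw [hi', ch_one R hc, fp_one R hf]
    simp
  | ext E E' Q _ _ deg h hg ih =>
    intro i hi
    have h1 := comp_sum R hg hc (deg i)
    have h2 := comp_sum R hg (fp_ch_real R hf) (deg i)
    refine ch_sq_step R hf hc ih i _ _ ?_ ?_ h1 h2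
    · intro y hy
      exact (Finset.mem_filter.1 hy).2
    · exact Finset.mem_filter.2 ⟨Finset.mem_univ _, hi, rfl⟩

end Pool.Agent.NFG
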