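import Pool.Agent.NFG.Uf

/-!
# NFG/FroA: Frobenius reciprocity over `O`, the four inclusions

`h1 : L y (st y) o = O t1 (u ≫ cv y)`, `h2 : L (st y) y o = O t2 (u ≫ cv' y)`.

`sh_mem`: let `f ∈ L y v v'`, `w ∈ L (st y) v' v`.  Then `w ≫ (S (st y) ◁ f) ∈ N2 L (st y) (L y v) v`
`= N1 L (st y) y (fun k => L k v) v` (`assoc`, `mem_N2`).  By `dl_rank_one` (`loop'`: `(u ≫ cv') ≫ (ev ≫ u⁻¹) = d y • 𝟙`, all
`S (st y) ⊗ S y ⟶ S o` are multiples of `ev ≫ u⁻¹` by `hom_ev`) `dl (L (st y) y o) = O (t2⁻¹ / d y) (ev ≫ u⁻¹)`; as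
`d y` is a unit, `t2⁻¹ • (ev y ≫ u⁻¹) ∈ dl (L (st y) y o)`.  So `N1_dl` gives
`w ≫ (S (st y) ◁ f) ≫ hab (t2⁻¹ • (ev y ≫ u⁻¹)) (S v) ∈ L o v v = O lam v`; compose with `lami v` (`hab_lami`, `lam_lami`):
`t2⁻¹ • (w ≫ sh (ev y) f) ∈ O • 𝟙`.

`fl_mem`: `fl (cv y) g = ins (cv y) (S v') ≫ (S y ◁ g)` and `ins (cv y) (S v') = lam v' ≫ hat (u ≫ cv y) (S v')` (`lam_hat`).
`t1 • hat (u ≫ cv y) ..`: `t1 • (u ≫ cv y) ∈ L y (st y) o` and `lam v' ∈ L o v' v'`, so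
`t1 • ins (cv y) (S v') ∈ N1 L y (st y) (fun k => L k v') v' = N2 L y (L (st y) v') v'`; compose with `S y ◁ g`,
`g ∈ dl (L (st y) v' v)`: `N2_dl`.

The primed versions are the same with `y`, `st y` and `(cv, ev)`, `(cv', ev')` exchanged (`loop`, `hom_ev'`).
-/

set_option autoImplicit false

noncomputable section

open CategoryTheory MonoidalCategory

namespace Pool.Agent.NFG

universe v u w

variable {K : Type w} [Field K] {C : Type u} [Category.{v} C] [Preadditive C] [Linear K C] [MonoidalCategory C]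
  [MonoidalPreadditive C] [MonoidalLinear K C] {ι : Type} [Fintype ι] [DecidableEq ι] {O : Subring K}

private theorem sh_gen {F : Fus K C ι} {sp : Sph F} {E : Set ι} {L : F.Sys O} (h : Ctx sp O E L) {y y' : ι}
    (hy : y ∈ E) (hy' : y' ∈ E) {e : F.S y' ⊗ F.S y ⟶ 𝟙_ C} {c : 𝟙_ C ⟶ F.S y' ⊗ F.S y} {d : K} (hd : d ∈ O)
    (hce : c ≫ e = d • 𝟙 (𝟙_ C)) {t2 : K} (ht2 : t2 ≠ 0)
    (h2 : L y' y F.o = Submodule.span O {t2 • (F.u.hom ≫ c)}) {v v' : ι}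
    {f : F.S v' ⟶ F.S y ⊗ F.S v} (hf : f ∈ L y v v') : sh e f ∈ scl t2 (F.dl (L y' v' v)) := by
  rw [mem_scl_iff ht2]
  intro w hw
  have h3 : w ≫ (F.S y' ◁ f) ∈ F.N2 L y' (L y v) v := mem_N2 hw hf
  rw [← h.int.assoc y' hy' y hy v] at h3
  have hb : t2⁻¹ • (e ≫ F.u.inv) ∈ F.dl (L y' y F.o) := by
    rw [h2]
    intro f' hf'
    obtain ⟨a, ha⟩ := Submodule.mem_span_singleton.1 hf'
    refine ⟨(a : K) * d, O.mul_mem a.2 hd, ?_⟩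
    have h4 : (a • (t2 • (F.u.hom ≫ c)) : F.S F.o ⟶ F.S y' ⊗ F.S y) = (a : K) • (t2 • (F.u.hom ≫ c)) := rfl
    have h5 : (F.u.hom ≫ c) ≫ (e ≫ F.u.inv) = d • 𝟙 (F.S F.o) := by
      have h6 : (F.u.hom ≫ c) ≫ (e ≫ F.u.inv) = F.u.hom ≫ (c ≫ e) ≫ F.u.inv := by
        simp only [Category.assoc]
      rw [h6, hce, Linear.smul_comp, Category.id_comp, Linear.comp_smul, Iso.hom_inv_id]
    rw [← ha, h4, Linear.smul_comp, Linear.smul_comp, Linear.comp_smul, h5, smul_smul t2, mul_inv_cancel₀ ht2,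
      one_smul, smul_smul]
  have h7 := N1_dl h3 hb
  have h8 : (w ≫ (F.S y' ◁ f)) ≫ hab (t2⁻¹ • (e ≫ F.u.inv)) (F.S v) ∈ L F.o v v := h7
  rw [h.int.unitL v] at h8
  obtain ⟨a, ha⟩ := Submodule.mem_span_singleton.1 h8
  refine ⟨(a : K), a.2, ?_⟩
  have h9 : (a • F.lam v : F.S v ⟶ F.S F.o ⊗ F.S v) = (a : K) • F.lam v := rfl
  rw [h9] at ha
  have h10 := congrArg (fun q => q ≫ F.lami v) ha
  simp only [Linear.smul_comp, lam_lami] at h10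
  rw [h10, hab_smul, Category.assoc, Category.assoc, Linear.smul_comp, hab_lami]
  simp only [sh, Linear.comp_smul]

private theorem fl_gen {F : Fus K C ι} {sp : Sph F} {E : Set ι} {L : F.Sys O} (h : Ctx sp O E L) {y y' : ι}
    (hy : y ∈ E) (hy' : y' ∈ E) {c : 𝟙_ C ⟶ F.S y ⊗ F.S y'} {t1 : K} (ht1 : t1 ≠ 0)
    (h1 : L y y' F.o = Submodule.span O {t1 • (F.u.hom ≫ c)}) {v v' : ι}
    {g : F.S y' ⊗ F.S v' ⟶ F.S v} (hg : g ∈ F.dl (L y' v' v)) : fl c g ∈ scl t1⁻¹ (L y v v') := by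
  rw [mem_scl_iff (inv_ne_zero ht1), inv_inv]
  have hx : t1 • (F.u.hom ≫ c) ∈ L y y' F.o := by
    rw [h1]
    exact Submodule.mem_span_singleton_self _
  have hl : F.lam v' ∈ L F.o v' v' := by
    rw [h.int.unitL v']
    exact Submodule.mem_span_singleton_self _
  have h3 : F.lam v' ≫ hat (t1 • (F.u.hom ≫ c)) (F.S v') ∈ F.N1 L y y' (fun k => L k v') v' := mem_N1 hx hl
  rw [h.int.assoc y hy y' hy' v', hat_smul, Linear.comp_smul, lam_hat] at h3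
  have h4 := N2_dl h3 hg
  rw [Linear.smul_comp] at h4
  exact h4

theorem sh_mem {F : Fus K C ι} {sp : Sph F} {E : Set ι} {L : F.Sys O} (h : Ctx sp O E L) {y : ι} (hy : y ∈ E)
    {t2 : K} (ht2 : t2 ≠ 0) (h2 : L (sp.st y) y F.o = Submodule.span O {t2 • (F.u.hom ≫ sp.cv' y)}) {v v' : ι}
    {f : F.S v' ⟶ F.S y ⊗ F.S v} (hf : f ∈ L y v v') : sh (sp.ev y) f ∈ scl t2 (F.dl (L (sp.st y) v' v)) :=
  sh_gen h hy (h.sub.st y hy) (h.du y).2.1 (loop' sp y) ht2 h2 hf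

theorem fl_mem {F : Fus K C ι} {sp : Sph F} {E : Set ι} {L : F.Sys O} (h : Ctx sp O E L) {y : ι} (hy : y ∈ E)
    {t1 : K} (ht1 : t1 ≠ 0) (h1 : L y (sp.st y) F.o = Submodule.span O {t1 • (F.u.hom ≫ sp.cv y)}) {v v' : ι}
    {g : F.S (sp.st y) ⊗ F.S v' ⟶ F.S v} (hg : g ∈ F.dl (L (sp.st y) v' v)) :
    fl (sp.cv y) g ∈ scl t1⁻¹ (L y v v') :=
  fl_gen h hy (h.sub.st y hy) ht1 h1 hg

theorem sh_mem' {F : Fus K C ι} {sp : Sph F} {E : Set ι} {L : F.Sys O} (h : Ctx sp O E L) {y : ι} (hy : y ∈ E)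
    {t1 : K} (ht1 : t1 ≠ 0) (h1 : L y (sp.st y) F.o = Submodule.span O {t1 • (F.u.hom ≫ sp.cv y)}) {v v' : ι}
    {f : F.S v' ⟶ F.S (sp.st y) ⊗ F.S v} (hf : f ∈ L (sp.st y) v v') :
    sh (sp.ev' y) f ∈ scl t1 (F.dl (L y v' v)) :=
  sh_gen h (h.sub.st y hy) hy (h.du y).2.1 (loop sp y) ht1 h1 hf

theorem fl_mem' {F : Fus K C ι} {sp : Sph F} {E : Set ι} {L : F.Sys O} (h : Ctx sp O E L) {y : ι} (hy : y ∈ E)
    {t2 : K} (ht2 : t2 ≠ 0) (h2 : L (sp.st y) y F.o = Submodule.span O {t2 • (F.u.hom ≫ sp.cv' y)}) {v v' : ι}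
    {g : F.S y ⊗ F.S v' ⟶ F.S v} (hg : g ∈ F.dl (L y v' v)) :
    fl (sp.cv' y) g ∈ scl t2⁻¹ (L (sp.st y) v v') :=
  fl_gen h (h.sub.st y hy) hy ht2 h2 hg

end Pool.Agent.NFG
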