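import Pool.Agent.NFG.FroA

/-!
# NFG/FroB: Frobenius reciprocity over `O`

`frob_const`: `lat_rank_one` (with `hom_cv`, `hom_cv'`; `u ≫ cv y ≠ 0` because of `loop`, `loop'`, `d y ≠ 0`) gives `t1, t2`
with `h1, h2` of `FroA`.  Take `f = rho y ∈ L y o y` (`unitR`): `f = fl (sh f)` (`fl_sh`, `zag`), so by `sh_mem`, `fl_mem`
`rho y ∈ scl (t2 * t1⁻¹) (O rho y)`, hence `t1 / t2 ∈ O`.  With `st y ∈ E` in place of `y`: `f = rho (st y) ∈ L (st y) o (st y)`,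
`f = fl (cv' y) (sh (ev' y) f)` (`fl_sh` with `zag' y`), `sh_mem'`, `fl_mem'`: `t2 / t1 ∈ O`.

`frob`: `c = t2`.  `→` is `sh_mem`.  `←`: `f = fl (cv y) (sh (ev y) f)`, `sh f ∈ scl t2 (dl ..)`, `fl_mem`, `fl_smul`: `f ∈ scl (t2 * t1⁻¹) (L y v v')
= L y v v'`.

`rigid_of`: `t = t1`: `u ≫ (t1 • cv y) ∈ L y (st y) o` by `h1`; `(t1⁻¹ • ev y) ≫ u⁻¹ ∈ dl (L (st y) y o) = O t2⁻¹ (ev ≫ u⁻¹)`
(up to units, see the proof of `sh_mem`).  `rigid_of'`: `t = t2`.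
-/

set_option autoImplicit false

noncomputable section

open CategoryTheory MonoidalCategory

namespace Pool.Agent.NFG

universe v u w

variable {K : Type w} [Field K] {C : Type u} [Category.{v} C] [Preadditive C] [Linear K C] [MonoidalCategory C]
  [MonoidalPreadditive C] [MonoidalLinear K C] {ι : Type} [Fintype ι] [DecidableEq ι] {O : Subring K}

private theorem fb_unit_ne (F : Fus K C ι) : (𝟙 (𝟙_ C) : 𝟙_ C ⟶ 𝟙_ C) ≠ 0 := by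
  intro h
  apply F.one_ne F.o
  have h1 : 𝟙 (F.S F.o) = F.u.hom ≫ 𝟙 (𝟙_ C) ≫ F.u.inv := by simp
  rw [h1, h, Limits.zero_comp, Limits.comp_zero]

private theorem fb_ne (F : Fus K C ι) {Z : C} {c : 𝟙_ C ⟶ Z} {e : Z ⟶ 𝟙_ C} {d : K} (hd : d ≠ 0)
    (h : c ≫ e = d • 𝟙 (𝟙_ C)) : F.u.hom ≫ c ≠ 0 := by
  intro h0
  have h1 : c = F.u.inv ≫ F.u.hom ≫ c := by simp
  rw [h0, Limits.comp_zero] at h1
  rw [h1, Limits.zero_comp] at h
  exact smul_ne_zero hd (fb_unit_ne F) h.symm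

private theorem fb_osmul (c : O) {X Y : C} (f : X ⟶ Y) : (c • f : X ⟶ Y) = (c : K) • f := rfl

private theorem fb_rho_ne (F : Fus K C ι) (y : ι) : F.rho y ≠ 0 := by
  intro h
  have h1 := rho_rhoi F y
  rw [h, Limits.zero_comp] at h1
  exact F.one_ne y h1.symm

/-- one of the two integrality statements -/
private theorem fb_int (F : Fus K C ι) {y y' : ι} {c : 𝟙_ C ⟶ F.S y ⊗ F.S y'} {e : F.S y' ⊗ F.S y ⟶ 𝟙_ C}
    (zag : c ▷ F.S y ≫ (α_ _ _ _).hom ≫ F.S y ◁ e = (λ_ _).hom ≫ (ρ_ _).inv) {t1 t2 : K} (ht1 : t1 ≠ 0)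
    (ht2 : t2 ≠ 0) {M : Submodule O (F.S y' ⊗ F.S y ⟶ F.S F.o)} {R : Submodule O (F.S y ⟶ F.S y ⊗ F.S F.o)}
    (hR : R = Submodule.span O {F.rho y})
    (hs : sh e (F.rho y) ∈ scl t2 M) (hf : ∀ g ∈ M, fl c g ∈ scl t1⁻¹ R) : t1 / t2 ∈ O := by
  obtain ⟨g, hg, hg1⟩ := hs
  obtain ⟨l, hl, hl1⟩ := hf g hg
  rw [hR] at hl
  obtain ⟨a, ha⟩ := Submodule.mem_span_singleton.1 hl
  have h1 : F.rho y = (t2 * t1⁻¹ * (a : K)) • F.rho y := by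
    have h2 := fl_sh c e zag (F.rho y)
    rw [hg1, fl_smul, hl1, ← ha, fb_osmul, smul_smul, smul_smul] at h2
    exact h2.symm
  have h3 : (t2 * t1⁻¹ * (a : K)) = 1 := by
    have h4 : ((t2 * t1⁻¹ * (a : K)) - 1) • F.rho y = 0 := by
      rw [sub_smul, one_smul, ← h1, sub_self]
    rcases smul_eq_zero.1 h4 with h5 | h5
    · exact sub_eq_zero.1 h5
    · exact absurd h5 (fb_rho_ne F y)
  have h6 : t1 / t2 = (a : K) := by
    field_simp at h3 ⊢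
    exact h3.symm
  rw [h6]
  exact a.2

private theorem fb_dl (F : Fus K C ι) {Z : C} {c : 𝟙_ C ⟶ Z} {e : Z ⟶ 𝟙_ C} {d t s : K} (hd : d ∈ O)
    (hce : c ≫ e = d • 𝟙 (𝟙_ C)) (hts : t / s ∈ O) :
    (s⁻¹ • e) ≫ F.u.inv ∈ F.dl (Submodule.span O ({t • (F.u.hom ≫ c)} : Set (F.S F.o ⟶ Z))) := by
  intro f hf
  obtain ⟨a, rfl⟩ := Submodule.mem_span_singleton.1 hf
  refine ⟨(a : K) * (t / s * d), O.mul_mem a.2 (O.mul_mem hts hd), ?_⟩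
  have h6 : (F.u.hom ≫ c) ≫ (e ≫ F.u.inv) = d • 𝟙 (F.S F.o) := by
    have h7 : (F.u.hom ≫ c) ≫ (e ≫ F.u.inv) = F.u.hom ≫ (c ≫ e) ≫ F.u.inv := by
      simp only [Category.assoc]
    rw [h7, hce, Linear.smul_comp, Category.id_comp, Linear.comp_smul, Iso.hom_inv_id]
  rw [fb_osmul, Linear.smul_comp, Linear.smul_comp, Linear.smul_comp, Linear.comp_smul, h6, smul_smul, smul_smul,
    smul_smul]
  congr 1
  rw [div_eq_mul_inv]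
  ring

theorem frob_const {F : Fus K C ι} {sp : Sph F} {E : Set ι} {L : F.Sys O} (h : Ctx sp O E L) {y : ι} (hy : y ∈ E) :
    ∃ t1 t2 : K, t1 ≠ 0 ∧ t2 ≠ 0 ∧ L y (sp.st y) F.o = Submodule.span O {t1 • (F.u.hom ≫ sp.cv y)} ∧
      L (sp.st y) y F.o = Submodule.span O {t2 • (F.u.hom ≫ sp.cv' y)} ∧ IsU O (t1 / t2) := by
  obtain ⟨t1, ht1, h1⟩ := lat_rank_one (h.int.lat y hy (sp.st y) F.o) (fb_ne F (h.du y).1 (loop sp y)) (hom_cv sp y)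
  obtain ⟨t2, ht2, h2⟩ := lat_rank_one (h.int.lat (sp.st y) (h.sub.st y hy) y F.o)
    (fb_ne F (h.du y).1 (loop' sp y)) (hom_cv' sp y)
  have hr : F.rho y ∈ L y F.o y := by
    rw [h.int.unitR y hy]
    exact Submodule.mem_span_singleton_self _
  have hr' : F.rho (sp.st y) ∈ L (sp.st y) F.o (sp.st y) := by
    rw [h.int.unitR (sp.st y) (h.sub.st y hy)]
    exact Submodule.mem_span_singleton_self _
  refine ⟨t1, t2, ht1, ht2, h1, h2, div_ne_zero ht1 ht2, ?_, ?_⟩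
  · exact fb_int F (sp.zag y) ht1 ht2 (h.int.unitR y hy) (sh_mem h hy ht2 h2 hr) fun g hg => fl_mem h hy ht1 h1 hg
  · rw [inv_div]
    exact fb_int F (sp.zag' y) ht2 ht1 (h.int.unitR (sp.st y) (h.sub.st y hy)) (sh_mem' h hy ht1 h1 hr')
      fun g hg => fl_mem' h hy ht2 h2 hg

theorem frob {F : Fus K C ι} {sp : Sph F} {E : Set ι} {L : F.Sys O} (h : Ctx sp O E L) {y : ι} (hy : y ∈ E) :
    ∃ c : K, c ≠ 0 ∧ ∀ (v v' : ι) (f : F.S v' ⟶ F.S y ⊗ F.S v),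
      f ∈ L y v v' ↔ sh (sp.ev y) f ∈ scl c (F.dl (L (sp.st y) v' v)) := by
  obtain ⟨t1, t2, ht1, ht2, h1, h2, hu⟩ := frob_const h hy
  refine ⟨t2, ht2, fun v v' f => ⟨fun hf => sh_mem h hy ht2 h2 hf, fun hf => ?_⟩⟩
  obtain ⟨g, hg, hg1⟩ := hf
  obtain ⟨l, hl, hl1⟩ := fl_mem h hy ht1 h1 hg
  have h3 : f = (t1 / t2)⁻¹ • l := by
    rw [← fl_sh (sp.cv y) (sp.ev y) (sp.zag y) f, hg1, fl_smul, hl1, smul_smul, inv_div, div_eq_mul_inv]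
  rw [h3]
  exact smul_mem_of hu.2.2 hl

theorem rigid_of {F : Fus K C ι} {sp : Sph F} {E : Set ι} {L : F.Sys O} (h : Ctx sp O E L) {y : ι} (hy : y ∈ E) :
    ∃ t : K, t ≠ 0 ∧ F.u.hom ≫ (t • sp.cv y) ∈ L y (sp.st y) F.o ∧
      (t⁻¹ • sp.ev y) ≫ F.u.inv ∈ F.dl (L (sp.st y) y F.o) := by
  obtain ⟨t1, t2, ht1, ht2, h1, h2, hu⟩ := frob_const h hy
  refine ⟨t1, ht1, ?_, ?_⟩
  · rw [h1, Linear.comp_smul]
    exact Submodule.mem_span_singleton_self _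
  · rw [h2]
    refine fb_dl F (h.du y).2.1 (loop' sp y) ?_
    rw [← inv_div]
    exact hu.2.2

theorem rigid_of' {F : Fus K C ι} {sp : Sph F} {E : Set ι} {L : F.Sys O} (h : Ctx sp O E L) {y : ι} (hy : y ∈ E) :
    ∃ t : K, t ≠ 0 ∧ F.u.hom ≫ (t • sp.cv' y) ∈ L (sp.st y) y F.o ∧
      (t⁻¹ • sp.ev' y) ≫ F.u.inv ∈ F.dl (L y (sp.st y) F.o) := by
  obtain ⟨t1, t2, ht1, ht2, h1, h2, hu⟩ := frob_const h hy
  refine ⟨t2, ht2, ?_, ?_⟩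
  · rw [h2, Linear.comp_smul]
    exact Submodule.mem_span_singleton_self _
  · rw [h1]
    exact fb_dl F (h.du y).2.1 (loop sp y) hu.2.1

end Pool.Agent.NFG
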