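import Pool.Agent.NFG.Defs

/-!
# NFG/Unt: units of a valuation ring and the maximum argument
-/

set_option autoImplicit false

namespace Pool.Agent.NFG

universe w

variable {K : Type w} [Field K] {O : Subring K}

theorem isU_one : IsU O (1 : K) := ⟨one_ne_zero, O.one_mem, by simp⟩

theorem IsU.mul {a b : K} (ha : IsU O a) (hb : IsU O b) : IsU O (a * b) :=
  ⟨mul_ne_zero ha.1 hb.1, O.mul_mem ha.2.1 hb.2.1, by rw [mul_inv]; exact O.mul_mem ha.2.2 hb.2.2⟩

theorem IsU.inv {a : K} (ha : IsU O a) : IsU O a⁻¹ := ⟨inv_ne_zero ha.1, ha.2.2, by rw [inv_inv]; exact ha.2.1⟩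

theorem IsU.div {a b : K} (ha : IsU O a) (hb : IsU O b) : IsU O (a / b) := by
  rw [div_eq_mul_inv]; exact ha.mul hb.inv

theorem isU_prod {κ : Type*} (s : Finset κ) (f : κ → K) (h : ∀ k ∈ s, IsU O (f k)) : IsU O (∏ k ∈ s, f k) :=
  Finset.prod_induction f (IsU O) (fun _ _ ha hb => ha.mul hb) isU_one h

private theorem unt_root (hO : Val O) {x : K} (hx : x ≠ 0) {n : ℕ} (hn : 0 < n) (h : x ^ n ∈ O) : x ∈ O := by
  rcases hO x with h1 | h1
  · exact h1
  · obtain ⟨m, rfl⟩ : ∃ m, n = m + 1 := ⟨n - 1, by omega⟩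
    have h2 : x = x ^ (m + 1) * x⁻¹ ^ m := by
      rw [inv_pow, pow_succ, mul_assoc, mul_comm x, ← mul_assoc, mul_inv_cancel₀ (pow_ne_zero m hx), one_mul]
    rw [h2]
    exact O.mul_mem h (O.pow_mem h1 m)

theorem isU_of_pow (hO : Val O) {x : K} {n : ℕ} (hn : 0 < n) (h : IsU O (x ^ n)) : IsU O x := by
  have hx : x ≠ 0 := by
    rintro rfl
    exact h.1 (zero_pow (by omega))
  refine ⟨hx, unt_root hO hx hn h.2.1, unt_root hO (inv_ne_zero hx) hn ?_⟩
  rw [inv_pow]
  exact h.2.2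

theorem exists_rt [IsAlgClosed K] {n : ℕ} (hn : 0 < n) {x : K} (hx : x ≠ 0) : ∃ y : K, y ≠ 0 ∧ y ^ n = x := by
  obtain ⟨y, hy⟩ := IsAlgClosed.exists_pow_nat_eq x hn
  refine ⟨y, ?_, hy⟩
  rintro rfl
  rw [zero_pow (by omega)] at hy
  exact hx hy.symm

private theorem unt_max (hO : Val O) {κ : Type*} (t : κ → K) (s : Finset κ) (hs : s.Nonempty) :
    (∀ y ∈ s, t y ≠ 0) → ∃ z ∈ s, ∀ y ∈ s, t y / t z ∈ O := by
  classical
  induction hs using Finset.Nonempty.cons_induction with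
  | singleton a =>
    intro h
    refine ⟨a, Finset.mem_singleton_self a, fun y hy => ?_⟩
    rw [Finset.mem_singleton.1 hy, div_self (h a (Finset.mem_singleton_self a))]
    exact O.one_mem
  | cons a s ha hs ih =>
    intro h
    obtain ⟨z, hz, hz'⟩ := ih fun y hy => h y (Finset.mem_cons_of_mem hy)
    have hza : t z ≠ 0 := h z (Finset.mem_cons_of_mem hz)
    have hta : t a ≠ 0 := h a (Finset.mem_cons_self a s)
    rcases hO (t a / t z) with h1 | h1
    · refine ⟨z, Finset.mem_cons_of_mem hz, fun y hy => ?_⟩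
      rcases Finset.mem_cons.1 hy with rfl | hy
      · exact h1
      · exact hz' y hy
    · rw [inv_div] at h1
      refine ⟨a, Finset.mem_cons_self a s, fun y hy => ?_⟩
      rcases Finset.mem_cons.1 hy with rfl | hy
      · rw [div_self hta]
        exact O.one_mem
      · have h2 : t y / t a = t y / t z * (t z / t a) := by
          field_simp
        rw [h2]
        exact O.mul_mem (hz' y hy) h1

private theorem unt_arg (hO : Val O) {κ : Type*} [Finite κ] (E : Set κ) (t : κ → K) (ht : ∀ y ∈ E, t y ≠ 0)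
    (h : ∀ y ∈ E, ∃ w ∈ E, IsU O (t w / (t y * t y))) : ∀ y ∈ E, t y ∈ O := by
  intro y hy
  obtain ⟨z, hz, hz'⟩ := unt_max hO t (Set.toFinite E).toFinset ⟨y, (Set.Finite.mem_toFinset _).2 hy⟩
    fun y hy => ht y ((Set.Finite.mem_toFinset _).1 hy)
  have hzE : z ∈ E := (Set.Finite.mem_toFinset _).1 hz
  have hz0 := ht z hzE
  obtain ⟨w, hw, hu⟩ := h z hzE
  have hw0 := ht w hw
  have h1 : t z ∈ O := by
    have h2 : t z = t w / t z * (t w / (t z * t z))⁻¹ := by
      field_simp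
    rw [h2]
    exact O.mul_mem (hz' w ((Set.Finite.mem_toFinset _).2 hw)) hu.2.2
  have h3 : t y = t y / t z * t z := by
    field_simp
  rw [h3]
  exact O.mul_mem (hz' y ((Set.Finite.mem_toFinset _).2 hy)) h1

theorem maxarg (hO : Val O) {κ : Type*} [Finite κ] (E : Set κ) (t : κ → K) (ht : ∀ y ∈ E, t y ≠ 0)
    (h : ∀ y ∈ E, ∃ w ∈ E, IsU O (t w / (t y * t y))) : ∀ y ∈ E, IsU O (t y) := by
  intro y hy
  refine ⟨ht y hy, unt_arg hO E t ht h y hy, ?_⟩
  refine unt_arg hO E (fun y => (t y)⁻¹) (fun y hy => inv_ne_zero (ht y hy)) (fun y hy => ?_) y hy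
  obtain ⟨w, hw, hu⟩ := h y hy
  refine ⟨w, hw, ?_⟩
  have h1 := hu.inv
  have h2 : (t w / (t y * t y))⁻¹ = (t w)⁻¹ / ((t y)⁻¹ * (t y)⁻¹) := by
    rw [inv_div, div_eq_mul_inv, div_eq_mul_inv, mul_inv, inv_inv, mul_comm]
  rw [h2] at h1
  exact h1

/-- averaging: if `x^n` and `y^n` agree up to a unit, then `x` and `y` agree up to a unit -/
theorem isU_of_pow_div (hO : Val O) {x y : K} {n : ℕ} (hn : 0 < n) (h : IsU O (x ^ n / y ^ n)) : IsU O (x / y) := by
  rw [← div_pow] at h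
  exact isU_of_pow hO hn h

end Pool.Agent.NFG
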