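import Pool.Agent.NFG.Dua
import Pool.Agent.NFG.Unt

/-!
# NFG/Gr: graded fusion subcategories
-/

set_option autoImplicit false

noncomputable section

open CategoryTheory MonoidalCategory

namespace Pool.Agent.NFG

universe v u w

variable {K : Type w} [Field K] {C : Type u} [Category.{v} C] [Preadditive C] [Linear K C] [MonoidalCategory C]
  [MonoidalPreadditive C] [MonoidalLinear K C] {ι : Type} [Fintype ι] [DecidableEq ι] {O : Subring K}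

theorem deg_o {F : Fus K C ι} {sp : Sph F} {E E' : Set ι} {Q : Type} [Group Q] {deg : ι → Q}
    (hg : IsGr sp E E' Q deg) : deg F.o = 1 := by
  have h := hg.mul F.o hg.sub.one F.o hg.sub.one F.o (occ_lam F F.o)
  exact (mul_eq_left.1 h.symm)

theorem deg_st {F : Fus K C ι} {sp : Sph F} (hd : ∀ i, sp.d i ≠ 0) {E E' : Set ι} {Q : Type} [Group Q] {deg : ι → Q}
    (hg : IsGr sp E E' Q deg) {a : ι} (ha : a ∈ E') : deg (sp.st a) = (deg a)⁻¹ := by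
  have h := hg.mul a ha (sp.st a) (hg.sub.st a ha) F.o (occ_ev sp hd a)
  rw [deg_o hg] at h
  exact eq_inv_of_mul_eq_one_right h.symm

theorem gr_le {F : Fus K C ι} {sp : Sph F} {E E' : Set ι} {Q : Type} [Group Q] {deg : ι → Q}
    (hg : IsGr sp E E' Q deg) : E ⊆ E' := fun a ha => ((hg.ker a).1 ha).1

theorem gr_sub {F : Fus K C ι} {sp : Sph F} (hd : ∀ i, sp.d i ≠ 0) {E E' : Set ι} {Q : Type} [Group Q] {deg : ι → Q}
    (hg : IsGr sp E E' Q deg) : IsSub sp E := by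
  refine ⟨(hg.ker F.o).2 ⟨hg.sub.one, deg_o hg⟩, fun a ha => ?_, fun a ha b hb c hc => ?_⟩
  · obtain ⟨h1, h2⟩ := (hg.ker a).1 ha
    exact (hg.ker _).2 ⟨hg.sub.st a h1, by rw [deg_st hd hg h1, h2, inv_one]⟩
  · obtain ⟨h1, h2⟩ := (hg.ker a).1 ha
    obtain ⟨h3, h4⟩ := (hg.ker b).1 hb
    exact (hg.ker _).2 ⟨hg.sub.mul a h1 b h3 c hc, by rw [hg.mul a h1 b h3 c hc, h2, h4, mul_one]⟩

theorem gr_orb {F : Fus K C ι} {sp : Sph F} (hd : ∀ i, sp.d i ≠ 0) {E E' : Set ι} {Q : Type} [Group Q] {deg : ι → Q}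
    (hg : IsGr sp E E' Q deg) (q : Q) : IsOrb sp E (cmp E' deg q) := by
  refine ⟨?_, fun y hy a ha c hc => ?_, fun a ha a' ha' => ?_, fun a ha y hy => ?_⟩
  · obtain ⟨a, ha, h⟩ := hg.surj q
    exact ⟨a, ha, h⟩
  · obtain ⟨h1, h2⟩ := (hg.ker y).1 hy
    exact ⟨hg.sub.mul y h1 a ha.1 c hc, by rw [hg.mul y h1 a ha.1 c hc, h2, ha.2, one_mul]⟩
  · obtain ⟨y, hy⟩ := exists_occ sp hd a' (sp.st a)
    refine ⟨y, (hg.ker y).2 ⟨hg.sub.mul a' ha'.1 _ (hg.sub.st a ha.1) y hy, ?_⟩, occ_bend sp hy⟩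
    rw [hg.mul a' ha'.1 _ (hg.sub.st a ha.1) y hy, deg_st hd hg ha.1, ha.2, ha'.2, mul_inv_cancel]
  · refine (hg.ker y).2 ⟨hg.sub.mul a ha.1 _ (hg.sub.st a ha.1) y hy, ?_⟩
    rw [hg.mul a ha.1 _ (hg.sub.st a ha.1) y hy, deg_st hd hg ha.1, mul_inv_cancel]

theorem cmp_one {F : Fus K C ι} {sp : Sph F} {E E' : Set ι} {Q : Type} [Group Q] {deg : ι → Q}
    (hg : IsGr sp E E' Q deg) : cmp E' deg 1 = E := by
  ext a
  exact (hg.ker a).symm

theorem exists_sq {F : Fus K C ι} {sp : Sph F} (hd : ∀ i, sp.d i ≠ 0) {E : Set ι} (hE : IsSub sp E) {y : ι}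
    (hy : y ∈ E) : ∃ w ∈ E, F.Occ y y w := by
  obtain ⟨w, hw⟩ := exists_occ sp hd y y
  exact ⟨w, hE.mul y hy y hy w hw, hw⟩

end Pool.Agent.NFG
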