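import Pool.Agent.NFG.Defs

/-!
# NFG/HatA: the calculus of `hat` and `hab`

All statements are coherence: unfold `hat`, `hab` and use `monoidal`, or `simp` with `whiskerRight_tensor`,
`associator_naturality_left/middle/right`, `pentagon`, `comp_whiskerRight`, `whiskerLeft_comp`.
Additivity and scalars: `MonoidalPreadditive.add_whiskerRight`, `Preadditive.add_comp`, `MonoidalLinear.smul_whiskerRight`,
`Linear.smul_comp`.
-/

set_option autoImplicit false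

noncomputable section

open CategoryTheory MonoidalCategory

namespace Pool.Agent.NFG

universe v u w

section

variable {C : Type u} [Category.{v} C] [MonoidalCategory C]

theorem hat_natural {A B D W W' : C} (x : A ⟶ B ⊗ D) (g : W ⟶ W') :
    hat x W ≫ (B ◁ (D ◁ g)) = (A ◁ g) ≫ hat x W' := by
  simp only [hat]
  rw [Category.assoc, ← associator_naturality_right, ← Category.assoc, ← whisker_exchange, Category.assoc]

theorem hab_natural {A B D W W' : C} (b : B ⊗ D ⟶ A) (g : W ⟶ W') :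
    (B ◁ (D ◁ g)) ≫ hab b W' = hab b W ≫ (A ◁ g) := by
  simp only [hab]
  rw [associator_inv_naturality_right_assoc, Category.assoc, whisker_exchange]

theorem hat_hab {A B D A' : C} (x : A ⟶ B ⊗ D) (b : B ⊗ D ⟶ A') (W : C) : hat x W ≫ hab b W = (x ≫ b) ▷ W := by
  simp only [hat, hab]
  simp

theorem hab_hat {A B D B' D' : C} (b : B ⊗ D ⟶ A) (x : A ⟶ B' ⊗ D') (W : C) :
    hab b W ≫ hat x W = (α_ B D W).inv ≫ ((b ≫ x) ▷ W) ≫ (α_ B' D' W).hom := by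
  simp only [hat, hab]
  simp

theorem comp_hat {A' A B D : C} (f : A' ⟶ A) (x : A ⟶ B ⊗ D) (W : C) : hat (f ≫ x) W = (f ▷ W) ≫ hat x W := by
  simp only [hat]
  simp

theorem hab_comp {A' A B D : C} (b : B ⊗ D ⟶ A) (f : A ⟶ A') (W : C) : hab (b ≫ f) W = hab b W ≫ (f ▷ W) := by
  simp only [hab]
  simp

/-- P4 -/
theorem hat_hat_hab {A B Y Z K K' B' : C} (x' : K' ⟶ K ⊗ B) (x : K ⟶ A ⊗ Y) (b : Y ⊗ B ⟶ B') :
    hat x' Z ≫ hat x (B ⊗ Z) ≫ (A ◁ hab b Z) = hat (x' ≫ hat x B ≫ (A ◁ b)) Z := by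
  simp only [hat, hab]
  monoidal

/-- P2 -/
theorem hat_hab_hab {K B B' D A A' W : C} (x : K ⟶ B' ⊗ B) (b : B ⊗ D ⟶ A) (b' : B' ⊗ A ⟶ A') :
    hat x (D ⊗ W) ≫ (B' ◁ hab b W) ≫ hab b' W = hab (hat x D ≫ (B' ◁ b) ≫ b') W := by
  simp only [hat, hab]
  monoidal

/-- P3 -/
theorem hab_hat_mid {Y' K K' A A' Y Z : C} (β : Y' ⊗ K ⟶ K') (w : K' ⟶ Y' ⊗ K) (x : K ⟶ A ⊗ Y) (b : Y' ⊗ A ⟶ A') :
    hab β Z ≫ hat (w ≫ (Y' ◁ x) ≫ hab b Y) Z =
      ((α_ Y' K Z).inv ≫ ((β ≫ w) ▷ Z) ≫ (α_ Y' K Z).hom) ≫ (Y' ◁ hat x Z) ≫ hab b (Y ⊗ Z) := by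
  simp only [hat, hab]
  monoidal

/-- the map `Hom (A'', A ⊗ (Y ⊗ Y')) ⟶ Hom (A'' ⊗ Z, A ⊗ (Y ⊗ (Y' ⊗ Z)))` -/
def th {A'' A Y Y' : C} (h : A'' ⟶ A ⊗ (Y ⊗ Y')) (Z : C) : A'' ⊗ Z ⟶ A ⊗ (Y ⊗ (Y' ⊗ Z)) :=
  hat h Z ≫ (A ◁ (α_ Y Y' Z).hom)

theorem th_comp {A'' A A' Y Y' : C} (f : A'' ⟶ A ⊗ A') (l : A' ⟶ Y ⊗ Y') (Z : C) :
    th (f ≫ (A ◁ l)) Z = hat f Z ≫ (A ◁ hat l Z) := by
  simp only [th, hat]
  monoidal

theorem th_hat {A'' A' A Y Y' : C} (x' : A'' ⟶ A' ⊗ Y') (x : A' ⟶ A ⊗ Y) (Z : C) :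
    th (x' ≫ hat x Y') Z = hat x' Z ≫ hat x (Y' ⊗ Z) := by
  simp only [th, hat]
  monoidal

end

section

variable {K : Type w} [Field K] {C : Type u} [Category.{v} C] [Preadditive C] [Linear K C] [MonoidalCategory C]
  [MonoidalPreadditive C] [MonoidalLinear K C]

theorem hat_add {A B D : C} (x y : A ⟶ B ⊗ D) (W : C) : hat (x + y) W = hat x W + hat y W := by
  simp only [hat, MonoidalPreadditive.add_whiskerRight, Preadditive.add_comp]

theorem hat_smul {A B D : C} (c : K) (x : A ⟶ B ⊗ D) (W : C) : hat (c • x) W = c • hat x W := by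
  simp only [hat, MonoidalLinear.smul_whiskerRight, Linear.smul_comp]

theorem hat_zero {A B D : C} (W : C) : hat (0 : A ⟶ B ⊗ D) W = 0 := by
  simp only [hat, MonoidalPreadditive.zero_whiskerRight, Limits.zero_comp]

theorem hab_add {A B D : C} (x y : B ⊗ D ⟶ A) (W : C) : hab (x + y) W = hab x W + hab y W := by
  simp only [hab, MonoidalPreadditive.add_whiskerRight, Preadditive.comp_add]

theorem hab_smul {A B D : C} (c : K) (x : B ⊗ D ⟶ A) (W : C) : hab (c • x) W = c • hab x W := by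
  simp only [hab, MonoidalLinear.smul_whiskerRight, Linear.comp_smul]

theorem hab_zero {A B D : C} (W : C) : hab (0 : B ⊗ D ⟶ A) W = 0 := by
  simp only [hab, MonoidalPreadditive.zero_whiskerRight, Limits.comp_zero]

theorem th_add {A'' A Y Y' : C} (x y : A'' ⟶ A ⊗ (Y ⊗ Y')) (Z : C) : th (x + y) Z = th x Z + th y Z := by
  simp only [th, hat_add, Preadditive.add_comp]

theorem th_smul {A'' A Y Y' : C} (c : K) (x : A'' ⟶ A ⊗ (Y ⊗ Y')) (Z : C) : th (c • x) Z = c • th x Z := by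
  simp only [th, hat_smul, Linear.smul_comp]

theorem th_zero {A'' A Y Y' : C} (Z : C) : th (0 : A'' ⟶ A ⊗ (Y ⊗ Y')) Z = 0 := by
  simp only [th, hat_zero, Limits.zero_comp]

/-- scalars pull out of whiskering: `z ≫ (Y ◁ (c • f)) = c • (z ≫ (Y ◁ f))` -/
theorem comp_whisker_smul {A Y B D : C} (z : A ⟶ Y ⊗ B) (c : K) (f : B ⟶ D) :
    z ≫ (Y ◁ (c • f)) = c • (z ≫ (Y ◁ f)) := by
  rw [MonoidalLinear.whiskerLeft_smul, Linear.comp_smul]

end

end Pool.Agent.NFG
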