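import Pool.Agent.NFG.HatA

/-!
# NFG/HatB: coherence with unit objects and duals

`lami`, `rhoi` are the inverses of `lam`, `rho`.  `sh e f` and `fl c g` are the two directions of Frobenius reciprocity
`Hom (A, B ⊗ V) ≅ Hom (B' ⊗ A, V)`.  All statements are coherence (`monoidal`, `simp` with unitor and associator
naturality), the zigzag identities for `fl_sh`, `sh_fl`:
`fl_sh`: `ins c A ≫ (B ◁ (B' ◁ f)) ≫ (B ◁ del e V) = f ≫ ins c (B ⊗ V) ≫ (B ◁ del e V)` and the last two factors are the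
zigzag whiskered with `V`.
`hat_rho` is the triangle identity, `rho_hat` naturality and coherence, `hat_lam` naturality of `λ`.
-/

set_option autoImplicit false

noncomputable section

open CategoryTheory MonoidalCategory

namespace Pool.Agent.NFG

universe v u w

section

variable {C : Type u} [Category.{v} C] [MonoidalCategory C]

/-- `Hom (A, B ⊗ V) ⟶ Hom (B' ⊗ A, V)` -/
def sh {A B B' V : C} (e : B' ⊗ B ⟶ 𝟙_ C) (f : A ⟶ B ⊗ V) : B' ⊗ A ⟶ V := (B' ◁ f) ≫ del e V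

/-- `Hom (B' ⊗ A, V) ⟶ Hom (A, B ⊗ V)` -/
def fl {A B B' V : C} (c : 𝟙_ C ⟶ B ⊗ B') (g : B' ⊗ A ⟶ V) : A ⟶ B ⊗ V := ins c A ≫ (B ◁ g)

theorem ins_natural {A B W W' : C} (c : 𝟙_ C ⟶ A ⊗ B) (g : W ⟶ W') :
    ins c W ≫ (A ◁ (B ◁ g)) = g ≫ ins c W' := by
  simp only [ins]
  rw [Category.assoc, hat_natural, leftUnitor_inv_naturality_assoc]

theorem del_natural {A B W W' : C} (e : A ⊗ B ⟶ 𝟙_ C) (g : W ⟶ W') :
    (A ◁ (B ◁ g)) ≫ del e W' = del e W ≫ g := by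
  simp only [del]
  rw [← Category.assoc, hab_natural, Category.assoc, leftUnitor_naturality, Category.assoc]

theorem fl_sh {A B B' V : C} (c : 𝟙_ C ⟶ B ⊗ B') (e : B' ⊗ B ⟶ 𝟙_ C)
    (zag : c ▷ B ≫ (α_ _ _ _).hom ≫ B ◁ e = (λ_ _).hom ≫ (ρ_ _).inv) (f : A ⟶ B ⊗ V) : fl c (sh e f) = f := by
  have h1 : ins c (B ⊗ V) ≫ (B ◁ del e V) = (λ_ (B ⊗ V)).inv ≫ (α_ _ _ _).inv ≫
      ((c ▷ B ≫ (α_ _ _ _).hom ≫ B ◁ e) ▷ V) ≫ (α_ _ _ _).hom ≫ (B ◁ (λ_ V).hom) := by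
    simp only [ins, del, hat, hab]
    monoidal
  simp only [fl, sh]
  rw [MonoidalCategory.whiskerLeft_comp, ← Category.assoc, ins_natural, Category.assoc, h1, zag]
  simp

theorem sh_fl {A B B' V : C} (c : 𝟙_ C ⟶ B ⊗ B') (e : B' ⊗ B ⟶ 𝟙_ C)
    (zig : B' ◁ c ≫ (α_ _ _ _).inv ≫ e ▷ B' = (ρ_ _).hom ≫ (λ_ _).inv) (g : B' ⊗ A ⟶ V) : sh e (fl c g) = g := by
  have h1 : (B' ◁ ins c A) ≫ del e (B' ⊗ A) = (B' ◁ (λ_ A).inv) ≫ (α_ _ _ _).inv ≫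
      ((B' ◁ c ≫ (α_ _ _ _).inv ≫ e ▷ B') ▷ A) ≫ (α_ _ _ _).hom ≫ (λ_ _).hom := by
    simp only [ins, del, hat, hab]
    monoidal
  simp only [fl, sh]
  rw [MonoidalCategory.whiskerLeft_comp, Category.assoc, del_natural, ← Category.assoc, h1, zig]
  simp

theorem sh_comp {A B B' V V' : C} (e : B' ⊗ B ⟶ 𝟙_ C) (f : A ⟶ B ⊗ V) (h : V ⟶ V') :
    sh e (f ≫ (B ◁ h)) = sh e f ≫ h := by
  simp only [sh]
  rw [MonoidalCategory.whiskerLeft_comp, Category.assoc, del_natural, Category.assoc]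

theorem comp_sh {A A' B B' V : C} (e : B' ⊗ B ⟶ 𝟙_ C) (w : A' ⟶ A) (f : A ⟶ B ⊗ V) :
    sh e (w ≫ f) = (B' ◁ w) ≫ sh e f := by
  simp only [sh]
  rw [MonoidalCategory.whiskerLeft_comp, Category.assoc]

theorem sh_hat {A B B' X D W : C} (e : B' ⊗ B ⟶ 𝟙_ C) (f : A ⟶ X ⊗ W) (x : X ⟶ B ⊗ D) :
    sh e (f ≫ hat x W) = (B' ◁ f) ≫ hab (sh e x) W := by
  simp only [sh, del, hab, hat]
  monoidal

theorem lpt_comp_left {A B W W' V : C} (c : 𝟙_ C ⟶ B ⊗ A) (e : B ⊗ A ⟶ 𝟙_ C) (t : V ⟶ W) (T : A ⊗ W ⟶ A ⊗ W') :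
    lpt c e ((A ◁ t) ≫ T) = t ≫ lpt c e T := by
  simp only [lpt]
  rw [MonoidalCategory.whiskerLeft_comp, Category.assoc, ← Category.assoc, ins_natural, Category.assoc]

theorem lpt_comp_right {A B W W' V : C} (c : 𝟙_ C ⟶ B ⊗ A) (e : B ⊗ A ⟶ 𝟙_ C) (T : A ⊗ W ⟶ A ⊗ W') (t : W' ⟶ V) :
    lpt c e (T ≫ (A ◁ t)) = lpt c e T ≫ t := by
  simp only [lpt]
  rw [MonoidalCategory.whiskerLeft_comp, Category.assoc, del_natural]
  simp only [Category.assoc]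

theorem lpt_one {A B W : C} (c : 𝟙_ C ⟶ B ⊗ A) (e : B ⊗ A ⟶ 𝟙_ C) :
    lpt c e (𝟙 (A ⊗ W)) = (λ_ W).inv ≫ ((c ≫ e) ▷ W) ≫ (λ_ W).hom := by
  simp only [lpt, ins, del, hat, hab]
  monoidal

theorem rpt_one {A B W : C} (c : 𝟙_ C ⟶ B ⊗ A) (e : B ⊗ A ⟶ 𝟙_ C) :
    rpt c e (𝟙 (W ⊗ B)) = (ρ_ W).inv ≫ (W ◁ (c ≫ e)) ≫ (ρ_ W).hom := by
  simp only [rpt]
  monoidal

end

section

variable {K : Type w} [Field K] {C : Type u} [Category.{v} C] [Preadditive C] [Linear K C] [MonoidalCategory C]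
  {ι : Type} [Fintype ι] [DecidableEq ι]

/-- inverse of `lam` -/
def Fus.lami (F : Fus K C ι) (v : ι) : F.S F.o ⊗ F.S v ⟶ F.S v := (F.u.hom ▷ F.S v) ≫ (λ_ (F.S v)).hom

/-- inverse of `rho` -/
def Fus.rhoi (F : Fus K C ι) (v : ι) : F.S v ⊗ F.S F.o ⟶ F.S v := (F.S v ◁ F.u.hom) ≫ (ρ_ (F.S v)).hom

theorem lam_lami (F : Fus K C ι) (v : ι) : F.lam v ≫ F.lami v = 𝟙 _ := by
  simp only [Fus.lam, Fus.lami]
  simp

theorem lami_lam (F : Fus K C ι) (v : ι) : F.lami v ≫ F.lam v = 𝟙 _ := by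
  simp only [Fus.lam, Fus.lami]
  simp

theorem rho_rhoi (F : Fus K C ι) (v : ι) : F.rho v ≫ F.rhoi v = 𝟙 _ := by
  simp only [Fus.rho, Fus.rhoi]
  simp

theorem rhoi_rho (F : Fus K C ι) (v : ι) : F.rhoi v ≫ F.rho v = 𝟙 _ := by
  simp only [Fus.rho, Fus.rhoi]
  simp

theorem lam_eq_rho (F : Fus K C ι) : F.lam F.o = F.rho F.o := by
  simp only [Fus.lam, Fus.rho]
  have h1 : (λ_ (F.S F.o)).inv ≫ (F.u.inv ▷ F.S F.o) = F.u.hom ≫ (λ_ (𝟙_ C)).inv ≫ (F.u.inv ▷ 𝟙_ C) ≫ (_ ◁ F.u.inv) := by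
    rw [leftUnitor_inv_naturality_assoc, whisker_exchange_assoc, ← MonoidalCategory.whiskerLeft_comp]
    simp
  have h2 : (ρ_ (F.S F.o)).inv ≫ (F.S F.o ◁ F.u.inv) = F.u.hom ≫ (λ_ (𝟙_ C)).inv ≫ (F.u.inv ▷ 𝟙_ C) ≫ (_ ◁ F.u.inv) := by
    rw [unitors_inv_equal, rightUnitor_inv_naturality_assoc, ← comp_whiskerRight_assoc]
    simp
  rw [h1, h2]

theorem rho_hat (F : Fus K C ι) {k a y : ι} (x : F.S k ⟶ F.S a ⊗ F.S y) :
    F.rho k ≫ hat x (F.S F.o) = x ≫ (F.S a ◁ F.rho y) := by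
  have h1 : (F.S a ◁ F.rho y) = (ρ_ _).inv ≫ (F.S a ⊗ F.S y) ◁ F.u.inv ≫ (α_ _ _ _).hom := by
    simp only [Fus.rho]
    monoidal
  rw [h1]
  simp only [Fus.rho, hat]
  rw [Category.assoc, whisker_exchange_assoc, rightUnitor_inv_naturality_assoc]

theorem rho_hab (F : Fus K C ι) {y a a' : ι} (b : F.S y ⊗ F.S a ⟶ F.S a') :
    (F.S y ◁ F.rho a) ≫ hab b (F.S F.o) = b ≫ F.rho a' := by
  have h1 : (F.S y ◁ F.rho a) = (ρ_ _).inv ≫ (F.S y ⊗ F.S a) ◁ F.u.inv ≫ (α_ _ _ _).hom := by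
    simp only [Fus.rho]
    monoidal
  rw [h1]
  simp only [Fus.rho, hab]
  simp only [Category.assoc, Iso.hom_inv_id_assoc]
  rw [whisker_exchange, ← rightUnitor_inv_naturality_assoc]

theorem hat_rho (F : Fus K C ι) (a v : ι) : hat (F.rho a) (F.S v) = F.S a ◁ F.lam v := by
  simp only [Fus.rho, Fus.lam, hat]
  simp

theorem hat_lam (F : Fus K C ι) {a m : ι} {W : C} (f : F.S m ⟶ F.S a ⊗ W) :
    f ≫ hat (F.lam a) W = F.lam m ≫ (F.S F.o ◁ f) := by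
  have h1 : hat (F.lam a) W = (λ_ _).inv ≫ (F.u.inv ▷ (F.S a ⊗ W)) := by
    simp only [Fus.lam, hat]
    monoidal
  rw [h1]
  simp only [Fus.lam]
  rw [Category.assoc, ← whisker_exchange, leftUnitor_inv_naturality_assoc]

/-- action of the unit object on the left: `lam m ≫ (S o ◁ f) ≫ hab (lami a) W = f` -/
theorem lam_hab (F : Fus K C ι) {a m : ι} {W : C} (f : F.S m ⟶ F.S a ⊗ W) :
    F.lam m ≫ (F.S F.o ◁ f) ≫ hab (F.lami a) W = f := by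
  have h1 : F.lam m ≫ (F.S F.o ◁ f) = f ≫ hat (F.lam a) W := (hat_lam F f).symm
  rw [← Category.assoc, h1, Category.assoc, hat_hab, lam_lami]
  simp

/-- `lam v ≫ (S o ◁ f) = f ≫ ..` for `f : S v ⟶ S m`, naturality -/
theorem lam_natural (F : Fus K C ι) {v m : ι} (f : F.S v ⟶ F.S m) : F.lam v ≫ (F.S F.o ◁ f) = f ≫ F.lam m := by
  simp only [Fus.lam]
  rw [Category.assoc, ← whisker_exchange, leftUnitor_inv_naturality_assoc]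

theorem rho_natural (F : Fus K C ι) {v m : ι} (f : F.S v ⟶ F.S m) : F.rho v ≫ (f ▷ F.S F.o) = f ≫ F.rho m := by
  simp only [Fus.rho]
  rw [Category.assoc, whisker_exchange, rightUnitor_inv_naturality_assoc]

theorem lam_hat (F : Fus K C ι) {A B : C} (c : 𝟙_ C ⟶ A ⊗ B) (v : ι) :
    F.lam v ≫ hat (F.u.hom ≫ c) (F.S v) = ins c (F.S v) := by
  simp only [Fus.lam, ins, hat]
  have h1 : ((λ_ (F.S v)).inv ≫ F.u.inv ▷ F.S v) ≫ (F.u.hom ≫ c) ▷ F.S v ≫ (α_ A B (F.S v)).hom =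
      (λ_ (F.S v)).inv ≫ ((F.u.inv ≫ F.u.hom) ▷ F.S v) ≫ c ▷ F.S v ≫ (α_ A B (F.S v)).hom := by
    monoidal
  rw [h1]
  simp

theorem hab_lami (F : Fus K C ι) {A B : C} (e : A ⊗ B ⟶ 𝟙_ C) (v : ι) :
    hab (e ≫ F.u.inv) (F.S v) ≫ F.lami v = del e (F.S v) := by
  simp only [Fus.lami, del, hab]
  have h1 : ((α_ A B (F.S v)).inv ≫ (e ≫ F.u.inv) ▷ F.S v) ≫ F.u.hom ▷ F.S v ≫ (λ_ (F.S v)).hom =
      (α_ A B (F.S v)).inv ≫ e ▷ F.S v ≫ ((F.u.inv ≫ F.u.hom) ▷ F.S v) ≫ (λ_ (F.S v)).hom := by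
    monoidal
  rw [h1]
  simp

end

section

variable {K : Type w} [Field K] {C : Type u} [Category.{v} C] [Preadditive C] [Linear K C] [MonoidalCategory C]
  [MonoidalPreadditive C] [MonoidalLinear K C]

theorem sh_add {A B B' V : C} (e : B' ⊗ B ⟶ 𝟙_ C) (f g : A ⟶ B ⊗ V) : sh e (f + g) = sh e f + sh e g := by
  simp only [sh, MonoidalPreadditive.whiskerLeft_add, Preadditive.add_comp]

theorem sh_smul {A B B' V : C} (e : B' ⊗ B ⟶ 𝟙_ C) (c : K) (f : A ⟶ B ⊗ V) : sh e (c • f) = c • sh e f := by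
  simp only [sh, MonoidalLinear.whiskerLeft_smul, Linear.smul_comp]

theorem fl_add {A B B' V : C} (c : 𝟙_ C ⟶ B ⊗ B') (f g : B' ⊗ A ⟶ V) : fl c (f + g) = fl c f + fl c g := by
  simp only [fl, MonoidalPreadditive.whiskerLeft_add, Preadditive.comp_add]

theorem fl_smul {A B B' V : C} (c : 𝟙_ C ⟶ B ⊗ B') (k : K) (g : B' ⊗ A ⟶ V) : fl c (k • g) = k • fl c g := by
  simp only [fl, MonoidalLinear.whiskerLeft_smul, Linear.comp_smul]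

theorem lpt_add {A B W W' : C} (c : 𝟙_ C ⟶ B ⊗ A) (e : B ⊗ A ⟶ 𝟙_ C) (T T' : A ⊗ W ⟶ A ⊗ W') :
    lpt c e (T + T') = lpt c e T + lpt c e T' := by
  simp only [lpt, MonoidalPreadditive.whiskerLeft_add, Preadditive.comp_add, Preadditive.add_comp]

theorem lpt_smul {A B W W' : C} (c : 𝟙_ C ⟶ B ⊗ A) (e : B ⊗ A ⟶ 𝟙_ C) (k : K) (T : A ⊗ W ⟶ A ⊗ W') :
    lpt c e (k • T) = k • lpt c e T := by
  simp only [lpt, MonoidalLinear.whiskerLeft_smul, Linear.comp_smul, Linear.smul_comp]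

theorem rpt_smul {A B W W' : C} (c : 𝟙_ C ⟶ B ⊗ A) (e : B ⊗ A ⟶ 𝟙_ C) (k : K) (T : W ⊗ B ⟶ W' ⊗ B) :
    rpt c e (k • T) = k • rpt c e T := by
  simp only [rpt, MonoidalLinear.smul_whiskerRight, Linear.comp_smul, Linear.smul_comp]

end

end Pool.Agent.NFG
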