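import Pool.Agent.NFG.Defs

/-!
# NFG/LatA: finitely generated submodules over a valuation ring
-/

set_option autoImplicit false

namespace Pool.Agent.NFG

universe w

variable {K : Type w} [Field K] {O : Subring K} {M : Type*} [AddCommGroup M] [Module K M]

private theorem la_max (hO : Val O) {ι : Type*} (c : ι → K) (s : Finset ι) (h : ∃ i ∈ s, c i ≠ 0) :
    ∃ j ∈ s, c j ≠ 0 ∧ ∀ i ∈ s, c i / c j ∈ O := by
  classical
  induction s using Finset.induction_on with
  | empty =>
    obtain ⟨i, hi, -⟩ := h
    exact absurd hi (Finset.notMem_empty i)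
  | insert a s ha ih =>
    by_cases h1 : ∃ i ∈ s, c i ≠ 0
    · obtain ⟨j, hj, hj0, hj1⟩ := ih h1
      rcases hO (c a / c j) with h2 | h2
      · refine ⟨j, Finset.mem_insert_of_mem hj, hj0, fun i hi => ?_⟩
        rcases Finset.mem_insert.1 hi with rfl | hi
        · exact h2
        · exact hj1 i hi
      · by_cases h3 : c a = 0
        · refine ⟨j, Finset.mem_insert_of_mem hj, hj0, fun i hi => ?_⟩
          rcases Finset.mem_insert.1 hi with rfl | hi
          · rw [h3, zero_div]
            exact O.zero_mem
          · exact hj1 i hi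
        · refine ⟨a, Finset.mem_insert_self a s, h3, fun i hi => ?_⟩
          rcases Finset.mem_insert.1 hi with rfl | hi
          · rw [div_self h3]
            exact O.one_mem
          · have h4 := O.mul_mem (hj1 i hi) h2
            have e : c i / c j * (c a / c j)⁻¹ = c i / c a := by
              field_simp
            rwa [e] at h4
    · push Not at h1
      obtain ⟨i, hi, hi0⟩ := h
      have h2 : c a ≠ 0 := by
        rcases Finset.mem_insert.1 hi with rfl | hi
        · exact hi0
        · exact absurd (h1 i hi) hi0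
      refine ⟨a, Finset.mem_insert_self a s, h2, fun i hi => ?_⟩
      rcases Finset.mem_insert.1 hi with rfl | hi
      · rw [div_self h2]
        exact O.one_mem
      · rw [h1 i hi, zero_div]
        exact O.zero_mem

private theorem la_drop (hO : Val O) {n : ℕ} (v : Fin (n + 1) → M) (h : ¬ LinearIndependent K v) :
    ∃ w : Fin n → M, Submodule.span O (Set.range w) = Submodule.span O (Set.range v) := by
  obtain ⟨g, hg, hi0⟩ := Fintype.not_linearIndependent_iff.1 h
  obtain ⟨j, -, hj0, hj1⟩ := la_max hO g Finset.univ (by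
    obtain ⟨i, hi⟩ := hi0
    exact ⟨i, Finset.mem_univ i, hi⟩)
  refine ⟨fun i => v (j.succAbove i), le_antisymm (Submodule.span_mono ?_) (Submodule.span_le.2 ?_)⟩
  · rintro _ ⟨i, rfl⟩
    exact ⟨_, rfl⟩
  · rintro _ ⟨i, rfl⟩
    rcases Fin.eq_self_or_eq_succAbove j i with rfl | ⟨i, rfl⟩
    · rw [Fin.sum_univ_succAbove _ i] at hg
      have h1 : v i = ∑ l, (-(g (i.succAbove l) / g i)) • v (i.succAbove l) := by
        have h2 : g i • v i = -∑ l, g (i.succAbove l) • v (i.succAbove l) := eq_neg_of_add_eq_zero_left hg
        have h3 : v i = (g i)⁻¹ • (g i • v i) := by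
          rw [smul_smul, inv_mul_cancel₀ hj0, one_smul]
        rw [h3, h2, smul_neg, Finset.smul_sum, ← Finset.sum_neg_distrib]
        refine Finset.sum_congr rfl fun l _ => ?_
        rw [smul_smul, neg_smul, div_eq_mul_inv, mul_comm]
      rw [SetLike.mem_coe, h1]
      refine Submodule.sum_mem _ fun l _ => ?_
      have h4 : (⟨-(g (i.succAbove l) / g i), O.neg_mem (hj1 _ (Finset.mem_univ _))⟩ : O) • v (i.succAbove l) ∈
          Submodule.span O (Set.range fun l => v (i.succAbove l)) :=
        Submodule.smul_mem _ _ (Submodule.subset_span ⟨l, rfl⟩)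
      exact h4
    · exact Submodule.subset_span ⟨i, rfl⟩

theorem lat_of_fg (hO : Val O) (L : Submodule O M) (hfg : L.FG) (hsp : Submodule.span K (L : Set M) = ⊤) :
    IsLat O L := by
  classical
  have hex : ∃ n : ℕ, ∃ v : Fin n → M, Submodule.span O (Set.range v) = L :=
    Submodule.fg_iff_exists_fin_generating_family.1 hfg
  obtain ⟨v, hv⟩ := Nat.find_spec hex
  have hmin := fun m (hm : m < Nat.find hex) => Nat.find_min hex hm
  generalize Nat.find hex = n at v hv hmin
  have hli : LinearIndependent K v := by
    by_contra hc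
    rcases n with _ | n
    · exact hc linearIndependent_empty_type
    · obtain ⟨w, hw⟩ := la_drop hO v hc
      exact hmin n (Nat.lt_succ_self n) ⟨w, hw.trans hv⟩
  have hle : ⊤ ≤ Submodule.span K (Set.range v) := by
    rw [← hsp]
    refine Submodule.span_le.2 ?_
    rw [← hv]
    exact Submodule.span_le_restrictScalars O K _
  refine ⟨n, Module.Basis.mk hli hle, ?_⟩
  rw [Module.Basis.coe_mk, hv]

theorem IsLat.fg {L : Submodule O M} (h : IsLat O L) : L.FG := by
  obtain ⟨n, b, rfl⟩ := h
  exact Submodule.fg_span (Set.finite_range b)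

theorem IsLat.span {L : Submodule O M} (h : IsLat O L) : Submodule.span K (L : Set M) = ⊤ := by
  obtain ⟨n, b, rfl⟩ := h
  rw [Submodule.span_span_of_tower, b.span_eq]

end Pool.Agent.NFG
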