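import Pool.Agent.NFG.LatA

/-!
# NFG/LatB: multiples of lattices

`scl c L = {c y | y ∈ L}`.  `scl_unit`: `c, c⁻¹ ∈ O`.  `IsLat.scl`: `b.unitsSMul` or: the image of the basis under the linear
equivalence `x ↦ c x` (`LinearEquiv.smulOfNeZero`).  `scl_inj`: let `L = span O (range b)`; `b i ∈ L`, so
`c b_i ∈ scl c' L`, `c b_i = c' y`, `y ∈ L`; the `i`-th coordinate of `y` is in `O` (coordinates of elements of
`span O (range b)` are in `O`: `Submodule.span_induction`), so `c / c' ∈ O`; the index `i` exists since `M` has a nonzero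
element.  `lat_rank_one`: `L = span O (range b)`, `b : Basis (Fin n) K M`, `M` is spanned by `e ≠ 0`, so `n = 1` and
`b 0 = t e`, `t ≠ 0`.  `lat_zero`: the basis indexed by `Fin 0`.
-/

set_option autoImplicit false

namespace Pool.Agent.NFG

universe w

variable {K : Type w} [Field K] {O : Subring K} {M : Type*} [AddCommGroup M] [Module K M]

theorem mem_scl {c : K} {L : Submodule O M} {x : M} : x ∈ scl c L ↔ ∃ y ∈ L, x = c • y := Iff.rfl

theorem smul_mem_scl (c : K) {L : Submodule O M} {y : M} (hy : y ∈ L) : c • y ∈ scl c L := ⟨y, hy, rfl⟩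

/-- scalars in `O` preserve submodules -/
theorem smul_mem_of {c : K} (hc : c ∈ O) {L : Submodule O M} {y : M} (hy : y ∈ L) : c • y ∈ L :=
  L.smul_mem (⟨c, hc⟩ : O) hy

theorem mem_scl_iff {c : K} (hc : c ≠ 0) {L : Submodule O M} {x : M} : x ∈ scl c L ↔ c⁻¹ • x ∈ L := by
  constructor
  · rintro ⟨y, hy, rfl⟩
    rwa [smul_smul, inv_mul_cancel₀ hc, one_smul]
  · intro h
    exact ⟨c⁻¹ • x, h, by rw [smul_smul, mul_inv_cancel₀ hc, one_smul]⟩

theorem scl_one (L : Submodule O M) : scl 1 L = L := by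
  ext x
  rw [mem_scl_iff one_ne_zero, inv_one, one_smul]

theorem scl_scl (c c' : K) (L : Submodule O M) : scl c (scl c' L) = scl (c * c') L := by
  ext x
  constructor
  · rintro ⟨_, ⟨y, hy, rfl⟩, rfl⟩
    exact ⟨y, hy, by rw [smul_smul]⟩
  · rintro ⟨y, hy, rfl⟩
    exact ⟨c' • y, ⟨y, hy, rfl⟩, by rw [smul_smul]⟩

theorem scl_mono {c : K} {L L' : Submodule O M} (h : L ≤ L') : scl c L ≤ scl c L' := by
  rintro _ ⟨y, hy, rfl⟩
  exact ⟨y, h hy, rfl⟩

theorem scl_unit {c : K} (hc : IsU O c) (L : Submodule O M) : scl c L = L := by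
  ext x
  rw [mem_scl_iff hc.1]
  constructor
  · intro h
    have h1 := smul_mem_of hc.2.1 h
    rwa [smul_smul, mul_inv_cancel₀ hc.1, one_smul] at h1
  · intro h
    exact smul_mem_of hc.2.2 h

theorem scl_congr {c c' : K} (hc : c ≠ 0) (hc' : c' ≠ 0) (h : IsU O (c / c')) (L : Submodule O M) :
    scl c L = scl c' L := by
  have e : c = c' * (c / c') := by
    field_simp
  rw [e, ← scl_scl, scl_unit h]

theorem scl_span_singleton (c : K) (e : M) : scl c (Submodule.span O {e}) = Submodule.span O {c • e} := by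
  ext x
  rw [Submodule.mem_span_singleton]
  constructor
  · rintro ⟨y, hy, rfl⟩
    obtain ⟨o, rfl⟩ := Submodule.mem_span_singleton.1 hy
    exact ⟨o, smul_comm o c e⟩
  · rintro ⟨o, rfl⟩
    exact ⟨o • e, Submodule.mem_span_singleton.2 ⟨o, rfl⟩, smul_comm o c e⟩

theorem IsLat.scl {L : Submodule O M} (h : IsLat O L) {c : K} (hc : c ≠ 0) : IsLat O (scl c L) := by
  obtain ⟨n, b, rfl⟩ := h
  refine ⟨n, b.map (LinearEquiv.smulOfNeZero K M c hc), ?_⟩
  apply le_antisymm
  · rintro _ ⟨y, hy, rfl⟩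
    induction hy using Submodule.span_induction with
    | mem x hx =>
      obtain ⟨i, rfl⟩ := hx
      refine Submodule.subset_span ⟨i, ?_⟩
      rw [Module.Basis.map_apply]
      rfl
    | zero =>
      rw [smul_zero]
      exact Submodule.zero_mem _
    | add x y _ _ hx hy =>
      rw [smul_add]
      exact Submodule.add_mem _ hx hy
    | smul o x _ hx =>
      rw [← smul_comm o c x]
      exact Submodule.smul_mem _ o hx
  · refine Submodule.span_le.2 ?_
    rintro _ ⟨i, rfl⟩
    refine ⟨b i, Submodule.subset_span ⟨i, rfl⟩, ?_⟩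
    rw [Module.Basis.map_apply]
    rfl

/-- coordinates of elements of the lattice are in `O` -/
private theorem lb_coord {n : ℕ} (b : Module.Basis (Fin n) K M) {y : M}
    (hy : y ∈ Submodule.span O (Set.range b)) (i : Fin n) : b.repr y i ∈ O := by
  induction hy using Submodule.span_induction with
  | mem x hx =>
    obtain ⟨j, rfl⟩ := hx
    rw [Module.Basis.repr_self, Finsupp.single_apply]
    split_ifs
    · exact O.one_mem
    · exact O.zero_mem
  | zero =>
    rw [map_zero]
    exact O.zero_mem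
  | add x y _ _ hx hy =>
    rw [map_add, Finsupp.add_apply]
    exact O.add_mem hx hy
  | smul o x _ hx =>
    have e : (o • x : M) = (o : K) • x := rfl
    rw [e, map_smul, Finsupp.smul_apply]
    exact O.mul_mem o.2 hx

private theorem lb_div {n : ℕ} (b : Module.Basis (Fin n) K M) (i : Fin n) {c c' : K} (hc' : c' ≠ 0)
    (he : Pool.Agent.NFG.scl c (Submodule.span O (Set.range b)) ≤
      Pool.Agent.NFG.scl c' (Submodule.span O (Set.range b))) : c / c' ∈ O := by
  have h1 : c • b i ∈ Pool.Agent.NFG.scl c' (Submodule.span O (Set.range b)) :=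
    he ⟨b i, Submodule.subset_span ⟨i, rfl⟩, rfl⟩
  rw [mem_scl_iff hc'] at h1
  have h2 := lb_coord b h1 i
  rw [smul_smul, map_smul, Finsupp.smul_apply, Module.Basis.repr_self, Finsupp.single_eq_same, smul_eq_mul,
    mul_one] at h2
  rwa [div_eq_inv_mul]

theorem scl_inj {L : Submodule O M} (h : IsLat O L) {x : M} (hx : x ≠ 0) {c c' : K} (hc : c ≠ 0) (hc' : c' ≠ 0)
    (he : Pool.Agent.NFG.scl c L = Pool.Agent.NFG.scl c' L) : IsU O (c / c') := by
  obtain ⟨n, b, rfl⟩ := h
  have hi : Nonempty (Fin n) := by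
    by_contra hne
    rw [not_nonempty_iff] at hne
    exact hx (b.ext_elem fun i => (hne.false i).elim)
  obtain ⟨i⟩ := hi
  refine ⟨div_ne_zero hc hc', lb_div b i hc' he.le, ?_⟩
  rw [inv_div]
  exact lb_div b i hc he.ge

theorem lat_rank_one {L : Submodule O M} (h : IsLat O L) {e : M} (he : e ≠ 0) (h1 : ∀ x : M, ∃ c : K, x = c • e) :
    ∃ t : K, t ≠ 0 ∧ L = Submodule.span O {t • e} := by
  obtain ⟨n, b, rfl⟩ := h
  have hi : Nonempty (Fin n) := by
    by_contra hne
    rw [not_nonempty_iff] at hne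
    exact he (b.ext_elem fun i => (hne.false i).elim)
  obtain ⟨i⟩ := hi
  have huniq : ∀ j : Fin n, j = i := by
    intro j
    by_contra hji
    obtain ⟨ci, hci⟩ := h1 (b i)
    obtain ⟨cj, hcj⟩ := h1 (b j)
    have h0 : cj • b i - ci • b j = 0 := by
      rw [hci, hcj, smul_smul, smul_smul, mul_comm, sub_self]
    have h2 := congrArg (fun z => b.repr z j) h0
    simp only [map_sub, map_smul, Finsupp.sub_apply, Finsupp.smul_apply, Module.Basis.repr_self,
      Finsupp.single_eq_same, map_zero, Finsupp.zero_apply, smul_eq_mul, mul_one] at h2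
    rw [Finsupp.single_eq_of_ne hji, mul_zero, zero_sub, neg_eq_zero] at h2
    rw [h2, zero_smul] at hci
    exact b.ne_zero i hci
  obtain ⟨t, ht⟩ := h1 (b i)
  refine ⟨t, ?_, ?_⟩
  · rintro rfl
    rw [zero_smul] at ht
    exact b.ne_zero i ht
  · congr 1
    ext z
    simp only [Set.mem_range, Set.mem_singleton_iff]
    constructor
    · rintro ⟨j, rfl⟩
      rw [huniq j, ht]
    · rintro rfl
      exact ⟨i, ht⟩

theorem lat_span_singleton {e : M} (he : e ≠ 0) (h1 : ∀ x : M, ∃ c : K, x = c • e) :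
    IsLat O (Submodule.span O ({e} : Set M)) := by
  have hli : LinearIndependent K (fun _ : Fin 1 => e) :=
    linearIndependent_unique_iff.2 he
  have hsp : ⊤ ≤ Submodule.span K (Set.range (fun _ : Fin 1 => e)) := by
    intro x _
    obtain ⟨c, rfl⟩ := h1 x
    exact Submodule.smul_mem _ c (Submodule.subset_span ⟨0, rfl⟩)
  refine ⟨1, Module.Basis.mk hli hsp, ?_⟩
  rw [Module.Basis.coe_mk]
  congr 1
  ext z
  simp only [Set.mem_singleton_iff, Set.mem_range, exists_const]
  exact eq_comm

theorem lat_zero (h0 : ∀ x : M, x = 0) (L : Submodule O M) : IsLat O L := by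
  have hs : Subsingleton M := ⟨fun x y => by rw [h0 x, h0 y]⟩
  exact ⟨0, Module.Basis.empty M, by
    ext x
    rw [h0 x]
    exact ⟨fun _ => Submodule.zero_mem _, fun _ => Submodule.zero_mem _⟩⟩

theorem eq_of_zero (h0 : ∀ x : M, x = 0) (L L' : Submodule O M) : L = L' := by
  ext x
  rw [h0 x]
  exact ⟨fun _ => Submodule.zero_mem _, fun _ => Submodule.zero_mem _⟩

/-- a `K`-basis exists: every finite-dimensional space has a lattice -/
theorem exists_lat [FiniteDimensional K M] : ∃ L : Submodule O M, IsLat O L :=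
  ⟨_, _, Module.finBasis K M, rfl⟩

end Pool.Agent.NFG
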