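import Pool.Agent.NFG.LatB

/-!
# NFG/LatC: spans of products are finitely generated
-/

set_option autoImplicit false

namespace Pool.Agent.NFG

universe w

variable {K : Type w} [Field K] {O : Subring K}

theorem fg_span2 {M₁ M₂ M₃ : Type*} [AddCommGroup M₁] [Module K M₁] [AddCommGroup M₂] [Module K M₂] [AddCommGroup M₃]
    [Module K M₃] (B : M₁ → M₂ → M₃) (h1 : ∀ x x' y, B (x + x') y = B x y + B x' y)
    (h2 : ∀ (c : K) x y, B (c • x) y = c • B x y) (h3 : ∀ x y y', B x (y + y') = B x y + B x y')
    (h4 : ∀ (c : K) x y, B x (c • y) = c • B x y) {S₁ : Submodule O M₁} {S₂ : Submodule O M₂} (hS₁ : S₁.FG)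
    (hS₂ : S₂.FG) : (Submodule.span O {h | ∃ x ∈ S₁, ∃ y ∈ S₂, h = B x y}).FG := by
  obtain ⟨s₁, rfl⟩ := hS₁
  obtain ⟨s₂, rfl⟩ := hS₂
  have h0 : Submodule.span O {h | ∃ x ∈ Submodule.span O (s₁ : Set M₁), ∃ y ∈ Submodule.span O (s₂ : Set M₂), h = B x y} =
      Submodule.span O (Set.image2 B (s₁ : Set M₁) (s₂ : Set M₂)) := by
    apply le_antisymm
    · rw [Submodule.span_le]
      rintro h ⟨x, hx, y, hy, rfl⟩
      have hz1 : ∀ y, B 0 y = 0 := fun y => by
        have := h2 0 0 y
        rwa [zero_smul, zero_smul] at this
      have hz2 : ∀ x, B x 0 = 0 := fun x => by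
        have := h4 0 x 0
        rwa [zero_smul, zero_smul] at this
      have key : ∀ x ∈ (s₁ : Set M₁), ∀ y ∈ Submodule.span O (s₂ : Set M₂),
          B x y ∈ Submodule.span O (Set.image2 B (s₁ : Set M₁) (s₂ : Set M₂)) := by
        intro x hx y hy
        induction hy using Submodule.span_induction with
        | mem y hy => exact Submodule.subset_span ⟨x, hx, y, hy, rfl⟩
        | zero => rw [hz2]; exact Submodule.zero_mem _
        | add y y' _ _ ih ih' => rw [h3]; exact Submodule.add_mem _ ih ih'
        | smul c y _ ih =>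
          have h5 : B x (c • y) = c • B x y := h4 (c : K) x y
          rw [h5]
          exact Submodule.smul_mem _ c ih
      show B x y ∈ Submodule.span O (Set.image2 B (s₁ : Set M₁) (s₂ : Set M₂))
      induction hx using Submodule.span_induction with
      | mem x hx => exact key x hx y hy
      | zero => rw [hz1]; exact Submodule.zero_mem _
      | add x x' _ _ ih ih' => rw [h1]; exact Submodule.add_mem _ ih ih'
      | smul c x _ ih =>
        have h5 : B (c • x) y = c • B x y := h2 (c : K) x y
        rw [h5]
        exact Submodule.smul_mem _ c ih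
    · rw [Submodule.span_le]
      rintro h ⟨x, hx, y, hy, rfl⟩
      exact Submodule.subset_span ⟨x, Submodule.subset_span hx, y, Submodule.subset_span hy, rfl⟩
  rw [h0]
  exact Submodule.fg_span (Set.Finite.image2 B s₁.finite_toSet s₂.finite_toSet)

theorem fg_iSup' {M : Type*} [AddCommGroup M] [Module K M] {κ : Type*} [Finite κ] (S : κ → Submodule O M)
    (h : ∀ k, (S k).FG) : (⨆ k, S k).FG := by
  exact Submodule.fg_iSup S h

/-- the `K`-span of an `O`-span -/
theorem span_span {M : Type*} [AddCommGroup M] [Module K M] (s : Set M) :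
    Submodule.span K ((Submodule.span O s : Submodule O M) : Set M) = Submodule.span K s := by
  apply le_antisymm
  · rw [Submodule.span_le]
    intro x hx
    rw [SetLike.mem_coe] at hx ⊢
    induction hx using Submodule.span_induction with
    | mem y hy => exact Submodule.subset_span hy
    | zero => exact Submodule.zero_mem _
    | add y y' _ _ ih ih' => exact Submodule.add_mem _ ih ih'
    | smul c y _ ih => exact Submodule.smul_mem (Submodule.span K s) (c : K) ih
  · exact Submodule.span_mono Submodule.subset_span

end Pool.Agent.NFG
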