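import Mathlib

/-!
# NFG/LinA: the trace of an involution

`e = (1 + R) / 2` is an idempotent: its trace is its rank `r`, `0 ≤ r ≤ n = dim V` (for instance `LinearMap.IsProj`, `LinearMap.trace_eq_finrank..`,
`LinearMap.IsIdempotentElem`, or split `V` as the sum of the two eigenspaces `ker (R - 1)`, `ker (R + 1)` of dimension `a`, `b` and use
`LinearMap.trace_eq_sum_trace_restrict`).  So `trace R = 2 r - n =: m`, `|m| ≤ n`.  If `m = n` then `r = n` and `e = 1`, so `R = 1`; if `m = -n`
then `r = 0`, `e = 0` and `R = -1`.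

`LinB`-type lemma `trace_eq`: `p` is a perfect pairing `V' × V → K` (nondegenerate on both sides).  `h` says
`p (y, x) = p (Φ⁻¹ (A₁ (Φ y)), A x)`; replace `x` by `A x`: `p (y, A x) = p (Φ⁻¹ (A₁ (Φ y)), x)`, so `Φ⁻¹ A₁ Φ` is the transpose of `A`.  The traces agree
(`LinearMap.trace_conj'`, and with `V' ≃ Dual V` given by `p`: `LinearMap.trace_transpose'` or `Matrix.trace_transpose`).
-/

set_option autoImplicit false

namespace Pool.Agent.NFG

theorem inv_trace {K V : Type*} [Field K] [CharZero K] [AddCommGroup V] [Module K V] [FiniteDimensional K V]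
    (R : V →ₗ[K] V) (h : ∀ x, R (R x) = x) :
    ∃ m : ℤ, LinearMap.trace K V R = m ∧ |m| ≤ (Module.finrank K V : ℤ) ∧
      (m = (Module.finrank K V : ℤ) → ∀ x, R x = x) ∧ (m = -(Module.finrank K V : ℤ) → ∀ x, R x = -x) := by
  have h2 : (2 : K) ≠ 0 := two_ne_zero
  set e : V →ₗ[K] V := (2 : K)⁻¹ • (LinearMap.id + R) with he
  have hex : ∀ x, e x = (2 : K)⁻¹ • (x + R x) := fun x => rfl
  have hid : IsIdempotentElem e := by
    refine LinearMap.ext fun x => ?_
    change e (e x) = e x
    rw [hex, hex, map_smul, map_add, h, ← smul_add, add_comm (R x) x, ← two_smul K (x + R x), smul_smul, smul_smul,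
      mul_assoc, inv_mul_cancel₀ h2, mul_one]
  have hpr : LinearMap.IsProj (LinearMap.range e) e := LinearMap.IsIdempotentElem.isProj_range e hid
  have hr := hpr.trace
  set r : ℕ := Module.finrank K (LinearMap.range e) with hrdef
  set n : ℕ := Module.finrank K V with hn
  have htr : LinearMap.trace K V R = 2 * (r : K) - n := by
    have h3 : LinearMap.trace K V e = (2 : K)⁻¹ * ((n : K) + LinearMap.trace K V R) := by
      rw [he, map_smul, map_add, LinearMap.trace_id, smul_eq_mul]
    rw [hr] at h3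
    rw [h3]
    field_simp
    ring
  have hrn : r ≤ n := Submodule.finrank_le _
  refine ⟨2 * (r : ℤ) - n, ?_, ?_, ?_, ?_⟩
  · rw [htr]
    push_cast
    ring
  · rw [abs_le]
    constructor <;> omega
  · intro hm x
    have h4 : r = n := by omega
    have h5 : LinearMap.range e = ⊤ := Submodule.eq_top_of_finrank_eq h4
    have h6 : e x = x := hpr.map_id x (by rw [h5]; trivial)
    rw [hex] at h6
    have h7 : (2 : K) • ((2 : K)⁻¹ • (x + R x)) = (2 : K) • x := by rw [h6]
    rw [smul_smul, mul_inv_cancel₀ h2, one_smul, two_smul] at h7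
    exact add_left_cancel h7
  · intro hm x
    have h4 : r = 0 := by omega
    have h5 : LinearMap.range e = ⊥ := Submodule.finrank_eq_zero.mp h4
    have h6 : e x = 0 := by
      have : e x ∈ LinearMap.range e := ⟨x, rfl⟩
      rw [h5] at this
      exact (Submodule.mem_bot K).mp this
    rw [hex] at h6
    have h7 : (2 : K) • ((2 : K)⁻¹ • (x + R x)) = 0 := by rw [h6, smul_zero]
    rw [smul_smul, mul_inv_cancel₀ h2, one_smul] at h7
    exact eq_neg_of_add_eq_zero_right h7

theorem trace_eq {K V V' V₁ : Type*} [Field K] [AddCommGroup V] [Module K V] [AddCommGroup V'] [Module K V']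
    [AddCommGroup V₁] [Module K V₁] [FiniteDimensional K V] [FiniteDimensional K V'] [FiniteDimensional K V₁]
    (p : V' →ₗ[K] V →ₗ[K] K) (hp : ∀ x, (∀ y, p y x = 0) → x = 0) (hp' : ∀ y, (∀ x, p y x = 0) → y = 0)
    (Φ : V' ≃ₗ[K] V₁) (A : V →ₗ[K] V) (hA : ∀ x, A (A x) = x) (A₁ : V₁ →ₗ[K] V₁)
    (h : ∀ y x, p y x = p (Φ.symm (A₁ (Φ y))) (A x)) : LinearMap.trace K V₁ A₁ = LinearMap.trace K V A := by
  have hI : Function.Injective p := by
    rw [injective_iff_map_eq_zero]
    intro y hy
    exact hp' y fun x => by rw [hy]; rfl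
  have hI' : Function.Injective p.flip := by
    rw [injective_iff_map_eq_zero]
    intro x hx
    refine hp x fun y => ?_
    have : p.flip x y = 0 := by rw [hx]; rfl
    exact this
  haveI : p.IsPerfPair := LinearMap.IsPerfPair.of_injective hI hI'
  have h1 : LinearMap.trace K V' (Φ.symm.conj A₁) = LinearMap.trace K V₁ A₁ := LinearMap.trace_conj' A₁ Φ.symm
  have h2 : p.toPerfPair.conj (Φ.symm.conj A₁) = Module.Dual.transpose (R := K) A := by
    refine LinearMap.ext fun f => ?_
    obtain ⟨y, rfl⟩ := p.toPerfPair.surjective f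
    refine LinearMap.ext fun x => ?_
    rw [LinearEquiv.conj_apply_apply, LinearEquiv.symm_apply_apply, LinearMap.toPerfPair_apply, Module.Dual.transpose_apply,
      LinearMap.comp_apply, LinearMap.toPerfPair_apply, h y (A x), hA, LinearEquiv.conj_apply_apply,
      LinearEquiv.symm_symm]
  rw [← h1, ← LinearMap.trace_conj' (Φ.symm.conj A₁) p.toPerfPair, h2, LinearMap.trace_transpose']

end Pool.Agent.NFG
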