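import Pool.Agent.NFG.Gau
import Pool.Agent.NFG.StC

/-!
# NFG/M1: extension of an `E`-form to `E'`, one factor
-/

set_option autoImplicit false

noncomputable section

open CategoryTheory MonoidalCategory

namespace Pool.Agent.NFG

universe v u w

variable {K : Type w} [Field K] {C : Type u} [Category.{v} C] [Preadditive C] [Linear K C] [MonoidalCategory C]
  [MonoidalPreadditive C] [MonoidalLinear K C] {ι : Type} [Fintype ι] [DecidableEq ι] {O : Subring K}

theorem exists_pre {F : Fus K C ι} {sp : Sph F} {E E' : Set ι} {Q : Type} [Group Q] {deg : ι → Q}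
    (hg : IsGr sp E E' Q deg) {L : F.Sys O} (h : Ctx sp O E L) : ∃ L' : F.Sys O, Pre sp O E E' deg L' := by
  classical
  have hd : ∀ i, sp.d i ≠ 0 := fun i => (h.du i).1
  have hex : ∀ (q : Q) (v : ι), ∃ n : ∀ a, F.Fam O (F.S a ⊗ F.S v), Stab F E L (cmp E' deg q) n ∧
      (q = 1 → n = fun a => L a v) ∧ (q ≠ 1 → ∀ h : F.o = v, n = h ▸ fun a => F.rf O a) := by
    intro q v
    by_cases hq : q = 1
    · subst hq
      refine ⟨fun a => L a v, ?_, fun _ => rfl, fun h => absurd rfl h⟩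
      rw [cmp_one hg]
      exact stab_self h v
    · by_cases hv : F.o = v
      · subst hv
        exact ⟨fun a => F.rf O a, stab_rf, fun e => absurd e hq, fun _ _ => rfl⟩
      · obtain ⟨n, hn⟩ := exists_stab h (gr_orb hd hg q) (F.S v)
        exact ⟨n, hn, fun e => absurd e hq, fun _ e => absurd e hv⟩
  choose n hn1 hn2 hn3 using hex
  obtain ⟨L', hL'⟩ : ∃ L' : F.Sys O, ∀ a v, L' a v = if a ∈ E' then n (deg a) v a else L a v := ⟨_, fun _ _ => rfl⟩
  have hE : ∀ a ∈ E, L' a = L a := by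
    intro a ha
    obtain ⟨h1, h2⟩ := (hg.ker a).1 ha
    funext v
    rw [hL', if_pos h1, hn2 (deg a) v h2]
  refine ⟨L', ⟨⟨h.val, h.du, h.sub, int_congr hE h.sub.one h.sub.mul h.int⟩, ?_, ?_⟩⟩
  · intro a ha
    by_cases h1 : deg a = 1
    · have h2 : a ∈ E := (hg.ker a).2 ⟨ha, h1⟩
      rw [hE a h2]
      exact h.int.unitR a h2
    · rw [hL', if_pos ha, hn3 (deg a) F.o h1 rfl]
      exact rf_self F a
  · intro q v
    refine stab_congr hE ?_ (hn1 q v)
    rintro a ⟨ha, rfl⟩
    show L' a v = n (deg a) v a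
    rw [hL', if_pos ha]

end Pool.Agent.NFG
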