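import Pool.Agent.NFG.M2a

/-!
# NFG/M2b: the `E`-form seen from the right

Fix `a ∈ cmp E' deg q`.  `lq L a y v := ql L a (N1 L a y (fun k => L k v))`, lattices on `S y ⊗ S v`, `y ∈ E`.  By `cr`, `stab_N1`
and `ql_lat` (`hA := gr_orb`, `hst := Pre.st q`):  (*)  `N1 L a y (fun k => L k v) = N2 L a (lq L a y v)`; `lq` does not depend on
`a ∈ cmp E' deg q` (`ql_indep`).

`lq_int`: `LInt F O E (lq L a)`.
* `lat`: `ql_lat`.
* `unitL`: `y = o`: `L a o = rf a` (`eq_rf`, `Pre.uR`), `N1 L a o (fun k => L k v) = N2 L a (lf v)` (`N1_rf`), so `lq L a o v = lf v`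
  (`ql_unique`, `lf_lat`), `lf_self`.
* `unitR`: `v = o`: for `Occ a y k`: `k ∈ E'`, `L k o = rf k`; `N1 L a y (fun k => L k o) = N2 L a (rf y)` (`N1_rf_right`, after
  `N1_congr`), so `lq L a y o = rf y`, `rf_self`.
* `assoc`: `y, y' ∈ E`, `v`.  Put `P1 = N1 (lq L a) y y' (fun k => lq L a k v)`, `P2 = N2 (lq L a) y (lq L a y' v)`, families of
  lattices on `S y ⊗ (S y' ⊗ S v)` (`lat_N1`, `lat_N2`).  By `faith` it is enough that `N2 L a P1 = N2 L a P2`.  Both are equal to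
  `T m = span {f ≫ hat x' (S v) ≫ hat x (S y' ⊗ S v) | x ∈ L a y k, x' ∈ L k y' l, f ∈ L l v m}` (`k, l` of degree `q`):
  `T = N2 L a P2`: `f ≫ hat x' (S v) ∈ N1 L k y' (fun l => L l v) m = N2 L k (lq L a y' v) m` (by (*) for `k`, `ql_indep`), i.e. sums
  of `z ≫ (S k ◁ l')`, and `z ≫ (S k ◁ l') ≫ hat x (S y' ⊗ S v) = z ≫ hat x (S w) ≫ (S a ◁ (S y ◁ l'))` (`hat_natural`),
  `z ≫ hat x (S w) ∈ N1 L a y (fun k => L k w) m = N2 L a (lq L a y w) m`; all inclusions are equalities of spans.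
  `T = N2 L a P1`: `x' ≫ hat x (S y') ∈ N1 L a y (fun k => L k y') l = N2 L a (lq L a y y') l`, i.e. sums of `f' ≫ (S a ◁ l'')`, so by
  `th_hat`, `th_comp` `hat x' (S v) ≫ hat x (S y' ⊗ S v) = th (x' ≫ hat x (S y')) (S v)` is a sum of
  `hat f' (S v) ≫ (S a ◁ hat l'' (S v))`, and `f ≫ hat f' (S v) ∈ N1 L a k (fun l => L l v) m = N2 L a (lq L a k v) m` (`k ∈ E`).

It is convenient to prove four inclusions as separate lemmas (`N1_le`, `N2_le`, additivity).
-/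

set_option autoImplicit false

noncomputable section

open CategoryTheory MonoidalCategory

namespace Pool.Agent.NFG

universe v u w

variable {K : Type w} [Field K] {C : Type u} [Category.{v} C] [Preadditive C] [Linear K C] [MonoidalCategory C]
  [MonoidalPreadditive C] [MonoidalLinear K C] {ι : Type} [Fintype ι] [DecidableEq ι] {O : Subring K}

/-- the system `lq` -/
def lq {F : Fus K C ι} (L : F.Sys O) (a : ι) : F.Sys O := fun y v => F.ql L a (F.N1 L a y (fun k => L k v))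

theorem lq_spec {F : Fus K C ι} {sp : Sph F} {E E' : Set ι} {Q : Type} [Group Q] {deg : ι → Q}
    (hg : IsGr sp E E' Q deg) {L : F.Sys O} (h : Pre sp O E E' deg L) {q : Q} {a : ι} (ha : a ∈ cmp E' deg q) {b : ι}
    (hb : b ∈ E') (v : ι) : F.N1 L a b (fun k => L k v) = F.N2 L a (lq L a b v) :=
  cr h.ctx (gr_orb (fun i => (h.ctx.du i).1) hg q) (h.st q) (stab_N1 hg h q hb v) ha

theorem lq_indep {F : Fus K C ι} {sp : Sph F} {E E' : Set ι} {Q : Type} [Group Q] {deg : ι → Q}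
    (hg : IsGr sp E E' Q deg) {L : F.Sys O} (h : Pre sp O E E' deg L) {q : Q} {a a' : ι} (ha : a ∈ cmp E' deg q)
    (ha' : a' ∈ cmp E' deg q) {b : ι} (hb : b ∈ E') (v : ι) : lq L a b v = lq L a' b v :=
  ql_indep h.ctx (gr_orb (fun i => (h.ctx.du i).1) hg q) (h.st q) (stab_N1 hg h q hb v) ha ha'

theorem lq_lat {F : Fus K C ι} {sp : Sph F} {E E' : Set ι} {Q : Type} [Group Q] {deg : ι → Q}
    (hg : IsGr sp E E' Q deg) {L : F.Sys O} (h : Pre sp O E E' deg L) {q : Q} {a : ι} (ha : a ∈ cmp E' deg q) {b : ι}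
    (hb : b ∈ E') (v m : ι) : IsLat O (lq L a b v m) :=
  ql_lat h.ctx (gr_orb (fun i => (h.ctx.du i).1) hg q) (h.st q) (stab_N1 hg h q hb v) ha m

theorem lq_unitL {F : Fus K C ι} {sp : Sph F} {E E' : Set ι} {Q : Type} [Group Q] {deg : ι → Q}
    (hg : IsGr sp E E' Q deg) {L : F.Sys O} (h : Pre sp O E E' deg L) {q : Q} {a : ι} (ha : a ∈ cmp E' deg q) (v : ι) :
    lq L a F.o v = F.lf O v :=
  ql_unique h.ctx (gr_orb (fun i => (h.ctx.du i).1) hg q) (h.st q) (stab_N1 hg h q hg.sub.one v) ha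
    (fun m => lf_lat F v m) (N1_rf (eq_rf F (h.uR a ha.1)))

theorem lq_unitR {F : Fus K C ι} {sp : Sph F} {E E' : Set ι} {Q : Type} [Group Q] {deg : ι → Q}
    (hg : IsGr sp E E' Q deg) {L : F.Sys O} (h : Pre sp O E E' deg L) {q : Q} {a : ι} (ha : a ∈ cmp E' deg q) {b : ι}
    (hb : b ∈ E') : lq L a b F.o = F.rf O b :=
  ql_unique h.ctx (gr_orb (fun i => (h.ctx.du i).1) hg q) (h.st q) (stab_N1 hg h q hb F.o) ha
    (fun m => rf_lat F b m) (N1_rf_right fun k hk => eq_rf F (h.uR k (hg.sub.mul a ha.1 b hb k hk)))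

end Pool.Agent.NFG
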