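import Pool.Agent.NFG.M3a

/-!
# NFG/M3b: the scalars `s q q' v`

`exists_s`: for `q, q', v` choose `a_q ∈ cmp E' deg q`; `uni` for `fun b => lq L a_q b v` (`stab_lq`, `hst := Pre.st q'`) gives `s q q' v ≠ 0` with
`lq L a_q b v w = scl (s q q' v) (L b v w)` for `b ∈ cmp E' deg q'`.  By `lq_spec`, `lq_indep`
`N1 L a b (fun k => L k v) = N2 L a (lq L a b v)`, and `N2_scl` (`s = 1`, `t = s q q' v` constant).
`s_one_left`: for `a ∈ E`, `b ∈ cmp E' deg q'`: `N1 L a b .. = N2 L a (L b v)` by `stab_eq` (`Pre.st q' v`), so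
`scl (s 1 q' v) (N2 L a (L b v) m) = N2 L a (L b v) m`; choose `m` with a nonzero element (for instance `a = o`: or choose `w` with
`Occ b v w` and `m` with `Occ a w m`, the element `z ≫ (S a ◁ x)` is not zero because `≫ (S a ◁ g) ≫ g'` gives `𝟙`), `scl_inj`, `lat_N2`.
`s_one_right`: the same with `h2`.
`s_o`: `v = o`: `N1 L a b (fun k => L k o) = N2 L a (rf b) = N2 L a (L b o)` (`N1_rf_right`, `eq_rf`).
`nz`: nonzero elements of `N2 L a (L b v) m`.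
-/

set_option autoImplicit false

noncomputable section

open CategoryTheory MonoidalCategory

namespace Pool.Agent.NFG

universe v u w

variable {K : Type w} [Field K] {C : Type u} [Category.{v} C] [Preadditive C] [Linear K C] [MonoidalCategory C]
  [MonoidalPreadditive C] [MonoidalLinear K C] {ι : Type} [Fintype ι] [DecidableEq ι] {O : Subring K}

theorem nz {F : Fus K C ι} {sp : Sph F} {E E' : Set ι} {Q : Type} [Group Q] {deg : ι → Q}
    (hg : IsGr sp E E' Q deg) {L : F.Sys O} (h : Pre sp O E E' deg L) {a b : ι} (ha : a ∈ E') (hb : b ∈ E') (v : ι) :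
    ∃ (m : ι) (f : F.S m ⟶ F.S a ⊗ (F.S b ⊗ F.S v)), f ∈ F.N2 L a (L b v) m ∧ f ≠ 0 := by
  have hd : ∀ i, sp.d i ≠ 0 := fun i => (h.ctx.du i).1
  obtain ⟨w, hw⟩ := exists_occ sp hd b v
  obtain ⟨x, hx, g, -, hxg⟩ := exists_pair F ((h.st (deg b) v).lat b ⟨hb, rfl⟩ w) hw
  obtain ⟨m, hm⟩ := exists_occ sp hd a w
  obtain ⟨z, hz, g', -, hzg⟩ := exists_pair F ((h.st (deg a) w).lat a ⟨ha, rfl⟩ m) hm
  refine ⟨m, z ≫ (F.S a ◁ x), mem_N2 hz hx, fun h0 => F.one_ne m ?_⟩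
  have h1 : (z ≫ (F.S a ◁ x)) ≫ (F.S a ◁ g) ≫ g' = 𝟙 (F.S m) := by
    rw [Category.assoc, ← MonoidalCategory.whiskerLeft_comp_assoc, hxg, MonoidalCategory.whiskerLeft_id,
      Category.id_comp, hzg]
  rw [← h1, h0, Limits.zero_comp]

private theorem m3_rf {F : Fus K C ι} {sp : Sph F} {E E' : Set ι} {Q : Type} [Group Q] {deg : ι → Q}
    {L : F.Sys O} (h : Pre sp O E E' deg L) {a : ι} (ha : a ∈ E') : L a F.o = F.rf O a :=
  eq_rf F (h.uR a ha)

private theorem m3_lat {F : Fus K C ι} {sp : Sph F} {E E' : Set ι} {Q : Type} [Group Q] {deg : ι → Q}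
    {L : F.Sys O} (h : Pre sp O E E' deg L) {a b : ι} (ha : a ∈ E') (hb : b ∈ E')
    (v m : ι) : IsLat O (F.N2 L a (L b v) m) :=
  lat_N2 h.ctx.val (fun m' => (h.st (deg a) m').lat a ⟨ha, rfl⟩ m) (fun m' => (h.st (deg b) v).lat b ⟨hb, rfl⟩ m')

private theorem m3_unit {F : Fus K C ι} {sp : Sph F} {E E' : Set ι} {Q : Type} [Group Q] {deg : ι → Q}
    (hg : IsGr sp E E' Q deg) {L : F.Sys O} (h : Pre sp O E E' deg L) {a b : ι} (ha : a ∈ E') (hb : b ∈ E') (v : ι)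
    {s : K} (hs : s ≠ 0) (h1 : ∀ m, F.N1 L a b (fun k => L k v) m = scl s (F.N2 L a (L b v) m))
    (h3 : F.N1 L a b (fun k => L k v) = F.N2 L a (L b v)) : IsU O s := by
  obtain ⟨m, f, hf, hf0⟩ := nz hg h ha hb v
  have h4 := h1 m
  rw [h3] at h4
  have h5 : scl s (F.N2 L a (L b v) m) = scl 1 (F.N2 L a (L b v) m) := by
    rw [scl_one]
    exact h4.symm
  have h6 := scl_inj (m3_lat h ha hb v m) hf0 hs one_ne_zero h5
  rwa [div_one] at h6

theorem exists_s {F : Fus K C ι} {sp : Sph F} {E E' : Set ι} {Q : Type} [Group Q] {deg : ι → Q}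
    (hg : IsGr sp E E' Q deg) {L : F.Sys O} (h : Pre sp O E E' deg L)
    (h2 : ∀ a ∈ E', ∀ y ∈ E, ∀ v, F.N1 L a y (fun k => L k v) = F.N2 L a (L y v)) :
    ∃ s : Q → Q → ι → K, (∀ q q' v, s q q' v ≠ 0) ∧
      (∀ a ∈ E', ∀ b ∈ E', ∀ v m, F.N1 L a b (fun k => L k v) m = scl (s (deg a) (deg b) v) (F.N2 L a (L b v) m)) ∧
      (∀ q v, IsU O (s 1 q v)) ∧ (∀ q v, IsU O (s q 1 v)) ∧ (∀ q q', IsU O (s q q' F.o)) := by
  have hd : ∀ i, sp.d i ≠ 0 := fun i => (h.ctx.du i).1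
  have hrep : ∀ q : Q, ∃ a, a ∈ cmp E' deg q := fun q => hg.surj q
  choose r hr using hrep
  have hu : ∀ q q' v, ∃ t : K, t ≠ 0 ∧ ∀ b ∈ cmp E' deg q', ∀ m, lq L (r q) b v m = scl t (L b v m) := fun q q' v =>
    uni h.ctx (gr_orb hd hg q') (h.st q') (stab_lq hg h h2 (hr q) q' v)
  choose s hs0 hs using hu
  have hone : IsU O (1 : K) := ⟨one_ne_zero, O.one_mem, by rw [inv_one]; exact O.one_mem⟩
  have key : ∀ a ∈ E', ∀ b ∈ E', ∀ v m, F.N1 L a b (fun k => L k v) m = scl (s (deg a) (deg b) v) (F.N2 L a (L b v) m) := by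
    intro a ha b hb v m
    have h1 : F.N1 L a b (fun k => L k v) = F.N2 L a (lq L a b v) :=
      lq_spec hg h (q := deg a) ⟨ha, rfl⟩ hb v
    have h3 : lq L a b v = lq L (r (deg a)) b v := lq_indep hg h (q := deg a) ⟨ha, rfl⟩ (hr (deg a)) hb v
    rw [h1, h3]
    refine N2_scl (s := fun _ => 1) (t := fun _ => s (deg a) (deg b) v) (hs0 _ _ _) (fun _ => one_ne_zero)
      (fun _ => hs0 _ _ _) (fun m' => (scl_one _).symm) (fun m' => hs (deg a) (deg b) v b ⟨hb, rfl⟩ m') ?_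
    intro m' _ _
    rw [one_mul, div_self (hs0 _ _ _)]
    exact hone
  have hoE : F.o ∈ E := h.ctx.sub.one
  have hoE' : F.o ∈ E' := hg.sub.one
  have hdo : deg F.o = 1 := deg_o hg
  refine ⟨s, hs0, key, fun q v => ?_, fun q v => ?_, fun q q' => ?_⟩
  · obtain ⟨hb, hbq⟩ := hr q
    have h3 : F.N1 L F.o (r q) (fun k => L k v) = F.N2 L F.o (L (r q) v) :=
      stab_eq h.ctx (gr_orb hd hg q).act (h.st q v) hoE (hr q)
    have h4 := key F.o hoE' (r q) hb v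
    rw [hdo, hbq] at h4
    exact m3_unit hg h hoE' hb v (hs0 1 q v) h4 h3
  · obtain ⟨ha, haq⟩ := hr q
    have h4 := key (r q) ha F.o hoE' v
    rw [hdo, haq] at h4
    exact m3_unit hg h ha hoE' v (hs0 q 1 v) h4 (h2 (r q) ha F.o hoE v)
  · obtain ⟨ha, haq⟩ := hr q
    obtain ⟨hb, hbq⟩ := hr q'
    have h4 := key (r q) ha (r q') hb F.o
    rw [hbq, haq] at h4
    refine m3_unit hg h ha hb F.o (hs0 q q' F.o) h4 ?_
    rw [m3_rf h hb]
    exact N1_rf_right (n := fun k => L k F.o) fun k hk => m3_rf h (hg.sub.mul _ ha _ hb k hk)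

end Pool.Agent.NFG
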