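import Pool.Agent.NFG.Gr

/-!
# NFG/M3c: averaging over `Q` (existence)
-/

set_option autoImplicit false

noncomputable section

open CategoryTheory MonoidalCategory

namespace Pool.Agent.NFG

universe v u w

variable {K : Type w} [Field K] {C : Type u} [Category.{v} C] [Preadditive C] [Linear K C] [MonoidalCategory C]
  [MonoidalPreadditive C] [MonoidalLinear K C] {ι : Type} [Fintype ι] [DecidableEq ι] {O : Subring K}

theorem avg_exist [IsAlgClosed K] (hO : Val O) {F : Fus K C ι} {E' : Set ι} {Q : Type} [Group Q] [Fintype Q]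
    {deg : ι → Q} {s : Q → Q → ι → K} (hs0 : ∀ q q' v, s q q' v ≠ 0)
    (hrel : ∀ (q q' : Q) (c v w : ι), c ∈ E' → F.Occ c v w →
      IsU O (s (q * q') (deg c) v * s q q' w / (s q q' c * s q (q' * deg c) v * s q' (deg c) v)))
    (h1 : ∀ q v, IsU O (s q 1 v)) (ho : ∀ q q', IsU O (s q q' F.o)) :
    ∃ t : Q → ι → K, (∀ q v, t q v ≠ 0) ∧ (∀ v, IsU O (t 1 v)) ∧ (∀ q, IsU O (t q F.o)) ∧
      ∀ (q' : Q) (c v w : ι), c ∈ E' → F.Occ c v w →
        IsU O (t (deg c) v * t q' w / (t q' c * t (q' * deg c) v * s q' (deg c) v)) := by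
  classical
  have hN : 0 < Fintype.card Q := Fintype.card_pos_iff.2 ⟨1⟩
  have hex : ∀ (q' : Q) (v : ι), ∃ t : K, t ≠ 0 ∧ t ^ Fintype.card Q = ∏ q, s q q' v := fun q' v =>
    exists_rt hN (Finset.prod_ne_zero_iff.2 fun q _ => hs0 q q' v)
  choose t ht0 ht using hex
  refine ⟨t, ht0, fun v => ?_, fun q => ?_, fun q' c v w hc ho => ?_⟩
  · refine isU_of_pow hO hN ?_
    rw [ht]
    exact isU_prod _ _ fun q _ => h1 q v
  · refine isU_of_pow hO hN ?_
    rw [ht]
    exact isU_prod _ _ fun q' _ => ho q' q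
  · refine isU_of_pow_div hO hN ?_
    have h2 : IsU O (∏ q, (s (q * q') (deg c) v * s q q' w /
        (s q q' c * s q (q' * deg c) v * s q' (deg c) v))) := isU_prod _ _ fun q _ => hrel q q' c v w hc ho
    have h3 : ∏ q, s (q * q') (deg c) v = ∏ q, s q (deg c) v :=
      Fintype.prod_equiv (Equiv.mulRight q') _ _ fun q => rfl
    rw [Finset.prod_div_distrib, Finset.prod_mul_distrib, Finset.prod_mul_distrib, Finset.prod_mul_distrib, h3,
      Finset.prod_const, Finset.card_univ] at h2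
    rw [mul_pow, mul_pow, mul_pow, ht, ht, ht, ht]
    exact h2

end Pool.Agent.NFG
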