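import Pool.Agent.NFG.Pn1

/-!
# NFG/Pn2: the triple products, second path
-/

set_option autoImplicit false

noncomputable section

open CategoryTheory MonoidalCategory

namespace Pool.Agent.NFG

universe v u w

variable {K : Type w} [Field K] {C : Type u} [Category.{v} C] [Preadditive C] [Linear K C] [MonoidalCategory C]
  [MonoidalPreadditive C] [MonoidalLinear K C] {ι : Type} [Fintype ι] [DecidableEq ι] {O : Subring K}

/-- composition with `t` on the right, as an `O`-linear map -/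
private def cr2 (O : Subring K) {X Y Z : C} (t : Y ⟶ Z) : (X ⟶ Y) →ₗ[O] (X ⟶ Z) where
  toFun f := f ≫ t
  map_add' f g := Preadditive.add_comp _ _ _ _ _ _
  map_smul' c f := Linear.smul_comp _ _ _ (c : K) f t

private theorem cr2_apply (O : Subring K) {X Y Z : C} (t : Y ⟶ Z) (f : X ⟶ Y) : cr2 O t f = f ≫ t := rfl

/-- `h ↦ f ≫ th h Z ≫ t` as an `O`-linear map -/
private def thl (O : Subring K) {X A'' A Y Y' Z D : C} (f : X ⟶ A'' ⊗ Z) (t : A ⊗ (Y ⊗ (Y' ⊗ Z)) ⟶ D) :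
    (A'' ⟶ A ⊗ (Y ⊗ Y')) →ₗ[O] (X ⟶ D) where
  toFun h := f ≫ th h Z ≫ t
  map_add' h h' := by
    rw [th_add, Preadditive.add_comp, Preadditive.comp_add]
  map_smul' c h := by
    have h1 : (c • h : A'' ⟶ A ⊗ (Y ⊗ Y')) = (c : K) • h := rfl
    rw [h1, th_smul, Linear.smul_comp, Linear.comp_smul]
    rfl

private theorem thl_apply (O : Subring K) {X A'' A Y Y' Z D : C} (f : X ⟶ A'' ⊗ Z)
    (t : A ⊗ (Y ⊗ (Y' ⊗ Z)) ⟶ D) (h : A'' ⟶ A ⊗ (Y ⊗ Y')) : thl O f t h = f ≫ th h Z ≫ t := rfl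

/-- `h ↦ c • (h ≫ t)` as an `O`-linear map -/
private def crs (O : Subring K) {X Y Z : C} (c : K) (t : Y ⟶ Z) : (X ⟶ Y) →ₗ[O] (X ⟶ Z) where
  toFun f := c • (f ≫ t)
  map_add' f g := by rw [Preadditive.add_comp, smul_add]
  map_smul' x f := by
    have h1 : (x • f : X ⟶ Y) = (x : K) • f := rfl
    rw [h1, Linear.smul_comp, smul_comm]
    rfl

private theorem crs_apply (O : Subring K) {X Y Z : C} (c : K) (t : Y ⟶ Z) (f : X ⟶ Y) :
    crs O c t f = c • (f ≫ t) := rfl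

/-- composition of `N2` with a map up to a scalar -/
private theorem N2_comp_scl {F : Fus K C ι} {L : F.Sys O} {y : ι} {W W' : C} {n : F.Fam O W}
    {n' : F.Fam O W'} {t : W ⟶ W'} {c : K} (ht : ∀ m', ∀ f ∈ n m', f ≫ t ∈ scl c (n' m')) {m : ι}
    {h : F.S m ⟶ F.S y ⊗ W} (hh : h ∈ F.N2 L y n m) : h ≫ (F.S y ◁ t) ∈ scl c (F.N2 L y n' m) := by
  have key : F.N2 L y n m ≤ (scl c (F.N2 L y n' m)).comap (cr2 O (F.S y ◁ t)) := by
    refine N2_le ?_
    intro m' z f hz hf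
    rw [Submodule.mem_comap, cr2_apply]
    obtain ⟨r, hr, hr'⟩ := ht m' f hf
    have e1 : (z ≫ (F.S y ◁ f)) ≫ (F.S y ◁ t) = z ≫ (F.S y ◁ (f ≫ t)) := by
      rw [Category.assoc, MonoidalCategory.whiskerLeft_comp]
    rw [e1, hr', comp_whisker_smul]
    exact ⟨_, mem_N2 hz hr, rfl⟩
  exact key hh

/-- `f ↦ c • (z ≫ (S y ◁ f))` as an `O`-linear map -/
private def crsW {F : Fus K C ι} (O : Subring K) {y m p : ι} {W : C} (c : K)
    (z : F.S m ⟶ F.S y ⊗ F.S p) : (F.S p ⟶ W) →ₗ[O] (F.S m ⟶ F.S y ⊗ W) where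
  toFun f := c • (z ≫ (F.S y ◁ f))
  map_add' f g := by
    rw [MonoidalPreadditive.whiskerLeft_add, Preadditive.comp_add, smul_add]
  map_smul' x f := by
    have h1 : (x • f : F.S p ⟶ W) = (x : K) • f := rfl
    rw [h1, comp_whisker_smul, smul_comm]
    rfl

private theorem crsW_apply {F : Fus K C ι} (O : Subring K) {y m p : ι} {W : C} (c : K)
    (z : F.S m ⟶ F.S y ⊗ F.S p) (f : F.S p ⟶ W) : crsW O c z f = c • (z ≫ (F.S y ◁ f)) := rfl

theorem path2 {F : Fus K C ι} {sp : Sph F} {E E' : Set ι} {Q : Type} [Group Q] {deg : ι → Q}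
    (hg : IsGr sp E E' Q deg) {L : F.Sys O} (h : Pre sp O E E' deg L) {s : Q → Q → ι → K}
    (hs0 : ∀ q q' v, s q q' v ≠ 0)
    (hs : ∀ a ∈ E', ∀ b ∈ E', ∀ v m, F.N1 L a b (fun k => L k v) m = scl (s (deg a) (deg b) v) (F.N2 L a (L b v) m))
    {a b c v w m : ι} (ha : a ∈ E') (hb : b ∈ E') (hc : c ∈ E') {g : F.S c ⊗ F.S v ⟶ F.S w} (hg' : g ∈ F.dl (L c v w))
    {f : F.S m ⟶ F.S a ⊗ (F.S b ⊗ (F.S c ⊗ F.S v))} (hf : f ∈ N3 L a b c v m) :
    f ≫ (F.S a ◁ (F.S b ◁ g)) ∈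
      scl (s (deg a) (deg b) c * s (deg a) (deg b * deg c) v * s (deg b) (deg c) v) (F.N2 L a (L b w) m) := by
  have hA : ∀ {u : ι} (y : F.S u ⟶ F.S b ⊗ F.S c), y ∈ L b c u → ∀ r ∈ F.N2 L a (L u v) m,
      r ≫ (F.S a ◁ (hat y (F.S v) ≫ (F.S b ◁ g))) ∈ scl (s (deg b) (deg c) v) (F.N2 L a (L b w) m) := by
    intro u y hy r hr
    refine N2_comp_scl ?_ hr
    intro p f₁ hf₁
    have h1 : f₁ ≫ hat y (F.S v) ∈ F.N1 L b c (fun u => L u v) p := mem_N1 hy hf₁
    rw [hs b hb c hc] at h1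
    obtain ⟨r₂, hr₂, hr₂'⟩ := h1
    refine ⟨r₂ ≫ (F.S b ◁ g), N2_dl hr₂ hg', ?_⟩
    rw [← Category.assoc, hr₂', Linear.smul_comp]
  have hB : ∀ {l : ι} (f₀ : F.S m ⟶ F.S l ⊗ F.S v), f₀ ∈ L l v m → ∀ r ∈ F.N2 L a (L b c) l,
      f₀ ≫ th r (F.S v) ≫ (F.S a ◁ (F.S b ◁ g)) ∈
        scl (s (deg a) (deg b * deg c) v * s (deg b) (deg c) v) (F.N2 L a (L b w) m) := by
    intro l f₀ hf₀
    have key : F.N2 L a (L b c) l ≤
        (scl (s (deg a) (deg b * deg c) v * s (deg b) (deg c) v) (F.N2 L a (L b w) m)).comap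
          (thl O f₀ (F.S a ◁ (F.S b ◁ g))) := by
      refine N2_le ?_
      intro u z y hz hy
      rw [Submodule.mem_comap, thl_apply]
      by_cases hy0 : y = 0
      · rw [hy0, MonoidalPreadditive.whiskerLeft_zero, Limits.comp_zero, th_zero, Limits.zero_comp,
          Limits.comp_zero]
        exact Submodule.zero_mem _
      have hocc : F.Occ b c u := ⟨y, hy0⟩
      have hu := hg.sub.mul b hb c hc u hocc
      have hdu := hg.mul b hb c hc u hocc
      have h1 : f₀ ≫ hat z (F.S v) ∈ F.N1 L a u (fun l => L l v) m := mem_N1 hz hf₀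
      rw [hs a ha u hu, hdu] at h1
      obtain ⟨r, hr, hr'⟩ := h1
      obtain ⟨t, ht, ht'⟩ := hA y hy r hr
      refine ⟨t, ht, ?_⟩
      have e1 : f₀ ≫ th (z ≫ (F.S a ◁ y)) (F.S v) ≫ (F.S a ◁ (F.S b ◁ g)) =
          (f₀ ≫ hat z (F.S v)) ≫ (F.S a ◁ (hat y (F.S v) ≫ (F.S b ◁ g))) := by
        rw [th_comp, MonoidalCategory.whiskerLeft_comp]
        simp only [Category.assoc]
      rw [e1, hr', Linear.smul_comp, ht', smul_smul]
    intro r hr
    exact key hr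
  have key : N3 L a b c v m ≤ (scl (s (deg a) (deg b) c * s (deg a) (deg b * deg c) v *
      s (deg b) (deg c) v) (F.N2 L a (L b w) m)).comap (cr2 O (F.S a ◁ (F.S b ◁ g))) := by
    refine Submodule.span_le.2 ?_
    rintro _ ⟨k, l, x, x', f, hx, hx', hf, rfl⟩
    rw [SetLike.mem_coe, Submodule.mem_comap, cr2_apply]
    have h1 : x' ≫ hat x (F.S c) ∈ F.N1 L a b (fun k => L k c) l := mem_N1 hx hx'
    rw [hs a ha b hb] at h1
    obtain ⟨r, hr, hr'⟩ := h1
    obtain ⟨t, ht, ht'⟩ := hB f hf r hr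
    refine ⟨t, ht, ?_⟩
    have e1 : (f ≫ hat x' (F.S v) ≫ hat x (F.S c ⊗ F.S v)) ≫ (F.S a ◁ (F.S b ◁ g)) =
        f ≫ th (x' ≫ hat x (F.S c)) (F.S v) ≫ (F.S a ◁ (F.S b ◁ g)) := by
      rw [th_hat]
      simp only [Category.assoc]
    rw [e1, hr', th_smul, Linear.smul_comp, Linear.comp_smul, ht', smul_smul, mul_assoc]
  exact key hf

theorem path2' {F : Fus K C ι} {sp : Sph F} {E E' : Set ι} {Q : Type} [Group Q] {deg : ι → Q}
    (hg : IsGr sp E E' Q deg) {L : F.Sys O} (h : Pre sp O E E' deg L) {s : Q → Q → ι → K}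
    (hs0 : ∀ q q' v, s q q' v ≠ 0)
    (hs : ∀ a ∈ E', ∀ b ∈ E', ∀ v m, F.N1 L a b (fun k => L k v) m = scl (s (deg a) (deg b) v) (F.N2 L a (L b v) m))
    {a b c v w m : ι} (ha : a ∈ E') (hb : b ∈ E') (hc : c ∈ E') {x : F.S w ⟶ F.S c ⊗ F.S v} (hx : x ∈ L c v w)
    {f : F.S m ⟶ F.S a ⊗ (F.S b ⊗ F.S w)} (hf : f ∈ F.N2 L a (L b w) m) :
    (s (deg a) (deg b) c * s (deg a) (deg b * deg c) v * s (deg b) (deg c) v) • (f ≫ (F.S a ◁ (F.S b ◁ x))) ∈
      N3 L a b c v m := by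
  have hE : ∀ {l : ι} (f₀ : F.S m ⟶ F.S l ⊗ F.S v), f₀ ∈ L l v m →
      ∀ r ∈ F.N1 L a b (fun k => L k c) l, f₀ ≫ th r (F.S v) ∈ N3 L a b c v m := by
    intro l f₀ hf₀
    have key : F.N1 L a b (fun k => L k c) l ≤ (N3 L a b c v m).comap
        (thl O f₀ (𝟙 (F.S a ⊗ (F.S b ⊗ (F.S c ⊗ F.S v))))) := by
      refine N1_le ?_
      intro k x₀ x' hx₀ hx'
      rw [Submodule.mem_comap, thl_apply, Category.comp_id, th_hat]
      exact Submodule.subset_span ⟨k, l, x₀, x', f₀, hx₀, hx', hf₀, rfl⟩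
    intro r hr
    have h1 := key hr
    rw [Submodule.mem_comap, thl_apply, Category.comp_id] at h1
    exact h1
  have hD : ∀ {u : ι} (y : F.S u ⟶ F.S b ⊗ F.S c), y ∈ L b c u →
      ∀ r ∈ F.N1 L a u (fun l => L l v) m,
        s (deg a) (deg b) c • (r ≫ (F.S a ◁ hat y (F.S v))) ∈ N3 L a b c v m := by
    intro u y hy
    have key : F.N1 L a u (fun l => L l v) m ≤ (N3 L a b c v m).comap
        (crs O (s (deg a) (deg b) c) (F.S a ◁ hat y (F.S v))) := by
      refine N1_le ?_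
      intro l z f₀ hz hf₀
      rw [Submodule.mem_comap, crs_apply]
      have h1 : s (deg a) (deg b) c • (z ≫ (F.S a ◁ y)) ∈ F.N1 L a b (fun k => L k c) l := by
        rw [hs a ha b hb]
        exact ⟨_, mem_N2 hz hy, rfl⟩
      have h2 := hE f₀ hf₀ _ h1
      rw [th_smul, th_comp, Linear.comp_smul, ← Category.assoc] at h2
      exact h2
    intro r hr
    exact key hr
  have hC : ∀ h' ∈ F.N2 L a (F.N1 L b c (fun u => L u v)) m,
      (s (deg a) (deg b) c * s (deg a) (deg b * deg c) v) • h' ∈ N3 L a b c v m := by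
    have key : F.N2 L a (F.N1 L b c (fun u => L u v)) m ≤ (N3 L a b c v m).comap
        (crs O (s (deg a) (deg b) c * s (deg a) (deg b * deg c) v)
          (𝟙 (F.S a ⊗ (F.S b ⊗ (F.S c ⊗ F.S v))))) := by
      refine N2_le ?_
      intro p z' f₁ hz' hf₁
      rw [Submodule.mem_comap, crs_apply, Category.comp_id]
      have key2 : F.N1 L b c (fun u => L u v) p ≤ (N3 L a b c v m).comap
          (crsW (F := F) O (s (deg a) (deg b) c * s (deg a) (deg b * deg c) v) z') := by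
        refine N1_le ?_
        intro u y y' hy hy'
        rw [Submodule.mem_comap, crsW_apply]
        by_cases hy0 : y = 0
        · rw [hy0, hat_zero, Limits.comp_zero, MonoidalPreadditive.whiskerLeft_zero,
            Limits.comp_zero, smul_zero]
          exact Submodule.zero_mem _
        have hocc : F.Occ b c u := ⟨y, hy0⟩
        have hu := hg.sub.mul b hb c hc u hocc
        have hdu := hg.mul b hb c hc u hocc
        have h1 : s (deg a) (deg b * deg c) v • (z' ≫ (F.S a ◁ y')) ∈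
            F.N1 L a u (fun l => L l v) m := by
          rw [hs a ha u hu, hdu]
          exact ⟨_, mem_N2 hz' hy', rfl⟩
        have h2 := hD y hy _ h1
        have e1 : z' ≫ (F.S a ◁ (y' ≫ hat y (F.S v))) =
            (z' ≫ (F.S a ◁ y')) ≫ (F.S a ◁ hat y (F.S v)) := by
          rw [MonoidalCategory.whiskerLeft_comp, Category.assoc]
        rw [e1, mul_smul, ← Linear.smul_comp]
        exact h2
      exact key2 hf₁
    intro h' hh'
    have h1 := key hh'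
    rw [Submodule.mem_comap, crs_apply, Category.comp_id] at h1
    exact h1
  have h3 : f ≫ (F.S a ◁ (s (deg b) (deg c) v • (F.S b ◁ x))) ∈
      F.N2 L a (F.N1 L b c (fun u => L u v)) m := by
    refine N2_comp ?_ hf
    intro p f₁ hf₁
    rw [Linear.comp_smul, hs b hb c hc]
    exact ⟨_, mem_N2 hf₁ hx, rfl⟩
  have h4 := hC _ h3
  rw [comp_whisker_smul, smul_smul] at h4
  exact h4

end Pool.Agent.NFG
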