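import Pool.Agent.NFG.Td

/-!
# NFG/RoA: the two closures of an endomorphism of `A ⊗ B` agree

Consider the closed diagram `θ : 𝟙 ⟶ 𝟙` of `T : A ⊗ B ⟶ A ⊗ B` in which the strand `A` is closed on the left by `cv' : 𝟙 ⟶ A' ⊗ A`,
`ev : A' ⊗ A ⟶ 𝟙` and the strand `B` on the right by `cv : 𝟙 ⟶ B ⊗ B'`, `ev' : B ⊗ B' ⟶ 𝟙`.  For instance
`θ = tA.cv' ≫ (A' ◁ rpt tB.cv tB.ev' T) ≫ tA.ev`.  By naturality and the interchange law (`whisker_exchange`) also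
`θ = tB.cv ≫ (lpt tA.cv' tA.ev T ▷ B') ≫ tB.ev'`.
(No zigzag identity is used.  Suggestion: bring both sides into the form: insert `tA.cv'`, then `tB.cv`, then `A' ◁ (T ▷ B')` with associators,
then `tA.ev`, `tB.ev'`; use `whisker_exchange`, `leftUnitor_naturality`, `rightUnitor_naturality`, `unitors_equal`, and `monoidal` for the
coherence steps as in `AvA`, `HatB`.)
With `hl`, `hr`: `θ = r • (tA.cv' ≫ tA.ev) = (r * dA) • 𝟙` and `θ = l • (tB.cv ≫ tB.ev') = (l * dB) • 𝟙`.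
-/

set_option autoImplicit false

noncomputable section

open CategoryTheory MonoidalCategory

namespace Pool.Agent.NFG

universe v u w

variable {K : Type w} [Field K] {C : Type u} [Category.{v} C] [Preadditive C] [Linear K C] [MonoidalCategory C]
  [MonoidalPreadditive C] [MonoidalLinear K C] {ι : Type} [Fintype ι] [DecidableEq ι] {O : Subring K}

theorem two_closures {A A' B B' : C} (c : 𝟙_ C ⟶ A' ⊗ A) (e : A' ⊗ A ⟶ 𝟙_ C) (c₂ : 𝟙_ C ⟶ B ⊗ B')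
    (e₂ : B ⊗ B' ⟶ 𝟙_ C) (T : A ⊗ B ⟶ A ⊗ B) :
    c ≫ (A' ◁ rpt c₂ e₂ T) ≫ e = c₂ ≫ (lpt c e T ▷ B') ≫ e₂ := by
  have h1 : c ≫ (A' ◁ rpt c₂ e₂ T) ≫ e =
      (ρ_ (𝟙_ C)).inv ≫ ((c ▷ 𝟙_ C) ≫ ((A' ⊗ A) ◁ c₂)) ≫ (α_ A' A (B ⊗ B')).hom ≫
        (A' ◁ (α_ A B B').inv) ≫ (A' ◁ (T ▷ B')) ≫ (A' ◁ (α_ A B B').hom) ≫
        (α_ A' A (B ⊗ B')).inv ≫ (((A' ⊗ A) ◁ e₂) ≫ (e ▷ 𝟙_ C)) ≫ (ρ_ (𝟙_ C)).hom := by
    unfold rpt
    monoidal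
  have h2 : (ρ_ (𝟙_ C)).inv ≫ ((𝟙_ C ◁ c₂) ≫ (c ▷ (B ⊗ B'))) ≫ (α_ A' A (B ⊗ B')).hom ≫
        (A' ◁ (α_ A B B').inv) ≫ (A' ◁ (T ▷ B')) ≫ (A' ◁ (α_ A B B').hom) ≫
        (α_ A' A (B ⊗ B')).inv ≫ ((e ▷ (B ⊗ B')) ≫ (𝟙_ C ◁ e₂)) ≫ (ρ_ (𝟙_ C)).hom =
      c₂ ≫ (lpt c e T ▷ B') ≫ e₂ := by
    unfold lpt ins del hat hab
    monoidal
  rw [h1, ← whisker_exchange c c₂, whisker_exchange e e₂, h2]

theorem lr {A A' B B' : C} (tA : TD A A') (tB : TD B B') {dA dB : K} (hA : tA.Bal dA) (hB : tB.Bal dB)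
    (h1 : Smp K (𝟙_ C)) (sA : Smp K A) (sB : Smp K B) (T : A ⊗ B ⟶ A ⊗ B) :
    dB * sca K (lpt tA.cv' tA.ev T) = dA * sca K (rpt tB.cv tB.ev' T) := by
  have h2 := two_closures tA.cv' tA.ev tB.cv tB.ev' T
  have h3 := sca_spec sA (rpt tB.cv tB.ev' T)
  have h4 := sca_spec sB (lpt tA.cv' tA.ev T)
  have h5 : tA.cv' ≫ (A' ◁ rpt tB.cv tB.ev' T) ≫ tA.ev =
      (dA * sca K (rpt tB.cv tB.ev' T)) • 𝟙 (𝟙_ C) := by
    conv_lhs => rw [h3]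
    rw [MonoidalLinear.whiskerLeft_smul, MonoidalCategory.whiskerLeft_id, Linear.smul_comp, Linear.comp_smul,
      Category.id_comp, hA.1, smul_smul, mul_comm]
  have h6 : tB.cv ≫ (lpt tA.cv' tA.ev T ▷ B') ≫ tB.ev' =
      (dB * sca K (lpt tA.cv' tA.ev T)) • 𝟙 (𝟙_ C) := by
    conv_lhs => rw [h4]
    rw [MonoidalLinear.smul_whiskerRight, MonoidalCategory.id_whiskerRight, Linear.smul_comp, Linear.comp_smul,
      Category.id_comp, hB.2, smul_smul, mul_comm]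
  rw [h5, h6] at h2
  exact (smp_inj h1 h2).symm

end Pool.Agent.NFG
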