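import Pool.Agent.NFG.Td

/-!
# NFG/RoC: functoriality of the right dual

`sh tB.ev (flR tZ.cv (sh tA.ev x)) : B' ⊗ A' ⟶ Z'` is the dual of `x : Z ⟶ A ⊗ B`, and `flR tA.cv (sh tZ.ev (flR tB.cv y)) : Z' ⟶ B' ⊗ A'`
the dual of `y : A ⊗ B ⟶ Z`.  Their composite is the dual of `x ≫ y`.
-/

set_option autoImplicit false

noncomputable section

open CategoryTheory MonoidalCategory

namespace Pool.Agent.NFG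

universe v u w

variable {K : Type w} [Field K] {C : Type u} [Category.{v} C] [Preadditive C] [Linear K C] [MonoidalCategory C]
  [MonoidalPreadditive C] [MonoidalLinear K C] {ι : Type} [Fintype ι] [DecidableEq ι] {O : Subring K}

section

variable {C : Type u} [Category.{v} C] [MonoidalCategory C]

private theorem RoC_cv {A A' B Z Z' : C} (tA : TD A A') (cz : 𝟙_ C ⟶ Z ⊗ Z') (x : Z ⟶ A ⊗ B) :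
    tA.cv ≫ (A ◁ flR cz (sh tA.ev x)) = cz ≫ (x ▷ Z') ≫ (α_ A B Z').hom := by
  have h1 : cz ≫ (fl tA.cv (sh tA.ev x) ▷ Z') ≫ (α_ A B Z').hom =
      (λ_ _).inv ≫ ((𝟙_ C ◁ cz) ≫ (tA.cv ▷ (Z ⊗ Z'))) ≫ (α_ A A' (Z ⊗ Z')).hom ≫
        (A ◁ (α_ A' Z Z').inv) ≫ (A ◁ (sh tA.ev x ▷ Z')) := by
    simp only [fl, ins, hat]
    monoidal
  have h2 : (λ_ _).inv ≫ ((tA.cv ▷ 𝟙_ C) ≫ ((A ⊗ A') ◁ cz)) ≫ (α_ A A' (Z ⊗ Z')).hom ≫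
        (A ◁ (α_ A' Z Z').inv) ≫ (A ◁ (sh tA.ev x ▷ Z')) = tA.cv ≫ (A ◁ flR cz (sh tA.ev x)) := by
    simp only [flR]
    monoidal
  rw [whisker_exchange, h2, fl_sh tA.cv tA.ev tA.zag] at h1
  exact h1.symm

private theorem RoC_ev {A B B' Z Z' : C} (tB : TD B B') (ez : Z' ⊗ Z ⟶ 𝟙_ C) (y : A ⊗ B ⟶ Z) :
    (sh ez (flR tB.cv y) ▷ (B ⊗ Z')) ≫ del tB.ev Z' =
      (α_ Z' A (B ⊗ Z')).hom ≫ (Z' ◁ (α_ A B Z').inv) ≫ (Z' ◁ (y ▷ Z')) ≫ (α_ Z' Z Z').inv ≫ (ez ▷ Z') ≫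
        (λ_ Z').hom := by
  have h1 : (α_ Z' A (B ⊗ Z')).hom ≫ (Z' ◁ (α_ A B Z').inv) ≫
      (Z' ◁ (shR tB.ev (flR tB.cv y) ▷ Z')) ≫ (α_ Z' Z Z').inv ≫ (ez ▷ Z') ≫ (λ_ Z').hom =
      ((Z' ◁ flR tB.cv y) ▷ (B ⊗ Z')) ≫ (α_ _ _ _).inv ≫ ((α_ _ _ _).inv ▷ B ≫ (α_ _ _ _).hom) ▷ Z' ≫
        ((((Z' ⊗ Z) ◁ tB.ev) ≫ (ez ▷ 𝟙_ C)) ▷ Z') ≫ ((λ_ _).hom ▷ Z') ≫ (λ_ Z').hom := by
    simp only [shR]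
    monoidal
  have h2 : ((Z' ◁ flR tB.cv y) ▷ (B ⊗ Z')) ≫ (α_ _ _ _).inv ≫ ((α_ _ _ _).inv ▷ B ≫ (α_ _ _ _).hom) ▷ Z' ≫
        (((ez ▷ (B' ⊗ B)) ≫ (𝟙_ C ◁ tB.ev)) ▷ Z') ≫ ((λ_ _).hom ▷ Z') ≫ (λ_ Z').hom =
      (sh ez (flR tB.cv y) ▷ (B ⊗ Z')) ≫ del tB.ev Z' := by
    simp only [sh, del, hab]
    monoidal
  rw [whisker_exchange, h2, shR_flR tB.cv tB.ev tB.zag] at h1
  exact h1.symm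

private theorem RoC_all {A A' B B' Z Z' : C} (tA : TD A A') (tB : TD B B') (tZ : TD Z Z') (x : Z ⟶ A ⊗ B)
    (y : A ⊗ B ⟶ Z) : flR tA.cv (sh tZ.ev (flR tB.cv y)) ≫ sh tB.ev (flR tZ.cv (sh tA.ev x)) =
      (ρ_ Z').inv ≫ (Z' ◁ (tZ.cv ≫ ((x ≫ y) ▷ Z'))) ≫ (α_ Z' Z Z').inv ≫ (tZ.ev ▷ Z') ≫ (λ_ Z').hom := by
  generalize hg : sh tZ.ev (flR tB.cv y) = g
  generalize hk : flR tZ.cv (sh tA.ev x) = k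
  have h1 : flR tA.cv g ≫ sh tB.ev k = (ρ_ Z').inv ≫ (Z' ◁ tA.cv) ≫ (α_ Z' A A').inv ≫
      ((g ▷ A') ≫ (B' ◁ k)) ≫ del tB.ev Z' := by
    simp only [flR, sh, Category.assoc]
  have h2 : (ρ_ Z').inv ≫ (Z' ◁ tA.cv) ≫ (α_ Z' A A').inv ≫ (((Z' ⊗ A) ◁ k) ≫ (g ▷ (B ⊗ Z'))) ≫ del tB.ev Z' =
      (ρ_ Z').inv ≫ (Z' ◁ (tA.cv ≫ (A ◁ k))) ≫ (α_ Z' A (B ⊗ Z')).inv ≫ ((g ▷ (B ⊗ Z')) ≫ del tB.ev Z') := by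
    monoidal
  rw [h1, ← whisker_exchange, h2, ← hg, ← hk, RoC_cv, RoC_ev]
  monoidal

end

theorem dual_comp {A A' B B' Z Z' : C} (tA : TD A A') (tB : TD B B') (tZ : TD Z Z') (x : Z ⟶ A ⊗ B)
    (y : A ⊗ B ⟶ Z) {c : K} (h : x ≫ y = c • 𝟙 Z) :
    flR tA.cv (sh tZ.ev (flR tB.cv y)) ≫ sh tB.ev (flR tZ.cv (sh tA.ev x)) = c • 𝟙 Z' := by
  rw [RoC_all, h, MonoidalLinear.smul_whiskerRight, Linear.comp_smul, MonoidalLinear.whiskerLeft_smul,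
    Linear.smul_comp, Linear.comp_smul]
  congr 1
  have h1 : (ρ_ Z').inv ≫ (Z' ◁ (tZ.cv ≫ (𝟙 Z ▷ Z'))) ≫ (α_ Z' Z Z').inv ≫ (tZ.ev ▷ Z') ≫ (λ_ Z').hom =
      (ρ_ Z').inv ≫ (Z' ◁ tZ.cv ≫ (α_ _ _ _).inv ≫ tZ.ev ▷ Z') ≫ (λ_ Z').hom := by
    monoidal
  rw [h1, tZ.zig]
  simp

end Pool.Agent.NFG
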