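import Pool.Agent.NFG.Td

/-!
# NFG/RoD: functoriality of the left dual

The mirror image of `RoC`: `shR tA.ev' (fl tZ.cv' (shR tB.ev' x)) : B' ⊗ A' ⟶ Z'` is the left dual of `x : Z ⟶ A ⊗ B` and
`fl tB.cv' (shR tZ.ev' (fl tA.cv' y)) : Z' ⟶ B' ⊗ A'` the left dual of `y : A ⊗ B ⟶ Z`.
-/

set_option autoImplicit false

noncomputable section

open CategoryTheory MonoidalCategory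

namespace Pool.Agent.NFG

universe v u w

variable {K : Type w} [Field K] {C : Type u} [Category.{v} C] [Preadditive C] [Linear K C] [MonoidalCategory C]
  [MonoidalPreadditive C] [MonoidalLinear K C] {ι : Type} [Fintype ι] [DecidableEq ι] {O : Subring K}

private theorem RoD_fl {A B B' V : C} (c : 𝟙_ C ⟶ B ⊗ B') (g : B' ⊗ A ⟶ V) :
    fl c g = (λ_ A).inv ≫ (c ▷ A) ≫ (α_ B B' A).hom ≫ (B ◁ g) := by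
  simp only [fl, ins, hat, Category.assoc]

private theorem RoD_sh {A B B' V : C} (e : B' ⊗ B ⟶ 𝟙_ C) (f : A ⟶ B ⊗ V) :
    sh e f = (B' ◁ f) ≫ (α_ B' B V).inv ≫ (e ▷ V) ≫ (λ_ V).hom := by
  simp only [sh, del, hab, Category.assoc]

private theorem RoD_one {A B B' Z Z' : C} (cB : 𝟙_ C ⟶ B' ⊗ B) (cZ : 𝟙_ C ⟶ Z' ⊗ Z) (k : Z ⊗ B' ⟶ A) :
    cB ≫ (fl cZ k ▷ B) = cZ ≫ (Z' ◁ flR cB k) ≫ (α_ Z' A B).inv := by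
  rw [RoD_fl]
  unfold flR
  have h1 : cB ≫ (((λ_ B').inv ≫ (cZ ▷ B') ≫ (α_ Z' Z B').hom ≫ (Z' ◁ k)) ▷ B) =
      (λ_ (𝟙_ C)).inv ≫ ((𝟙_ C ◁ cB) ≫ (cZ ▷ (B' ⊗ B))) ≫ (α_ Z' Z (B' ⊗ B)).hom ≫ (Z' ◁ (α_ Z B' B).inv) ≫
        (Z' ◁ (k ▷ B)) ≫ (α_ Z' A B).inv := by
    monoidal
  have h2 : cZ ≫ (Z' ◁ ((ρ_ Z).inv ≫ (Z ◁ cB) ≫ (α_ Z B' B).inv ≫ (k ▷ B))) ≫ (α_ Z' A B).inv =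
      (λ_ (𝟙_ C)).inv ≫ ((cZ ▷ 𝟙_ C) ≫ ((Z' ⊗ Z) ◁ cB)) ≫ (α_ Z' Z (B' ⊗ B)).hom ≫ (Z' ◁ (α_ Z B' B).inv) ≫
        (Z' ◁ (k ▷ B)) ≫ (α_ Z' A B).inv := by
    monoidal
  rw [h1, h2, whisker_exchange]

private theorem RoD_two {A A' B Z Z' : C} (eA : A ⊗ A' ⟶ 𝟙_ C) (eZ : Z ⊗ Z' ⟶ 𝟙_ C) (g : B ⟶ A' ⊗ Z) :
    (A ◁ shR eZ g) ≫ eA = (α_ A B Z').inv ≫ (sh eA g ▷ Z') ≫ eZ := by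
  rw [RoD_sh]
  unfold shR
  have h1 : (A ◁ ((g ▷ Z') ≫ (α_ A' Z Z').hom ≫ (A' ◁ eZ) ≫ (ρ_ A').hom)) ≫ eA =
      (A ◁ (g ▷ Z')) ≫ (A ◁ (α_ A' Z Z').hom) ≫ (α_ A A' (Z ⊗ Z')).inv ≫
        (((A ⊗ A') ◁ eZ) ≫ (eA ▷ 𝟙_ C)) ≫ (ρ_ (𝟙_ C)).hom := by
    monoidal
  have h2 : (α_ A B Z').inv ≫ (((A ◁ g) ≫ (α_ A A' Z).inv ≫ (eA ▷ Z) ≫ (λ_ Z).hom) ▷ Z') ≫ eZ =
      (A ◁ (g ▷ Z')) ≫ (A ◁ (α_ A' Z Z').hom) ≫ (α_ A A' (Z ⊗ Z')).inv ≫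
        ((eA ▷ (Z ⊗ Z')) ≫ (𝟙_ C ◁ eZ)) ≫ (ρ_ (𝟙_ C)).hom := by
    monoidal
  rw [h1, h2, whisker_exchange]

theorem dual_comp' {A A' B B' Z Z' : C} (tA : TD A A') (tB : TD B B') (tZ : TD Z Z') (x : Z ⟶ A ⊗ B)
    (y : A ⊗ B ⟶ Z) {c : K} (h : x ≫ y = c • 𝟙 Z) :
    fl tB.cv' (shR tZ.ev' (fl tA.cv' y)) ≫ shR tA.ev' (fl tZ.cv' (shR tB.ev' x)) = c • 𝟙 Z' := by
  have e1 := RoD_one tB.cv' tZ.cv' (shR tB.ev' x)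
  rw [flR_shR tB.cv' tB.ev' tB.zig' x] at e1
  have e2 := RoD_two tA.ev' tZ.ev' (fl tA.cv' y)
  rw [sh_fl tA.cv' tA.ev' tA.zig' y] at e2
  generalize shR tZ.ev' (fl tA.cv' y) = G at e2 ⊢
  generalize fl tZ.cv' (shR tB.ev' x) = k at e1 ⊢
  rw [RoD_fl]
  unfold shR
  have h1 : ((λ_ Z').inv ≫ (tB.cv' ▷ Z') ≫ (α_ B' B Z').hom ≫ (B' ◁ G)) ≫
      ((k ▷ A') ≫ (α_ Z' A A').hom ≫ (Z' ◁ tA.ev') ≫ (ρ_ Z').hom) =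
      (λ_ Z').inv ≫ (tB.cv' ▷ Z') ≫ (α_ B' B Z').hom ≫ ((B' ◁ G) ≫ (k ▷ A')) ≫ (α_ Z' A A').hom ≫ (Z' ◁ tA.ev') ≫
        (ρ_ Z').hom := by
    monoidal
  have h2 : (λ_ Z').inv ≫ (tB.cv' ▷ Z') ≫ (α_ B' B Z').hom ≫ ((k ▷ (B ⊗ Z')) ≫ ((Z' ⊗ A) ◁ G)) ≫
      (α_ Z' A A').hom ≫ (Z' ◁ tA.ev') ≫ (ρ_ Z').hom =
      (λ_ Z').inv ≫ ((tB.cv' ≫ (k ▷ B)) ▷ Z') ≫ (α_ (Z' ⊗ A) B Z').hom ≫ (α_ Z' A (B ⊗ Z')).hom ≫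
        (Z' ◁ ((A ◁ G) ≫ tA.ev')) ≫ (ρ_ Z').hom := by
    monoidal
  have h3 : (λ_ Z').inv ≫ ((tZ.cv' ≫ (Z' ◁ x) ≫ (α_ Z' A B).inv) ▷ Z') ≫ (α_ (Z' ⊗ A) B Z').hom ≫
      (α_ Z' A (B ⊗ Z')).hom ≫ (Z' ◁ ((α_ A B Z').inv ≫ (y ▷ Z') ≫ tZ.ev')) ≫ (ρ_ Z').hom =
      (λ_ Z').inv ≫ (tZ.cv' ▷ Z') ≫ (α_ Z' Z Z').hom ≫ (Z' ◁ ((x ≫ y) ▷ Z')) ≫ (Z' ◁ tZ.ev') ≫ (ρ_ Z').hom := by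
    monoidal
  rw [h1, whisker_exchange, h2, e1, e2, h3, h, MonoidalLinear.smul_whiskerRight, MonoidalLinear.whiskerLeft_smul,
    Linear.smul_comp, Linear.comp_smul, Linear.comp_smul, Linear.comp_smul]
  congr 1
  have h4 : (λ_ Z').inv ≫ (tZ.cv' ▷ Z') ≫ (α_ Z' Z Z').hom ≫ (Z' ◁ ((𝟙 Z) ▷ Z')) ≫ (Z' ◁ tZ.ev') ≫ (ρ_ Z').hom =
      (λ_ Z').inv ≫ ((tZ.cv' ▷ Z') ≫ (α_ Z' Z Z').hom ≫ (Z' ◁ tZ.ev')) ≫ (ρ_ Z').hom := by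
    monoidal
  rw [h4, tZ.zag']
  simp

end Pool.Agent.NFG
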