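import Pool.Agent.NFG.RoA
import Pool.Agent.NFG.RoC
import Pool.Agent.NFG.RoD

/-!
# NFG/RoE: the operator `R`, `R ^ 2 = 1`

For `x : Z ⟶ A ⊗ B`, `y : A ⊗ B ⟶ Z` put `⟨y, x⟩ = sca (x ≫ y)`, `L(y, x) = sca (fl tA.cv' y ≫ sh tA.ev x)` (scalar of an endomorphism of `B`),
`R(y, x) = sca (flR tB.cv y ≫ shR tB.ev' x)` (of `A`).  By `lr` (with `T = y ≫ x`, `lpt_eq`, `rpt_eq`): `dB * L = dA * R`.

`rot1` (e1): Put `x₁ = fl tA.cv' y : B ⟶ A' ⊗ Z`, `y₁ = sh tA.ev x : A' ⊗ Z ⟶ B`.  `lr` for `(A', Z)` with `tA.swap`, `tZ`: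
`dZ * L₁ = dA * R₁`, where `L₁ = sca (fl tA.cv y₁ ≫ sh tA.ev' x₁) = sca (x ≫ y)` (`fl_sh` with `tA.zag`, `sh_fl` with `tA.zig'`) and
`R₁ = sca (flR tZ.cv y₁ ≫ shR tZ.ev' x₁)`.  Then `x₂ = flR tZ.cv y₁ : A' ⟶ B ⊗ Z'`, `y₂ = shR tZ.ev' x₁ : B ⊗ Z' ⟶ A'`, `lr` for `(B, Z')` with
`tB`, `tZ.swap`: `dZ * L₂ = dB * R₂`, `L₂ = sca (fl tB.cv' y₂ ≫ sh tB.ev x₂)` is the left side of `rot1`, and
`R₂ = sca (flR tZ.cv' y₂ ≫ shR tZ.ev x₂) = sca (x₁ ≫ y₁) = L(y, x)` (`flR_shR` with `tZ.zig'`, `shR_flR` with `tZ.zag`).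
So `dZ * L₂ = dB * L(y, x)` (the identity for `(A', Z)` is not needed here).
`rot2` (e2), mirror image: `x₁ = flR tB.cv y : A ⟶ Z ⊗ B'`, `y₁ = shR tB.ev' x : Z ⊗ B' ⟶ A`; `x₂ = fl tZ.cv' y₁ : B' ⟶ Z' ⊗ A`,
`y₂ = sh tZ.ev x₁ : Z' ⊗ A ⟶ B'`; `lr` for `(Z', A)` with `tZ.swap`, `tA`: `dA * L₂ = dZ * R₂`, `L₂ = sca (fl tZ.cv y₂ ≫ sh tZ.ev' x₂) =
sca (x₁ ≫ y₁) = R(y, x)`, `R₂ = sca (flR tA.cv y₂ ≫ shR tA.ev' x₂)`.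

`rot`: `x ↦ st x := sh tB.ev (flR tZ.cv (sh tA.ev x))` is a linear bijection onto `Hom (B' ⊗ A', Z')` (each of the three steps has an inverse:
`fl_sh`, `sh_fl`, `flR_shR`, `shR_flR`; all are additive and `K`-linear).  Put `R x := st⁻¹ (shR tA.ev' (fl tZ.cv' (shR tB.ev' x)))`.
With `ys = flR tA.cv (sh tZ.ev (flR tB.cv y))` and `sy = fl tB.cv' (shR tZ.ev' (fl tA.cv' y))`:
`dual_comp`: `sca (ys ≫ st x) = ⟨y, x⟩`, `dual_comp'`: `sca (sy ≫ st (R x)) = ⟨y, x⟩`; `rot1`: `dZ * sca (sy ≫ st x) = dB * L(y, x)`; `rot2` and `lr`: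
`dZ * sca (ys ≫ st (R x)) = dA * R(y, x) = dB * L(y, x)`.
Hence `dB * L(y, x) = dZ * ⟨y, R x⟩` (`dual_comp` for `R x`), and `dB * L(y, R x) = dZ * sca (sy ≫ st (R x)) = dZ * ⟨y, x⟩`, so
`⟨y, R (R x)⟩ = ⟨y, x⟩` for all `y`, and `R (R x) = x` by `hnd`.
-/

set_option autoImplicit false

noncomputable section

open CategoryTheory MonoidalCategory

namespace Pool.Agent.NFG

universe v u w

variable {K : Type w} [Field K] {C : Type u} [Category.{v} C] [Preadditive C] [Linear K C] [MonoidalCategory C]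
  [MonoidalPreadditive C] [MonoidalLinear K C] {ι : Type} [Fintype ι] [DecidableEq ι] {O : Subring K}

theorem rot1 {A A' B B' Z Z' : C} (tA : TD A A') (tB : TD B B') (tZ : TD Z Z') {dA dB dZ : K} (hA : tA.Bal dA)
    (hB : tB.Bal dB) (hZ : tZ.Bal dZ) (h1 : Smp K (𝟙_ C)) (sB : Smp K B) (sA' : Smp K A') (sZ' : Smp K Z')
    (x : Z ⟶ A ⊗ B) (y : A ⊗ B ⟶ Z) :
    dZ * sca K (fl tB.cv' (shR tZ.ev' (fl tA.cv' y)) ≫ sh tB.ev (flR tZ.cv (sh tA.ev x))) =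
      dB * sca K (fl tA.cv' y ≫ sh tA.ev x) := by
  have h := lr tB tZ.swap hB hZ.swap h1 sB sZ'
    (shR tZ.ev' (fl tA.cv' y) ≫ flR tZ.cv (sh tA.ev x))
  rw [lpt_eq] at h
  have h2 : rpt tZ.swap.cv tZ.swap.ev' (shR tZ.ev' (fl tA.cv' y) ≫ flR tZ.cv (sh tA.ev x)) =
      fl tA.cv' y ≫ sh tA.ev x := by
    rw [rpt_eq]
    change flR tZ.cv' (shR tZ.ev' (fl tA.cv' y)) ≫ shR tZ.ev (flR tZ.cv (sh tA.ev x)) = _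
    rw [flR_shR tZ.cv' tZ.ev' tZ.zig', shR_flR tZ.cv tZ.ev tZ.zag]
  rw [h2] at h
  exact h

theorem rot2 {A A' B B' Z Z' : C} (tA : TD A A') (tB : TD B B') (tZ : TD Z Z') {dA dB dZ : K} (hA : tA.Bal dA)
    (hB : tB.Bal dB) (hZ : tZ.Bal dZ) (h1 : Smp K (𝟙_ C)) (sA : Smp K A) (sB' : Smp K B') (sZ' : Smp K Z')
    (x : Z ⟶ A ⊗ B) (y : A ⊗ B ⟶ Z) :
    dZ * sca K (flR tA.cv (sh tZ.ev (flR tB.cv y)) ≫ shR tA.ev' (fl tZ.cv' (shR tB.ev' x))) =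
      dA * sca K (flR tB.cv y ≫ shR tB.ev' x) := by
  have h := lr tZ.swap tA hZ.swap hA h1 sZ' sA
    (sh tZ.ev (flR tB.cv y) ≫ fl tZ.cv' (shR tB.ev' x))
  rw [rpt_eq] at h
  have h2 : lpt tZ.swap.cv' tZ.swap.ev (sh tZ.ev (flR tB.cv y) ≫ fl tZ.cv' (shR tB.ev' x)) =
      flR tB.cv y ≫ shR tB.ev' x := by
    rw [lpt_eq]
    change fl tZ.cv (sh tZ.ev (flR tB.cv y)) ≫ sh tZ.ev' (fl tZ.cv' (shR tB.ev' x)) = _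
    rw [fl_sh tZ.cv tZ.ev tZ.zag, sh_fl tZ.cv' tZ.ev' tZ.zig']
  rw [h2] at h
  exact h.symm

/-- the operator `R` -/
private def RoE_R {A A' B B' Z Z' : C} (tA : TD A A') (tB : TD B B') (tZ : TD Z Z') :
    (Z ⟶ A ⊗ B) →ₗ[K] (Z ⟶ A ⊗ B) where
  toFun x := fl tA.cv (shR tZ.ev (fl tB.cv (shR tA.ev' (fl tZ.cv' (shR tB.ev' x)))))
  map_add' x y := by
    rw [shR_add, fl_add, shR_add, fl_add, shR_add, fl_add]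
  map_smul' c x := by
    rw [shR_smul, fl_smul, shR_smul, fl_smul, shR_smul, fl_smul, RingHom.id_apply]

private theorem RoE_st {A A' B B' Z Z' : C} (tA : TD A A') (tB : TD B B') (tZ : TD Z Z') (x : Z ⟶ A ⊗ B) :
    sh tB.ev (flR tZ.cv (sh tA.ev (RoE_R (K := K) tA tB tZ x))) = shR tA.ev' (fl tZ.cv' (shR tB.ev' x)) := by
  change sh tB.ev (flR tZ.cv (sh tA.ev (fl tA.cv (shR tZ.ev (fl tB.cv (shR tA.ev' (fl tZ.cv' (shR tB.ev' x)))))))) = _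
  rw [sh_fl tA.cv tA.ev tA.zig, flR_shR tZ.cv tZ.ev tZ.zig, sh_fl tB.cv tB.ev tB.zig]

theorem rot {A A' B B' Z Z' : C} (tA : TD A A') (tB : TD B B') (tZ : TD Z Z') {dA dB dZ : K} (hA : tA.Bal dA)
    (hB : tB.Bal dB) (hZ : tZ.Bal dZ) (d0 : dZ ≠ 0) (h1 : Smp K (𝟙_ C)) (sA : Smp K A) (sB : Smp K B)
    (sZ : Smp K Z) (sA' : Smp K A') (sB' : Smp K B') (sZ' : Smp K Z')
    (hnd : ∀ x : Z ⟶ A ⊗ B, (∀ y : A ⊗ B ⟶ Z, x ≫ y = 0) → x = 0) :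
    ∃ R : (Z ⟶ A ⊗ B) →ₗ[K] (Z ⟶ A ⊗ B), (∀ x, R (R x) = x) ∧ ∀ (x : Z ⟶ A ⊗ B) (y : A ⊗ B ⟶ Z),
      dB * sca K (fl tA.cv' y ≫ sh tA.ev x) = dZ * sca K (R x ≫ y) := by
  have c1 : ∀ (x : Z ⟶ A ⊗ B) (y : A ⊗ B ⟶ Z),
      sca K (flR tA.cv (sh tZ.ev (flR tB.cv y)) ≫ sh tB.ev (flR tZ.cv (sh tA.ev x))) = sca K (x ≫ y) :=
    fun x y => sca_eq sZ' (dual_comp tA tB tZ x y (sca_spec sZ (x ≫ y)))
  have c2 : ∀ (x : Z ⟶ A ⊗ B) (y : A ⊗ B ⟶ Z),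
      sca K (fl tB.cv' (shR tZ.ev' (fl tA.cv' y)) ≫ shR tA.ev' (fl tZ.cv' (shR tB.ev' x))) = sca K (x ≫ y) :=
    fun x y => sca_eq sZ' (dual_comp' tA tB tZ x y (sca_spec sZ (x ≫ y)))
  have c5 : ∀ (x : Z ⟶ A ⊗ B) (y : A ⊗ B ⟶ Z),
      dB * sca K (fl tA.cv' y ≫ sh tA.ev x) = dA * sca K (flR tB.cv y ≫ shR tB.ev' x) := by
    intro x y
    have h := lr tA tB hA hB h1 sA sB (y ≫ x)
    rw [lpt_eq, rpt_eq] at h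
    exact h
  have c6 : ∀ (x : Z ⟶ A ⊗ B) (y : A ⊗ B ⟶ Z),
      dB * sca K (fl tA.cv' y ≫ sh tA.ev x) = dZ * sca K (RoE_R (K := K) tA tB tZ x ≫ y) := by
    intro x y
    rw [c5, ← rot2 tA tB tZ hA hB hZ h1 sA sB' sZ' x y, ← RoE_st (K := K) tA tB tZ x, c1]
  refine ⟨RoE_R (K := K) tA tB tZ, fun x => ?_, c6⟩
  have h2 : ∀ y : A ⊗ B ⟶ Z, (RoE_R (K := K) tA tB tZ (RoE_R (K := K) tA tB tZ x) - x) ≫ y = 0 := by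
    intro y
    have h3 : dZ * sca K (RoE_R (K := K) tA tB tZ (RoE_R (K := K) tA tB tZ x) ≫ y) = dZ * sca K (x ≫ y) := by
      rw [← c6, ← rot1 tA tB tZ hA hB hZ h1 sB sA' sZ', RoE_st, c2]
    have h4 := mul_left_cancel₀ d0 h3
    rw [Preadditive.sub_comp, sca_spec sZ (RoE_R (K := K) tA tB tZ (RoE_R (K := K) tA tB tZ x) ≫ y),
      sca_spec sZ (x ≫ y), h4]
    rw [← sca_spec sZ (x ≫ y), sub_self]
  exact sub_eq_zero.1 (hnd _ h2)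

end Pool.Agent.NFG
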