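import Pool.Agent.NFG.RoE
import Pool.Agent.NFG.LinA

/-!
# NFG/RoF: the operators `R` for simple objects and their traces

`exists_R`: `rot` for `A = S i`, `B = S j`, `Z = S k` (`smp_S`, `smp_one`, `nondeg`).

`sum_R`: `lpt_one` and `h.1`: `lpt (cv' i) (ev i) (𝟙 (S i ⊗ S j)) = δ i • 𝟙 (S j)`.  Choose bases `b k` of `Hom (S k, S i ⊗ S j)` (`fin_hom`) with dual
`g` (`dual_basis`): `𝟙 = sum_k sum_a g k a ≫ b k a`.  So `δ i = sum sca (lpt (g k a ≫ b k a)) = sum L (g k a, b k a)` (`lpt_eq`), and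
`δ j * L (g, b) = δ k * sca (R_k b ≫ g)`; `sum_a sca (R_k (b k a) ≫ g k a)` is the trace of `R_k` (`LinearMap.trace_eq_matrix_trace`, the matrix entry
`(a, a')` of `R_k` in the basis `b k` is `sca (R_k (b k a') ≫ g k a)`).
-/

set_option autoImplicit false

noncomputable section

open CategoryTheory MonoidalCategory

namespace Pool.Agent.NFG

universe v u w

variable {K : Type w} [Field K] {C : Type u} [Category.{v} C] [Preadditive C] [Linear K C] [MonoidalCategory C]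
  [MonoidalPreadditive C] [MonoidalLinear K C] {ι : Type} [Fintype ι] [DecidableEq ι] {O : Subring K}

theorem exists_R {F : Fus K C ι} (D : Du F) {δ : ι → K} (hδ : ∀ i, δ i ≠ 0) (hb : ∀ i, (D.td i).Bal (δ i)) (i j k : ι) :
    ∃ R : (F.S k ⟶ F.S i ⊗ F.S j) →ₗ[K] (F.S k ⟶ F.S i ⊗ F.S j), (∀ x, R (R x) = x) ∧
      ∀ (x : F.S k ⟶ F.S i ⊗ F.S j) (y : F.S i ⊗ F.S j ⟶ F.S k),
        δ j * sca K (fl (D.td i).cv' y ≫ sh (D.td i).ev x) = δ k * sca K (R x ≫ y) :=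
  rot (D.td i) (D.td j) (D.td k) (hb i) (hb j) (hb k) (hδ k) (smp_one F) (smp_S F i) (smp_S F j) (smp_S F k)
    (smp_S F (D.st i)) (smp_S F (D.st j)) (smp_S F (D.st k)) (fun _ hx => nondeg F hx)

private theorem RoF_repr (F : Fus K C ι) {Z : C} {k : ι} {n : ℕ} (b : Module.Basis (Fin n) K (F.S k ⟶ Z))
    (g : Fin n → (Z ⟶ F.S k)) (hg : ∀ i j, b i ≫ g j = if i = j then 𝟙 (F.S k) else 0) (x : F.S k ⟶ Z) (a : Fin n) :
    sca K (x ≫ g a) = b.repr x a := by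
  apply sca_eq (smp_S F k)
  conv_lhs => rw [← b.sum_repr x]
  rw [Preadditive.sum_comp, Finset.sum_eq_single a]
  · rw [Linear.smul_comp, hg, if_pos rfl]
  · intro c _ hc
    rw [Linear.smul_comp, hg, if_neg hc, smul_zero]
  · intro h
    exact absurd (Finset.mem_univ a) h

theorem sum_R {F : Fus K C ι} (D : Du F) {δ : ι → K} (hb : ∀ i, (D.td i).Bal (δ i)) (i j : ι)
    (R : ∀ k, (F.S k ⟶ F.S i ⊗ F.S j) →ₗ[K] (F.S k ⟶ F.S i ⊗ F.S j))
    (hR : ∀ k (x : F.S k ⟶ F.S i ⊗ F.S j) (y : F.S i ⊗ F.S j ⟶ F.S k),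
      δ j * sca K (fl (D.td i).cv' y ≫ sh (D.td i).ev x) = δ k * sca K (R k x ≫ y)) :
    δ i * δ j = ∑ k, LinearMap.trace K _ (R k) * δ k := by
  have hfin : ∀ k, FiniteDimensional K (F.S k ⟶ F.S i ⊗ F.S j) := fun k => fin_hom F _ k
  obtain ⟨b, -⟩ : ∃ b : ∀ k, Module.Basis (Fin (Module.finrank K (F.S k ⟶ F.S i ⊗ F.S j))) K (F.S k ⟶ F.S i ⊗ F.S j),
      True := ⟨fun k => Module.finBasis K (F.S k ⟶ F.S i ⊗ F.S j), trivial⟩
  obtain ⟨g, hg1, hg2⟩ := dual_basis F (F.S i ⊗ F.S j) _ b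
  let Φ : (F.S i ⊗ F.S j ⟶ F.S i ⊗ F.S j) →+ K :=
    AddMonoidHom.mk' (fun T => sca K (lpt (D.td i).cv' (D.td i).ev T))
      (fun T T' => by rw [lpt_add, sca_add (smp_S F j)])
  have hΦ : ∀ T, Φ T = sca K (lpt (D.td i).cv' (D.td i).ev T) := fun _ => rfl
  have h1 : Φ (𝟙 (F.S i ⊗ F.S j)) = δ i := by
    rw [hΦ]
    apply sca_eq (smp_S F j)
    rw [lpt_one, (hb i).1, MonoidalLinear.smul_whiskerRight, Linear.smul_comp, Linear.comp_smul,
      MonoidalCategory.id_whiskerRight, Category.id_comp, Iso.inv_hom_id]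
  have h2 : ∀ k, LinearMap.trace K _ (R k) = ∑ a, sca K (R k (b k a) ≫ g k a) := by
    intro k
    rw [LinearMap.trace_eq_matrix_trace K (b k) (R k), Matrix.trace]
    refine Finset.sum_congr rfl fun a _ => ?_
    rw [Matrix.diag_apply, LinearMap.toMatrix_apply, RoF_repr F (b k) (g k) (hg1 k)]
  have h3 : δ i = ∑ k, ∑ a, sca K (fl (D.td i).cv' (g k a) ≫ sh (D.td i).ev (b k a)) := by
    rw [← h1, ← hg2, map_sum]
    refine Finset.sum_congr rfl fun k _ => ?_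
    rw [map_sum]
    refine Finset.sum_congr rfl fun a _ => ?_
    rw [hΦ, lpt_eq]
  rw [h3, mul_comm, Finset.mul_sum]
  refine Finset.sum_congr rfl fun k _ => ?_
  rw [h2, mul_comm _ (δ k), Finset.mul_sum, Finset.mul_sum]
  refine Finset.sum_congr rfl fun a _ => ?_
  exact hR k (b k a) (g k a)

end Pool.Agent.NFG
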