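import Pool.Agent.NFG.Td

/-!
# NFG/TdU: comparison of two duals of a simple object

Two duals of a simple object are isomorphic; the left partial traces and the squared norms are compared.
-/

set_option autoImplicit false

noncomputable section

open CategoryTheory MonoidalCategory

namespace Pool.Agent.NFG

universe v u w

section

variable {C : Type u} [Category.{v} C] [MonoidalCategory C]

private def TdU_psi {X X' X₂ : C} (t : TD X X') (t₂ : TD X X₂) : X₂ ⟶ X' := flR t.cv t₂.ev ≫ (λ_ X').hom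

private theorem TdU_ev {X X' X₂ : C} (t : TD X X') (t₂ : TD X X₂) : (TdU_psi t t₂ ▷ X) ≫ t.ev = t₂.ev := by
  have h1 : (TdU_psi t t₂ ▷ X) ≫ t.ev = shR t.ev (flR t.cv t₂.ev) := by
    unfold TdU_psi
    generalize flR t.cv t₂.ev = f
    unfold shR
    monoidal
  rw [h1]
  exact shR_flR t.cv t.ev t.zag t₂.ev

private theorem TdU_ins {B B' V : C} (c : 𝟙_ C ⟶ B ⊗ B') (f : B' ⟶ V) :
    fl c ((ρ_ B').hom ≫ f) = c ≫ (B ◁ f) := by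
  simp only [fl, ins, hat]
  monoidal

private theorem TdU_cv {X X' X₂ : C} (t : TD X X') (t₂ : TD X X₂) : t₂.cv ≫ (X ◁ TdU_psi t t₂) = t.cv := by
  have h2 : sh t₂.ev t.cv = (ρ_ X₂).hom ≫ TdU_psi t t₂ := by
    unfold TdU_psi flR sh
    simp only [del, hab]
    simp
  rw [← TdU_ins, ← h2]
  exact fl_sh t₂.cv t₂.ev t₂.zag t.cv

private theorem TdU_shR {B B' : C} (e : B ⊗ B' ⟶ 𝟙_ C) : shR e (λ_ B).inv = e := by
  unfold shR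
  monoidal

private theorem TdU_lpt {A B B₂ W W' : C} (c : 𝟙_ C ⟶ B₂ ⊗ A) (e : B ⊗ A ⟶ 𝟙_ C) (p : B₂ ⟶ B)
    (T : A ⊗ W ⟶ A ⊗ W') : lpt c ((p ▷ A) ≫ e) T = lpt (c ≫ (p ▷ A)) e T := by
  simp only [lpt, ins, del, hat, hab]
  have h1 : ((λ_ W).inv ≫ (c ▷ W) ≫ (α_ B₂ A W).hom) ≫ (B₂ ◁ T) ≫
      ((α_ B₂ A W').inv ≫ (((p ▷ A) ≫ e) ▷ W')) ≫ (λ_ W').hom =
      ((λ_ W).inv ≫ (c ▷ W) ≫ (α_ B₂ A W).hom) ≫ ((B₂ ◁ T) ≫ (p ▷ (A ⊗ W'))) ≫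
      ((α_ B A W').inv ≫ (e ▷ W')) ≫ (λ_ W').hom := by
    monoidal
  rw [h1, whisker_exchange]
  monoidal

private theorem TdU_zz {X X' X₂ : C} (c : 𝟙_ C ⟶ X₂ ⊗ X) (e : X ⊗ X' ⟶ 𝟙_ C) (p : X₂ ⟶ X') :
    X ◁ (c ≫ (p ▷ X)) ≫ (α_ _ _ _).inv ≫ e ▷ X = X ◁ c ≫ (α_ _ _ _).inv ≫ ((X ◁ p) ≫ e) ▷ X := by
  monoidal

end

variable {K : Type w} [Field K] {C : Type u} [Category.{v} C] [Preadditive C] [Linear K C] [MonoidalCategory C]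
  [MonoidalPreadditive C] [MonoidalLinear K C] {ι : Type} [Fintype ι] [DecidableEq ι] {O : Subring K}

private theorem TdU_A {X X' : C} (hX : Smp K X) (t : TD X X') (f : 𝟙_ C ⟶ X' ⊗ X) : ∃ k : K, f = k • t.cv' := by
  obtain ⟨k, hk⟩ := hX.2 ((ρ_ X).inv ≫ sh t.ev' f)
  have h1 : sh t.ev' f = k • (ρ_ X).hom := by
    have h2 : (ρ_ X).hom ≫ (ρ_ X).inv ≫ sh t.ev' f = sh t.ev' f := by
      rw [Iso.hom_inv_id_assoc]
    rw [← h2, hk, Linear.comp_smul, Category.comp_id]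
  refine ⟨k, ?_⟩
  have h3 : fl t.cv' (ρ_ X).hom = t.cv' := by
    have h4 := TdU_ins t.cv' (𝟙 X)
    rw [Category.comp_id, MonoidalCategory.whiskerLeft_id, Category.comp_id] at h4
    exact h4
  have h5 := fl_sh t.cv' t.ev' t.zag' f
  rw [h1] at h5
  rw [← h5]
  simp only [fl, MonoidalLinear.whiskerLeft_smul, Linear.comp_smul]
  simp only [fl] at h3
  rw [h3]

private theorem TdU_B {X X' : C} (hX : Smp K X) (t : TD X X') (g : X ⊗ X' ⟶ 𝟙_ C) : ∃ k : K, g = k • t.ev' := by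
  obtain ⟨k, hk⟩ := hX.2 (flR t.cv' g ≫ (λ_ X).hom)
  have h1 : flR t.cv' g = k • (λ_ X).inv := by
    have h2 : (flR t.cv' g ≫ (λ_ X).hom) ≫ (λ_ X).inv = flR t.cv' g := by
      rw [Category.assoc, Iso.hom_inv_id, Category.comp_id]
    rw [← h2, hk, Linear.smul_comp, Category.id_comp]
  refine ⟨k, ?_⟩
  have h5 := shR_flR t.cv' t.ev' t.zag' g
  rw [h1] at h5
  have h3 := TdU_shR t.ev'
  rw [← h5]
  simp only [shR, MonoidalLinear.smul_whiskerRight, Linear.smul_comp]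
  simp only [shR] at h3
  rw [h3]

private theorem TdU_main {X X' X₂ : C} (hX : Smp K X) (t : TD X X') (t₂ : TD X X₂) : ∃ s : K,
    t₂.cv' ≫ (TdU_psi t t₂ ▷ X) = s • t.cv' ∧ (X ◁ TdU_psi t t₂) ≫ t.ev' = s • t₂.ev' := by
  obtain ⟨s, hs⟩ := TdU_A hX t (t₂.cv' ≫ (TdU_psi t t₂ ▷ X))
  obtain ⟨s', hs'⟩ := TdU_B hX t₂ ((X ◁ TdU_psi t t₂) ≫ t.ev')
  have h1 := TdU_zz t₂.cv' t.ev' (TdU_psi t t₂)
  rw [hs, hs', MonoidalLinear.whiskerLeft_smul, MonoidalLinear.smul_whiskerRight, Linear.smul_comp,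
    Linear.comp_smul, Linear.comp_smul, t.zig', t₂.zig'] at h1
  have h2 : (ρ_ X).inv ≫ (s • ((ρ_ X).hom ≫ (λ_ X).inv)) ≫ (λ_ X).hom =
      (ρ_ X).inv ≫ (s' • ((ρ_ X).hom ≫ (λ_ X).inv)) ≫ (λ_ X).hom := by rw [h1]
  rw [Linear.smul_comp, Linear.smul_comp, Linear.comp_smul, Linear.comp_smul, Category.assoc, Iso.inv_hom_id,
    Category.comp_id, Iso.inv_hom_id] at h2
  have h3 := smp_inj hX h2
  refine ⟨s, hs, ?_⟩
  rw [h3]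
  exact hs'

omit [MonoidalPreadditive C] [MonoidalLinear K C] in
private theorem TdU_d {X X' X₂ : C} (h1 : Smp K (𝟙_ C)) (t : TD X X') (t₂ : TD X X₂) {d d₂ : K}
    (h : t.cv' ≫ t.ev = d • 𝟙 (𝟙_ C)) (h₂ : t₂.cv' ≫ t₂.ev = d₂ • 𝟙 (𝟙_ C)) {s : K}
    (hs : t₂.cv' ≫ (TdU_psi t t₂ ▷ X) = s • t.cv') : d₂ = s * d := by
  apply smp_inj h1
  rw [← h₂, ← TdU_ev t t₂, ← Category.assoc, hs, Linear.smul_comp, h, smul_smul]

theorem lpt_two {X X' X₂ : C} (hX : Smp K X) (h1 : Smp K (𝟙_ C)) (t : TD X X') (t₂ : TD X X₂) {d d₂ : K}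
    (h : t.cv' ≫ t.ev = d • 𝟙 (𝟙_ C)) (h₂ : t₂.cv' ≫ t₂.ev = d₂ • 𝟙 (𝟙_ C)) {W W' : C} (T : X ⊗ W ⟶ X ⊗ W') :
    d₂ • lpt t.cv' t.ev T = d • lpt t₂.cv' t₂.ev T := by
  obtain ⟨s, hs, -⟩ := TdU_main hX t t₂
  have h3 := TdU_d h1 t t₂ h h₂ hs
  have h4 : lpt t₂.cv' t₂.ev T = s • lpt t.cv' t.ev T := by
    rw [← TdU_ev t t₂, TdU_lpt, hs]
    simp only [lpt, ins, hat, MonoidalLinear.smul_whiskerRight, Linear.smul_comp, Linear.comp_smul]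
  rw [h4, h3, smul_smul, mul_comm]

theorem norm_two {X X' X₂ : C} (hX : Smp K X) (h1 : Smp K (𝟙_ C)) (t : TD X X') (t₂ : TD X X₂) {d d₂ e e₂ : K}
    (h : t.cv' ≫ t.ev = d • 𝟙 (𝟙_ C)) (h₂ : t₂.cv' ≫ t₂.ev = d₂ • 𝟙 (𝟙_ C)) (h' : t.cv ≫ t.ev' = e • 𝟙 (𝟙_ C))
    (h₂' : t₂.cv ≫ t₂.ev' = e₂ • 𝟙 (𝟙_ C)) : d * e = d₂ * e₂ := by
  obtain ⟨s, hs, hs'⟩ := TdU_main hX t t₂
  have h3 := TdU_d h1 t t₂ h h₂ hs
  have h4 : e = s * e₂ := by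
    apply smp_inj h1
    rw [← h', ← TdU_cv t t₂, Category.assoc, hs', Linear.comp_smul, h₂', smul_smul]
  rw [h3, h4]
  ring

end Pool.Agent.NFG
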