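import Pool.Agent.NFG.RoF
import Pool.Agent.NFG.TdU

/-!
# NFG/RoG: the traces are invariant under the left rotation

`i' = D.st i`, `t = D.td i`, `t' = D.td i'` (a dual of `S i'`), `t.swap : TD (S i') (S i)` is another dual of `S i'`, with the same loops
`δ i' = δ i`.  So by `lpt_two` (`δ i ≠ 0`): `lpt t'.cv' t'.ev T = lpt t.cv t.ev' T` for all `T : S i' ⊗ W ⟶ S i' ⊗ W'`.
Let `x : S k ⟶ S i ⊗ S j`, `y : S i ⊗ S j ⟶ S k`, `x₁ = fl t.cv' y : S j ⟶ S i' ⊗ S k`, `y₁ = sh t.ev x : S i' ⊗ S k ⟶ S j`.  The relation `hR₁` for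
`(x₁, y₁)`: `δ k * sca (lpt t'.cv' t'.ev (y₁ ≫ x₁)) = δ j * sca (R₁ x₁ ≫ y₁)` (`lpt_eq`), and
`lpt t.cv t.ev' (y₁ ≫ x₁) = fl t.cv y₁ ≫ sh t.ev' x₁ = x ≫ y` (`fl_sh` with `t.zag`, `sh_fl` with `t.zig'`).  So
(*) `δ k * sca (x ≫ y) = δ j * sca (R₁ (fl t.cv' y) ≫ sh t.ev x)`.
With `Φ : (S i ⊗ S j ⟶ S k) ≃ (S j ⟶ S i' ⊗ S k)`, `Φ y = fl t.cv' y`, inverse `sh t.ev'`, and `hR` for `x` and `Φ⁻¹ (R₁ (Φ y))`:
`δ j * sca (R₁ (Φ y) ≫ sh t.ev x) = δ k * sca (R x ≫ Φ⁻¹ (R₁ (Φ y)))`.  Hence with `p (y, x) = sca (x ≫ y)`: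
`p (y, x) = p (Φ⁻¹ (R₁ (Φ y)), R x)`; apply `trace_eq` (nondegeneracy of `p`: `nondeg`, `nondeg'`; finite dimension: `fin_hom`, and `finrank_dual`-style
arguments or `Module.Finite.equiv` with `Φ`).
-/

set_option autoImplicit false

noncomputable section

open CategoryTheory MonoidalCategory

namespace Pool.Agent.NFG

universe v u w

variable {K : Type w} [Field K] {C : Type u} [Category.{v} C] [Preadditive C] [Linear K C] [MonoidalCategory C]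
  [MonoidalPreadditive C] [MonoidalLinear K C] {ι : Type} [Fintype ι] [DecidableEq ι] {O : Subring K}

/-- bending as a linear equivalence -/
private def RoG_phi {A B B' V : C} (c : 𝟙_ C ⟶ B ⊗ B') (e : B' ⊗ B ⟶ 𝟙_ C)
    (zig : B' ◁ c ≫ (α_ _ _ _).inv ≫ e ▷ B' = (ρ_ _).hom ≫ (λ_ _).inv)
    (zag : c ▷ B ≫ (α_ _ _ _).hom ≫ B ◁ e = (λ_ _).hom ≫ (ρ_ _).inv) : (B' ⊗ A ⟶ V) ≃ₗ[K] (A ⟶ B ⊗ V) where
  toFun g := fl c g
  invFun f := sh e f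
  map_add' f g := fl_add c f g
  map_smul' k g := fl_smul c k g
  left_inv g := sh_fl c e zig g
  right_inv f := fl_sh c e zag f

/-- the pairing -/
private def RoG_p (F : Fus K C ι) (Z : C) (k : ι) : (Z ⟶ F.S k) →ₗ[K] (F.S k ⟶ Z) →ₗ[K] K :=
  LinearMap.mk₂ K (fun y x => sca K (x ≫ y))
    (fun y y' x => by
      show sca K (x ≫ (y + y')) = sca K (x ≫ y) + sca K (x ≫ y')
      rw [Preadditive.comp_add, sca_add (smp_S F k)])
    (fun c y x => by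
      show sca K (x ≫ (c • y)) = c • sca K (x ≫ y)
      rw [Linear.comp_smul, sca_smul (smp_S F k), smul_eq_mul])
    (fun y x x' => by
      show sca K ((x + x') ≫ y) = sca K (x ≫ y) + sca K (x' ≫ y)
      rw [Preadditive.add_comp, sca_add (smp_S F k)])
    (fun c y x => by
      show sca K ((c • x) ≫ y) = c • sca K (x ≫ y)
      rw [Linear.smul_comp, sca_smul (smp_S F k), smul_eq_mul])

theorem rot_trace {F : Fus K C ι} (D : Du F) {δ : ι → K} (hδ : ∀ i, δ i ≠ 0) (hb : ∀ i, (D.td i).Bal (δ i))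
    (hs : ∀ i, δ (D.st i) = δ i) (i j k : ι)
    (R : (F.S k ⟶ F.S i ⊗ F.S j) →ₗ[K] (F.S k ⟶ F.S i ⊗ F.S j)) (hRR : ∀ x, R (R x) = x)
    (hR : ∀ (x : F.S k ⟶ F.S i ⊗ F.S j) (y : F.S i ⊗ F.S j ⟶ F.S k),
      δ j * sca K (fl (D.td i).cv' y ≫ sh (D.td i).ev x) = δ k * sca K (R x ≫ y))
    (R₁ : (F.S j ⟶ F.S (D.st i) ⊗ F.S k) →ₗ[K] (F.S j ⟶ F.S (D.st i) ⊗ F.S k))
    (hR₁ : ∀ (x : F.S j ⟶ F.S (D.st i) ⊗ F.S k) (y : F.S (D.st i) ⊗ F.S k ⟶ F.S j),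
      δ k * sca K (fl (D.td (D.st i)).cv' y ≫ sh (D.td (D.st i)).ev x) = δ j * sca K (R₁ x ≫ y)) :
    LinearMap.trace K _ R₁ = LinearMap.trace K _ R := by
  have hlpt : ∀ {W W' : C} (T : F.S (D.st i) ⊗ W ⟶ F.S (D.st i) ⊗ W'),
      lpt (D.td (D.st i)).cv' (D.td (D.st i)).ev T = lpt (D.td i).cv (D.td i).ev' T := by
    intro W W' T
    have h1 := lpt_two (smp_S F (D.st i)) (smp_one F) (D.td (D.st i)) (D.td i).swap (hb (D.st i)).1 (hb i).2 T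
    rw [hs] at h1
    have h2 : δ i • lpt (D.td (D.st i)).cv' (D.td (D.st i)).ev T = δ i • lpt (D.td i).cv (D.td i).ev' T := h1
    have h3 := congrArg (fun f => (δ i)⁻¹ • f) h2
    simp only [smul_smul] at h3
    rwa [inv_mul_cancel₀ (hδ i), one_smul, one_smul] at h3
  have hstar : ∀ (x : F.S k ⟶ F.S i ⊗ F.S j) (y : F.S i ⊗ F.S j ⟶ F.S k),
      δ k * sca K (x ≫ y) = δ j * sca K (R₁ (fl (D.td i).cv' y) ≫ sh (D.td i).ev x) := by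
    intro x y
    have h1 := hR₁ (fl (D.td i).cv' y) (sh (D.td i).ev x)
    rw [← lpt_eq, hlpt, lpt_eq, fl_sh _ _ (D.td i).zag, sh_fl _ _ (D.td i).zig'] at h1
    exact h1
  have hfin1 : FiniteDimensional K (F.S k ⟶ F.S i ⊗ F.S j) := fin_hom F _ _
  have hfin2 : FiniteDimensional K (F.S j ⟶ F.S (D.st i) ⊗ F.S k) := fin_hom F _ _
  let Φ : (F.S i ⊗ F.S j ⟶ F.S k) ≃ₗ[K] (F.S j ⟶ F.S (D.st i) ⊗ F.S k) :=
    RoG_phi (D.td i).cv' (D.td i).ev' (D.td i).zig' (D.td i).zag'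
  have hfin3 : FiniteDimensional K (F.S i ⊗ F.S j ⟶ F.S k) := Module.Finite.equiv Φ.symm
  refine trace_eq (RoG_p F (F.S i ⊗ F.S j) k) ?_ ?_ Φ R hRR R₁ ?_
  · intro x hx
    refine nondeg F fun y => ?_
    have h1 : sca K (x ≫ y) = 0 := hx y
    rw [sca_spec (smp_S F k) (x ≫ y), h1, zero_smul]
  · intro y hy
    refine nondeg' F fun x => ?_
    have h1 : sca K (x ≫ y) = 0 := hy x
    rw [sca_spec (smp_S F k) (x ≫ y), h1, zero_smul]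
  · intro y x
    show sca K (x ≫ y) = sca K (R x ≫ Φ.symm (R₁ (Φ y)))
    have h1 := hR x (Φ.symm (R₁ (Φ y)))
    have h2 : fl (D.td i).cv' (Φ.symm (R₁ (Φ y))) = R₁ (Φ y) := Φ.apply_symm_apply _
    rw [h2] at h1
    have h3 : δ k * sca K (x ≫ y) = δ k * sca K (R x ≫ Φ.symm (R₁ (Φ y))) := (hstar x y).trans h1
    exact mul_left_cancel₀ (hδ k) h3

end Pool.Agent.NFG
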