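import Pool.Agent.NFG.RoG

/-!
# NFG/RoH: the integers `T i j k`

`R i j k` is given by `exists_R` and `T i j k` by `inv_trace` (`fin_hom`): `trace (R i j k) = T i j k`, `|T i j k| ≤ F.mult i j k`.
-/

set_option autoImplicit false

noncomputable section

open CategoryTheory MonoidalCategory

namespace Pool.Agent.NFG

universe v u w

variable {K : Type w} [Field K] {C : Type u} [Category.{v} C] [Preadditive C] [Linear K C] [MonoidalCategory C]
  [MonoidalPreadditive C] [MonoidalLinear K C] {ι : Type} [Fintype ι] [DecidableEq ι] {O : Subring K}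

theorem du_T [CharZero K] {F : Fus K C ι} (D : Du F) {δ : ι → K} (hδ : ∀ i, δ i ≠ 0) (hb : ∀ i, (D.td i).Bal (δ i))
    (hs : ∀ i, δ (D.st i) = δ i) :
    ∃ T : ι → ι → ι → ℤ, (∀ i j k, |T i j k| ≤ (F.mult i j k : ℤ)) ∧ (∀ i j k, T i j k = T (D.st i) k j) ∧
      (∀ i j, δ i * δ j = ∑ k, (T i j k : K) * δ k) ∧
      ∀ i j k (e : ℤ), (e = 1 ∨ e = -1) → T i j k = e * (F.mult i j k : ℤ) →
        ∀ (x : F.S k ⟶ F.S i ⊗ F.S j) (y : F.S i ⊗ F.S j ⟶ F.S k),
          δ j * sca K (fl (D.td i).cv' y ≫ sh (D.td i).ev x) = (e : K) * δ k * sca K (x ≫ y) := by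
  choose R hRR hR using fun i j k => exists_R D hδ hb i j k
  have hT : ∀ i j k, ∃ m : ℤ, LinearMap.trace K _ (R i j k) = m ∧ |m| ≤ (F.mult i j k : ℤ) ∧
      (m = (F.mult i j k : ℤ) → ∀ x, R i j k x = x) ∧
      (m = -(F.mult i j k : ℤ) → ∀ x, R i j k x = -x) := by
    intro i j k
    have hf := fin_hom F (F.S i ⊗ F.S j) k
    exact inv_trace (R i j k) (hRR i j k)
  choose T hT1 hT2 hT3 hT4 using hT
  refine ⟨T, hT2, ?_, ?_, ?_⟩
  · intro i j k
    have h1 := rot_trace D hδ hb hs i j k (R i j k) (hRR i j k) (hR i j k) (R (D.st i) k j)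
      (hR (D.st i) k j)
    rw [hT1, hT1] at h1
    exact_mod_cast h1.symm
  · intro i j
    rw [sum_R D hb i j (R i j) (hR i j)]
    refine Finset.sum_congr rfl fun k _ => ?_
    rw [hT1]
  · intro i j k e he hTe x y
    rw [hR]
    rcases he with rfl | rfl
    · rw [one_mul] at hTe
      rw [hT3 i j k hTe x, Int.cast_one, one_mul]
    · rw [neg_one_mul] at hTe
      rw [hT4 i j k hTe x, Preadditive.neg_comp]
      have h1 := smp_S F k
      have h2 : sca K (-(x ≫ y)) = -sca K (x ≫ y) := by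
        apply smp_inj h1
        rw [← sca_spec h1 (-(x ≫ y)), neg_smul, ← sca_spec h1 (x ≫ y)]
      rw [h2]
      push_cast
      ring

end Pool.Agent.NFG
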