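import Pool.Agent.NFG.SemA
import Pool.Agent.NFG.LatC

/-!
# NFG/SemB: lattices in Hom spaces and their duals

`sd v` is the standard family of lattices on the simple object `S v`: `O • 𝟙` in `Hom (S v, S v)`.
-/

set_option autoImplicit false

noncomputable section

open CategoryTheory MonoidalCategory

namespace Pool.Agent.NFG

universe v u w

variable {K : Type w} [Field K] {C : Type u} [Category.{v} C] [Preadditive C] [Linear K C] [MonoidalCategory C]
  {ι : Type} [Fintype ι] [DecidableEq ι] {O : Subring K}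

theorem exists_lat_fam (F : Fus K C ι) (O : Subring K) (Z : C) : ∃ n : F.Fam O Z, ∀ m, IsLat O (n m) := by
  have h : ∀ m : ι, ∃ L : Submodule O (F.S m ⟶ Z), IsLat O L := by
    intro m
    have := fin_hom F Z m
    exact exists_lat
  choose n hn using h
  exact ⟨n, hn⟩

/-- an element of the span pairs integrally with the dual elements -/
private theorem SemB_dl (F : Fus K C ι) {Z : C} {m : ι} {N : ℕ} (b : Fin N → (F.S m ⟶ Z)) (g : Z ⟶ F.S m)
    (h : ∀ i, ∃ c ∈ O, b i ≫ g = c • 𝟙 (F.S m)) : g ∈ F.dl (Submodule.span O (Set.range b)) := by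
  intro f hf
  induction hf using Submodule.span_induction with
  | mem x hx =>
    obtain ⟨j, rfl⟩ := hx
    exact h j
  | zero => exact ⟨0, O.zero_mem, by simp⟩
  | add x y _ _ hx hy =>
    obtain ⟨c, hc, h1⟩ := hx
    obtain ⟨c', hc', h2⟩ := hy
    exact ⟨c + c', O.add_mem hc hc', by rw [Preadditive.add_comp, h1, h2, add_smul]⟩
  | smul a x _ hx =>
    obtain ⟨c, hc, h1⟩ := hx
    refine ⟨(a : K) * c, O.mul_mem a.2 hc, ?_⟩
    have h2 : (a • x : F.S m ⟶ Z) = (a : K) • x := rfl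
    rw [h2, Linear.smul_comp, h1, smul_smul]

private theorem SemB_ite (F : Fus K C ι) (O : Subring K) {m : ι} (p : Prop) [Decidable p] :
    ∃ c ∈ O, (if p then 𝟙 (F.S m) else 0) = c • 𝟙 (F.S m) := by
  by_cases h : p
  · exact ⟨1, O.one_mem, by rw [if_pos h, one_smul]⟩
  · exact ⟨0, O.zero_mem, by rw [if_neg h, zero_smul]⟩

/-- the bases in `latdec` are `K`-bases -/
private theorem SemB_latdec (F : Fus K C ι) {Z : C} (n : F.Fam O Z) (hn : ∀ m, IsLat O (n m)) :
    ∃ (N : ι → ℕ) (b : ∀ m, Module.Basis (Fin (N m)) K (F.S m ⟶ Z)) (g : ∀ m, Fin (N m) → (Z ⟶ F.S m)),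
      (∀ m, n m = Submodule.span O (Set.range (b m))) ∧
      (∀ m i j, b m i ≫ g m j = if i = j then 𝟙 (F.S m) else 0) ∧ ∑ m, ∑ i, g m i ≫ b m i = 𝟙 Z := by
  have hn' : ∀ m, ∃ (k : ℕ) (b : Module.Basis (Fin k) K (F.S m ⟶ Z)),
      n m = Submodule.span O (Set.range b) := hn
  choose N b hb using hn'
  obtain ⟨g, h1, h2⟩ := dual_basis F Z N b
  exact ⟨N, b, g, hb, h1, h2⟩

private theorem SemB_latdec' (F : Fus K C ι) {Z : C} (n : F.Fam O Z) (hn : ∀ m, IsLat O (n m)) :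
    ∃ (N : ι → ℕ) (b : ∀ m, Module.Basis (Fin (N m)) K (F.S m ⟶ Z)) (g : ∀ m, Fin (N m) → (Z ⟶ F.S m)),
      (∀ m i, b m i ∈ n m) ∧ (∀ m i, g m i ∈ F.dl (n m)) ∧
      (∀ m i j, b m i ≫ g m j = if i = j then 𝟙 (F.S m) else 0) ∧ ∑ m, ∑ i, g m i ≫ b m i = 𝟙 Z := by
  obtain ⟨N, b, g, hb, h1, h2⟩ := SemB_latdec F n hn
  refine ⟨N, b, g, ?_, ?_, h1, h2⟩
  · intro m i
    rw [hb m]
    exact Submodule.subset_span ⟨i, rfl⟩
  · intro m i
    rw [hb m]
    refine SemB_dl F _ _ fun j => ?_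
    rw [h1 m j i]
    exact SemB_ite F O _

theorem latdec (F : Fus K C ι) {Z : C} (n : F.Fam O Z) (hn : ∀ m, IsLat O (n m)) :
    ∃ (N : ι → ℕ) (b : ∀ m, Fin (N m) → (F.S m ⟶ Z)) (g : ∀ m, Fin (N m) → (Z ⟶ F.S m)),
      (∀ m i, b m i ∈ n m) ∧ (∀ m i, g m i ∈ F.dl (n m)) ∧
      (∀ m i j, b m i ≫ g m j = if i = j then 𝟙 (F.S m) else 0) ∧ ∑ m, ∑ i, g m i ≫ b m i = 𝟙 Z := by
  obtain ⟨N, b, g, h1, h2, h3, h4⟩ := SemB_latdec' F n hn
  exact ⟨N, fun m => b m, g, h1, h2, h3, h4⟩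

/-- the bases in `latdec` are `K`-bases -/
theorem latdec' (F : Fus K C ι) {Z : C} (n : F.Fam O Z) (hn : ∀ m, IsLat O (n m)) :
    ∃ (N : ι → ℕ) (b : ∀ m, Module.Basis (Fin (N m)) K (F.S m ⟶ Z)) (g : ∀ m, Fin (N m) → (Z ⟶ F.S m)),
      (∀ m i, b m i ∈ n m) ∧ (∀ m i, g m i ∈ F.dl (n m)) ∧
      (∀ m i j, b m i ≫ g m j = if i = j then 𝟙 (F.S m) else 0) ∧ ∑ m, ∑ i, g m i ≫ b m i = 𝟙 Z :=
  SemB_latdec' F n hn

/-- one lattice with its dual basis -/
private theorem SemB_one (F : Fus K C ι) {Z : C} {m : ι} {L : Submodule O (F.S m ⟶ Z)} (hL : IsLat O L) :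
    ∃ (N : ℕ) (b : Module.Basis (Fin N) K (F.S m ⟶ Z)) (g : Fin N → (Z ⟶ F.S m)),
      L = Submodule.span O (Set.range b) ∧ (∀ i j, b i ≫ g j = if i = j then 𝟙 (F.S m) else 0) ∧
      (∀ f : F.S m ⟶ Z, f = ∑ i, (f ≫ g i) ≫ b i) ∧ (∀ g' : Z ⟶ F.S m, g' = ∑ i, g i ≫ (b i ≫ g')) := by
  obtain ⟨n0, hn0⟩ := exists_lat_fam F O Z
  have hn : ∀ m', IsLat O (Function.update n0 m L m') := by
    intro m'
    by_cases h : m' = m
    · subst h
      rw [Function.update_self]
      exact hL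
    · rw [Function.update_of_ne h]
      exact hn0 m'
  obtain ⟨N, b, g, hb, h1, h2⟩ := SemB_latdec F (Function.update n0 m L) hn
  refine ⟨N m, b m, g m, ?_, h1 m, ?_, ?_⟩
  · have h3 := hb m
    rw [Function.update_self] at h3
    exact h3
  · intro f
    have h3 : f = f ≫ 𝟙 Z := (Category.comp_id f).symm
    rw [← h2, Preadditive.comp_sum, Finset.sum_eq_single m] at h3
    · rw [Preadditive.comp_sum] at h3
      refine h3.trans (Finset.sum_congr rfl fun i _ => (Category.assoc _ _ _).symm)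
    · intro m' _ hm'
      rw [Preadditive.comp_sum]
      refine Finset.sum_eq_zero fun i _ => ?_
      rw [← Category.assoc, comp_zero' F (Ne.symm hm') f (g m' i), Limits.zero_comp]
    · intro h
      exact absurd (Finset.mem_univ m) h
  · intro g'
    have h3 : g' = 𝟙 Z ≫ g' := (Category.id_comp g').symm
    rw [← h2, Preadditive.sum_comp, Finset.sum_eq_single m] at h3
    · rw [Preadditive.sum_comp] at h3
      refine h3.trans (Finset.sum_congr rfl fun i _ => Category.assoc _ _ _)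
    · intro m' _ hm'
      rw [Preadditive.sum_comp]
      refine Finset.sum_eq_zero fun i _ => ?_
      rw [Category.assoc, comp_zero' F hm' (b m' i) g', Limits.comp_zero]
    · intro h
      exact absurd (Finset.mem_univ m) h

private theorem SemB_g_mem (F : Fus K C ι) {Z : C} {m : ι} {L : Submodule O (F.S m ⟶ Z)} {N : ℕ}
    (b : Fin N → (F.S m ⟶ Z)) (g : Fin N → (Z ⟶ F.S m)) (hb : L = Submodule.span O (Set.range b))
    (h1 : ∀ i j, b i ≫ g j = if i = j then 𝟙 (F.S m) else 0) (i : Fin N) : g i ∈ F.dl L := by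
  rw [hb]
  refine SemB_dl F _ _ fun j => ?_
  rw [h1 j i]
  exact SemB_ite F O _

theorem mem_of_dl (F : Fus K C ι) {Z : C} {m : ι} {L : Submodule O (F.S m ⟶ Z)} (hL : IsLat O L) {f : F.S m ⟶ Z}
    (h : ∀ g ∈ F.dl L, ∃ c ∈ O, f ≫ g = c • 𝟙 (F.S m)) : f ∈ L := by
  obtain ⟨N, b, g, hb, h1, h2, -⟩ := SemB_one F hL
  rw [h2 f]
  refine Submodule.sum_mem _ fun i _ => ?_
  obtain ⟨c, hc, hf⟩ := h (g i) (SemB_g_mem F b g hb h1 i)
  rw [hf, Linear.smul_comp, Category.id_comp]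
  refine smul_mem_of hc ?_
  rw [hb]
  exact Submodule.subset_span ⟨i, rfl⟩

theorem exists_pair (F : Fus K C ι) {Z : C} {m : ι} {L : Submodule O (F.S m ⟶ Z)} (hL : IsLat O L)
    (h : ∃ f : F.S m ⟶ Z, f ≠ 0) : ∃ f ∈ L, ∃ g ∈ F.dl L, f ≫ g = 𝟙 (F.S m) := by
  obtain ⟨N, b, g, hb, h1, h2, -⟩ := SemB_one F hL
  obtain ⟨f, hf⟩ := h
  have hN : Nonempty (Fin N) := by
    by_contra hN
    have : IsEmpty (Fin N) := not_nonempty_iff.1 hN
    apply hf
    rw [h2 f, Finset.univ_eq_empty, Finset.sum_empty]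
  obtain ⟨i⟩ := hN
  refine ⟨b i, ?_, g i, SemB_g_mem F b g hb h1 i, ?_⟩
  · rw [hb]
    exact Submodule.subset_span ⟨i, rfl⟩
  · rw [h1 i i, if_pos rfl]

theorem dl_lat (F : Fus K C ι) {Z : C} {m : ι} {L : Submodule O (F.S m ⟶ Z)} (hL : IsLat O L) : IsLat O (F.dl L) := by
  obtain ⟨N, b, g, hb, h1, -, h3⟩ := SemB_one F hL
  have hli : LinearIndependent K g := by
    rw [Fintype.linearIndependent_iff]
    intro c hc j
    have h4 : b j ≫ (∑ i, c i • g i) = 0 := by rw [hc, Limits.comp_zero]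
    rw [Preadditive.comp_sum, Finset.sum_eq_single j] at h4
    · rw [Linear.comp_smul, h1 j j, if_pos rfl] at h4
      apply smul_one_inj F (m := m)
      rw [h4, zero_smul]
    · intro i _ hi
      rw [Linear.comp_smul, h1 j i, if_neg (Ne.symm hi), smul_zero]
    · intro h
      exact absurd (Finset.mem_univ j) h
  have hg : ∀ g' : Z ⟶ F.S m, ∀ c : Fin N → K, (∀ i, b i ≫ g' = c i • 𝟙 (F.S m)) → g' = ∑ i, c i • g i := by
    intro g' c hc
    refine (h3 g').trans (Finset.sum_congr rfl fun i _ => ?_)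
    rw [hc i, Linear.comp_smul, Category.comp_id]
  have hsp : ⊤ ≤ Submodule.span K (Set.range g) := by
    intro g' _
    have h4 : ∀ i, ∃ c : K, b i ≫ g' = c • 𝟙 (F.S m) := fun i => F.schur m _
    choose c hc using h4
    rw [hg g' c hc]
    exact Submodule.sum_mem _ fun i _ => Submodule.smul_mem _ _ (Submodule.subset_span ⟨i, rfl⟩)
  refine ⟨N, Module.Basis.mk hli hsp, ?_⟩
  rw [Module.Basis.coe_mk]
  apply le_antisymm
  · intro g' hg'
    have h4 : ∀ i, ∃ c : K, c ∈ O ∧ b i ≫ g' = c • 𝟙 (F.S m) := fun i => by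
      obtain ⟨c, hc, h5⟩ := hg' (b i) (by rw [hb]; exact Submodule.subset_span ⟨i, rfl⟩)
      exact ⟨c, hc, h5⟩
    choose c hcO hc using h4
    rw [hg g' c hc]
    exact Submodule.sum_mem _ fun i _ => smul_mem_of (hcO i) (Submodule.subset_span ⟨i, rfl⟩)
  · rw [Submodule.span_le]
    rintro _ ⟨i, rfl⟩
    exact SemB_g_mem F b g hb h1 i

theorem dl_scl (F : Fus K C ι) {Z : C} {m : ι} (L : Submodule O (F.S m ⟶ Z)) {c : K} (hc : c ≠ 0) :
    F.dl (scl c L) = scl c⁻¹ (F.dl L) := by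
  ext g
  rw [mem_scl_iff (inv_ne_zero hc), inv_inv]
  constructor
  · intro h f hf
    obtain ⟨d, hd, h1⟩ := h (c • f) ⟨f, hf, rfl⟩
    refine ⟨d, hd, ?_⟩
    rw [Linear.comp_smul, ← Linear.smul_comp]
    exact h1
  · rintro h _ ⟨f, hf, rfl⟩
    obtain ⟨d, hd, h1⟩ := h f hf
    refine ⟨d, hd, ?_⟩
    rw [Linear.smul_comp, ← Linear.comp_smul]
    exact h1

/-- the dual lattice of a lattice of rank one -/
theorem dl_rank_one (F : Fus K C ι) {Z : C} {m : ι} {e : F.S m ⟶ Z} {g : Z ⟶ F.S m} {d : K} (hd : d ≠ 0)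
    (hg : e ≫ g = d • 𝟙 (F.S m)) (h1 : ∀ g' : Z ⟶ F.S m, ∃ c : K, g' = c • g) :
    F.dl (Submodule.span O ({e} : Set (F.S m ⟶ Z))) = Submodule.span O {d⁻¹ • g} := by
  apply le_antisymm
  · intro g' hg'
    obtain ⟨c, rfl⟩ := h1 g'
    obtain ⟨a, ha, h2⟩ := hg' e (Submodule.mem_span_singleton_self e)
    rw [Linear.comp_smul, hg, smul_smul] at h2
    have h3 : c * d = a := smul_one_inj F h2
    have h4 : c • g = a • (d⁻¹ • g) := by
      rw [← h3, smul_smul, mul_assoc, mul_inv_cancel₀ hd, mul_one]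
    rw [h4]
    exact smul_mem_of ha (Submodule.mem_span_singleton_self _)
  · rw [Submodule.span_le]
    rintro _ h2
    rw [Set.mem_singleton_iff] at h2
    subst h2
    intro f hf
    obtain ⟨x, rfl⟩ := Submodule.mem_span_singleton.1 hf
    refine ⟨(x : K), x.2, ?_⟩
    have h3 : (x • e : F.S m ⟶ Z) = (x : K) • e := rfl
    rw [h3, Linear.smul_comp, Linear.comp_smul, hg, smul_smul, smul_smul, mul_assoc, inv_mul_cancel₀ hd, mul_one]

/-- the standard lattices on a simple object -/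
def Fus.sd (F : Fus K C ι) (O : Subring K) (v : ι) : F.Fam O (F.S v) := fun m =>
  Submodule.span O {k | ∃ h : m = v, k = eqToHom (congrArg F.S h)}

theorem sd_self (F : Fus K C ι) (v : ι) : F.sd O v v = Submodule.span O {𝟙 (F.S v)} := by
  have h : {k : F.S v ⟶ F.S v | ∃ h : v = v, k = eqToHom (congrArg F.S h)} = {𝟙 (F.S v)} := by
    ext k
    constructor
    · rintro ⟨h, hk⟩
      rw [Set.mem_singleton_iff, hk, eqToHom_refl]
    · intro hk
      rw [Set.mem_singleton_iff] at hk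
      exact ⟨rfl, by rw [hk, eqToHom_refl]⟩
  show Submodule.span O {k : F.S v ⟶ F.S v | ∃ h : v = v, k = eqToHom (congrArg F.S h)} = _
  rw [h]

theorem sd_lat (F : Fus K C ι) (v m : ι) : IsLat O (F.sd O v m) := by
  by_cases h : m = v
  · subst h
    rw [sd_self]
    exact lat_span_singleton (F.one_ne m) (F.schur m)
  · exact lat_zero (F.hom_zero m v h) _

/-- composition with an isomorphism preserves lattices -/
theorem lat_comp (F : Fus K C ι) {Z W : C} {m : ι} (e : Z ≅ W) {L : Submodule O (F.S m ⟶ Z)} (hL : IsLat O L)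
    (L' : Submodule O (F.S m ⟶ W)) (h : ∀ f, f ∈ L' ↔ f ≫ e.inv ∈ L) : IsLat O L' := by
  obtain ⟨N, b, hb⟩ := hL
  let E : (F.S m ⟶ Z) ≃ₗ[K] (F.S m ⟶ W) :=
    LinearEquiv.ofLinearMap (Linear.rightComp K (F.S m) e.hom) (Linear.rightComp K (F.S m) e.inv)
      (by
        apply LinearMap.ext
        intro f
        simp)
      (by
        apply LinearMap.ext
        intro f
        simp)
  have hE : ∀ f : F.S m ⟶ Z, E f = f ≫ e.hom := fun f => rfl
  refine ⟨N, b.map E, ?_⟩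
  apply le_antisymm
  · intro f hf
    have h1 : ∀ x : F.S m ⟶ Z, x ∈ Submodule.span O (Set.range b) →
        x ≫ e.hom ∈ Submodule.span O (Set.range (b.map E)) := by
      intro x hx
      induction hx using Submodule.span_induction with
      | mem x hx =>
        obtain ⟨j, rfl⟩ := hx
        exact Submodule.subset_span ⟨j, by rw [Module.Basis.map_apply, hE]⟩
      | zero =>
        rw [Limits.zero_comp]
        exact Submodule.zero_mem _
      | add x y _ _ hx hy =>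
        rw [Preadditive.add_comp]
        exact Submodule.add_mem _ hx hy
      | smul a x _ hx =>
        have h2 : (a • x : F.S m ⟶ Z) = (a : K) • x := rfl
        rw [h2, Linear.smul_comp]
        exact Submodule.smul_mem _ a hx
    have h2 := (h f).1 hf
    rw [hb] at h2
    have h3 := h1 _ h2
    rw [Category.assoc, e.inv_hom_id, Category.comp_id] at h3
    exact h3
  · rw [Submodule.span_le]
    rintro _ ⟨i, rfl⟩
    show b.map E i ∈ L'
    rw [h, Module.Basis.map_apply, hE, Category.assoc, e.hom_inv_id, Category.comp_id, hb]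
    exact Submodule.subset_span ⟨i, rfl⟩

end Pool.Agent.NFG
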