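import Pool.Agent.NFG.FrC

/-!
# NFG/Sgn: signed characters of nilpotent fusion rings

`T` is a signed version of the structure constants `N` and `c` a character for `T`.

`sgn_C`: the case `A = ℂ`: `c i ^ 2 = f i ^ 2` for `i ∈ E`, `R.Nil E`, by induction as in `FrB.ch_sq`:
* bound `‖c i‖ ≤ f i`: let `j` maximise `‖c j‖ / f j`; `‖c i‖ ‖c j‖ ≤ sum |T i j k| ‖c k‖ ≤ sum N i j k ‖c k‖`; or apply `fp_bound` to `g i = ‖c i‖`.
* `c o = ± 1`: `c o ^ 2 = sum_k T o o k c k = T o o o * c o` (`one_mul`, `|T| ≤ N`), so `c o = T o o o` is an integer of absolute value `≤ 1`, not `0`.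
* `comp_sum`: as in `FrA.comp_sum` with `T` in place of `N`: `c a₀ * sum_{a ∈ A_q} c a ^ 2 = sum_a c a * (c (st a₀) * c a) =
  sum_a c a * sum_y T (st a₀) a y * c y = sum_y c y * sum_a T a₀ y a * c a = c a₀ * sum_{y ∈ E} c y ^ 2`, by `hT'`
  (`T (st a₀) a y = T a₀ y a`: `hT' a₀ y a`) and `|T| ≤ N` (only the `y ∈ E`, `a ∈ A_q` contribute).
* the induction step with real parts exactly as in `ch_sq`.

`sgn`: `B = IntermediateField.adjoin ℚ (Set.range c)` is algebraic over `ℚ`: `c i` is integral over `ℤ` (as `FrC.ch_integral`: eigenvector of an integer matrix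
`T i j k`, the vector `c` is nonzero).  Choose `σ : B →+* ℂ` (`IsAlgClosed.lift`).  `σ ∘ c` is a signed character with values in `ℂ`, so
`σ (c i) ^ 2 = f i ^ 2`, i.e. `σ (c i) = e i * f i` with `e i = 1` or `e i = -1`; `e (st i) = e i` since `c (st i) = c i`.
Now `f i * f j = e i e j σ (c i) σ (c j) = sum_k (e i e j e k T i j k) f k ≤ sum_k N i j k f k = f i * f j` with `f k > 0`, so
`e i e j e k T i j k = N i j k` for all `k` (`Finset.sum_eq_sum_iff_of_le`).  Moreover `c o = e o` as `σ (c o) = e o * f o = e o`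
(`fp_one`) and `σ` is injective: `sgn_o`.
-/

set_option autoImplicit false

namespace Pool.Agent.NFG

variable {ι : Type} [Fintype ι] [DecidableEq ι]

private theorem sgn_zero (R : FRing ι) {T : ι → ι → ι → ℤ} (hT : ∀ i j k, |T i j k| ≤ (R.N i j k : ℤ)) {i j k : ι}
    (h : R.N i j k = 0) : T i j k = 0 := by
  have h1 := hT i j k
  rw [h, Nat.cast_zero] at h1
  exact abs_eq_zero.1 (le_antisymm h1 (abs_nonneg _))

open Classical in
private theorem sgn_comp (R : FRing ι) {E E' : Set ι} {Q : Type} [Group Q] {deg : ι → Q} (hg : R.IsGr E E' Q deg)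
    {T : ι → ι → ι → ℤ} (hT : ∀ i j k, |T i j k| ≤ (R.N i j k : ℤ)) (hT' : ∀ i j k, T i j k = T (R.st i) k j)
    {A : Type*} [Field A] {c : ι → A} (hc : ∀ i, c i ≠ 0) (hm : ∀ i j, c i * c j = ∑ k, (T i j k : A) * c k)
    (hs : ∀ i, c (R.st i) = c i) (q : Q) :
    ∑ a ∈ Finset.univ.filter (fun a => a ∈ E' ∧ deg a = q), c a ^ 2 =
      ∑ y ∈ Finset.univ.filter (fun y => y ∈ E), c y ^ 2 := by
  obtain ⟨a₀, ha₀, hq⟩ := hg.surj q
  have hst : deg (R.st a₀) * q = 1 := by
    have h1 : R.N (R.st a₀) a₀ R.o ≠ 0 := by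
      rw [R.left (R.st a₀) a₀ R.o, R.st_st, R.mul_one, if_pos rfl]
      exact one_ne_zero
    have h2 := hg.mul _ (hg.st a₀ ha₀) _ ha₀ _ h1
    have h3 : deg R.o = 1 := by
      have h4 : R.N R.o R.o R.o ≠ 0 := by
        rw [R.one_mul, if_pos rfl]
        exact one_ne_zero
      have h5 := hg.mul _ hg.one _ hg.one _ h4
      exact (mul_eq_left.mp h5.symm)
    rw [← hq, ← h2, h3]
  refine mul_left_cancel₀ (hc a₀) ?_
  calc c a₀ * ∑ a ∈ Finset.univ.filter (fun a => a ∈ E' ∧ deg a = q), c a ^ 2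
      = ∑ a ∈ Finset.univ.filter (fun a => a ∈ E' ∧ deg a = q), c a * (c (R.st a₀) * c a) := by
        rw [Finset.mul_sum, hs]
        exact Finset.sum_congr rfl (fun a _ => by ring)
    _ = ∑ a ∈ Finset.univ.filter (fun a => a ∈ E' ∧ deg a = q), ∑ y, c a * ((T (R.st a₀) a y : A) * c y) := by
        refine Finset.sum_congr rfl (fun a _ => ?_)
        rw [hm, Finset.mul_sum]
    _ = ∑ y, ∑ a ∈ Finset.univ.filter (fun a => a ∈ E' ∧ deg a = q), c a * ((T (R.st a₀) a y : A) * c y) :=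
        Finset.sum_comm
    _ = ∑ y, if y ∈ E then c a₀ * c y ^ 2 else 0 := by
        refine Finset.sum_congr rfl (fun y _ => ?_)
        split_ifs with hy
        · have hy' := (hg.ker y).mp hy
          have h6 : ∑ a ∈ Finset.univ.filter (fun a => a ∈ E' ∧ deg a = q), (T a₀ y a : A) * c a =
              ∑ a, (T a₀ y a : A) * c a := by
            refine Finset.sum_subset (Finset.subset_univ _) (fun a _ ha => ?_)
            by_cases h7 : R.N a₀ y a = 0
            · rw [sgn_zero R hT h7, Int.cast_zero, zero_mul]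
            · exfalso
              apply ha
              rw [Finset.mem_filter]
              refine ⟨Finset.mem_univ _, hg.sub _ ha₀ _ hy'.1 _ h7, ?_⟩
              rw [hg.mul _ ha₀ _ hy'.1 _ h7, hy'.2, mul_one, hq]
          calc ∑ a ∈ Finset.univ.filter (fun a => a ∈ E' ∧ deg a = q), c a * ((T (R.st a₀) a y : A) * c y)
              = ∑ a ∈ Finset.univ.filter (fun a => a ∈ E' ∧ deg a = q), (T a₀ y a : A) * c a * c y := by
                refine Finset.sum_congr rfl (fun a _ => ?_)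
                rw [hT' (R.st a₀) a y, R.st_st]
                ring
            _ = (∑ a, (T a₀ y a : A) * c a) * c y := by rw [← Finset.sum_mul, h6]
            _ = c a₀ * c y ^ 2 := by
                rw [← hm]
                ring
        · refine Finset.sum_eq_zero (fun a ha => ?_)
          rw [Finset.mem_filter] at ha
          by_cases h7 : R.N (R.st a₀) a y = 0
          · rw [sgn_zero R hT h7, Int.cast_zero, zero_mul, mul_zero]
          · exfalso
            apply hy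
            rw [hg.ker]
            refine ⟨hg.sub _ (hg.st a₀ ha₀) _ ha.2.1 _ h7, ?_⟩
            rw [hg.mul _ (hg.st a₀ ha₀) _ ha.2.1 _ h7, ha.2.2, hst]
    _ = c a₀ * ∑ y ∈ Finset.univ.filter (fun y => y ∈ E), c y ^ 2 := by
        rw [← Finset.sum_filter, Finset.mul_sum]

private theorem sgn_abs (R : FRing ι) {T : ι → ι → ι → ℤ} (hT : ∀ i j k, |T i j k| ≤ (R.N i j k : ℤ)) (i j k : ι) :
    |(T i j k : ℝ)| ≤ (R.N i j k : ℝ) := by
  have h := hT i j k
  have h2 : ((|T i j k| : ℤ) : ℝ) ≤ ((R.N i j k : ℤ) : ℝ) := by exact_mod_cast h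
  rw [Int.cast_abs, Int.cast_natCast] at h2
  exact h2

private theorem sgn_bound (R : FRing ι) {f : ι → ℝ} (hf : R.IsFP f) {T : ι → ι → ι → ℤ}
    (hT : ∀ i j k, |T i j k| ≤ (R.N i j k : ℤ)) {c : ι → ℂ} (hc : ∀ i, c i ≠ 0)
    (hm : ∀ i j, c i * c j = ∑ k, (T i j k : ℂ) * c k) (i : ι) : ‖c i‖ ≤ f i := by
  refine fp_bound R hf (g := fun i => ‖c i‖) (fun i => norm_pos_iff.mpr (hc i)) (fun i j => ?_) i
  calc ‖c i‖ * ‖c j‖ = ‖c i * c j‖ := (norm_mul _ _).symm
    _ = ‖∑ k, (T i j k : ℂ) * c k‖ := by rw [hm i j]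
    _ ≤ ∑ k, ‖(T i j k : ℂ) * c k‖ := norm_sum_le _ _
    _ ≤ ∑ k, (R.N i j k : ℝ) * ‖c k‖ := by
        refine Finset.sum_le_sum (fun k _ => ?_)
        rw [norm_mul, Complex.norm_intCast]
        exact mul_le_mul_of_nonneg_right (sgn_abs R hT i j k) (norm_nonneg _)

private theorem sgn_step {f : ι → ℝ} {c : ι → ℂ} (hb : ∀ a, ‖c a‖ ≤ f a) {E : Set ι}
    (ih : ∀ i ∈ E, c i ^ 2 = ((f i ^ 2 : ℝ) : ℂ)) (i : ι) (S T : Finset ι) (hT : ∀ y ∈ T, y ∈ E) (hS : i ∈ S)
    (h1 : ∑ a ∈ S, c a ^ 2 = ∑ y ∈ T, c y ^ 2) (h2 : ∑ a ∈ S, f a ^ 2 = ∑ y ∈ T, f y ^ 2) :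
    c i ^ 2 = ((f i ^ 2 : ℝ) : ℂ) := by
  have h3 : ∑ y ∈ T, c y ^ 2 = ((∑ y ∈ T, f y ^ 2 : ℝ) : ℂ) := by
    rw [Complex.ofReal_sum]
    exact Finset.sum_congr rfl fun y hy => ih y (hT y hy)
  have h4 : ∑ a ∈ S, c a ^ 2 = ((∑ a ∈ S, f a ^ 2 : ℝ) : ℂ) := by rw [h1, h3, h2]
  have h5 : ∑ a ∈ S, (c a ^ 2).re = ∑ a ∈ S, f a ^ 2 := by
    have h := congrArg Complex.re h4
    rw [Complex.re_sum, Complex.ofReal_re] at h
    exact h
  have hn : ∀ a, ‖c a ^ 2‖ ≤ f a ^ 2 := by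
    intro a
    rw [norm_pow]
    exact pow_le_pow_left₀ (norm_nonneg _) (hb a) 2
  have h6 : ∀ a ∈ S, (c a ^ 2).re ≤ f a ^ 2 := fun a _ => (Complex.re_le_norm _).trans (hn a)
  have h7 : (c i ^ 2).re = f i ^ 2 := (Finset.sum_eq_sum_iff_of_le h6).1 h5 i hS
  have h8 : ‖c i ^ 2‖ ^ 2 ≤ (f i ^ 2) ^ 2 := pow_le_pow_left₀ (norm_nonneg _) (hn i) 2
  have h9 : ‖c i ^ 2‖ ^ 2 = (c i ^ 2).re * (c i ^ 2).re + (c i ^ 2).im * (c i ^ 2).im := by
    rw [Complex.sq_norm, Complex.normSq_apply]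
  have h10 : (c i ^ 2).im = 0 := by
    rw [h9, h7] at h8
    nlinarith [mul_self_nonneg ((c i ^ 2).im)]
  apply Complex.ext
  · rw [Complex.ofReal_re]
    exact h7
  · rw [Complex.ofReal_im]
    exact h10

private theorem sgn_o (R : FRing ι) {T : ι → ι → ι → ℤ} (hT : ∀ i j k, |T i j k| ≤ (R.N i j k : ℤ))
    {A : Type*} [Field A] {c : ι → A} (hc : ∀ i, c i ≠ 0) (hm : ∀ i j, c i * c j = ∑ k, (T i j k : A) * c k) :
    c R.o ^ 2 = 1 := by
  have h1 := hm R.o R.o
  rw [Finset.sum_eq_single R.o (fun k _ hk => by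
    have h2 : R.N R.o R.o k = 0 := by rw [R.one_mul, if_neg (Ne.symm hk)]
    rw [sgn_zero R hT h2, Int.cast_zero, zero_mul]) (fun h => absurd (Finset.mem_univ _) h)] at h1
  have h2 : c R.o = (T R.o R.o R.o : A) := mul_right_cancel₀ (hc R.o) h1
  have h3 := hT R.o R.o R.o
  rw [R.one_mul, if_pos rfl, Nat.cast_one] at h3
  have h4 : T R.o R.o R.o ≠ 0 := by
    intro h
    rw [h, Int.cast_zero] at h2
    exact hc _ h2
  have h5 : T R.o R.o R.o = 1 ∨ T R.o R.o R.o = -1 := by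
    rw [abs_le] at h3
    omega
  rw [h2]
  rcases h5 with h5 | h5 <;> rw [h5] <;> simp

open Classical in
theorem sgn_C (R : FRing ι) {f : ι → ℝ} (hf : R.IsFP f) {T : ι → ι → ι → ℤ} (hT : ∀ i j k, |T i j k| ≤ (R.N i j k : ℤ))
    (hT' : ∀ i j k, T i j k = T (R.st i) k j) {c : ι → ℂ} (hc : ∀ i, c i ≠ 0)
    (hm : ∀ i j, c i * c j = ∑ k, (T i j k : ℂ) * c k) (hs : ∀ i, c (R.st i) = c i) {E : Set ι} (hE : R.Nil E) :
    ∀ i ∈ E, c i ^ 2 = ((f i ^ 2 : ℝ) : ℂ) := by
  induction hE with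
  | vec =>
    intro i hi
    have hi' : i = R.o := hi
    rw [hi', sgn_o R hT hc hm, fp_one R hf]
    simp
  | ext E E' Q _ _ deg h hg ih =>
    intro i hi
    have h1 := sgn_comp R hg hT hT' hc hm hs (deg i)
    have h2 := comp_sum R hg (fp_ch_real R hf) (deg i)
    refine sgn_step (sgn_bound R hf hT hc hm) ih i _ _ ?_ ?_ h1 h2
    · intro y hy
      exact (Finset.mem_filter.1 hy).2
    · exact Finset.mem_filter.2 ⟨Finset.mem_univ _, hi, rfl⟩

private theorem sgn_integral {T : ι → ι → ι → ℤ} {A : Type*} [Field A] {c : ι → A} (hc : ∀ i, c i ≠ 0)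
    (hm : ∀ i j, c i * c j = ∑ k, (T i j k : A) * c k) (i : ι) : IsIntegral ℤ (c i) := by
  let M : Matrix ι ι ℤ := fun j k => T i j k
  have h1 : (M.map (Int.castRingHom A)).charpoly.eval (c i) = 0 := by
    rw [Matrix.eval_charpoly]
    apply Matrix.exists_mulVec_eq_zero_iff.1
    refine ⟨c, ?_, ?_⟩
    · intro h
      exact hc i (congrFun h i)
    · funext j
      rw [Matrix.sub_mulVec]
      simp only [Pi.sub_apply, Pi.zero_apply]
      have h2 : (Matrix.scalar ι (c i)).mulVec c j = c i * c j := by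
        simp [Matrix.mulVec, dotProduct, Matrix.diagonal_apply]
      have h3 : (M.map (Int.castRingHom A)).mulVec c j = c i * c j := by
        rw [hm i j]
        unfold Matrix.mulVec dotProduct
        exact Finset.sum_congr rfl fun x _ => rfl
      rw [h2, h3, sub_self]
  refine ⟨M.charpoly, M.charpoly_monic, ?_⟩
  rw [Matrix.charpoly_map, Polynomial.eval_map] at h1
  exact h1

private theorem sgn_B {T : ι → ι → ι → ℤ} {A : Type*} [Field A] [Algebra ℚ A] {c : ι → A} (hc : ∀ i, c i ≠ 0)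
    (hm : ∀ i j, c i * c j = ∑ k, (T i j k : A) * c k) :
    Algebra.IsAlgebraic ℚ (IntermediateField.adjoin ℚ (Set.range c)) := by
  have h := IntermediateField.isAlgebraic_adjoin (K := ℚ) (L := A) (S := Set.range c) (by
    rintro _ ⟨i, rfl⟩
    exact (sgn_integral hc hm i).tower_top)
  have e : (DivisionRing.toRatAlgebra : Algebra ℚ (IntermediateField.adjoin ℚ (Set.range c))) =
      (IntermediateField.adjoin ℚ (Set.range c)).algebra' := Subsingleton.elim _ _
  rw [e]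
  exact h

/-- a signed character comes from a complex one -/
private theorem sgn_emb {T : ι → ι → ι → ℤ} (R : FRing ι) {A : Type*} [Field A] [CharZero A] {c : ι → A} (hc : ∀ i, c i ≠ 0)
    (hm : ∀ i j, c i * c j = ∑ k, (T i j k : A) * c k) (hs : ∀ i, c (R.st i) = c i) :
    ∃ c' : ι → ℂ, (∀ i, c' i ≠ 0) ∧ (∀ i j, c' i * c' j = ∑ k, (T i j k : ℂ) * c' k) ∧
      (∀ i, c' (R.st i) = c' i) ∧ ∀ i (n : ℤ), c' i = (n : ℂ) → c i = (n : A) := by
  have hB := sgn_B hc hm
  let σ : IntermediateField.adjoin ℚ (Set.range c) →ₐ[ℚ] ℂ := IsAlgClosed.lift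
  let d : ι → IntermediateField.adjoin ℚ (Set.range c) := fun i =>
    ⟨c i, IntermediateField.subset_adjoin ℚ _ ⟨i, rfl⟩⟩
  refine ⟨fun i => σ (d i), fun i => ?_, fun i j => ?_, fun i => ?_, fun i n h => ?_⟩
  · intro h
    have h1 : d i = 0 := σ.toRingHom.injective (by
      rw [map_zero]
      exact h)
    exact hc i (congrArg Subtype.val h1)
  · have h1 : d i * d j = ∑ k, (T i j k : IntermediateField.adjoin ℚ (Set.range c)) * d k := by
      apply Subtype.ext
      have := hm i j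
      push_cast
      exact this
    change σ (d i) * σ (d j) = ∑ k, (T i j k : ℂ) * σ (d k)
    rw [← map_mul, h1, map_sum]
    refine Finset.sum_congr rfl fun k _ => ?_
    rw [map_mul, map_intCast]
  · have h1 : d (R.st i) = d i := Subtype.ext (hs i)
    change σ (d (R.st i)) = σ (d i)
    rw [h1]
  · have h1 : d i = (n : IntermediateField.adjoin ℚ (Set.range c)) := σ.toRingHom.injective (by
      rw [map_intCast]
      exact h)
    have h2 := congrArg (fun y : IntermediateField.adjoin ℚ (Set.range c) => (y : A)) h1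
    simpa using h2

theorem sgn (R : FRing ι) {f : ι → ℝ} (hf : R.IsFP f) (hN : R.Nil Set.univ) {T : ι → ι → ι → ℤ}
    (hT : ∀ i j k, |T i j k| ≤ (R.N i j k : ℤ)) (hT' : ∀ i j k, T i j k = T (R.st i) k j) {A : Type*} [Field A]
    [CharZero A] {c : ι → A} (hc : ∀ i, c i ≠ 0) (hm : ∀ i j, c i * c j = ∑ k, (T i j k : A) * c k)
    (hs : ∀ i, c (R.st i) = c i) :
    ∃ e : ι → ℤ, (∀ i, e i = 1 ∨ e i = -1) ∧ (∀ i, e (R.st i) = e i) ∧ ((e R.o : A) * c R.o = 1) ∧
      ∀ i j k, e i * e j * e k * T i j k = (R.N i j k : ℤ) := by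
  classical
  obtain ⟨c', hc', hm', hs', hinj⟩ := sgn_emb R hc hm hs
  have hsq := sgn_C R hf hT hT' hc' hm' hs' hN
  have hex : ∀ i, ∃ n : ℤ, (n = 1 ∨ n = -1) ∧ c' i = (n : ℂ) * (f i : ℂ) := by
    intro i
    have h1 := hsq i (Set.mem_univ i)
    rw [Complex.ofReal_pow] at h1
    rcases sq_eq_sq_iff_eq_or_eq_neg.1 h1 with h2 | h2
    · exact ⟨1, Or.inl rfl, by rw [h2, Int.cast_one, one_mul]⟩
    · exact ⟨-1, Or.inr rfl, by rw [h2, Int.cast_neg, Int.cast_one, neg_one_mul]⟩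
  choose e he1 he2 using hex
  have hf0 : ∀ i, (f i : ℂ) ≠ 0 := fun i => Complex.ofReal_ne_zero.2 (hf.pos i).ne'
  have hee : ∀ i, e i * e i = 1 := by
    intro i
    rcases he1 i with h | h <;> rw [h] <;> norm_num
  refine ⟨e, he1, fun i => ?_, ?_, ?_⟩
  · have h1 := he2 (R.st i)
    rw [hs', he2 i, fp_st R hf] at h1
    have h2 := mul_right_cancel₀ (hf0 i) h1
    exact_mod_cast h2.symm
  · have h1 : c' R.o = (e R.o : ℂ) := by
      rw [he2 R.o, fp_one R hf, Complex.ofReal_one, mul_one]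
    rw [hinj R.o (e R.o) h1]
    have h2 := hee R.o
    exact_mod_cast congrArg (fun z : ℤ => (z : A)) h2
  · intro i j
    have h1 : (f i : ℂ) * (f j : ℂ) = ∑ k, ((e i * e j * e k * T i j k : ℤ) : ℂ) * (f k : ℂ) := by
      have h2 : (f i : ℂ) * (f j : ℂ) = ((e i * e j : ℤ) : ℂ) * (c' i * c' j) := by
        rw [he2 i, he2 j]
        have h3 : ((e i * e j : ℤ) : ℂ) * ((e i : ℂ) * (f i : ℂ) * ((e j : ℂ) * (f j : ℂ))) =
            (((e i * e i) * (e j * e j) : ℤ) : ℂ) * ((f i : ℂ) * (f j : ℂ)) := by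
          push_cast
          ring
        rw [h3, hee, hee, mul_one, Int.cast_one, one_mul]
      rw [h2, hm' i j, Finset.mul_sum]
      refine Finset.sum_congr rfl fun k _ => ?_
      rw [he2 k]
      push_cast
      ring
    have h2 : ∑ k, ((e i * e j * e k * T i j k : ℤ) : ℝ) * f k = ∑ k, (R.N i j k : ℝ) * f k := by
      rw [← hf.mul i j]
      have h3 : ((∑ k, ((e i * e j * e k * T i j k : ℤ) : ℝ) * f k : ℝ) : ℂ) = ((f i * f j : ℝ) : ℂ) := by
        push_cast
        push_cast at h1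
        exact h1.symm
      exact Complex.ofReal_injective h3
    have hab : ∀ k, |e i * e j * e k * T i j k| ≤ (R.N i j k : ℤ) := by
      intro k
      have h3 : ∀ l, |e l| = 1 := by
        intro l
        rcases he1 l with h | h <;> rw [h] <;> norm_num
      rw [abs_mul, abs_mul, abs_mul, h3, h3, h3, mul_one, mul_one, one_mul]
      exact hT i j k
    have h4 : ∀ k ∈ Finset.univ, ((e i * e j * e k * T i j k : ℤ) : ℝ) * f k ≤ (R.N i j k : ℝ) * f k := by
      intro k _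
      refine mul_le_mul_of_nonneg_right ?_ (hf.pos k).le
      have h5 := (le_abs_self _).trans (hab k)
      have h6 : ((e i * e j * e k * T i j k : ℤ) : ℝ) ≤ ((R.N i j k : ℤ) : ℝ) := Int.cast_le.2 h5
      rw [Int.cast_natCast] at h6
      exact h6
    have h5 := (Finset.sum_eq_sum_iff_of_le h4).1 h2
    intro k
    have h6 := mul_right_cancel₀ (hf.pos k).ne' (h5 k (Finset.mem_univ k))
    have h7 : ((e i * e j * e k * T i j k : ℤ) : ℝ) = ((R.N i j k : ℤ) : ℝ) := by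
      rw [Int.cast_natCast]
      exact h6
    exact Int.cast_injective h7

end Pool.Agent.NFG
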