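import Pool.Agent.NFG.Td

/-!
# NFG/SpA: the trace of a semisimple category with given dimensions

`trF F δ Z f = sum_k δ k * trace (h ↦ h ≫ f on Hom (S k, Z))`.
`trF_comm`: `trace (h ↦ h ≫ f ≫ g) = trace (h ↦ h ≫ g ≫ f)` for the two compositions `Hom (S k, Z) ⇄ Hom (S k, W)` (`LinearMap.trace_comp_comm'`,
finite dimension by `fin_hom`).
`trF_rank`: `trF (g ≫ x) = trF (x ≫ g)` (`trF_comm`) and `x ≫ g = c • 𝟙 (S m)`; `trF (𝟙 (S m)) = δ m`: `Hom (S k, S m)` is `0` for `k ≠ m` and one-dimensional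
for `k = m` (`F.schur`, `F.one_ne`, `F.hom_zero`; `LinearMap.trace_one`/`trace_id` and `finrank = 1`).
`trF_one`: `𝟙_ C ≅ S o` (`trF_comm`), `δ o = 1`.
`trF_dec`: for `T : Z ⟶ Z` and dual bases (`dual_basis`): `T = sum_k sum_a T ≫ g k a ≫ b k a`; so `trF T = sum δ k * sca (b k a ≫ T ≫ g k a)`.
-/

set_option autoImplicit false

noncomputable section

open CategoryTheory MonoidalCategory

namespace Pool.Agent.NFG

universe v u w

variable {K : Type w} [Field K] {C : Type u} [Category.{v} C] [Preadditive C] [Linear K C] [MonoidalCategory C]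
  [MonoidalPreadditive C] [MonoidalLinear K C] {ι : Type} [Fintype ι] [DecidableEq ι] {O : Subring K}

def trF (F : Fus K C ι) (δ : ι → K) (Z : C) : (Z ⟶ Z) →ₗ[K] K where
  toFun f := ∑ k, δ k * LinearMap.trace K (F.S k ⟶ Z) (Linear.rightComp K (F.S k) f)
  map_add' f g := by
    rw [← Finset.sum_add_distrib]
    refine Finset.sum_congr rfl fun k _ => ?_
    rw [← mul_add, ← map_add]
    congr 2
    ext h
    exact Preadditive.comp_add _ _ _ _ _ _
  map_smul' c f := by
    rw [RingHom.id_apply, smul_eq_mul, Finset.mul_sum]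
    refine Finset.sum_congr rfl fun k _ => ?_
    have h1 : Linear.rightComp K (F.S k) (c • f) = c • Linear.rightComp K (F.S k) f := by
      ext h
      exact Linear.comp_smul _ _ _ _ _ _
    rw [h1, map_smul, smul_eq_mul]
    ring

theorem trF_comm (F : Fus K C ι) (δ : ι → K) {Z W : C} (f : Z ⟶ W) (g : W ⟶ Z) :
    trF F δ Z (f ≫ g) = trF F δ W (g ≫ f) := by
  change ∑ k, δ k * LinearMap.trace K (F.S k ⟶ Z) (Linear.rightComp K (F.S k) (f ≫ g)) =
    ∑ k, δ k * LinearMap.trace K (F.S k ⟶ W) (Linear.rightComp K (F.S k) (g ≫ f))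
  refine Finset.sum_congr rfl fun k _ => ?_
  haveI := fin_hom F Z k
  haveI := fin_hom F W k
  have h1 : Linear.rightComp K (F.S k) (f ≫ g) =
      (Linear.rightComp K (F.S k) g) ∘ₗ (Linear.rightComp K (F.S k) f) := by
    ext h
    exact (Category.assoc _ _ _).symm
  have h2 : Linear.rightComp K (F.S k) (g ≫ f) =
      (Linear.rightComp K (F.S k) f) ∘ₗ (Linear.rightComp K (F.S k) g) := by
    ext h
    exact (Category.assoc _ _ _).symm
  rw [h1, h2, LinearMap.trace_comp_comm']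

private theorem SpA_id (F : Fus K C ι) (δ : ι → K) (m : ι) : trF F δ (F.S m) (𝟙 (F.S m)) = δ m := by
  change ∑ k, δ k * LinearMap.trace K (F.S k ⟶ F.S m) (Linear.rightComp K (F.S k) (𝟙 (F.S m))) = δ m
  have h1 : ∀ k, Linear.rightComp K (F.S k) (𝟙 (F.S m)) = LinearMap.id := by
    intro k
    ext h
    exact Category.comp_id _
  rw [Finset.sum_eq_single m]
  · haveI := fin_hom F (F.S m) m
    rw [h1, LinearMap.trace_id]
    have h2 : Module.finrank K (F.S m ⟶ F.S m) = 1 := by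
      refine finrank_eq_one (𝟙 (F.S m)) (F.one_ne m) fun w => ?_
      obtain ⟨c, hc⟩ := F.schur m w
      exact ⟨c, hc.symm⟩
    rw [h2]
    simp
  · intro k _ hk
    haveI : Subsingleton (F.S k ⟶ F.S m) :=
      ⟨fun a b => by rw [F.hom_zero k m hk a, F.hom_zero k m hk b]⟩
    have h3 : Linear.rightComp K (F.S k) (𝟙 (F.S m)) = 0 := by
      ext h
      exact Subsingleton.elim _ _
    rw [h3, map_zero, mul_zero]
  · intro h
    exact absurd (Finset.mem_univ m) h

private theorem SpA_simple (F : Fus K C ι) (δ : ι → K) (m : ι) (f : F.S m ⟶ F.S m) :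
    trF F δ (F.S m) f = δ m * sca K f := by
  have h := sca_spec (smp_S F m) f
  have h2 : trF F δ (F.S m) f = trF F δ (F.S m) (sca K f • 𝟙 (F.S m)) := by rw [← h]
  rw [h2, map_smul, SpA_id, smul_eq_mul, mul_comm]

theorem trF_rank (F : Fus K C ι) (δ : ι → K) {Z : C} {m : ι} (g : Z ⟶ F.S m) (x : F.S m ⟶ Z) :
    trF F δ Z (g ≫ x) = δ m * sca K (x ≫ g) := by
  rw [trF_comm, SpA_simple]

theorem trF_one (F : Fus K C ι) (δ : ι → K) (h : δ F.o = 1) : trF F δ (𝟙_ C) (𝟙 (𝟙_ C)) = 1 := by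
  have h1 : 𝟙 (𝟙_ C) = F.u.inv ≫ F.u.hom := by simp
  rw [h1, trF_comm]
  have h2 : F.u.hom ≫ F.u.inv = 𝟙 (F.S F.o) := by simp
  rw [h2, SpA_id, h]

theorem trF_simple (F : Fus K C ι) (δ : ι → K) (m : ι) (f : F.S m ⟶ F.S m) : trF F δ (F.S m) f = δ m * sca K f :=
  SpA_simple F δ m f

end Pool.Agent.NFG
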