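import Pool.Agent.NFG.SpA
import Pool.Agent.NFG.RoA

/-!
# NFG/SpB: partial traces

`hR` is the relation `δ j * L(y, x) = δ k * sca (x ≫ y)` for all `i, j, k`.
`trF_left`: first `W = S j`.  `T : S i ⊗ S j ⟶ S i ⊗ S j`; with dual bases `b, g` of `S i ⊗ S j` (`dual_basis`, `fin_hom`): `T = sum (T ≫ g k a) ≫ b k a`, both
sides are linear in `T`, so let `T = y ≫ x`, `y : S i ⊗ S j ⟶ S k`, `x : S k ⟶ S i ⊗ S j`: `trF T = δ k * sca (x ≫ y)` (`trF_rank`) and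
`trF (lpt T) = δ j * sca (lpt (y ≫ x)) = δ j * L(y, x)` (`trF_simple`, `lpt_eq`).
General `W`: dual bases of `W`: `𝟙 W = sum g ≫ b`; `T = sum T ≫ (S i ◁ (g ≫ b))`, so let `T = T' ≫ (S i ◁ b)`, `T' : S i ⊗ W ⟶ S i ⊗ S m`, `b : S m ⟶ W`:
`trF (T' ≫ (S i ◁ b)) = trF ((S i ◁ b) ≫ T')` (`trF_comm`) `= trF (S m) (lpt ((S i ◁ b) ≫ T')) = trF (b ≫ lpt T') = trF (lpt T' ≫ b) = trF (lpt (T' ≫ (S i ◁ b)))`
(`lpt_comp_left`, `lpt_comp_right`).
`trF_right`: in the same way; for `W = S j`: `T = y ≫ x : S j ⊗ S (st i) ⟶ S j ⊗ S (st i)`; by `lr` for `tA = D.td j`, `tB = (D.td i).swap` (whose loops are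
`δ i`, and `δ (st i) = δ i`): `δ i * sca (lpt (cv' j) (ev j) T) = δ j * sca (rpt (cv' i) (ev i) T)`; with `hR` for `(j, st i, k)`:
`δ (st i) * sca (lpt T) = δ k * sca (x ≫ y)`.  For general `W` use `rpt ((b ▷ S (st i)) ≫ T') = b ≫ rpt T'`, `rpt (T' ≫ (b ▷ _)) = rpt T' ≫ b` (naturality).
-/

set_option autoImplicit false

noncomputable section

open CategoryTheory MonoidalCategory

namespace Pool.Agent.NFG

universe v u w

variable {K : Type w} [Field K] {C : Type u} [Category.{v} C] [Preadditive C] [Linear K C] [MonoidalCategory C]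
  [MonoidalPreadditive C] [MonoidalLinear K C] {ι : Type} [Fintype ι] [DecidableEq ι] {O : Subring K}

private theorem SpB_rpt_left {A B W W' V : C} (c : 𝟙_ C ⟶ B ⊗ A) (e : B ⊗ A ⟶ 𝟙_ C) (t : V ⟶ W) (T : W ⊗ B ⟶ W' ⊗ B) :
    rpt c e ((t ▷ B) ≫ T) = t ≫ rpt c e T := by
  simp only [rpt]
  rw [comp_whiskerRight, Category.assoc, ← associator_inv_naturality_left_assoc, whisker_exchange_assoc,
    ← rightUnitor_inv_naturality_assoc]

private theorem SpB_rpt_right {A B W W' V : C} (c : 𝟙_ C ⟶ B ⊗ A) (e : B ⊗ A ⟶ 𝟙_ C) (T : W ⊗ B ⟶ W' ⊗ B)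
    (t : W' ⟶ V) : rpt c e (T ≫ (t ▷ B)) = rpt c e T ≫ t := by
  simp only [rpt]
  rw [comp_whiskerRight]
  simp only [Category.assoc]
  rw [associator_naturality_left_assoc, ← whisker_exchange_assoc, rightUnitor_naturality]

private theorem SpB_lpt_sum {A B W W' : C} (c : 𝟙_ C ⟶ B ⊗ A) (e : B ⊗ A ⟶ 𝟙_ C) {J : Type} [Fintype J]
    (T : J → (A ⊗ W ⟶ A ⊗ W')) : lpt c e (∑ a, T a) = ∑ a, lpt c e (T a) := by
  simp only [lpt]
  rw [whiskerLeft_sum, Preadditive.sum_comp, Preadditive.comp_sum]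

private theorem SpB_left {F : Fus K C ι} (D : Du F) {δ : ι → K}
    (hR : ∀ i j k (x : F.S k ⟶ F.S i ⊗ F.S j) (y : F.S i ⊗ F.S j ⟶ F.S k),
      δ j * sca K (fl (D.td i).cv' y ≫ sh (D.td i).ev x) = δ k * sca K (x ≫ y)) (i j : ι)
    (T : F.S i ⊗ F.S j ⟶ F.S i ⊗ F.S j) : trF F δ _ T = trF F δ (F.S j) (lpt (D.td i).cv' (D.td i).ev T) := by
  obtain ⟨n, k, p, q, h1, h2, h3⟩ := F.dec (F.S i ⊗ F.S j)
  have h4 : T = ∑ a, (T ≫ p a) ≫ q a := by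
    conv_lhs => rw [← Category.comp_id T, ← h3, Preadditive.comp_sum]
    refine Finset.sum_congr rfl fun a _ => ?_
    rw [Category.assoc]
  rw [h4, SpB_lpt_sum, map_sum, map_sum]
  refine Finset.sum_congr rfl fun a _ => ?_
  rw [trF_rank, trF_simple, lpt_eq, hR]

private theorem SpB_gl (F : Fus K C ι) (δ : ι → K) {W : C} (U : W ⟶ W) {n : ℕ} {k : Fin n → ι}
    (p : ∀ a, W ⟶ F.S (k a)) (q : ∀ a, F.S (k a) ⟶ W) (h3 : ∑ a, p a ≫ q a = 𝟙 W) :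
    ∑ a, trF F δ (F.S (k a)) (q a ≫ U ≫ p a) = trF F δ W U := by
  have h4 : U = ∑ a, (U ≫ p a) ≫ q a := by
    conv_lhs => rw [← Category.comp_id U, ← h3, Preadditive.comp_sum]
    refine Finset.sum_congr rfl fun a _ => ?_
    rw [Category.assoc]
  conv_rhs => rw [h4]
  rw [map_sum]
  refine Finset.sum_congr rfl fun a _ => ?_
  rw [trF_comm]

theorem trF_left {F : Fus K C ι} (D : Du F) {δ : ι → K} (hb : ∀ i, (D.td i).Bal (δ i))
    (hR : ∀ i j k (x : F.S k ⟶ F.S i ⊗ F.S j) (y : F.S i ⊗ F.S j ⟶ F.S k),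
      δ j * sca K (fl (D.td i).cv' y ≫ sh (D.td i).ev x) = δ k * sca K (x ≫ y)) (i : ι) (W : C)
    (T : F.S i ⊗ W ⟶ F.S i ⊗ W) : trF F δ _ T = trF F δ W (lpt (D.td i).cv' (D.td i).ev T) := by
  obtain ⟨n, k, p, q, h1, h2, h3⟩ := F.dec W
  rw [← SpB_gl F δ (lpt (D.td i).cv' (D.td i).ev T) p q h3]
  have h4 : T = ∑ a, (T ≫ (F.S i ◁ p a)) ≫ (F.S i ◁ q a) := by
    have h5 : F.S i ◁ (𝟙 W) = ∑ a, (F.S i ◁ p a) ≫ (F.S i ◁ q a) := by
      rw [← h3, whiskerLeft_sum]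
      refine Finset.sum_congr rfl fun a _ => ?_
      rw [MonoidalCategory.whiskerLeft_comp]
    conv_lhs => rw [← Category.comp_id T, ← whiskerLeft_id, h5, Preadditive.comp_sum]
    refine Finset.sum_congr rfl fun a _ => ?_
    rw [Category.assoc]
  conv_lhs => rw [h4]
  rw [map_sum]
  refine Finset.sum_congr rfl fun a _ => ?_
  rw [trF_comm, SpB_left D hR, lpt_comp_left, lpt_comp_right]

theorem trF_right {F : Fus K C ι} (D : Du F) {δ : ι → K} (hδ : ∀ i, δ i ≠ 0) (hb : ∀ i, (D.td i).Bal (δ i))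
    (hs : ∀ i, δ (D.st i) = δ i)
    (hR : ∀ i j k (x : F.S k ⟶ F.S i ⊗ F.S j) (y : F.S i ⊗ F.S j ⟶ F.S k),
      δ j * sca K (fl (D.td i).cv' y ≫ sh (D.td i).ev x) = δ k * sca K (x ≫ y)) (i : ι) (W : C)
    (T : W ⊗ F.S (D.st i) ⟶ W ⊗ F.S (D.st i)) : trF F δ _ T = trF F δ W (rpt (D.td i).cv' (D.td i).ev T) := by
  have hS : ∀ (j : ι) (T : F.S j ⊗ F.S (D.st i) ⟶ F.S j ⊗ F.S (D.st i)),
      trF F δ _ T = trF F δ (F.S j) (rpt (D.td i).cv' (D.td i).ev T) := by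
    intro j T
    rw [trF_left D hb hR j, trF_simple, trF_simple, hs]
    exact lr (D.td j) (D.td i).swap (hb j) (hb i).swap (smp_one F) (smp_S F j) (smp_S F (D.st i)) T
  obtain ⟨n, k, p, q, h1, h2, h3⟩ := F.dec W
  rw [← SpB_gl F δ (rpt (D.td i).cv' (D.td i).ev T) p q h3]
  have h4 : T = ∑ a, (T ≫ (p a ▷ F.S (D.st i))) ≫ (q a ▷ F.S (D.st i)) := by
    have h5 : (𝟙 W) ▷ F.S (D.st i) = ∑ a, (p a ▷ F.S (D.st i)) ≫ (q a ▷ F.S (D.st i)) := by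
      rw [← h3, sum_whiskerRight]
      refine Finset.sum_congr rfl fun a _ => ?_
      rw [comp_whiskerRight]
    conv_lhs => rw [← Category.comp_id T, ← id_whiskerRight, h5, Preadditive.comp_sum]
    refine Finset.sum_congr rfl fun a _ => ?_
    rw [Category.assoc]
  conv_lhs => rw [h4]
  rw [map_sum]
  refine Finset.sum_congr rfl fun a _ => ?_
  rw [trF_comm, hS, SpB_rpt_left, SpB_rpt_right]

end Pool.Agent.NFG
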