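import Pool.Agent.NFG.SpB
import Pool.Agent.NFG.RoH
import Pool.Agent.NFG.DuM
import Pool.Agent.NFG.Sgn
import Pool.Agent.NFG.FinFP

/-!
# NFG/SpC: existence of the spherical structure on a nilpotent fusion category

`sph_of`: the fields `st`, `cv`, ... are those of `D`, `tr = trF F δ`; `tr_comm`, `tr_one`, `tr_left`, `tr_right` are `trF_comm`, `trF_one`, `trF_left`,
`trF_right`.

`exists_sph`: `du_bal` gives `D'`, `δ` (`D'.st = D.st`), `du_T` gives `T`; `sgn` for `dring D` (the hypothesis `hT'` for `(dring D).st = D.st = D'.st`), `c = δ`: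
signs `e i`.  Rescale `D'.td i` by `e i` (`TD.scale`, `TD.Bal.scale`: loops `e i * δ i`): `D''`, `δ'' i = e i * δ i`, `δ'' (st i) = δ'' i`,
`δ'' o = 1`.  For `i j k`: `T i j k = (e i * e j * e k) * mult i j k` (multiply the relation of `sgn` by the signs), so by the last part of `du_T`
`δ j * L(y, x) = (e i * e j * e k) * δ k * sca (x ≫ y)`; the new `L''` is `e i * L` (`cv'` is scaled by `e i`: `fl_smul`-type lemma `fl (c • cv') y = c • fl cv' y`),
so `δ'' j * L'' = e j * e i * δ j * L = (e i e j)^2 * e k * δ k * sca (x ≫ y) = δ'' k * sca (x ≫ y)`.  Then `sph_of`.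
-/

set_option autoImplicit false

noncomputable section

open CategoryTheory MonoidalCategory

namespace Pool.Agent.NFG

universe v u w

variable {K : Type w} [Field K] {C : Type u} [Category.{v} C] [Preadditive C] [Linear K C] [MonoidalCategory C]
  [MonoidalPreadditive C] [MonoidalLinear K C] {ι : Type} [Fintype ι] [DecidableEq ι] {O : Subring K}

theorem sph_of {F : Fus K C ι} (D : Du F) {δ : ι → K} (hδ : ∀ i, δ i ≠ 0) (hb : ∀ i, (D.td i).Bal (δ i))
    (hs : ∀ i, δ (D.st i) = δ i) (ho : δ F.o = 1)
    (hR : ∀ i j k (x : F.S k ⟶ F.S i ⊗ F.S j) (y : F.S i ⊗ F.S j ⟶ F.S k),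
      δ j * sca K (fl (D.td i).cv' y ≫ sh (D.td i).ev x) = δ k * sca K (x ≫ y)) :
    ∃ sp : Sph F, sp.st = D.st := by
  exact ⟨{ st := D.st
           cv := fun i => (D.td i).cv
           ev := fun i => (D.td i).ev
           cv' := fun i => (D.td i).cv'
           ev' := fun i => (D.td i).ev'
           zig := fun i => (D.td i).zig
           zag := fun i => (D.td i).zag
           zig' := fun i => (D.td i).zig'
           zag' := fun i => (D.td i).zag'
           tr := trF F δ
           tr_comm := fun _ _ f g => trF_comm F δ f g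
           tr_one := trF_one F δ ho
           tr_left := trF_left D hb hR
           tr_right := trF_right D hδ hb hs hR }, rfl⟩

private theorem SpC_fl_smul {A B B' V : C} (r : K) (c : 𝟙_ C ⟶ B ⊗ B') (g : B' ⊗ A ⟶ V) :
    fl (r • c) g = r • fl c g := by
  simp only [fl, ins, hat, MonoidalLinear.smul_whiskerRight, Linear.smul_comp, Linear.comp_smul]

theorem exists_sph [IsAlgClosed K] [CharZero K] {F : Fus K C ι} (D : Du F) (hN : (dring D).Nil Set.univ) {f : ι → ℝ}
    (hf : IsFPdim F f) : ∃ sp : Sph F, sp.st = D.st := by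
  obtain ⟨D', δ, hst, hδ, hb, hs⟩ := du_bal D
  obtain ⟨T, hT, hT', hm, hrel⟩ := du_T D' hδ hb hs
  have hfp : (dring D).IsFP f := ⟨hf.1, hf.2⟩
  rw [hst] at hT' hs
  obtain ⟨e, he, hes, heo, heT⟩ := sgn (dring D) hfp hN (T := T) hT hT' hδ hm hs
  change ∀ i, e (D.st i) = e i at hes
  change (e F.o : K) * δ F.o = 1 at heo
  change ∀ i j k, e i * e j * e k * T i j k = (F.mult i j k : ℤ) at heT
  have hee : ∀ i, e i * e i = 1 := by
    intro i
    rcases he i with h | h <;> rw [h] <;> norm_num
  have heK : ∀ i, (e i : K) * (e i : K) = 1 := by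
    intro i
    exact_mod_cast congrArg (fun z : ℤ => (z : K)) (hee i)
  have he0 : ∀ i, (e i : K) ≠ 0 := by
    intro i h
    have h1 := heK i
    rw [h, zero_mul] at h1
    exact zero_ne_one h1
  obtain ⟨sp, hsp⟩ := sph_of (F := F) ⟨D'.st, fun i => (D'.td i).scale (e i : K) (he0 i)⟩
    (δ := fun i => (e i : K) * δ i) (fun i => mul_ne_zero (he0 i) (hδ i))
    (fun i => (hb i).scale (e i : K) (he0 i) (heK i))
    (by
      intro i
      change (e (D'.st i) : K) * δ (D'.st i) = (e i : K) * δ i
      rw [hst, hes, hs]) heo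
    (by
      intro i j k x y
      change (e j : K) * δ j * sca K (fl ((e i : K) • (D'.td i).cv') y ≫ sh (D'.td i).ev x) =
        (e k : K) * δ k * sca K (x ≫ y)
      rw [SpC_fl_smul, Linear.smul_comp, sca_smul (smp_S F j)]
      have hE : e i * e j * e k = 1 ∨ e i * e j * e k = -1 := by
        rcases he i with h1 | h1 <;> rcases he j with h2 | h2 <;> rcases he k with h3 | h3 <;> rw [h1, h2, h3] <;>
          norm_num
      have hTE : T i j k = (e i * e j * e k) * (F.mult i j k : ℤ) := by
        rw [← heT i j k]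
        linear_combination (-(T i j k)) * (e j * e j * (e k * e k)) * hee i - T i j k * (e k * e k) * hee j -
          T i j k * hee k
      have h1 := hrel i j k (e i * e j * e k) hE hTE x y
      push_cast at h1
      linear_combination (e i : K) * (e j : K) * h1 + (e j : K) * (e j : K) * (e k : K) * δ k * sca K (x ≫ y) * heK i +
        (e k : K) * δ k * sca K (x ≫ y) * heK j)
  exact ⟨sp, hsp.trans hst⟩

end Pool.Agent.NFG
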