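import Pool.Agent.NFG.StA

/-!
# NFG/StB: generation of stable systems, and associativity for dual lattices

`gen_pair`: `hA.conn` gives `y ∈ E` with `Occ y a₀ a`; `exists_pair` for the lattice `L y a₀ a`.
`gen`: `ν ≫ hat x W ∈ N1 L y a₀ n m = N2 L y (n a₀) m` (`mem_N1`, `stab_eq`); `ν ≫ hat x W ≫ hab b W = ν ≫ ((x ≫ b) ▷ W) = ν`.
`dl_assoc`: let `w ∈ L k a₀ a'`.  `w ≫ hat x (S a₀) ∈ N1 L y' y (fun k => L k a₀) a' = N2 L y' (L y a₀) a'` (`assoc`), then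
`≫ (S y' ◁ b) ∈ L y' a a'` by `N2_dl`, and `≫ b'` is a multiple of `𝟙` by a scalar in `O`.
-/

set_option autoImplicit false

noncomputable section

open CategoryTheory MonoidalCategory

namespace Pool.Agent.NFG

universe v u w

variable {K : Type w} [Field K] {C : Type u} [Category.{v} C] [Preadditive C] [Linear K C] [MonoidalCategory C]
  [MonoidalPreadditive C] [MonoidalLinear K C] {ι : Type} [Fintype ι] [DecidableEq ι] {O : Subring K}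

theorem gen_pair {F : Fus K C ι} {sp : Sph F} {E A : Set ι} {L : F.Sys O} (h : Ctx sp O E L) (hA : IsOrb sp E A)
    {a₀ a : ι} (ha₀ : a₀ ∈ A) (ha : a ∈ A) :
    ∃ y ∈ E, ∃ x ∈ L y a₀ a, ∃ b ∈ F.dl (L y a₀ a), x ≫ b = 𝟙 (F.S a) := by
  obtain ⟨y, hy, hocc⟩ := hA.conn a₀ ha₀ a ha
  obtain ⟨x, hx, b, hb, hxb⟩ := exists_pair F (h.int.lat y hy a₀ a) hocc
  exact ⟨y, hy, x, hx, b, hb, hxb⟩

theorem gen {F : Fus K C ι} {sp : Sph F} {E A : Set ι} {L : F.Sys O} (h : Ctx sp O E L) (hA : IsOrb sp E A)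
    {W : C} {n : ∀ a : ι, F.Fam O (F.S a ⊗ W)} (hn : Stab F E L A n) {a₀ a : ι} (ha₀ : a₀ ∈ A) (ha : a ∈ A) {y : ι}
    (hy : y ∈ E) {x : F.S a ⟶ F.S y ⊗ F.S a₀} (hx : x ∈ L y a₀ a) {b : F.S y ⊗ F.S a₀ ⟶ F.S a}
    (hxb : x ≫ b = 𝟙 (F.S a)) {m : ι} {f : F.S m ⟶ F.S a ⊗ W} (hf : f ∈ n a m) :
    f ≫ hat x W ∈ F.N2 L y (n a₀) m ∧ (f ≫ hat x W) ≫ hab b W = f := by
  refine ⟨?_, ?_⟩
  · rw [← stab_eq h hA.act hn hy ha₀]
    exact mem_N1 hx hf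
  · rw [Category.assoc, hat_hab, hxb, MonoidalCategory.id_whiskerRight, Category.comp_id]

theorem dl_assoc {F : Fus K C ι} {sp : Sph F} {E : Set ι} {L : F.Sys O} (h : Ctx sp O E L) {y' y : ι} (hy' : y' ∈ E)
    (hy : y ∈ E) {k a₀ a a' : ι} {x : F.S k ⟶ F.S y' ⊗ F.S y} (hx : x ∈ L y' y k) {b : F.S y ⊗ F.S a₀ ⟶ F.S a}
    (hb : b ∈ F.dl (L y a₀ a)) {b' : F.S y' ⊗ F.S a ⟶ F.S a'} (hb' : b' ∈ F.dl (L y' a a')) :
    hat x (F.S a₀) ≫ (F.S y' ◁ b) ≫ b' ∈ F.dl (L k a₀ a') := by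
  intro w hw
  have h1 : w ≫ hat x (F.S a₀) ∈ F.N1 L y' y (fun k => L k a₀) a' := mem_N1 hx hw
  rw [h.int.assoc y' hy' y hy a₀] at h1
  have h2 := N2_dl h1 hb
  obtain ⟨c, hc, h3⟩ := hb' _ h2
  refine ⟨c, hc, ?_⟩
  rw [← h3]
  simp only [Category.assoc]

end Pool.Agent.NFG
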