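import Pool.Agent.NFG.Defs

/-!
# NFG/Stm: the definitions used in the final statement

Everything is stated with plain sets of morphisms.
-/

set_option autoImplicit false

noncomputable section

open CategoryTheory MonoidalCategory

namespace Pool.Agent.NFG

universe v u w

/-- `L` is the `O`-span of a finite `K`-basis of `M`. -/
def IsLt {K : Type w} [Field K] (O : Subring K) {M : Type*} [AddCommGroup M] [Module K M] (L : Set M) : Prop :=
  ∃ (n : ℕ) (b : Module.Basis (Fin n) K M), L = {x | ∀ a, b.repr x a ∈ O}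

/-- the `O`-multiples of `e` -/
def mulO {K : Type w} [Field K] (O : Subring K) {M : Type*} [AddCommGroup M] [Module K M] (e : M) : Set M :=
  {f | ∃ c ∈ O, f = c • e}

/-- the multiple `c L` of the set `L` -/
def smS {K : Type w} [Field K] {M : Type*} [AddCommGroup M] [Module K M] (c : K) (L : Set M) : Set M :=
  {x | ∃ y ∈ L, x = c • y}

variable {K : Type w} [Field K] {C : Type u} [Category.{v} C] [Preadditive C] [Linear K C] [MonoidalCategory C]
  {ι : Type} [Fintype ι] [DecidableEq ι]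

/-- the fusion subcategory `E'` is graded by the group `Q`, faithfully, with trivial component `E` -/
def Fus.Grd (F : Fus K C ι) (E E' : Set ι) (Q : Type) [Group Q] (deg : ι → Q) : Prop :=
  F.o ∈ E' ∧ (∀ a ∈ E', ∀ b ∈ E', ∀ c, F.Occ a b c → c ∈ E' ∧ deg c = deg a * deg b) ∧
    (∀ a, a ∈ E ↔ a ∈ E' ∧ deg a = 1) ∧ ∀ q : Q, ∃ a ∈ E', deg a = q

/-- the fusion subcategory `E` is nilpotent: obtained from the trivial fusion subcategory by finitely many extensions by
finite groups -/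
inductive Fus.Nlp (F : Fus K C ι) : Set ι → Prop
  | vec : Fus.Nlp F {F.o}
  | ext (E E' : Set ι) (Q : Type) (_ : Group Q) (_ : Fintype Q) (deg : ι → Q) (h : Fus.Nlp F E)
      (hg : F.Grd E E' Q deg) : Fus.Nlp F E'

/-- systems of subsets of the spaces `Hom (S k, S i ⊗ S j)` -/
abbrev Fus.Sy (F : Fus K C ι) := ∀ i j k : ι, Set (F.S k ⟶ F.S i ⊗ F.S j)

/-- the dual of a subset `L` of `Hom (S m, Z)` -/
def Fus.dual (F : Fus K C ι) (O : Subring K) {m : ι} {Z : C} (L : Set (F.S m ⟶ Z)) : Set (Z ⟶ F.S m) :=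
  {g | ∀ f ∈ L, ∃ c ∈ O, f ≫ g = c • 𝟙 (F.S m)}

/-- the sums of the composites `S m ⟶ S k ⊗ S v ⟶ (S i ⊗ S j) ⊗ S v ⟶ S i ⊗ (S j ⊗ S v)` with factors in `L` -/
def Fus.R1 (F : Fus K C ι) (L : F.Sy) (i j v m : ι) : AddSubgroup (F.S m ⟶ F.S i ⊗ (F.S j ⊗ F.S v)) :=
  AddSubgroup.closure {h | ∃ k, ∃ x ∈ L i j k, ∃ f ∈ L k v m, h = f ≫ (x ▷ F.S v) ≫ (α_ _ _ _).hom}

/-- the sums of the composites `S m ⟶ S i ⊗ S k ⟶ S i ⊗ (S j ⊗ S v)` with factors in `L` -/
def Fus.R2 (F : Fus K C ι) (L : F.Sy) (i j v m : ι) : AddSubgroup (F.S m ⟶ F.S i ⊗ (F.S j ⊗ F.S v)) :=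
  AddSubgroup.closure {h | ∃ k, ∃ x ∈ L j v k, ∃ f ∈ L i k m, h = f ≫ (F.S i ◁ x)}

/-- `S j` is a right dual of `S i` over `O` -/
def Fus.DualOver (F : Fus K C ι) (O : Subring K) (L : F.Sy) (i j : ι) : Prop :=
  ∃ e : ExactPairing (F.S i) (F.S j), F.u.hom ≫ e.coevaluation' ∈ L i j F.o ∧
    e.evaluation' ≫ F.u.inv ∈ F.dual O (L j i F.o)

/-- all `L i j k` are `O`-lattices -/
def Fus.LatOk (F : Fus K C ι) (O : Subring K) (L : F.Sy) : Prop := ∀ i j k, IsLt O (L i j k)

/-- the unit isomorphisms are defined over `O` -/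
def Fus.UnitOk (F : Fus K C ι) (O : Subring K) (L : F.Sy) : Prop :=
  ∀ v, L F.o v v = mulO O (F.lam v) ∧ L v F.o v = mulO O (F.rho v)

/-- the associativity isomorphisms are defined over `O` -/
def Fus.AssocOk (F : Fus K C ι) (L : F.Sy) : Prop := ∀ i j v m, F.R1 L i j v m = F.R2 L i j v m

/-- the simple objects have left and right duals over `O` -/
def Fus.RigidOk (F : Fus K C ι) (O : Subring K) (L : F.Sy) : Prop :=
  (∀ i, ∃ j, F.DualOver O L i j) ∧ ∀ i, ∃ j, F.DualOver O L j i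

/-- An `O`-form of the fusion category `C`: `O`-lattices `L i j k` in `Hom (S k, S i ⊗ S j)` such that the unit
isomorphisms, the associativity isomorphisms and the left and right duals of the simple objects are defined over `O`. -/
def Fus.IsForm (F : Fus K C ι) (O : Subring K) (L : F.Sy) : Prop :=
  F.LatOk O L ∧ F.UnitOk O L ∧ F.AssocOk L ∧ F.RigidOk O L

end Pool.Agent.NFG
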