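import Pool.Agent.NFG.Stm
import Pool.Agent.NFG.LatB
import Pool.Agent.NFG.Nl

/-!
# NFG/StmA: sets and submodules

`isLt_iff`: for `L : Submodule O M`: `IsLat O L` iff `IsLt O (L : Set M)`: for a `K`-basis `b`, `span O (range b) = {x | all coordinates in O}` (`⊆`
by `Submodule.span_induction`, `⊇` by `b.sum_repr`).
`isLt_sub`: a set with `IsLt` is (the carrier of) a submodule with `IsLat`.
`span_one`: `span O {e}` as a set is `mulO O e` (`Submodule.mem_span_singleton`).
`dl_eq`: `F.dl L` as a set is `F.dual O L`: by definition.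
`N1_eq`: for `L : F.Sys O`, `L' i j k = (L i j k : Set _)`: `N1 L i j (fun k => L k v) m` is generated as an `O`-module by a set which is closed under
multiplication by elements of `O` (multiply `f`), so it is its additive closure: `x ∈ N1 .. ↔ x ∈ F.R1 L' i j v m` (`Submodule.span_induction`,
`AddSubgroup.closure_induction`; `hat x W = (x ▷ W) ≫ α.hom` by definition).  `N2_eq` in the same way.
-/

set_option autoImplicit false

noncomputable section

open CategoryTheory MonoidalCategory

namespace Pool.Agent.NFG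

universe v u w

variable {K : Type w} [Field K] {C : Type u} [Category.{v} C] [Preadditive C] [Linear K C] [MonoidalCategory C]
  [MonoidalPreadditive C] [MonoidalLinear K C] {ι : Type} [Fintype ι] [DecidableEq ι] {O : Subring K}

private theorem StmA_basis {M : Type*} [AddCommGroup M] [Module K M] {n : ℕ} (b : Module.Basis (Fin n) K M) :
    ((Submodule.span O (Set.range b) : Submodule O M) : Set M) = {x | ∀ a, b.repr x a ∈ O} := by
  ext x
  constructor
  · intro hx
    have hx' : x ∈ Submodule.span O (Set.range b) := hx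
    show ∀ a, b.repr x a ∈ O
    clear hx
    induction hx' using Submodule.span_induction with
    | mem x hx =>
      obtain ⟨i, rfl⟩ := hx
      intro a
      rw [b.repr_self, Finsupp.single_apply]
      split_ifs
      · exact O.one_mem
      · exact O.zero_mem
    | zero =>
      intro a
      rw [map_zero]
      exact O.zero_mem
    | add x y _ _ h1 h2 =>
      intro a
      rw [map_add]
      exact O.add_mem (h1 a) (h2 a)
    | smul c x _ h1 =>
      intro a
      have h2 : (c • x : M) = (c : K) • x := rfl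
      rw [h2, map_smul]
      exact O.mul_mem c.2 (h1 a)
  · intro hx
    have hx' : ∀ a, b.repr x a ∈ O := hx
    show x ∈ Submodule.span O (Set.range b)
    rw [← b.sum_repr x]
    refine Submodule.sum_mem _ fun i _ => ?_
    exact Submodule.smul_mem _ (⟨b.repr x i, hx' i⟩ : O) (Submodule.subset_span ⟨i, rfl⟩)

theorem isLt_iff {M : Type*} [AddCommGroup M] [Module K M] (L : Submodule O M) : IsLat O L ↔ IsLt O (L : Set M) := by
  constructor
  · rintro ⟨n, b, rfl⟩
    exact ⟨n, b, StmA_basis b⟩
  · rintro ⟨n, b, h⟩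
    exact ⟨n, b, SetLike.coe_injective (h.trans (StmA_basis b).symm)⟩

theorem isLt_sub {M : Type*} [AddCommGroup M] [Module K M] {L : Set M} (h : IsLt O L) :
    ∃ L' : Submodule O M, (L' : Set M) = L ∧ IsLat O L' := by
  obtain ⟨n, b, h⟩ := h
  exact ⟨Submodule.span O (Set.range b), (StmA_basis b).trans h.symm, n, b, rfl⟩

theorem span_one {M : Type*} [AddCommGroup M] [Module K M] (e : M) :
    ((Submodule.span O {e} : Submodule O M) : Set M) = mulO O e := by
  ext x
  constructor
  · intro hx
    obtain ⟨c, hc⟩ := Submodule.mem_span_singleton.1 hx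
    exact ⟨c, c.2, hc.symm⟩
  · rintro ⟨c, hc, rfl⟩
    exact Submodule.mem_span_singleton.2 ⟨⟨c, hc⟩, rfl⟩

theorem dl_eq (F : Fus K C ι) {m : ι} {Z : C} (L : Submodule O (F.S m ⟶ Z)) :
    (F.dl L : Set (Z ⟶ F.S m)) = F.dual O (L : Set (F.S m ⟶ Z)) := rfl

private theorem StmA_closure {M : Type*} [AddCommGroup M] [Module K M] (s : Set M)
    (hs : ∀ c ∈ O, ∀ x ∈ s, c • x ∈ s) :
    ((Submodule.span O s : Submodule O M) : Set M) = (AddSubgroup.closure s : Set M) := by
  have hc : ∀ c ∈ O, ∀ x ∈ AddSubgroup.closure s, c • x ∈ AddSubgroup.closure s := by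
    intro c hc x hx
    induction hx using AddSubgroup.closure_induction with
    | mem x hx => exact AddSubgroup.subset_closure (hs c hc x hx)
    | zero =>
      rw [smul_zero]
      exact zero_mem _
    | add x y _ _ h1 h2 =>
      rw [smul_add]
      exact add_mem h1 h2
    | neg x _ h1 =>
      rw [smul_neg]
      exact neg_mem h1
  apply Set.Subset.antisymm
  · intro x hx
    have hx' : x ∈ Submodule.span O s := hx
    show x ∈ AddSubgroup.closure s
    clear hx
    induction hx' using Submodule.span_induction with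
    | mem x hx => exact AddSubgroup.subset_closure hx
    | zero => exact zero_mem _
    | add x y _ _ h1 h2 => exact add_mem h1 h2
    | smul c x _ h1 => exact hc c c.2 x h1
  · intro x hx
    have hx' : x ∈ AddSubgroup.closure s := hx
    show x ∈ Submodule.span O s
    clear hx
    induction hx' using AddSubgroup.closure_induction with
    | mem x hx => exact Submodule.subset_span hx
    | zero => exact zero_mem _
    | add x y _ _ h1 h2 => exact add_mem h1 h2
    | neg x _ h1 => exact neg_mem h1

private theorem StmA_smul {A B : C} {L : Submodule O (A ⟶ B)} {c : K} (hc : c ∈ O) {h : A ⟶ B} (hh : h ∈ L) :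
    c • h ∈ L := L.smul_mem ⟨c, hc⟩ hh

theorem N1_eq (F : Fus K C ι) (L : F.Sys O) (i j v m : ι) :
    (F.N1 L i j (fun k => L k v) m : Set (F.S m ⟶ F.S i ⊗ (F.S j ⊗ F.S v))) =
      F.R1 (fun i j k => (L i j k : Set _)) i j v m := by
  rw [Fus.N1, StmA_closure]
  · refine congrArg (fun s => ((AddSubgroup.closure s : AddSubgroup (F.S m ⟶ F.S i ⊗ (F.S j ⊗ F.S v))) :
      Set (F.S m ⟶ F.S i ⊗ (F.S j ⊗ F.S v)))) ?_
    ext h
    constructor
    · rintro ⟨a, x, f, hx, hf, rfl⟩
      exact ⟨a, x, hx, f, hf, rfl⟩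
    · rintro ⟨a, x, hx, f, hf, rfl⟩
      exact ⟨a, x, f, hx, hf, rfl⟩
  · rintro c hc _ ⟨a, x, f, hx, hf, rfl⟩
    exact ⟨a, x, c • f, hx, StmA_smul hc hf, (Linear.smul_comp _ _ _ _ _ _).symm⟩

theorem N2_eq (F : Fus K C ι) (L : F.Sys O) (i j v m : ι) :
    (F.N2 L i (L j v) m : Set (F.S m ⟶ F.S i ⊗ (F.S j ⊗ F.S v))) =
      F.R2 (fun i j k => (L i j k : Set _)) i j v m := by
  rw [Fus.N2, StmA_closure]
  · refine congrArg (fun s => ((AddSubgroup.closure s : AddSubgroup (F.S m ⟶ F.S i ⊗ (F.S j ⊗ F.S v))) :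
      Set (F.S m ⟶ F.S i ⊗ (F.S j ⊗ F.S v)))) ?_
    ext h
    constructor
    · rintro ⟨a, z, f, hz, hf, rfl⟩
      exact ⟨a, f, hf, z, hz, rfl⟩
    · rintro ⟨a, x, hx, f, hf, rfl⟩
      exact ⟨a, f, x, hf, hx, rfl⟩
  · rintro c hc _ ⟨a, z, f, hz, hf, rfl⟩
    exact ⟨a, c • z, f, StmA_smul hc hz, hf, (Linear.smul_comp _ _ _ _ _ _).symm⟩

theorem scl_eq {M : Type*} [AddCommGroup M] [Module K M] (c : K) (L : Submodule O M) :
    (scl c L : Set M) = smS c (L : Set M) := rfl

end Pool.Agent.NFG
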