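import Pool.Agent.NFG.Mul

/-!
# NFG/Td: two-sided duals, scalars, bending on the right (definitions and simple facts)

`TD A A'`: `A'` is a left and a right dual of `A`.  `sca K f` is the scalar of an endomorphism of a simple object.
`sh`, `fl` bend the left strand (`HatB`), `shR`, `flR` bend the right strand.
-/

set_option autoImplicit false

noncomputable section

open CategoryTheory MonoidalCategory

namespace Pool.Agent.NFG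

universe v u w

section

variable {C : Type u} [Category.{v} C] [MonoidalCategory C]

/-- `A'` is a two-sided dual of `A`. -/
structure TD (A A' : C) where
  cv : 𝟙_ C ⟶ A ⊗ A'
  ev : A' ⊗ A ⟶ 𝟙_ C
  cv' : 𝟙_ C ⟶ A' ⊗ A
  ev' : A ⊗ A' ⟶ 𝟙_ C
  zig : A' ◁ cv ≫ (α_ _ _ _).inv ≫ ev ▷ A' = (ρ_ _).hom ≫ (λ_ _).inv
  zag : cv ▷ A ≫ (α_ _ _ _).hom ≫ A ◁ ev = (λ_ _).hom ≫ (ρ_ _).inv
  zig' : A ◁ cv' ≫ (α_ _ _ _).inv ≫ ev' ▷ A = (ρ_ _).hom ≫ (λ_ _).inv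
  zag' : cv' ▷ A' ≫ (α_ _ _ _).hom ≫ A' ◁ ev' = (λ_ _).hom ≫ (ρ_ _).inv

def TD.swap {A A' : C} (t : TD A A') : TD A' A := ⟨t.cv', t.ev', t.cv, t.ev, t.zig', t.zag', t.zig, t.zag⟩

/-- `Hom (A, V ⊗ B) ⟶ Hom (A ⊗ B', V)` -/
def shR {A B B' V : C} (e : B ⊗ B' ⟶ 𝟙_ C) (f : A ⟶ V ⊗ B) : A ⊗ B' ⟶ V :=
  (f ▷ B') ≫ (α_ V B B').hom ≫ (V ◁ e) ≫ (ρ_ V).hom

/-- `Hom (A ⊗ B', V) ⟶ Hom (A, V ⊗ B)` -/
def flR {A B B' V : C} (c : 𝟙_ C ⟶ B' ⊗ B) (g : A ⊗ B' ⟶ V) : A ⟶ V ⊗ B :=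
  (ρ_ A).inv ≫ (A ◁ c) ≫ (α_ A B' B).inv ≫ (g ▷ B)

theorem flR_shR {A V B B' : C} (c : 𝟙_ C ⟶ B' ⊗ B) (e : B ⊗ B' ⟶ 𝟙_ C)
    (zig : B ◁ c ≫ (α_ _ _ _).inv ≫ e ▷ B = (ρ_ _).hom ≫ (λ_ _).inv) (f : A ⟶ V ⊗ B) : flR c (shR e f) = f := by
  unfold flR shR
  have h1 : (ρ_ A).inv ≫ (A ◁ c) ≫ (α_ A B' B).inv ≫
      (((f ▷ B') ≫ (α_ V B B').hom ≫ (V ◁ e) ≫ (ρ_ V).hom) ▷ B) =
      (ρ_ A).inv ≫ ((A ◁ c) ≫ (f ▷ (B' ⊗ B))) ≫ (α_ V B (B' ⊗ B)).hom ≫ (V ◁ (α_ B B' B).inv) ≫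
        (V ◁ (e ▷ B)) ≫ (V ◁ (λ_ B).hom) := by
    monoidal
  have h2 : (ρ_ A).inv ≫ ((f ▷ 𝟙_ C) ≫ ((V ⊗ B) ◁ c)) ≫ (α_ V B (B' ⊗ B)).hom ≫ (V ◁ (α_ B B' B).inv) ≫
        (V ◁ (e ▷ B)) ≫ (V ◁ (λ_ B).hom) =
      f ≫ (V ◁ (ρ_ B).inv) ≫ (V ◁ (B ◁ c ≫ (α_ _ _ _).inv ≫ e ▷ B)) ≫ (V ◁ (λ_ B).hom) := by
    monoidal
  rw [h1, whisker_exchange, h2, zig]
  simp

theorem shR_flR {A V B B' : C} (c : 𝟙_ C ⟶ B' ⊗ B) (e : B ⊗ B' ⟶ 𝟙_ C)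
    (zag : c ▷ B' ≫ (α_ _ _ _).hom ≫ B' ◁ e = (λ_ _).hom ≫ (ρ_ _).inv) (g : A ⊗ B' ⟶ V) : shR e (flR c g) = g := by
  unfold flR shR
  have h1 : (((ρ_ A).inv ≫ (A ◁ c) ≫ (α_ A B' B).inv ≫ (g ▷ B)) ▷ B') ≫ (α_ V B B').hom ≫ (V ◁ e) ≫
      (ρ_ V).hom = (A ◁ (λ_ B').inv) ≫ (A ◁ (c ▷ B')) ≫ (A ◁ (α_ B' B B').hom) ≫ (α_ A B' (B ⊗ B')).inv ≫
        ((g ▷ (B ⊗ B')) ≫ (V ◁ e)) ≫ (ρ_ V).hom := by
    monoidal
  have h2 : (A ◁ (λ_ B').inv) ≫ (A ◁ (c ▷ B')) ≫ (A ◁ (α_ B' B B').hom) ≫ (α_ A B' (B ⊗ B')).inv ≫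
        (((A ⊗ B') ◁ e) ≫ (g ▷ 𝟙_ C)) ≫ (ρ_ V).hom =
      (A ◁ (λ_ B').inv) ≫ (A ◁ (c ▷ B' ≫ (α_ _ _ _).hom ≫ B' ◁ e)) ≫ (A ◁ (ρ_ B').hom) ≫ g := by
    monoidal
  rw [h1, ← whisker_exchange, h2, zag]
  simp

theorem lpt_eq {A B W W' Z : C} (c : 𝟙_ C ⟶ B ⊗ A) (e : B ⊗ A ⟶ 𝟙_ C) (g : A ⊗ W ⟶ Z) (x : Z ⟶ A ⊗ W') :
    lpt c e (g ≫ x) = fl c g ≫ sh e x := by
  simp only [lpt, fl, sh, MonoidalCategory.whiskerLeft_comp, Category.assoc]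

theorem rpt_eq {A B W W' Z : C} (c : 𝟙_ C ⟶ B ⊗ A) (e : B ⊗ A ⟶ 𝟙_ C) (g : W ⊗ B ⟶ Z) (x : Z ⟶ W' ⊗ B) :
    rpt c e (g ≫ x) = flR c g ≫ shR e x := by
  simp only [rpt, flR, shR, MonoidalCategory.comp_whiskerRight, Category.assoc]

end

section

variable {K : Type w} [Field K] {C : Type u} [Category.{v} C] [Preadditive C] [Linear K C]

/-- `A` is a simple object. -/
def Smp (K : Type w) [Field K] {C : Type u} [Category.{v} C] [Preadditive C] [Linear K C] (A : C) : Prop :=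
  𝟙 A ≠ 0 ∧ ∀ f : A ⟶ A, ∃ c : K, f = c • 𝟙 A

open Classical in
/-- the scalar of an endomorphism -/
def sca (K : Type w) [Field K] {C : Type u} [Category.{v} C] [Preadditive C] [Linear K C] {A : C} (f : A ⟶ A) : K :=
  if h : ∃ c : K, f = c • 𝟙 A then h.choose else 0

theorem sca_spec {A : C} (h : Smp K A) (f : A ⟶ A) : f = sca K f • 𝟙 A := by
  have h1 := h.2 f
  unfold sca
  rw [dif_pos h1]
  exact h1.choose_spec

theorem smp_inj {A : C} (h : Smp K A) {c c' : K} (h1 : c • 𝟙 A = c' • 𝟙 A) : c = c' := by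
  have h2 : (c - c') • 𝟙 A = 0 := by rw [sub_smul, h1, sub_self]
  rcases smul_eq_zero.1 h2 with h3 | h3
  · exact sub_eq_zero.1 h3
  · exact absurd h3 h.1

theorem sca_eq {A : C} (h : Smp K A) {f : A ⟶ A} {c : K} (hf : f = c • 𝟙 A) : sca K f = c := by
  apply smp_inj h
  rw [← sca_spec h, hf]

theorem sca_add {A : C} (h : Smp K A) (f g : A ⟶ A) : sca K (f + g) = sca K f + sca K g := by
  apply sca_eq h
  rw [add_smul, ← sca_spec h, ← sca_spec h]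

theorem sca_smul {A : C} (h : Smp K A) (c : K) (f : A ⟶ A) : sca K (c • f) = c * sca K f := by
  apply sca_eq h
  rw [mul_smul, ← sca_spec h]

theorem sca_zero {A : C} (h : Smp K A) : sca K (0 : A ⟶ A) = 0 := by
  apply sca_eq h
  rw [zero_smul]

theorem sca_id {A : C} (h : Smp K A) : sca K (𝟙 A) = 1 := by
  apply sca_eq h
  rw [one_smul]

theorem sca_sum {A : C} (h : Smp K A) {κ : Type*} (s : Finset κ) (f : κ → (A ⟶ A)) :
    sca K (∑ a ∈ s, f a) = ∑ a ∈ s, sca K (f a) := by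
  classical
  induction s using Finset.induction_on with
  | empty => rw [Finset.sum_empty, Finset.sum_empty, sca_zero h]
  | insert a s ha ih => rw [Finset.sum_insert ha, Finset.sum_insert ha, sca_add h, ih]

end

section

variable {K : Type w} [Field K] {C : Type u} [Category.{v} C] [Preadditive C] [Linear K C] [MonoidalCategory C]
  [MonoidalPreadditive C] [MonoidalLinear K C] {ι : Type} [Fintype ι] [DecidableEq ι]

theorem shR_add {A B B' V : C} (e : B ⊗ B' ⟶ 𝟙_ C) (f g : A ⟶ V ⊗ B) : shR e (f + g) = shR e f + shR e g := by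
  simp only [shR, MonoidalPreadditive.add_whiskerRight, Preadditive.add_comp]

theorem shR_smul {A B B' V : C} (e : B ⊗ B' ⟶ 𝟙_ C) (c : K) (f : A ⟶ V ⊗ B) : shR e (c • f) = c • shR e f := by
  simp only [shR, MonoidalLinear.smul_whiskerRight, Linear.smul_comp]

theorem flR_add {A B B' V : C} (c : 𝟙_ C ⟶ B' ⊗ B) (f g : A ⊗ B' ⟶ V) : flR c (f + g) = flR c f + flR c g := by
  simp only [flR, MonoidalPreadditive.add_whiskerRight, Preadditive.comp_add]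

theorem flR_smul {A B B' V : C} (c : 𝟙_ C ⟶ B' ⊗ B) (r : K) (f : A ⊗ B' ⟶ V) : flR c (r • f) = r • flR c f := by
  simp only [flR, MonoidalLinear.smul_whiskerRight, Linear.comp_smul]

theorem fl_add' {A B B' V : C} (c : 𝟙_ C ⟶ B ⊗ B') (f g : B' ⊗ A ⟶ V) : fl c (f + g) = fl c f + fl c g := by
  simp only [fl, MonoidalPreadditive.whiskerLeft_add, Preadditive.comp_add]

theorem fl_smul' {A B B' V : C} (c : 𝟙_ C ⟶ B ⊗ B') (r : K) (f : B' ⊗ A ⟶ V) : fl c (r • f) = r • fl c f := by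
  simp only [fl, MonoidalLinear.whiskerLeft_smul, Linear.comp_smul]

/-- rescaling of the second pairing -/
def TD.scale {A A' : C} (t : TD A A') (c : K) (hc : c ≠ 0) : TD A A' where
  cv := t.cv
  ev := t.ev
  cv' := c • t.cv'
  ev' := c⁻¹ • t.ev'
  zig := t.zig
  zag := t.zag
  zig' := by
    rw [MonoidalLinear.whiskerLeft_smul, MonoidalLinear.smul_whiskerRight, Linear.smul_comp, Linear.comp_smul,
      Linear.comp_smul, smul_smul, mul_inv_cancel₀ hc, one_smul, t.zig']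
  zag' := by
    rw [MonoidalLinear.whiskerLeft_smul, MonoidalLinear.smul_whiskerRight, Linear.smul_comp, Linear.comp_smul,
      Linear.comp_smul, smul_smul, mul_inv_cancel₀ hc, one_smul, t.zag']

/-- both loops are `d` -/
def TD.Bal {A A' : C} (t : TD A A') (d : K) : Prop := t.cv' ≫ t.ev = d • 𝟙 (𝟙_ C) ∧ t.cv ≫ t.ev' = d • 𝟙 (𝟙_ C)

theorem TD.Bal.swap {A A' : C} {t : TD A A'} {d : K} (h : t.Bal d) : t.swap.Bal d := ⟨h.2, h.1⟩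

theorem TD.Bal.scale {A A' : C} {t : TD A A'} {d : K} (h : t.Bal d) (c : K) (hc : c ≠ 0) (hc2 : c * c = 1) :
    (t.scale c hc).Bal (c * d) := by
  constructor
  · change (c • t.cv') ≫ t.ev = _
    rw [Linear.smul_comp, h.1, smul_smul]
  · change t.cv ≫ (c⁻¹ • t.ev') = _
    have h2 : c⁻¹ = c := inv_eq_of_mul_eq_one_right hc2
    rw [Linear.comp_smul, h.2, smul_smul, h2]

/-- two-sided duals of the simple objects -/
structure Du (F : Fus K C ι) where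
  st : ι → ι
  td : ∀ i, TD (F.S i) (F.S (st i))

theorem smp_S (F : Fus K C ι) (i : ι) : Smp K (F.S i) := ⟨F.one_ne i, F.schur i⟩

theorem smp_one (F : Fus K C ι) : Smp K (𝟙_ C) := by
  constructor
  · intro h
    apply F.one_ne F.o
    have h1 : 𝟙 (F.S F.o) = F.u.hom ≫ 𝟙 (𝟙_ C) ≫ F.u.inv := by simp
    rw [h1, h, Limits.zero_comp, Limits.comp_zero]
  · intro f
    exact unit_scalar F f

end

end Pool.Agent.NFG
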