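import Pool.Agent.NFG.Gau

/-!
# NFG/Uq1: two `E'`-forms which agree on `E`

`exists_t`: for `q : Q` and `v : ι` apply `uni` (with `L` as reference; `Pre` for `L` gives `hst`) to `n := fun a => L' a v` on
`cmp E' deg q`: it is stable with respect to `L'` (`pre_of_int`), so with respect to `L` by `stab_congr`.  This gives
`t q v ≠ 0` with `L' a v m = scl (t q v) (L a v m)` for `a ∈ E'`, `deg a = q`.  For `q = 1` put `t 1 v = 1` (`L' a = L a` for
`a ∈ E = cmp E' deg 1`).

`t_rel`: let `b ∈ E'`, `Occ b v w`, `q : Q`.  Choose `a ∈ E'` with `deg a = q`, and `m` with `Occ a w m`.  With `q' = deg b`: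
`N1 L' a b (fun k => L' k v) = scl (t q b * t (q * q') v) (N1 L a b (fun k => L k v))` (`N1_scl`; `deg k = q * q'` for `Occ a b k`)
`= scl (..) (N2 L a (L b v))`, and it is `N2 L' a (L' b v)`.
Choose `x ∈ L b v w`, `g ∈ dl (L b v w)` with `x ≫ g = 𝟙`, and `z ∈ L a w m`, `z' ∈ dl (L a w m)` with `z ≫ z' = 𝟙`.
(i) `z ≫ (S a ◁ x) ∈ N2 L a (L b v) m`, so `(t q b * t (q q') v) • (z ≫ (S a ◁ x)) ∈ N2 L' a (L' b v) m`; by `N2_dl` with
`(t q' v)⁻¹ • g ∈ dl (L' b v w)` (`dl_scl`): `(t q b * t (q q') v * (t q' v)⁻¹) • z ∈ L' a w m = scl (t q w) (L a w m)`; compose with `z'`: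
`t q b * t (q q') v / (t q' v * t q w) ∈ O`.
(ii) in the same way `(t q w • z) ≫ (S a ◁ (t q' v • x)) ∈ N2 L' a (L' b v) m = scl (t q b * t (q q') v) (N2 L a (L b v) m)`, `N2_dl` with
`g`: the inverse is in `O`.
-/

set_option autoImplicit false

noncomputable section

open CategoryTheory MonoidalCategory

namespace Pool.Agent.NFG

universe v u w

variable {K : Type w} [Field K] {C : Type u} [Category.{v} C] [Preadditive C] [Linear K C] [MonoidalCategory C]
  [MonoidalPreadditive C] [MonoidalLinear K C] {ι : Type} [Fintype ι] [DecidableEq ι] {O : Subring K}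

private theorem comp_whisker_smul' {A Y B D : C} (z : A ⟶ Y ⊗ B) (c : K) (f : B ⟶ D) :
    z ≫ (Y ◁ (c • f)) = c • (z ≫ (Y ◁ f)) := by
  rw [MonoidalLinear.whiskerLeft_smul, Linear.comp_smul]

theorem exists_t {F : Fus K C ι} {sp : Sph F} (hO : Val O) (hd : ∀ i, IsU O (sp.d i)) {E E' : Set ι} {Q : Type}
    [Group Q] {deg : ι → Q} (hg : IsGr sp E E' Q deg) {L L' : F.Sys O} (hL : LInt F O E' L) (hL' : LInt F O E' L')
    (he : ∀ y ∈ E, L' y = L y) :
    ∃ t : Q → ι → K, (∀ q v, t q v ≠ 0) ∧ (∀ v, t 1 v = 1) ∧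
      ∀ a ∈ E', ∀ v m, L' a v m = scl (t (deg a) v) (L a v m) := by
  classical
  have hd0 : ∀ i, sp.d i ≠ 0 := fun i => (hd i).1
  have hP := pre_of_int hO hd hg hL
  have hP' := pre_of_int hO hd hg hL'
  have hn : ∀ (q : Q) (v : ι), Stab F E L (cmp E' deg q) (fun a => L' a v) := fun q v =>
    stab_congr (L := L') (L' := L) (fun y hy => (he y hy).symm) (n := fun a => L' a v) (n' := fun a => L' a v)
      (fun a _ => rfl) (hP'.st q v)
  have hex : ∀ (q : Q) (v : ι), ∃ t : K, t ≠ 0 ∧ ∀ a ∈ cmp E' deg q, ∀ m, L' a v m = scl t (L a v m) := fun q v =>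
    uni hP.ctx (gr_orb hd0 hg q) (fun v => hP.st q v) (hn q v)
  choose t ht0 ht using hex
  refine ⟨fun q v => if q = 1 then 1 else t q v, ?_, ?_, ?_⟩
  · intro q v
    dsimp only
    split_ifs with hq
    · exact one_ne_zero
    · exact ht0 q v
  · intro v
    dsimp only
    rw [if_pos rfl]
  · intro a ha v m
    dsimp only
    split_ifs with hq
    · rw [scl_one, he a ((hg.ker a).2 ⟨ha, hq⟩)]
    · exact ht (deg a) v a ⟨ha, rfl⟩ m

theorem t_rel {F : Fus K C ι} {sp : Sph F} (hO : Val O) (hd : ∀ i, IsU O (sp.d i)) {E E' : Set ι} {Q : Type}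
    [Group Q] {deg : ι → Q} (hg : IsGr sp E E' Q deg) {L L' : F.Sys O} (hL : LInt F O E' L) (hL' : LInt F O E' L')
    {t : Q → ι → K} (ht : ∀ q v, t q v ≠ 0) (h : ∀ a ∈ E', ∀ v m, L' a v m = scl (t (deg a) v) (L a v m))
    {b v w : ι} (hb : b ∈ E') (ho : F.Occ b v w) (q : Q) :
    IsU O (t q b * t (q * deg b) v / (t (deg b) v * t q w)) := by
  have hd0 : ∀ i, sp.d i ≠ 0 := fun i => (hd i).1
  obtain ⟨a, ha, hq⟩ := hg.surj q
  obtain ⟨m, hm⟩ := exists_occ sp hd0 a w
  obtain ⟨x, hx, g, hgx, hxg⟩ := exists_pair F (hL.lat b hb v w) ho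
  obtain ⟨z, hz, z', hz', hzz⟩ := exists_pair F (hL.lat a ha w m) hm
  set r : K := t q b * t (q * deg b) v with hr
  have hr0 : r ≠ 0 := mul_ne_zero (ht _ _) (ht _ _)
  have hN1 : F.N1 L' a b (fun k => L' k v) m = scl r (F.N1 L a b (fun k => L k v) m) := by
    refine N1_scl (L := L) (L' := L') (s := fun _ => t q b) (t := fun _ => t (q * deg b) v) hr0 (fun _ => ht _ _)
      (fun _ => ht _ _) ?_ ?_ ?_
    · intro a'
      have h1 := h a ha b a'
      rw [hq] at h1
      exact h1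
    · intro a' hoc
      have h1 := h a' (hg.sub.mul a ha b hb a' hoc) v m
      rw [hg.mul a ha b hb a' hoc, hq] at h1
      exact h1
    · intro a' _
      rw [← hr, div_self hr0]
      exact isU_one
  have key : F.N2 L' a (L' b v) m = scl r (F.N2 L a (L b v) m) := by
    rw [← hL'.assoc a ha b hb v, ← hL.assoc a ha b hb v]
    exact hN1
  have hLb : L' b v w = scl (t (deg b) v) (L b v w) := h b hb v w
  have hLa : L' a w m = scl (t q w) (L a w m) := by
    have h1 := h a ha w m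
    rw [hq] at h1
    exact h1
  have hs0 : t (deg b) v * t q w ≠ 0 := mul_ne_zero (ht _ _) (ht _ _)
  have hinj : ∀ c c' : K, c • 𝟙 (F.S m) = c' • 𝟙 (F.S m) → c = c' := by
    intro c c' hcc
    by_contra hne
    have h1 : (c - c') • 𝟙 (F.S m) = 0 := by rw [sub_smul, hcc, sub_self]
    have h2 := smul_eq_zero.1 h1
    rcases h2 with h2 | h2
    · exact hne (sub_eq_zero.1 h2)
    · exact F.one_ne m h2
  refine ⟨div_ne_zero hr0 hs0, ?_, ?_⟩
  · -- (i)
    have h1 : r • (z ≫ (F.S a ◁ x)) ∈ F.N2 L' a (L' b v) m := by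
      rw [key]
      exact smul_mem_scl r (mem_N2 hz hx)
    have h2 : (t (deg b) v)⁻¹ • g ∈ F.dl (L' b v w) := by
      rw [hLb, dl_scl F _ (ht _ _)]
      exact smul_mem_scl _ hgx
    have h3 := N2_dl h1 h2
    have h4 : (r • (z ≫ (F.S a ◁ x))) ≫ (F.S a ◁ ((t (deg b) v)⁻¹ • g)) = (r * (t (deg b) v)⁻¹) • z := by
      rw [comp_whisker_smul', Linear.smul_comp, Category.assoc, ← MonoidalCategory.whiskerLeft_comp, hxg,
        MonoidalCategory.whiskerLeft_id, Category.comp_id, smul_smul, mul_comm]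
    rw [h4, hLa] at h3
    obtain ⟨z1, hz1, h5⟩ := h3
    obtain ⟨c, hc, hzc⟩ := hz' z1 hz1
    have h6 : (r * (t (deg b) v)⁻¹) • 𝟙 (F.S m) = (t q w * c) • 𝟙 (F.S m) := by
      rw [← hzz, ← Linear.smul_comp, h5, Linear.smul_comp, hzc, hzz, smul_smul]
    have h7 := hinj _ _ h6
    have h8 : r / (t (deg b) v * t q w) = c := by
      have := ht (deg b) v
      have := ht q w
      field_simp
      field_simp at h7
      rw [h7]
    rw [h8]
    exact hc
  · -- (ii)
    have h1 : (t q w • z) ≫ (F.S a ◁ (t (deg b) v • x)) ∈ F.N2 L' a (L' b v) m := by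
      refine mem_N2 ?_ ?_
      · rw [hLa]; exact smul_mem_scl _ hz
      · rw [hLb]; exact smul_mem_scl _ hx
    rw [key] at h1
    obtain ⟨y, hy, h2⟩ := h1
    have h3 := N2_dl hy hgx
    obtain ⟨c, hc, hyc⟩ := hz' _ h3
    have h4 : (t (deg b) v * t q w) • z = r • (y ≫ (F.S a ◁ g)) := by
      rw [← Linear.smul_comp, ← h2, comp_whisker_smul', Linear.smul_comp, Linear.smul_comp, Linear.smul_comp,
        Category.assoc, ← MonoidalCategory.whiskerLeft_comp, hxg, MonoidalCategory.whiskerLeft_id, Category.comp_id,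
        smul_smul]
    have h5 : (t (deg b) v * t q w) • 𝟙 (F.S m) = (r * c) • 𝟙 (F.S m) := by
      rw [← smul_smul r c, ← hyc, ← Linear.smul_comp, ← h4, Linear.smul_comp, hzz]
    have h6 := hinj _ _ h5
    have h7 : (r / (t (deg b) v * t q w))⁻¹ = c := by
      rw [inv_div, h6]
      field_simp
    rw [h7]
    exact hc

end Pool.Agent.NFG
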